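import Mathlib

open MeasureTheory Filter Topology
open scoped ENNReal

namespace Pool.Agent.Helper239.ApDefs

section Segal

variable {G : Type*} [Group G] [TopologicalSpace G] [IsTopologicalGroup G]
  [MeasurableSpace G] [BorelSpace G] (μ : Measure G) [μ.IsMulLeftInvariant]

/-- Left translation on `L¹(G)`: `(L_x f)(y) = f (x⁻¹ y)`. -/
noncomputable def lt (x : G) (f : Lp ℂ 1 μ) : Lp ℂ 1 μ :=
  Lp.compMeasurePreserving (fun y : G => x⁻¹ * y) (measurePreserving_mul_left μ x⁻¹) f

/-- Convolution on `L¹(G)`: `f * g = ∫ f(y) L_y g dμ(y)`, a Bochner integral in `L¹(G)`. -/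
noncomputable def conv (f g : Lp ℂ 1 μ) : Lp ℂ 1 μ :=
  ∫ y, (f y) • lt μ y g ∂μ

/-- `ι : A → L¹(G)` exhibits the Banach algebra `A` as a Segal algebra on `G`: `ι` is injective (so
`A` is a linear subspace of `L¹(G)` with its own norm), `A` is complete, `‖f‖₁ ≤ ‖f‖_A`, the product
of `A` is convolution, `A` is a dense left ideal, and left translation is isometric on `A` and
continuous in the `A`-norm. -/
structure IsSegalAlgebra (A : Type*) [NonUnitalNormedRing A] [NormedSpace ℂ A]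
    (ι : A →ₗ[ℂ] Lp ℂ 1 μ) : Prop where
  injective : Function.Injective ι
  complete : CompleteSpace A
  norm_le : ∀ a, ‖ι a‖ ≤ ‖a‖
  map_mul : ∀ a b, ι (a * b) = conv μ (ι a) (ι b)
  dense : DenseRange ι
  ideal : ∀ (f : Lp ℂ 1 μ) (a : A), conv μ f (ι a) ∈ Set.range ι
  translate : ∀ (x : G) (a : A), ∃ b : A, ι b = lt μ x (ι a) ∧ ‖b‖ = ‖a‖
  continuous_translate : ∀ (a : A) (T : G → A), (∀ x, ι (T x) = lt μ x (ι a)) → Continuous T

end Segal

section ApproxAmenable

universe v w

/-- A Banach `A`-bimodule structure on the Banach space `X`: bounded bilinear maps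
`l a x = a · x` and `r a x = x · a` satisfying the bimodule laws. -/
structure BanachBimodule (A : Type v) (X : Type w) [NonUnitalNormedRing A] [NormedSpace ℂ A]
    [NormedAddCommGroup X] [NormedSpace ℂ X] where
  l : A →L[ℂ] X →L[ℂ] X
  r : A →L[ℂ] X →L[ℂ] X
  mul_l : ∀ a b x, l (a * b) x = l a (l b x)
  mul_r : ∀ a b x, r (a * b) x = r b (r a x)
  l_r : ∀ a b x, l a (r b x) = r b (l a x)

variable {A : Type v} {X : Type w} [NonUnitalNormedRing A] [NormedSpace ℂ A]
    [NormedAddCommGroup X] [NormedSpace ℂ X]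

/-- Left action on the dual `X*`: `(a · φ)(x) = φ(x · a)`. -/
noncomputable def BanachBimodule.dualL (M : BanachBimodule A X) (a : A) (φ : X →L[ℂ] ℂ) :
    X →L[ℂ] ℂ := φ.comp (M.r a)

/-- Right action on the dual `X*`: `(φ · a)(x) = φ(a · x)`. -/
noncomputable def BanachBimodule.dualR (M : BanachBimodule A X) (a : A) (φ : X →L[ℂ] ℂ) :
    X →L[ℂ] ℂ := φ.comp (M.l a)

/-- A bounded derivation `D : A → X*`. -/
def IsDerivation (M : BanachBimodule A X) (D : A →L[ℂ] (X →L[ℂ] ℂ)) : Prop :=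
  ∀ a b, D (a * b) = M.dualL a (D b) + M.dualR b (D a)

/-- `A` is approximately amenable: for every Banach `A`-bimodule `X`, every bounded derivation
`D : A → X*` is the limit in norm, pointwise on `A`, of a net of inner derivations
`a ↦ a · ξ_i - ξ_i · a`, `ξ_i ∈ X*`. -/
def IsApproxAmenable (A : Type v) [NonUnitalNormedRing A] [NormedSpace ℂ A] : Prop :=
  ∀ (X : Type w) [NormedAddCommGroup X] [NormedSpace ℂ X] [CompleteSpace X]
    (M : BanachBimodule A X) (D : A →L[ℂ] (X →L[ℂ] ℂ)), IsDerivation M D →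
    ∃ (I : Type v) (_ : Preorder I) (_ : IsDirected I (· ≤ ·)) (_ : Nonempty I)
      (ξ : I → (X →L[ℂ] ℂ)), ∀ a : A,
      Tendsto (fun i => M.dualL a (ξ i) - M.dualR a (ξ i)) atTop (𝓝 (D a))

end ApproxAmenable

end Pool.Agent.Helper239.ApDefs
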