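import Mathlib
import Pool.Agent.Helper239.ApDefs

open MeasureTheory Filter Topology
open scoped ENNReal

namespace Pool.Agent.Helper239.ApA

open Pool.Agent.Helper239.ApDefs

universe v w

section

variable {A : Type v} {X : Type w} [NonUnitalNormedRing A] [NormedSpace ℂ A]
    [NormedAddCommGroup X] [NormedSpace ℂ X]

theorem approx_of_finite (A : Type v) [NonUnitalNormedRing A] [NormedSpace ℂ A]
    (h : ∀ (X : Type w) [NormedAddCommGroup X] [NormedSpace ℂ X] [CompleteSpace X]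
      (M : BanachBimodule A X) (D : A →L[ℂ] (X →L[ℂ] ℂ)), IsDerivation M D →
      ∀ (F : Finset A) (ε : ℝ), 0 < ε → ∃ ξ : X →L[ℂ] ℂ, ∀ a ∈ F,
        ‖M.dualL a ξ - M.dualR a ξ - D a‖ ≤ ε) :
    IsApproxAmenable.{v, w} A := by
  classical
  intro X _ _ _ M D hD
  choose ξ hξ using fun (i : Finset A × ℕ) => h X M D hD i.1 (1 / ((i.2 : ℝ) + 1)) (by positivity)
  refine ⟨Finset A × ℕ, inferInstance, inferInstance, inferInstance, ξ, fun a => ?_⟩
  rw [Metric.tendsto_atTop]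
  intro ε hε
  obtain ⟨n, hn⟩ := exists_nat_one_div_lt hε
  refine ⟨({a}, n), fun i hi => ?_⟩
  have h1 : a ∈ i.1 := hi.1 (Finset.mem_singleton_self a)
  have h2 := hξ i a h1
  rw [dist_eq_norm]
  refine h2.trans_lt (lt_of_le_of_lt ?_ hn)
  have h3 : n ≤ i.2 := hi.2
  have h4 : (n : ℝ) ≤ i.2 := by exact_mod_cast h3
  exact one_div_le_one_div_of_le (by positivity) (by linarith)

variable (M : BanachBimodule A X) (D : A →L[ℂ] (X →L[ℂ] ℂ))

/-- `M.dualL` as a continuous linear map in the functional. -/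
noncomputable def dL (a : A) : (X →L[ℂ] ℂ) →L[ℂ] (X →L[ℂ] ℂ) :=
  (ContinuousLinearMap.compL ℂ X X ℂ).flip (M.r a)

noncomputable def dR (a : A) : (X →L[ℂ] ℂ) →L[ℂ] (X →L[ℂ] ℂ) :=
  (ContinuousLinearMap.compL ℂ X X ℂ).flip (M.l a)

theorem dL_apply (a : A) (φ : X →L[ℂ] ℂ) : dL M a φ = M.dualL a φ := rfl
theorem dR_apply (a : A) (φ : X →L[ℂ] ℂ) : dR M a φ = M.dualR a φ := rfl

/-- bound of the module actions -/
noncomputable def kap : ℝ := ‖M.l‖ + ‖M.r‖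

theorem kap_nonneg : 0 ≤ kap M := add_nonneg (norm_nonneg M.l) (norm_nonneg M.r)

theorem norm_dL_le (a : A) (φ : X →L[ℂ] ℂ) : ‖dL M a φ‖ ≤ kap M * ‖a‖ * ‖φ‖ := by
  change ‖φ.comp (M.r a)‖ ≤ _
  calc ‖φ.comp (M.r a)‖ ≤ ‖φ‖ * ‖M.r a‖ := φ.opNorm_comp_le _
    _ ≤ ‖φ‖ * (‖M.r‖ * ‖a‖) := by gcongr; exact M.r.le_opNorm a
    _ ≤ ‖φ‖ * (kap M * ‖a‖) := by
        gcongr; unfold kap; linarith [norm_nonneg M.l]
    _ = _ := by ring

theorem norm_dR_le (a : A) (φ : X →L[ℂ] ℂ) : ‖dR M a φ‖ ≤ kap M * ‖a‖ * ‖φ‖ := by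
  change ‖φ.comp (M.l a)‖ ≤ _
  calc ‖φ.comp (M.l a)‖ ≤ ‖φ‖ * ‖M.l a‖ := φ.opNorm_comp_le _
    _ ≤ ‖φ‖ * (‖M.l‖ * ‖a‖) := by gcongr; exact M.l.le_opNorm a
    _ ≤ ‖φ‖ * (kap M * ‖a‖) := by
        gcongr; unfold kap; linarith [norm_nonneg M.r]
    _ = _ := by ring

theorem dL_add (a b : A) (φ : X →L[ℂ] ℂ) : dL M (a + b) φ = dL M a φ + dL M b φ := by
  ext x; simp [dL]

theorem dL_sub (a b : A) (φ : X →L[ℂ] ℂ) : dL M (a - b) φ = dL M a φ - dL M b φ := by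
  ext x; simp [dL]

theorem dL_smul (c : ℂ) (a : A) (φ : X →L[ℂ] ℂ) : dL M (c • a) φ = c • dL M a φ := by
  ext x; simp [dL]

theorem dL_mul (a b : A) (φ : X →L[ℂ] ℂ) : dL M (a * b) φ = dL M a (dL M b φ) := by
  ext x
  change φ (M.r (a * b) x) = φ (M.r b (M.r a x))
  rw [M.mul_r]

theorem dR_mul (a b : A) (φ : X →L[ℂ] ℂ) : dR M (a * b) φ = dR M b (dR M a φ) := by
  ext x
  change φ (M.l (a * b) x) = φ (M.l a (M.l b x))
  rw [M.mul_l]

theorem dL_dR (a b : A) (φ : X →L[ℂ] ℂ) : dL M a (dR M b φ) = dR M b (dL M a φ) := by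
  ext x
  change φ (M.l b (M.r a x)) = φ (M.r a (M.l b x))
  rw [M.l_r]

/-- `dL` is a continuous bilinear map. -/
noncomputable def dLL : A →L[ℂ] (X →L[ℂ] ℂ) →L[ℂ] (X →L[ℂ] ℂ) :=
  ((ContinuousLinearMap.compL ℂ X X ℂ).flip).comp M.r

theorem dLL_apply (a : A) (φ : X →L[ℂ] ℂ) : dLL M a φ = dL M a φ := rfl

variable {M D}

theorem der (hD : IsDerivation M D) (a b : A) : D (a * b) = dL M a (D b) + dR M b (D a) :=
  hD a b

theorem der' (hD : IsDerivation M D) (a b : A) : dR M b (D a) = D (a * b) - dL M a (D b) := by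
  rw [der hD]; abel

/-- The algebraic identity behind the construction. -/
theorem main_identity (hD : IsDerivation M D) (u v q' q'' a : A) (ζ J : X →L[ℂ] ℂ)
    (hζ : dL M a ζ - dR M a ζ = dL M u (D a) + J) (hq : q' * q'' = v - u * v) :
    dL M a (-(D v - dL M u (D v)) + ζ + dL M q' (D q'')) -
      dR M a (-(D v - dL M u (D v)) + ζ + dL M q' (D q'')) - D a =
      (D (v * a - a) - dL M u (D (v * a - a))) - dL M (a - a * u) (D v) + J +
        (dL M (a * q') (D q'') - dL M q' (D (q'' * a))) := by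
  have e1 : dR M a (dL M u (D v)) = dL M u (D (v * a)) - dL M (u * v) (D a) := by
    rw [← dL_dR, der' hD, map_sub, dL_mul]
  have e2 : dR M a (D v) = D (v * a) - dL M v (D a) := der' hD v a
  have e3 : dR M a (dL M q' (D q'')) = dL M q' (D (q'' * a)) - (dL M v (D a) - dL M (u * v) (D a)) := by
    rw [← dL_dR, der' hD, map_sub, ← dL_mul, hq, dL_sub]
  have e4 : dL M a ζ = dR M a ζ + (dL M u (D a) + J) := sub_eq_iff_eq_add'.1 hζ
  simp only [map_add, map_neg, map_sub, e1, e2, e3, e4, dL_sub, dL_mul]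
  abel

end

end Pool.Agent.Helper239.ApA
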