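import Mathlib
import Pool.Agent.Helper239.ApDefs

open MeasureTheory Filter Topology
open scoped ENNReal

namespace Pool.Agent.Helper239.ApB

/-- Underlying set `(ℕ × ℕ → {±1}) × ℕ`; here `ℕ` with bitwise xor is `⊕_ℕ ℤ/2`. -/
def GG : Type := (ℕ × ℕ → ℤˣ) × ℕ

instance : TopologicalSpace GG := inferInstanceAs (TopologicalSpace ((ℕ × ℕ → ℤˣ) × ℕ))
instance : T2Space GG := inferInstanceAs (T2Space ((ℕ × ℕ → ℤˣ) × ℕ))
instance : SecondCountableTopology GG :=
  inferInstanceAs (SecondCountableTopology ((ℕ × ℕ → ℤˣ) × ℕ))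
instance : LocallyCompactSpace GG := inferInstanceAs (LocallyCompactSpace ((ℕ × ℕ → ℤˣ) × ℕ))
instance : MeasurableSpace GG := borel GG
instance : BorelSpace GG := ⟨rfl⟩

/-- xor on the first index -/
def sh (s : ℕ) (p : ℕ × ℕ) : ℕ × ℕ := (p.1 ^^^ s, p.2)

@[simp] theorem sh_snd (s : ℕ) (p : ℕ × ℕ) : (sh s p).2 = p.2 := rfl
@[simp] theorem sh_fst (s : ℕ) (p : ℕ × ℕ) : (sh s p).1 = p.1 ^^^ s := rfl
@[simp] theorem sh_zero (p : ℕ × ℕ) : sh 0 p = p := by simp [sh]
@[simp] theorem sh_sh (s t : ℕ) (p : ℕ × ℕ) : sh s (sh t p) = sh (t ^^^ s) p := by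
  simp [sh, Nat.xor_assoc]
@[simp] theorem sh_self (s : ℕ) (p : ℕ × ℕ) : sh s (sh s p) = p := by simp [sh, Nat.xor_assoc]

/-- `sh s` as a permutation -/
def shE (s : ℕ) : (ℕ × ℕ) ≃ (ℕ × ℕ) := ⟨sh s, sh s, sh_self s, sh_self s⟩

@[simp] theorem shE_apply (s : ℕ) (p : ℕ × ℕ) : shE s p = sh s p := rfl

namespace GG

/-- the coordinates -/
def k (x : GG) : ℕ × ℕ → ℤˣ := x.1
def s (x : GG) : ℕ := x.2
def mk (k : ℕ × ℕ → ℤˣ) (s : ℕ) : GG := (k, s)

@[simp] theorem k_mk (k : ℕ × ℕ → ℤˣ) (s : ℕ) : (mk k s).k = k := rfl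
@[simp] theorem s_mk (k : ℕ × ℕ → ℤˣ) (s : ℕ) : (mk k s).s = s := rfl

theorem ext' {x y : GG} (h1 : x.k = y.k) (h2 : x.s = y.s) : x = y := Prod.ext h1 h2

theorem continuous_k : Continuous (k : GG → ℕ × ℕ → ℤˣ) := continuous_fst
theorem continuous_s : Continuous (s : GG → ℕ) := continuous_snd
theorem continuous_mk : Continuous (fun p : (ℕ × ℕ → ℤˣ) × ℕ => mk p.1 p.2) := continuous_id

end GG

open GG

instance : Mul GG := ⟨fun x y => GG.mk (fun p => x.k p * y.k (sh x.s p)) (x.s ^^^ y.s)⟩
instance : One GG := ⟨GG.mk 1 0⟩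
instance : Inv GG := ⟨fun x => GG.mk (fun p => (x.k (sh x.s p))⁻¹) x.s⟩

namespace GG
@[simp] theorem k_mul (x y : GG) (p : ℕ × ℕ) : (x * y).k p = x.k p * y.k (sh x.s p) := rfl
@[simp] theorem s_mul (x y : GG) : (x * y).s = x.s ^^^ y.s := rfl
@[simp] theorem k_one : (1 : GG).k = 1 := rfl
@[simp] theorem s_one : (1 : GG).s = 0 := rfl
@[simp] theorem k_inv (x : GG) (p : ℕ × ℕ) : (x⁻¹).k p = (x.k (sh x.s p))⁻¹ := rfl
@[simp] theorem s_inv (x : GG) : (x⁻¹).s = x.s := rfl
end GG

/-- The group `(∏_{Σ × ℕ} {±1}) ⋊ Σ`, `Σ = ⊕_ℕ ℤ/2`. -/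
instance : Group GG := Group.ofLeftAxioms
  (by
    intro x y z
    refine ext' (funext fun p => ?_) ?_
    · simp [mul_assoc]
    · simp [Nat.xor_assoc])
  (by
    intro x
    refine ext' (funext fun p => ?_) ?_ <;> simp)
  (by
    intro x
    refine ext' (funext fun p => ?_) ?_ <;> simp)

theorem continuous_evalP : Continuous (fun q : (ℕ × ℕ → ℤˣ) × (ℕ × ℕ) => q.1 q.2) :=
  continuous_prod_of_discrete_right.2 fun b => continuous_apply b

theorem continuous_sh (p : ℕ × ℕ) : Continuous (fun s : ℕ => sh s p) :=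
  continuous_of_discreteTopology

instance : IsTopologicalGroup GG where
  continuous_mul := by
    change Continuous (fun q : GG × GG => GG.mk
      (fun p => q.1.k p * q.2.k (sh q.1.s p)) (q.1.s ^^^ q.2.s))
    refine continuous_mk.comp (Continuous.prodMk (continuous_pi fun p => ?_) ?_)
    · refine Continuous.mul ((continuous_apply p).comp (continuous_k.comp continuous_fst)) ?_
      exact continuous_evalP.comp (Continuous.prodMk (continuous_k.comp continuous_snd)
        ((continuous_sh p).comp (continuous_s.comp continuous_fst)))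
    · have h : Continuous (fun q : ℕ × ℕ => q.1 ^^^ q.2) := continuous_of_discreteTopology
      exact h.comp ((continuous_s.comp continuous_fst).prodMk (continuous_s.comp continuous_snd))
  continuous_inv := by
    change Continuous (fun q : GG => GG.mk (fun p => (q.k (sh q.s p))⁻¹) q.s)
    refine continuous_mk.comp (Continuous.prodMk (continuous_pi fun p => ?_) continuous_s)
    refine Continuous.inv ?_
    exact continuous_evalP.comp (Continuous.prodMk continuous_k
      ((continuous_sh p).comp continuous_s))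

/-- Haar measure on `GG`. -/
noncomputable def mu : Measure GG := Measure.haar

instance : mu.IsHaarMeasure := inferInstanceAs (Measure.haar (G := GG)).IsHaarMeasure
instance : mu.Regular := inferInstanceAs (Measure.haar (G := GG)).Regular

theorem pow_four (x : GG) : x * x * (x * x) = 1 := by
  refine ext' (funext fun p => ?_) ?_
  · simp only [k_mul, s_mul, Nat.xor_self, sh_zero, k_one, Pi.one_apply]
    exact Int.units_mul_self _
  · simp

instance : mu.IsMulRightInvariant where
  map_mul_right_eq_self x := by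
    rw [Measure.map_right_mul_eq_modularCharacterFun_smul]
    have h1 := Measure.modularCharacterFun_map_mul (x * x) (x * x)
    rw [pow_four, Measure.modularCharacterFun_map_one, Measure.modularCharacterFun_map_mul] at h1
    have h2 : Measure.modularCharacterFun x = 1 := by
      have h3 : (Measure.modularCharacterFun x) ^ 4 = 1 := by
        rw [h1]; ring
      exact (pow_eq_one_iff_of_nonneg (zero_le) (by norm_num)).1 h3
    rw [h2, one_smul]

theorem norm_units (u : ℤˣ) : ‖((u : ℤ) : ℂ)‖ = 1 := by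
  rcases Int.units_eq_one_or u with rfl | rfl <;> simp

/-- coordinate function -/
noncomputable def chi (p : ℕ × ℕ) (x : GG) : ℂ := ((x.k p : ℤ) : ℂ)

theorem continuous_chi (p : ℕ × ℕ) : Continuous (chi p) := by
  have h : Continuous (fun u : ℤˣ => ((u : ℤ) : ℂ)) := continuous_of_discreteTopology
  exact h.comp ((continuous_apply p).comp continuous_k)

theorem norm_chi (p : ℕ × ℕ) (x : GG) : ‖chi p x‖ = 1 := norm_units _

theorem chi_mul (p : ℕ × ℕ) (h x : GG) : chi p (h * x) = chi p h * chi (sh h.s p) x := by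
  unfold chi
  rw [k_mul]
  push_cast
  ring

theorem integrable_mul_chi (p : ℕ × ℕ) {f : GG → ℂ} (hf : Integrable f mu) :
    Integrable (fun x => f x * chi p x) mu := by
  refine hf.mul_bdd (c := 1) (continuous_chi p).aestronglyMeasurable ?_
  exact Eventually.of_forall (fun x => (norm_chi p x).le)

/-- the functionals `φ_p(f) = ∫ f k_p`. -/
noncomputable def phi (p : ℕ × ℕ) : Lp ℂ 1 mu →L[ℂ] ℂ :=
  LinearMap.mkContinuous
    { toFun := fun f => ∫ x, f x * chi p x ∂mu
      map_add' := by
        intro f g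
        rw [← integral_add (integrable_mul_chi p (L1.integrable_coeFn f))
          (integrable_mul_chi p (L1.integrable_coeFn g))]
        refine integral_congr_ae ?_
        filter_upwards [Lp.coeFn_add f g] with x hx
        rw [hx, Pi.add_apply, add_mul]
      map_smul' := by
        intro c f
        simp only [RingHom.id_apply, smul_eq_mul]
        rw [← integral_const_mul]
        refine integral_congr_ae ?_
        filter_upwards [Lp.coeFn_smul c f] with x hx
        rw [hx, Pi.smul_apply, smul_eq_mul, mul_assoc] } 1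
    (by
      intro f
      rw [one_mul, L1.norm_eq_integral_norm]
      refine norm_integral_le_of_norm_le (L1.integrable_coeFn f).norm ?_
      refine Eventually.of_forall fun x => ?_
      rw [norm_mul, norm_chi, mul_one])

theorem phi_apply (p : ℕ × ℕ) (f : Lp ℂ 1 mu) : phi p f = ∫ x, f x * chi p x ∂mu := rfl

theorem norm_phi_le (p : ℕ × ℕ) (f : Lp ℂ 1 mu) : ‖phi p f‖ ≤ ‖f‖ := by
  have h := (phi p).le_of_opNorm_le (LinearMap.mkContinuous_norm_le _ zero_le_one _) f
  simpa using h

open Pool.Agent.Helper239.ApDefs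

theorem phi_lt (p : ℕ × ℕ) (h : GG) (f : Lp ℂ 1 mu) :
    phi p (lt mu h f) = chi p h * phi (sh h.s p) f := by
  rw [phi_apply, phi_apply, ← integral_const_mul]
  have h1 : (fun x => (lt mu h f : GG → ℂ) x * chi p x) =ᵐ[mu]
      fun x => f (h⁻¹ * x) * chi p x := by
    filter_upwards [Lp.coeFn_compMeasurePreserving f (measurePreserving_mul_left mu h⁻¹)] with x hx
    unfold lt
    rw [hx, Function.comp_apply]
  rw [integral_congr_ae h1]
  rw [← integral_mul_left_eq_self (fun x => f (h⁻¹ * x) * chi p x) h]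
  refine integral_congr_ae (Eventually.of_forall fun x => ?_)
  simp only [inv_mul_cancel_left, chi_mul]
  ring

end Pool.Agent.Helper239.ApB
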