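import Mathlib
import Pool.Agent.Helper239.ApB

open MeasureTheory Filter Topology
open scoped ENNReal
open Pool.Agent.Helper239.ApDefs Pool.Agent.Helper239.ApB Pool.Agent.Helper239.ApB.GG

namespace Pool.Agent.Helper239.ApC

theorem lt_eq (x : GG) (f : Lp ℂ 1 mu) : lt mu x f = DomMulAct.mk x⁻¹ • f := rfl

theorem norm_lt (x : GG) (f : Lp ℂ 1 mu) : ‖lt mu x f‖ = ‖f‖ := by
  rw [lt_eq]; exact DomMulAct.norm_smul_Lp _ _

theorem lt_add (x : GG) (f g : Lp ℂ 1 mu) : lt mu x (f + g) = lt mu x f + lt mu x g := by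
  simp only [lt_eq, smul_add]

theorem lt_sub (x : GG) (f g : Lp ℂ 1 mu) : lt mu x (f - g) = lt mu x f - lt mu x g := by
  simp only [lt_eq, smul_sub]

theorem lt_smul (x : GG) (c : ℂ) (f : Lp ℂ 1 mu) : lt mu x (c • f) = c • lt mu x f := by
  simp only [lt_eq]; rw [smul_comm]

theorem lt_zero (x : GG) : lt mu x (0 : Lp ℂ 1 mu) = 0 := by
  simp only [lt_eq, smul_zero]

theorem lt_one (f : Lp ℂ 1 mu) : lt mu 1 f = f := by
  rw [lt_eq, inv_one, DomMulAct.mk_one, one_smul]

theorem lt_mul (x y : GG) (f : Lp ℂ 1 mu) : lt mu (x * y) f = lt mu x (lt mu y f) := by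
  rw [lt_eq, lt_eq, lt_eq, mul_inv_rev, DomMulAct.mk_mul, mul_smul]

theorem continuous_lt (f : Lp ℂ 1 mu) : Continuous (fun x : GG => lt mu x f) := by
  haveI : Fact ((1 : ℝ≥0∞) ≠ ∞) := ⟨ENNReal.one_ne_top⟩
  have h : Continuous (fun x : GG => DomMulAct.mk x⁻¹ • f) := by
    have h1 : Continuous (fun x : GG => DomMulAct.mk x⁻¹) :=
      DomMulAct.continuous_mk.comp continuous_inv
    exact h1.smul continuous_const
  exact h

/-- `lt` as a continuous linear map. -/
noncomputable def ltL (x : GG) : Lp ℂ 1 mu →L[ℂ] Lp ℂ 1 mu :=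
  LinearMap.mkContinuous
    { toFun := lt mu x, map_add' := lt_add x, map_smul' := fun c f => lt_smul x c f } 1
    (fun f => by simp [norm_lt])

theorem ltL_apply (x : GG) (f : Lp ℂ 1 mu) : ltL x f = lt mu x f := rfl

/-- general integrability: `y ↦ f(y) • F(y)` with `F` continuous and bounded. -/
theorem integrable_smul_cont {E : Type*} [NormedAddCommGroup E] [NormedSpace ℂ E]
    (f : Lp ℂ 1 mu) {F : GG → E} (hF : Continuous F) {C : ℝ} (hC : ∀ y, ‖F y‖ ≤ C) :
    Integrable (fun y => f y • F y) mu :=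
  (L1.integrable_coeFn f).smul_bdd C hF.aestronglyMeasurable (Eventually.of_forall hC)

theorem integrable_conv (f g : Lp ℂ 1 mu) : Integrable (fun y => f y • lt mu y g) mu :=
  integrable_smul_cont f (continuous_lt g) (C := ‖g‖) (fun y => (norm_lt y g).le)

theorem norm_integral_smul_le {E : Type*} [NormedAddCommGroup E] [NormedSpace ℂ E]
    (f : Lp ℂ 1 mu) {F : GG → E} {C : ℝ} (hC : ∀ y, ‖F y‖ ≤ C) :
    ‖∫ y, f y • F y ∂mu‖ ≤ ‖f‖ * C := by
  have h0 : Integrable (fun y => ‖f y‖ * C) mu := (L1.integrable_coeFn f).norm.mul_const C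
  calc ‖∫ y, f y • F y ∂mu‖ ≤ ∫ y, ‖f y‖ * C ∂mu := by
        refine norm_integral_le_of_norm_le h0 (Eventually.of_forall fun y => ?_)
        rw [norm_smul]
        exact mul_le_mul_of_nonneg_left (hC y) (norm_nonneg _)
    _ = ‖f‖ * C := by rw [integral_mul_const, L1.norm_eq_integral_norm]

theorem norm_conv_le (f g : Lp ℂ 1 mu) : ‖conv mu f g‖ ≤ ‖f‖ * ‖g‖ :=
  norm_integral_smul_le f (fun y => (norm_lt y g).le)

theorem conv_add_left (f g h : Lp ℂ 1 mu) : conv mu (f + g) h = conv mu f h + conv mu g h := by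
  unfold conv
  rw [← integral_add (integrable_conv f h) (integrable_conv g h)]
  refine integral_congr_ae ?_
  filter_upwards [Lp.coeFn_add f g] with x hx
  rw [hx, Pi.add_apply, add_smul]

theorem conv_add_right (f g h : Lp ℂ 1 mu) : conv mu f (g + h) = conv mu f g + conv mu f h := by
  unfold conv
  rw [← integral_add (integrable_conv f g) (integrable_conv f h)]
  refine integral_congr_ae (Eventually.of_forall fun x => ?_)
  simp only [lt_add, smul_add]

theorem conv_smul_left (c : ℂ) (f g : Lp ℂ 1 mu) : conv mu (c • f) g = c • conv mu f g := by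
  unfold conv
  rw [← integral_smul]
  refine integral_congr_ae ?_
  filter_upwards [Lp.coeFn_smul c f] with x hx
  rw [hx, Pi.smul_apply, smul_assoc]

theorem conv_smul_right (c : ℂ) (f g : Lp ℂ 1 mu) : conv mu f (c • g) = c • conv mu f g := by
  unfold conv
  rw [← integral_smul]
  refine integral_congr_ae (Eventually.of_forall fun x => ?_)
  simp only [lt_smul]
  rw [smul_comm]

/-- `f ↦ f * g`. -/
noncomputable def convR (g : Lp ℂ 1 mu) : Lp ℂ 1 mu →L[ℂ] Lp ℂ 1 mu :=
  LinearMap.mkContinuous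
    { toFun := fun f => conv mu f g
      map_add' := fun f h => conv_add_left f h g
      map_smul' := fun c f => conv_smul_left c f g } ‖g‖
    (fun f => by
      simp only [LinearMap.coe_mk, AddHom.coe_mk]
      rw [mul_comm]; exact norm_conv_le f g)

theorem convR_apply (f g : Lp ℂ 1 mu) : convR g f = conv mu f g := rfl

theorem lt_conv (x : GG) (f g : Lp ℂ 1 mu) : lt mu x (conv mu f g) = conv mu (lt mu x f) g := by
  rw [← ltL_apply]
  unfold conv
  rw [← ContinuousLinearMap.integral_comp_comm _ (integrable_conv f g)]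
  have h1 : (fun y => (lt mu x f : GG → ℂ) y • lt mu y g) =ᵐ[mu]
      fun y => f (x⁻¹ * y) • lt mu y g := by
    filter_upwards [Lp.coeFn_compMeasurePreserving f (measurePreserving_mul_left mu x⁻¹)] with y hy
    unfold lt
    rw [hy, Function.comp_apply]
  rw [integral_congr_ae h1]
  rw [← integral_mul_left_eq_self (fun y => f (x⁻¹ * y) • lt mu y g) x]
  refine integral_congr_ae (Eventually.of_forall fun y => ?_)
  simp only [inv_mul_cancel_left, map_smul, ltL_apply, lt_mul]

theorem conv_assoc (f g h : Lp ℂ 1 mu) :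
    conv mu (conv mu f g) h = conv mu f (conv mu g h) := by
  rw [← convR_apply (conv mu f g) h]
  conv_lhs => unfold conv
  rw [← ContinuousLinearMap.integral_comp_comm _ (integrable_conv f g)]
  conv_rhs => unfold conv
  refine integral_congr_ae (Eventually.of_forall fun y => ?_)
  simp only [map_smul, convR_apply]
  rw [← lt_conv]
  rfl

end Pool.Agent.Helper239.ApC
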