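import Mathlib
import Pool.Agent.Helper239.ApC

open MeasureTheory Filter Topology
open scoped ENNReal
open Pool.Agent.Helper239.ApDefs Pool.Agent.Helper239.ApB Pool.Agent.Helper239.ApB.GG
open Pool.Agent.Helper239.ApC

namespace Pool.Agent.Helper239.ApD

/-- basic compact open subgroups -/
def W (A : Finset (ℕ × ℕ)) : Set GG := {x | x.s = 0 ∧ ∀ p ∈ A, x.k p = 1}

theorem one_mem_W (A : Finset (ℕ × ℕ)) : (1 : GG) ∈ W A := ⟨rfl, fun _ _ => rfl⟩

theorem mul_mem_W {A : Finset (ℕ × ℕ)} {x y : GG} (hx : x ∈ W A) (hy : y ∈ W A) :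
    x * y ∈ W A := by
  obtain ⟨h1, h2⟩ := hx
  obtain ⟨h4, h5⟩ := hy
  refine ⟨by simp [h1, h4], fun p hp => ?_⟩
  rw [k_mul, h1, sh_zero, h2 p hp, h5 p hp, one_mul]

theorem inv_mem_W {A : Finset (ℕ × ℕ)} {x : GG} (hx : x ∈ W A) : x⁻¹ ∈ W A := by
  obtain ⟨h1, h2⟩ := hx
  refine ⟨by simp [h1], fun p hp => ?_⟩
  rw [k_inv, h1, sh_zero, h2 p hp, inv_one]

theorem W_anti {A B : Finset (ℕ × ℕ)} (h : A ⊆ B) : W B ⊆ W A :=
  fun _ hx => ⟨hx.1, fun p hp => hx.2 p (h hp)⟩

theorem isOpen_W (A : Finset (ℕ × ℕ)) : IsOpen (W A) := by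
  have h : W A = ((s : GG → ℕ) ⁻¹' {0}) ∩ ⋂ p ∈ A, (fun x : GG => x.k p) ⁻¹' {1} := by
    ext x
    simp [W]
  rw [h]
  refine ((isOpen_discrete _).preimage continuous_s).inter ?_
  exact isOpen_biInter_finset fun p _ =>
    (isOpen_discrete _).preimage ((continuous_apply p).comp continuous_k)

theorem isClosed_W (A : Finset (ℕ × ℕ)) : IsClosed (W A) := by
  have h : W A = ((s : GG → ℕ) ⁻¹' {0}) ∩ ⋂ p ∈ A, (fun x : GG => x.k p) ⁻¹' {1} := by
    ext x
    simp [W]
  rw [h]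
  refine ((isClosed_discrete _).preimage continuous_s).inter ?_
  exact isClosed_biInter fun p _ =>
    (isClosed_discrete _).preimage ((continuous_apply p).comp continuous_k)

/-- the open compact pieces `{x | x.s = n}` -/
theorem isCompact_piece (n : ℕ) : IsCompact {x : GG | x.s = n} := by
  have h : {x : GG | x.s = n} = (fun k : ℕ × ℕ → ℤˣ => GG.mk k n) '' Set.univ := by
    ext x
    constructor
    · intro h1
      exact ⟨x.k, trivial, GG.ext' rfl h1.symm⟩
    · rintro ⟨k, -, rfl⟩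
      rfl
  rw [h]
  refine isCompact_univ.image ?_
  exact continuous_mk.comp (f := fun k : ℕ × ℕ → ℤˣ => (k, n))
    (continuous_id.prodMk continuous_const)

theorem isCompact_W (A : Finset (ℕ × ℕ)) : IsCompact (W A) :=
  (isCompact_piece 0).of_isClosed_subset (isClosed_W A) fun _ hx => hx.1

theorem measurableSet_W (A : Finset (ℕ × ℕ)) : MeasurableSet (W A) := (isOpen_W A).measurableSet

theorem measure_W_ne_top (A : Finset (ℕ × ℕ)) : mu (W A) ≠ ∞ := (isCompact_W A).measure_lt_top.ne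

theorem measure_W_ne_zero (A : Finset (ℕ × ℕ)) : mu (W A) ≠ 0 :=
  ((isOpen_W A).measure_pos mu ⟨1, one_mem_W A⟩).ne'

/-- the measure of `W A` as a real number -/
noncomputable def m (A : Finset (ℕ × ℕ)) : ℝ := mu.real (W A)

theorem m_pos (A : Finset (ℕ × ℕ)) : 0 < m A :=
  ENNReal.toReal_pos (measure_W_ne_zero A) (measure_W_ne_top A)

theorem m_ne (A : Finset (ℕ × ℕ)) : (m A : ℂ) ≠ 0 := by exact_mod_cast (m_pos A).ne'

/-- the normalized indicator function of `W A`. -/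
noncomputable def e (A : Finset (ℕ × ℕ)) : Lp ℂ 1 mu :=
  indicatorConstLp 1 (measurableSet_W A) (measure_W_ne_top A) ((m A : ℂ)⁻¹)

theorem norm_e (A : Finset (ℕ × ℕ)) : ‖e A‖ = 1 := by
  unfold e
  rw [norm_indicatorConstLp one_ne_zero ENNReal.one_ne_top]
  simp only [norm_inv, Complex.norm_real, ENNReal.toReal_one, div_one, Real.rpow_one]
  rw [Real.norm_of_nonneg (m_pos A).le]
  exact inv_mul_cancel₀ (m_pos A).ne'

theorem coe_e (A : Finset (ℕ × ℕ)) :
    (e A : GG → ℂ) =ᵐ[mu] (W A).indicator (fun _ => ((m A : ℂ)⁻¹)) :=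
  indicatorConstLp_coeFn

/-- integral against `e A` -/
theorem integral_e {E : Type*} [NormedAddCommGroup E] [NormedSpace ℂ E]
    (A : Finset (ℕ × ℕ)) (F : GG → E) :
    ∫ x, (e A : GG → ℂ) x • F x ∂mu = ((m A : ℂ)⁻¹) • ∫ x in W A, F x ∂mu := by
  rw [← integral_smul, ← integral_indicator (measurableSet_W A)]
  refine integral_congr_ae ?_
  filter_upwards [coe_e A] with x hx
  rw [hx]
  by_cases h : x ∈ W A <;> simp [h]

theorem conv_e (A : Finset (ℕ × ℕ)) (g : Lp ℂ 1 mu) :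
    conv mu (e A) g = ((m A : ℂ)⁻¹) • ∫ x in W A, lt mu x g ∂mu := integral_e A _

theorem conv_e_of_inv {A : Finset (ℕ × ℕ)} {g : Lp ℂ 1 mu} (h : ∀ x ∈ W A, lt mu x g = g) :
    conv mu (e A) g = g := by
  rw [conv_e, setIntegral_congr_fun (g := fun _ => g) (measurableSet_W A) h]
  rw [setIntegral_const]
  have h1 : mu.real (W A) • g = (m A : ℂ) • g := (Complex.coe_smul (m A) g).symm
  rw [h1, smul_smul, inv_mul_cancel₀ (m_ne A), one_smul]

theorem lt_indicatorConstLp (x : GG) {S : Set GG} (hS : MeasurableSet S) (hμ : mu S ≠ ∞) (c : ℂ)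
    {T : Set GG} (hT : MeasurableSet T) (hμT : mu T ≠ ∞) (hTS : ∀ y, y ∈ T ↔ x⁻¹ * y ∈ S) :
    lt mu x (indicatorConstLp 1 hS hμ c) = indicatorConstLp 1 hT hμT c := by
  refine Lp.ext ?_
  have h1 := Lp.coeFn_compMeasurePreserving (indicatorConstLp 1 hS hμ c)
    (measurePreserving_mul_left mu x⁻¹)
  have h2 := (measurePreserving_mul_left mu x⁻¹).quasiMeasurePreserving.ae_eq_comp
    (indicatorConstLp_coeFn (p := 1) (hs := hS) (hμs := hμ) (c := c))
  filter_upwards [h1, h2, indicatorConstLp_coeFn (p := 1) (hs := hT) (hμs := hμT) (c := c)]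
    with y h3 h4 h5
  unfold lt
  rw [h3, h4, h5]
  simp only [Function.comp_apply]
  by_cases h : y ∈ T
  · rw [Set.indicator_of_mem h, Set.indicator_of_mem ((hTS y).1 h)]
  · rw [Set.indicator_of_notMem h, Set.indicator_of_notMem (fun h' => h ((hTS y).2 h'))]

theorem lt_e {A : Finset (ℕ × ℕ)} {x : GG} (hx : x ∈ W A) : lt mu x (e A) = e A := by
  refine lt_indicatorConstLp x _ _ _ _ _ fun y => ⟨fun h => mul_mem_W (inv_mem_W hx) h, fun h => ?_⟩
  have := mul_mem_W hx h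
  rwa [mul_inv_cancel_left] at this

/-- flips -/
def z (b : ℕ × ℕ) : GG := GG.mk (Function.update 1 b (-1)) 0

@[simp] theorem z_s (b : ℕ × ℕ) : (z b).s = 0 := rfl
@[simp] theorem z_k_self (b : ℕ × ℕ) : (z b).k b = -1 := by simp [z]
theorem z_k_ne {b p : ℕ × ℕ} (h : p ≠ b) : (z b).k p = 1 := by
  simp [z, Function.update_of_ne h]

theorem z_mem_W {A : Finset (ℕ × ℕ)} {b : ℕ × ℕ} (hb : b ∉ A) : z b ∈ W A :=
  ⟨rfl, fun p hp => z_k_ne (by rintro rfl; exact hb hp)⟩

theorem chi_z_self (b : ℕ × ℕ) : chi b (z b) = -1 := by simp [chi]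

/-- the projection `½(1 + L_{z_b})` -/
noncomputable def P (b : ℕ × ℕ) (f : Lp ℂ 1 mu) : Lp ℂ 1 mu := (1 / 2 : ℂ) • (f + lt mu (z b) f)

theorem conv_P (b : ℕ × ℕ) (f g : Lp ℂ 1 mu) : conv mu (P b f) g = P b (conv mu f g) := by
  unfold P
  rw [conv_smul_left, conv_add_left, lt_conv]

theorem mem_z_smul {A : Finset (ℕ × ℕ)} {b : ℕ × ℕ} (hb : b ∉ A) (y : GG) :
    (z b)⁻¹ * y ∈ W (insert b A) ↔ y.s = 0 ∧ y.k b = -1 ∧ ∀ p ∈ A, y.k p = 1 := by
  simp only [W, Set.mem_ofPred_eq, s_mul, s_inv, z_s, Nat.zero_xor, k_mul, k_inv, sh_zero,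
    Finset.mem_insert, forall_eq_or_imp, z_k_self]
  have h1 : ∀ p ∈ A, (z b).k p = 1 := fun p hp => z_k_ne (by rintro rfl; exact hb hp)
  constructor
  · rintro ⟨h2, h3, h4⟩
    refine ⟨h2, ?_, fun p hp => ?_⟩
    · have : y.k b = (-1 : ℤˣ) * ((-1)⁻¹ * y.k b) := by rw [mul_inv_cancel_left]
      rw [this, h3, mul_one]
    · have := h4 p hp
      rwa [h1 p hp, inv_one, one_mul] at this
  · rintro ⟨h2, h3, h4⟩
    refine ⟨h2, ?_, fun p hp => ?_⟩
    · rw [h3, inv_mul_cancel]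
    · rw [h1 p hp, h4 p hp, inv_one, one_mul]

theorem e_eq_P {A : Finset (ℕ × ℕ)} {b : ℕ × ℕ} (hb : b ∉ A) : e A = P b (e (insert b A)) := by
  set T : Set GG := {y | (z b)⁻¹ * y ∈ W (insert b A)} with hT
  have hTm : MeasurableSet T := (measurable_const_mul (z b)⁻¹) (measurableSet_W _)
  have hTμ : mu T = mu (W (insert b A)) := measure_preimage_mul mu (z b)⁻¹ _
  have hTt : mu T ≠ ∞ := by rw [hTμ]; exact measure_W_ne_top _
  have hlt : lt mu (z b) (e (insert b A)) = indicatorConstLp 1 hTm hTt ((m (insert b A) : ℂ)⁻¹) :=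
    lt_indicatorConstLp (z b) _ _ _ hTm hTt fun y => Iff.rfl
  have hdisj : Disjoint (W (insert b A)) T := by
    rw [Set.disjoint_left]
    intro y h1 h2
    rw [hT, Set.mem_ofPred_eq, mem_z_smul hb] at h2
    have h3 := h1.2 b (Finset.mem_insert_self b A)
    rw [h3] at h2
    exact absurd h2.2.1 (by decide)
  have hunion : W A = W (insert b A) ∪ T := by
    ext y
    rw [Set.mem_union, hT, Set.mem_ofPred_eq, mem_z_smul hb]
    simp only [W, Set.mem_ofPred_eq, Finset.mem_insert, forall_eq_or_imp]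
    rcases Int.units_eq_one_or (y.k b) with h | h <;> simp [h]
  have hm : m A = 2 * m (insert b A) := by
    unfold m
    rw [hunion, measureReal_union hdisj hTm (measure_W_ne_top _) hTt]
    unfold Measure.real
    rw [hTμ]; ring
  refine Lp.ext ?_
  unfold P
  rw [hlt]
  filter_upwards [coe_e A, Lp.coeFn_smul (1 / 2 : ℂ) (e (insert b A) +
      indicatorConstLp 1 hTm hTt ((m (insert b A) : ℂ)⁻¹)),
    Lp.coeFn_add (e (insert b A)) (indicatorConstLp 1 hTm hTt ((m (insert b A) : ℂ)⁻¹)),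
    coe_e (insert b A),
    indicatorConstLp_coeFn (p := 1) (hs := hTm) (hμs := hTt) (c := ((m (insert b A) : ℂ)⁻¹))]
    with y h1 h2 h3 h4 h5
  rw [h1, h2, Pi.smul_apply, h3, Pi.add_apply, h4, h5, hm]
  have h2ne : (m (insert b A) : ℂ) ≠ 0 := m_ne _
  by_cases hy1 : y ∈ W (insert b A)
  · have hy2 : y ∉ T := Set.disjoint_left.1 hdisj hy1
    have hy3 : y ∈ W A := by rw [hunion]; exact Or.inl hy1
    rw [Set.indicator_of_mem hy1, Set.indicator_of_notMem hy2, Set.indicator_of_mem hy3]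
    push_cast; rw [smul_eq_mul]; field_simp; ring
  · by_cases hy2 : y ∈ T
    · have hy3 : y ∈ W A := by rw [hunion]; exact Or.inr hy2
      rw [Set.indicator_of_mem hy2, Set.indicator_of_notMem hy1, Set.indicator_of_mem hy3]
      push_cast; rw [smul_eq_mul]; field_simp; ring
    · have hy3 : y ∉ W A := by rw [hunion]; rintro (h | h); exacts [hy1 h, hy2 h]
      rw [Set.indicator_of_notMem hy2, Set.indicator_of_notMem hy1, Set.indicator_of_notMem hy3]
      simp

theorem conv_e_big {A B : Finset (ℕ × ℕ)} (h : A ⊆ B) : conv mu (e B) (e A) = e A :=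
  conv_e_of_inv fun _ hx => lt_e (W_anti h hx)

theorem conv_e_self (A : Finset (ℕ × ℕ)) : conv mu (e A) (e A) = e A := conv_e_big subset_rfl

theorem conv_e_union (T : Finset (ℕ × ℕ)) :
    ∀ A : Finset (ℕ × ℕ), conv mu (e A) (e (A ∪ T)) = e A := by
  induction T using Finset.induction_on with
  | empty => intro A; rw [Finset.union_empty, conv_e_self]
  | insert b T hb ih =>
    intro A
    by_cases hbA : b ∈ A
    · have : A ∪ insert b T = A ∪ T := by
        rw [Finset.union_insert, Finset.insert_eq_of_mem (Finset.mem_union_left _ hbA)]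
      rw [this, ih]
    · have h1 : A ∪ insert b T = insert b A ∪ T := by
        rw [Finset.union_insert, Finset.insert_union]
      rw [h1]
      conv_lhs => rw [e_eq_P hbA]
      rw [conv_P, ih, ← e_eq_P hbA]

theorem conv_e_small {A B : Finset (ℕ × ℕ)} (h : A ⊆ B) : conv mu (e A) (e B) = e A := by
  have := conv_e_union B A
  rwa [Finset.union_eq_right.2 h] at this

/-- `A` is invariant under the shift by `s` -/
def Inv (A : Finset (ℕ × ℕ)) (n : ℕ) : Prop := ∀ p ∈ A, sh n p ∈ A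

theorem conj_mem_W {A : Finset (ℕ × ℕ)} {y : GG} (hA : Inv A y.s) {x : GG} (hx : x ∈ W A) :
    y⁻¹ * x * y ∈ W A := by
  obtain ⟨h1, h2⟩ := hx
  refine ⟨by simp [h1], fun p hp => ?_⟩
  simp only [k_mul, k_inv, s_mul, s_inv, h1, Nat.xor_zero]
  rw [h2 _ (hA p hp), mul_one, inv_mul_cancel]

theorem inv_s_inv {A : Finset (ℕ × ℕ)} {y : GG} (hA : Inv A y.s) : Inv A (y⁻¹).s := hA

theorem conj_mem_W_iff {A : Finset (ℕ × ℕ)} {y : GG} (hA : Inv A y.s) {x : GG} :
    y⁻¹ * x * y ∈ W A ↔ x ∈ W A := by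
  refine ⟨fun h => ?_, conj_mem_W hA⟩
  have := conj_mem_W (inv_s_inv hA) h
  simpa [mul_assoc] using this

theorem lt_lt_e {A B : Finset (ℕ × ℕ)} (h : A ⊆ B) {y : GG} (hB : Inv B y.s) {x : GG}
    (hx : x ∈ W B) : lt mu x (lt mu y (e A)) = lt mu y (e A) := by
  have h1 : x * y = y * (y⁻¹ * x * y) := by group
  rw [← lt_mul, h1, lt_mul, lt_e (W_anti h (conj_mem_W hB hx))]

theorem conv_e_lt_e {A B : Finset (ℕ × ℕ)} (h : A ⊆ B) {y : GG} (hB : Inv B y.s) :
    conv mu (e B) (lt mu y (e A)) = lt mu y (e A) :=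
  conv_e_of_inv fun _ hx => lt_lt_e h hB hx

/-- `e A` commutes with translations normalizing `W A`. -/
theorem conv_e_lt {A : Finset (ℕ × ℕ)} {y : GG} (hA : Inv A y.s) (g : Lp ℂ 1 mu) :
    conv mu (e A) (lt mu y g) = lt mu y (conv mu (e A) g) := by
  have h0 : lt mu y (∫ x in W A, lt mu x g ∂mu) = ∫ x in W A, ltL y (lt mu x g) ∂mu := by
    rw [← ltL_apply y, ← ContinuousLinearMap.integral_comp_comm]
    exact ((continuous_lt g).continuousOn).integrableOn_compact (isCompact_W A)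
  rw [conv_e, conv_e, lt_smul, h0]
  · congr 1
    have hmp : MeasurePreserving (fun x : GG => y⁻¹ * x * y) mu mu := by
      have h1 := measurePreserving_mul_left mu y⁻¹
      have h2 := measurePreserving_mul_right mu y
      exact h2.comp h1
    have hemb : MeasurableEmbedding (fun x : GG => y⁻¹ * x * y) :=
      (measurableEmbedding_mulRight y).comp (measurableEmbedding_mulLeft y⁻¹)
    have h3 := hmp.setIntegral_preimage_emb hemb (fun x => ltL y (lt mu x g)) (W A)
    have h4 : (fun x : GG => y⁻¹ * x * y) ⁻¹' (W A) = W A := by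
      ext x; exact conj_mem_W_iff hA
    rw [h4] at h3
    rw [← h3]
    refine setIntegral_congr_fun (measurableSet_W A) fun x _ => ?_
    simp only [ltL_apply]
    rw [← lt_mul, ← lt_mul]
    congr 1
    group

end Pool.Agent.Helper239.ApD
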