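import Mathlib
import Pool.Agent.Helper239.ApD

open MeasureTheory Filter Topology
open scoped ENNReal ZeroAtInfty
open Pool.Agent.Helper239.ApDefs Pool.Agent.Helper239.ApB Pool.Agent.Helper239.ApB.GG
open Pool.Agent.Helper239.ApC Pool.Agent.Helper239.ApD

namespace Pool.Agent.Helper239.ApE

theorem phi_eq_zero_of_inv {p : ℕ × ℕ} {g : Lp ℂ 1 mu} (h : lt mu (z p) g = g) :
    phi p g = 0 := by
  have h1 := phi_lt p (z p) g
  rw [h, chi_z_self, z_s, sh_zero, neg_one_mul] at h1
  exact self_eq_neg.1 h1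

theorem phi_conv_e (A : Finset (ℕ × ℕ)) (p : ℕ × ℕ) (g : Lp ℂ 1 mu) :
    phi p (conv mu (e A) g) = if p ∈ A then phi p g else 0 := by
  split_ifs with hp
  · rw [conv_e, map_smul, ← ContinuousLinearMap.integral_comp_comm]
    · have h1 : ∫ x in W A, phi p (lt mu x g) ∂mu = ∫ x in W A, phi p g ∂mu := by
        refine setIntegral_congr_fun (measurableSet_W A) fun x hx => ?_
        rw [phi_lt, hx.1, sh_zero, chi, hx.2 p hp]
        simp
      rw [h1, setIntegral_const]
      change ((m A : ℂ)⁻¹) • ((m A) • phi p g) = phi p g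
      rw [Complex.real_smul, smul_eq_mul, ← mul_assoc, inv_mul_cancel₀ (m_ne A), one_mul]
    · exact ((continuous_lt g).continuousOn).integrableOn_compact (isCompact_W A)
  · refine phi_eq_zero_of_inv ?_
    rw [lt_conv, lt_e (z_mem_W hp)]

theorem phi_e (A : Finset (ℕ × ℕ)) (p : ℕ × ℕ) : phi p (e A) = if p ∈ A then 1 else 0 := by
  split_ifs with hp
  · rw [phi_apply]
    have h0 := integral_e A (fun x => chi p x)
    simp only [smul_eq_mul] at h0
    rw [h0]
    have h1 : ∫ x in W A, chi p x ∂mu = ∫ x in W A, (1 : ℂ) ∂mu := by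
      refine setIntegral_congr_fun (measurableSet_W A) fun x hx => ?_
      simp [chi, hx.2 p hp]
    rw [h1, setIntegral_const]
    change ((m A : ℂ)⁻¹) * ((m A) • (1 : ℂ)) = 1
    rw [Complex.real_smul, mul_one, inv_mul_cancel₀ (m_ne A)]
  · exact phi_eq_zero_of_inv (lt_e (z_mem_W hp))

/-- weights -/
noncomputable def wt (p : ℕ × ℕ) : ℝ := (p.2 : ℝ) + 1

theorem wt_pos (p : ℕ × ℕ) : 0 < wt p := by unfold wt; positivity

theorem wt_sh (n : ℕ) (p : ℕ × ℕ) : wt (sh n p) = wt p := rfl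

/-- The graph of the operator `f ↦ (wt p * φ_p f)_p` from `L¹(G)` to `c₀(ℕ × ℕ)`. -/
noncomputable def Ssub : Submodule ℂ (Lp ℂ 1 mu × C₀(ℕ × ℕ, ℂ)) where
  carrier := {q | ∀ p, q.2 p = (wt p : ℂ) * phi p q.1}
  add_mem' := by
    intro f g hf hg p
    simp only [Prod.snd_add, Prod.fst_add, ZeroAtInftyContinuousMap.add_apply, map_add]
    rw [hf p, hg p]; ring
  zero_mem' := by
    intro p
    simp
  smul_mem' := by
    intro c f hf p
    simp only [Prod.smul_snd, Prod.smul_fst, ZeroAtInftyContinuousMap.smul_apply, map_smul,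
      smul_eq_mul]
    rw [hf p]; ring

theorem isClosed_Ssub : IsClosed (Ssub : Set (Lp ℂ 1 mu × C₀(ℕ × ℕ, ℂ))) := by
  have h : (Ssub : Set (Lp ℂ 1 mu × C₀(ℕ × ℕ, ℂ))) =
      ⋂ p, {q | q.2 p = (wt p : ℂ) * phi p q.1} := by
    ext q; simp [Ssub]
  rw [h]
  refine isClosed_iInter fun p => isClosed_eq ?_ ?_
  · have h1 : Continuous (fun c : C₀(ℕ × ℕ, ℂ) => c p) := by
      have h2 := (ZeroAtInftyContinuousMap.isometry_toBCF (α := ℕ × ℕ) (β := ℂ)).continuous
      exact (BoundedContinuousFunction.lipschitz_eval_const p).continuous.comp h2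
    exact h1.comp continuous_snd
  · exact continuous_const.mul ((phi p).continuous.comp continuous_fst)

/-- The Segal algebra as a type. -/
def SS : Type := Ssub

noncomputable instance : NormedAddCommGroup SS := inferInstanceAs (NormedAddCommGroup Ssub)
noncomputable instance : NormedSpace ℂ SS := inferInstanceAs (NormedSpace ℂ Ssub)
instance : CompleteSpace SS := isClosed_Ssub.completeSpace_coe

/-- inclusion -/
noncomputable def inc : SS →ₗ[ℂ] Lp ℂ 1 mu :=
  (LinearMap.fst ℂ (Lp ℂ 1 mu) C₀(ℕ × ℕ, ℂ)).comp Ssub.subtype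

/-- the second component -/
noncomputable def co (s : SS) : C₀(ℕ × ℕ, ℂ) := s.1.2

theorem co_apply (s : SS) (p : ℕ × ℕ) : co s p = (wt p : ℂ) * phi p (inc s) := s.2 p

theorem inc_injective : Function.Injective inc := by
  intro a b h
  refine Subtype.ext (Prod.ext h ?_)
  refine DFunLike.ext _ _ fun p => ?_
  change co a p = co b p
  rw [co_apply, co_apply, h]

theorem norm_def (s : SS) : ‖s‖ = max ‖inc s‖ ‖co s‖ := rfl

theorem norm_co_apply (s : SS) (p : ℕ × ℕ) : ‖co s p‖ = wt p * ‖phi p (inc s)‖ := by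
  rw [co_apply, norm_mul, Complex.norm_real, Real.norm_of_nonneg (wt_pos p).le]

theorem norm_co_le {s : SS} {C : ℝ} (hC : 0 ≤ C) :
    ‖co s‖ ≤ C ↔ ∀ p, wt p * ‖phi p (inc s)‖ ≤ C := by
  rw [← ZeroAtInftyContinuousMap.norm_toBCF_eq_norm, BoundedContinuousFunction.norm_le hC]
  refine forall_congr' fun p => ?_
  rw [← norm_co_apply]; rfl

theorem norm_le_iff {s : SS} {C : ℝ} (hC : 0 ≤ C) :
    ‖s‖ ≤ C ↔ ‖inc s‖ ≤ C ∧ ∀ p, wt p * ‖phi p (inc s)‖ ≤ C := by
  rw [norm_def, max_le_iff, norm_co_le hC]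

theorem norm_inc_le (s : SS) : ‖inc s‖ ≤ ‖s‖ := le_max_left _ _

theorem le_norm (s : SS) (p : ℕ × ℕ) : wt p * ‖phi p (inc s)‖ ≤ ‖s‖ :=
  ((norm_le_iff (norm_nonneg s)).1 le_rfl).2 p

/-- membership in the Segal algebra -/
def Mem (f : Lp ℂ 1 mu) : Prop := Tendsto (fun p => wt p * ‖phi p f‖) cofinite (𝓝 0)

theorem mem_inc (s : SS) : Mem (inc s) := by
  have h1 := (co s).zero_at_infty'
  rw [Filter.cocompact_eq_cofinite] at h1
  have h2 := h1.norm
  rw [norm_zero] at h2
  refine h2.congr fun p => ?_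
  exact norm_co_apply s p

/-- construct an element -/
noncomputable def mkS (f : Lp ℂ 1 mu) (h : Mem f) : SS :=
  ⟨(f, ⟨⟨fun p => (wt p : ℂ) * phi p f, continuous_of_discreteTopology⟩, by
    rw [Filter.cocompact_eq_cofinite]
    rw [tendsto_zero_iff_norm_tendsto_zero]
    refine Tendsto.congr (fun p => ?_) h
    simp only [norm_mul, Complex.norm_real, Real.norm_of_nonneg (wt_pos p).le]⟩), fun _ => rfl⟩

@[simp] theorem inc_mkS (f : Lp ℂ 1 mu) (h : Mem f) : inc (mkS f h) = f := rfl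

theorem mem_lt {f : Lp ℂ 1 mu} (h : Mem f) (x : GG) : Mem (lt mu x f) := by
  have h1 : Tendsto (fun p => sh x.s p) cofinite cofinite :=
    (shE x.s).injective.tendsto_cofinite
  refine (h.comp h1).congr fun p => ?_
  rw [Function.comp_apply, wt_sh, phi_lt, norm_mul, norm_chi, one_mul]

theorem mem_conv_e (A : Finset (ℕ × ℕ)) (f : Lp ℂ 1 mu) : Mem (conv mu (e A) f) := by
  refine tendsto_const_nhds.congr' ?_
  have : ∀ᶠ p in cofinite, p ∉ A := A.finite_toSet.compl_mem_cofinite
  filter_upwards [this] with p hp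
  rw [phi_conv_e, if_neg hp]; simp

theorem mem_e (A : Finset (ℕ × ℕ)) : Mem (e A) := by
  have := mem_conv_e A (e A)
  rwa [conv_e_self] at this

/-- translation on `SS`. -/
noncomputable def T (h : GG) (s : SS) : SS := mkS (lt mu h (inc s)) (mem_lt (mem_inc s) h)

@[simp] theorem inc_T (h : GG) (s : SS) : inc (T h s) = lt mu h (inc s) := rfl

theorem T_add (h : GG) (s t : SS) : T h (s + t) = T h s + T h t :=
  inc_injective (by rw [inc_T, map_add, map_add, inc_T, inc_T, lt_add])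

theorem T_sub (h : GG) (s t : SS) : T h (s - t) = T h s - T h t :=
  inc_injective (by rw [inc_T, map_sub, map_sub, inc_T, inc_T, lt_sub])

theorem T_smul (h : GG) (c : ℂ) (s : SS) : T h (c • s) = c • T h s :=
  inc_injective (by rw [inc_T, map_smul, map_smul, inc_T, lt_smul])

theorem T_mul (g h : GG) (s : SS) : T (g * h) s = T g (T h s) :=
  inc_injective (by rw [inc_T, inc_T, inc_T, lt_mul])

theorem T_one (s : SS) : T 1 s = s := inc_injective (by rw [inc_T, lt_one])

theorem norm_T_le (h : GG) (s : SS) : ‖T h s‖ ≤ ‖s‖ := by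
  rw [norm_le_iff (norm_nonneg s)]
  refine ⟨by rw [inc_T, norm_lt]; exact norm_inc_le s, fun p => ?_⟩
  rw [inc_T, phi_lt, norm_mul, norm_chi, one_mul, ← wt_sh h.s]
  exact le_norm s _

theorem norm_T (h : GG) (s : SS) : ‖T h s‖ = ‖s‖ := by
  refine le_antisymm (norm_T_le h s) ?_
  calc ‖s‖ = ‖T h⁻¹ (T h s)‖ := by rw [← T_mul, inv_mul_cancel, T_one]
    _ ≤ ‖T h s‖ := norm_T_le _ _

theorem exists_W_subset {V : Set GG} (hV : IsOpen V) (h1 : (1 : GG) ∈ V) : ∃ A, W A ⊆ V := by
  have hV' : IsOpen {k : ℕ × ℕ → ℤˣ | GG.mk k 0 ∈ V} :=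
    hV.preimage (continuous_mk.comp (f := fun k : ℕ × ℕ → ℤˣ => (k, (0 : ℕ)))
      (continuous_id.prodMk continuous_const))
  rw [isOpen_pi_iff] at hV'
  obtain ⟨I, u, hu, hI⟩ := hV' 1 h1
  refine ⟨I, fun x hx => ?_⟩
  obtain ⟨h2, h4⟩ := hx
  have h5 : x = GG.mk x.k 0 := GG.ext' rfl h2
  rw [h5]
  apply hI
  intro i hi
  rw [h4 i hi]
  exact (hu i hi).2

theorem W_mem_nhds (A : Finset (ℕ × ℕ)) : W A ∈ 𝓝 (1 : GG) := (isOpen_W A).mem_nhds (one_mem_W A)

/-- the key approximation property: translations by small elements move `s` a little. -/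
theorem approx_T (s : SS) {ε : ℝ} (hε : 0 < ε) : ∃ A, ∀ x ∈ W A, ‖T x s - s‖ ≤ ε := by
  have h1 : ∀ᶠ p in cofinite, wt p * ‖phi p (inc s)‖ < ε / 2 :=
    (mem_inc s).eventually (gt_mem_nhds (half_pos hε))
  have h2 : Set.Finite {p | ¬ wt p * ‖phi p (inc s)‖ < ε / 2} := h1
  have h3 : ∀ᶠ x in 𝓝 (1 : GG), ‖lt mu x (inc s) - inc s‖ < ε := by
    have h4 := ((continuous_lt (inc s)).tendsto 1).sub_const (inc s)
    rw [lt_one, sub_self] at h4
    have h5 := h4.norm
    rw [norm_zero] at h5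
    exact h5.eventually (gt_mem_nhds hε)
  obtain ⟨V, hV1, hV2, hV3⟩ := mem_nhds_iff.1 h3
  obtain ⟨A, hA⟩ := exists_W_subset hV2 hV3
  refine ⟨A ∪ h2.toFinset, fun x hx => ?_⟩
  have hxA : x ∈ W A := W_anti Finset.subset_union_left hx
  rw [norm_le_iff hε.le]
  refine ⟨by rw [map_sub, inc_T]; exact (hV1 (hA hxA)).le, fun p => ?_⟩
  have key : phi p (inc (T x s - s)) = (chi p x - 1) * phi p (inc s) := by
    rw [map_sub, map_sub, inc_T, phi_lt, hx.1, sh_zero]; ring
  rw [key, norm_mul]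
  by_cases hp : wt p * ‖phi p (inc s)‖ < ε / 2
  · have h5 : ‖chi p x - 1‖ ≤ 2 := by
      refine (norm_sub_le _ _).trans ?_
      rw [norm_chi, norm_one]; norm_num
    have h6 := norm_nonneg (phi p (inc s))
    have h7 := (wt_pos p).le
    calc wt p * (‖chi p x - 1‖ * ‖phi p (inc s)‖) = ‖chi p x - 1‖ * (wt p * ‖phi p (inc s)‖) := by
          ring
      _ ≤ 2 * (ε / 2) := by gcongr
      _ = ε := by ring
  · have h5 : p ∈ A ∪ h2.toFinset := Finset.mem_union_right _ (by simpa using hp)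
    have h6 : chi p x = 1 := by simp [chi, hx.2 p h5]
    rw [h6]; simp [hε.le]

theorem continuous_T (s : SS) : Continuous (fun h : GG => T h s) := by
  rw [continuous_iff_continuousAt]
  intro x
  unfold ContinuousAt
  rw [Metric.tendsto_nhds]
  intro ε hε
  obtain ⟨A, hA⟩ := approx_T s (half_pos hε)
  have h1 : Tendsto (fun h : GG => x⁻¹ * h) (𝓝 x) (𝓝 1) := by
    have := (continuous_const_mul x⁻¹).tendsto (x : GG)
    rwa [inv_mul_cancel] at this
  filter_upwards [h1 (W_mem_nhds A)] with h hh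
  rw [dist_eq_norm]
  have : T h s - T x s = T x (T (x⁻¹ * h) s - s) := by
    rw [T_sub, ← T_mul, mul_inv_cancel_left]
  rw [this, norm_T]
  exact (hA _ hh).trans_lt (half_lt_self hε)

/-- inclusion as a continuous linear map -/
noncomputable def incL : SS →L[ℂ] Lp ℂ 1 mu :=
  LinearMap.mkContinuous inc 1 (fun s => by rw [one_mul]; exact norm_inc_le s)

theorem incL_apply (s : SS) : incL s = inc s := rfl

/-- the module action `f * s` -/
noncomputable def act (f : Lp ℂ 1 mu) (s : SS) : SS := ∫ y, (f : GG → ℂ) y • T y s ∂mu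

theorem integrable_act (f : Lp ℂ 1 mu) (s : SS) :
    Integrable (fun y => (f : GG → ℂ) y • T y s) mu :=
  integrable_smul_cont f (continuous_T s) (C := ‖s‖) (fun y => (norm_T y s).le)

@[simp] theorem inc_act (f : Lp ℂ 1 mu) (s : SS) : inc (act f s) = conv mu f (inc s) := by
  rw [← incL_apply]
  unfold act conv
  rw [← ContinuousLinearMap.integral_comp_comm _ (integrable_act f s)]
  refine integral_congr_ae (Eventually.of_forall fun y => ?_)
  simp only [map_smul, incL_apply, inc_T]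

theorem norm_act_le (f : Lp ℂ 1 mu) (s : SS) : ‖act f s‖ ≤ ‖f‖ * ‖s‖ :=
  norm_integral_smul_le f (fun y => (norm_T y s).le)

noncomputable instance : Mul SS := ⟨fun a b => act (inc a) b⟩

@[simp] theorem inc_mul (a b : SS) : inc (a * b) = conv mu (inc a) (inc b) := inc_act (inc a) b

theorem norm_mul_le' (a b : SS) : ‖a * b‖ ≤ ‖a‖ * ‖b‖ :=
  (norm_act_le (inc a) b).trans (mul_le_mul_of_nonneg_right (norm_inc_le a) (norm_nonneg b))

theorem conv_zero_left (f : Lp ℂ 1 mu) : conv mu 0 f = 0 := by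
  have := conv_smul_left 0 (0 : Lp ℂ 1 mu) f
  simpa using this

theorem conv_zero_right (f : Lp ℂ 1 mu) : conv mu f 0 = 0 := by
  have := conv_smul_right 0 f (0 : Lp ℂ 1 mu)
  simpa using this

noncomputable instance : NonUnitalNormedRing SS :=
  { (inferInstance : NormedAddCommGroup SS), (inferInstance : Mul SS) with
    left_distrib := fun a b c => inc_injective (by
      rw [inc_mul, map_add, map_add, inc_mul, inc_mul, conv_add_right])
    right_distrib := fun a b c => inc_injective (by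
      rw [inc_mul, map_add, map_add, inc_mul, inc_mul, conv_add_left])
    zero_mul := fun a => inc_injective (by rw [inc_mul, map_zero, conv_zero_left])
    mul_zero := fun a => inc_injective (by rw [inc_mul, map_zero, conv_zero_right])
    mul_assoc := fun a b c => inc_injective (by
      rw [inc_mul, inc_mul, inc_mul, inc_mul, conv_assoc])
    norm_mul_le := norm_mul_le' }

instance : IsScalarTower ℂ SS SS := ⟨fun c a b => inc_injective (by
  change inc ((c • a) * b) = inc (c • (a * b))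
  rw [inc_mul, map_smul, map_smul, inc_mul, conv_smul_left])⟩

instance : SMulCommClass ℂ SS SS := ⟨fun c a b => inc_injective (by
  change inc (c • (a * b)) = inc (a * (c • b))
  rw [inc_mul, map_smul, map_smul, inc_mul, conv_smul_right])⟩

end Pool.Agent.Helper239.ApE
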