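import Mathlib
import Pool.Agent.Helper239.ApE

open MeasureTheory Filter Topology
open scoped ENNReal ZeroAtInfty
open Pool.Agent.Helper239.ApDefs Pool.Agent.Helper239.ApB Pool.Agent.Helper239.ApB.GG
open Pool.Agent.Helper239.ApC Pool.Agent.Helper239.ApD Pool.Agent.Helper239.ApE

namespace Pool.Agent.Helper239.ApF

/-- windows -/
def win (L N : ℕ) : Finset (ℕ × ℕ) := Finset.range (2 ^ L) ×ˢ Finset.range N

theorem mem_win {L N : ℕ} {p : ℕ × ℕ} : p ∈ win L N ↔ p.1 < 2 ^ L ∧ p.2 < N := by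
  simp [win]

theorem win_mono {L N L' N' : ℕ} (h : L ≤ L') (h' : N ≤ N') : win L N ⊆ win L' N' := by
  intro p hp
  rw [mem_win] at hp ⊢
  exact ⟨hp.1.trans_le (Nat.pow_le_pow_right (by norm_num) h), hp.2.trans_le h'⟩

theorem inv_win {L N n : ℕ} (hn : n < 2 ^ L) : Inv (win L N) n := by
  intro p hp
  rw [mem_win] at hp ⊢
  exact ⟨Nat.xor_lt_two_pow hp.1 hn, hp.2⟩

theorem exists_win (A : Finset (ℕ × ℕ)) : ∃ R, ∀ L N, R ≤ L → R ≤ N → A ⊆ win L N := by
  refine ⟨∑ p ∈ A, (p.1 + p.2 + 1), fun L N hL hN p hp => ?_⟩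
  have h1 : p.1 + p.2 + 1 ≤ ∑ p ∈ A, (p.1 + p.2 + 1) :=
    Finset.single_le_sum (f := fun p : ℕ × ℕ => p.1 + p.2 + 1) (fun _ _ => Nat.zero_le _) hp
  rw [mem_win]
  have h2 : p.1 < 2 ^ p.1 := Nat.lt_two_pow_self
  have h3 : 2 ^ p.1 ≤ 2 ^ L := Nat.pow_le_pow_right (by norm_num) (by omega)
  omega

/-- span of all translates of the `e A`. -/
noncomputable def D0 : Submodule ℂ (Lp ℂ 1 mu) :=
  Submodule.span ℂ {f | ∃ (y : GG) (A : Finset (ℕ × ℕ)), f = lt mu y (e A)}

/-- cosets -/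
def cs (A : Finset (ℕ × ℕ)) (y : GG) : Set GG := {x | y⁻¹ * x ∈ W A}

theorem self_mem_cs (A : Finset (ℕ × ℕ)) (y : GG) : y ∈ cs A y := by
  simp [cs, one_mem_W]

theorem isOpen_cs (A : Finset (ℕ × ℕ)) (y : GG) : IsOpen (cs A y) :=
  (isOpen_W A).preimage (continuous_const_mul y⁻¹)

theorem measure_cs (A : Finset (ℕ × ℕ)) (y : GG) : mu (cs A y) = mu (W A) :=
  measure_preimage_mul mu y⁻¹ _

theorem measure_cs_ne_top (A : Finset (ℕ × ℕ)) (y : GG) : mu (cs A y) ≠ ∞ := by
  rw [measure_cs]; exact measure_W_ne_top A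

theorem mem_cs_trans {A : Finset (ℕ × ℕ)} {x y w : GG} (h1 : x ∈ cs A y) (h2 : w ∈ cs A x) :
    w ∈ cs A y := by
  have := mul_mem_W h1 h2
  change y⁻¹ * w ∈ W A
  have h3 : y⁻¹ * w = y⁻¹ * x * (x⁻¹ * w) := by group
  rwa [h3]

theorem mem_cs_symm {A : Finset (ℕ × ℕ)} {x y : GG} (h1 : x ∈ cs A y) : y ∈ cs A x := by
  have := inv_mem_W h1
  change x⁻¹ * y ∈ W A
  have h3 : x⁻¹ * y = (y⁻¹ * x)⁻¹ := by group
  rwa [h3]

theorem ind_smul {S : Set GG} (hS : MeasurableSet S) (hμ : mu S ≠ ∞) (c : ℂ) :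
    indicatorConstLp 1 hS hμ c = c • indicatorConstLp 1 hS hμ (1 : ℂ) := by
  refine Lp.ext ?_
  filter_upwards [Lp.coeFn_smul c (indicatorConstLp 1 hS hμ (1 : ℂ)),
    indicatorConstLp_coeFn (p := 1) (hs := hS) (hμs := hμ) (c := (1 : ℂ)),
    indicatorConstLp_coeFn (p := 1) (hs := hS) (hμs := hμ) (c := c)] with x h3 h4 h5
  rw [h5, h3, Pi.smul_apply, h4]
  by_cases h : x ∈ S <;> simp [h]

theorem ind_congr {S S' : Set GG} (h : S = S') (hS : MeasurableSet S) (hμ : mu S ≠ ∞)
    (hS' : MeasurableSet S') (hμ' : mu S' ≠ ∞) :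
    indicatorConstLp 1 hS hμ (1 : ℂ) = indicatorConstLp 1 hS' hμ' (1 : ℂ) := by
  subst h; rfl

theorem ind_cs (A : Finset (ℕ × ℕ)) (y : GG) :
    indicatorConstLp 1 (isOpen_cs A y).measurableSet (measure_cs_ne_top A y) (1 : ℂ) =
      (m A : ℂ) • lt mu y (e A) := by
  unfold e
  rw [lt_indicatorConstLp y _ _ _ (isOpen_cs A y).measurableSet (measure_cs_ne_top A y)
    fun _ => Iff.rfl]
  rw [ind_smul _ _ ((m A : ℂ)⁻¹), smul_smul, mul_inv_cancel₀ (m_ne A), one_smul]

/-- finite unions of cosets -/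
def Q (A : Finset (ℕ × ℕ)) (K : Finset GG) : Set GG := {x | ∃ y ∈ K, x ∈ cs A y}

theorem Q_mem (A : Finset (ℕ × ℕ)) (K : Finset GG) :
    ∀ (h1 : MeasurableSet (Q A K)) (h2 : mu (Q A K) ≠ ∞),
      indicatorConstLp 1 h1 h2 (1 : ℂ) ∈ D0 := by
  classical
  induction K using Finset.induction_on with
  | empty =>
    intro h1 h2
    have h : Q A ∅ = ∅ := by ext x; simp [Q]
    rw [ind_congr h h1 h2 MeasurableSet.empty (by simp), indicatorConstLp_empty]
    exact zero_mem _
  | insert y K hy ih =>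
    intro h1 h2
    by_cases hyK : y ∈ Q A K
    · have h : Q A (insert y K) = Q A K := by
        ext x
        simp only [Q, Set.mem_ofPred_eq, Finset.mem_insert, exists_eq_or_imp]
        constructor
        · rintro (h | h)
          · obtain ⟨w, hw, hyw⟩ := hyK
            exact ⟨w, hw, mem_cs_trans hyw h⟩
          · exact h
        · exact Or.inr
      have h1' : MeasurableSet (Q A K) := h ▸ h1
      have h2' : mu (Q A K) ≠ ∞ := h ▸ h2
      rw [ind_congr h h1 h2 h1' h2']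
      exact ih h1' h2'
    · have h : Q A (insert y K) = cs A y ∪ Q A K := by
        ext x
        simp only [Q, Set.mem_ofPred_eq, Finset.mem_insert, exists_eq_or_imp, Set.mem_union]
      have hd : Disjoint (cs A y) (Q A K) := by
        rw [Set.disjoint_left]
        rintro x hx ⟨w, hw, hxw⟩
        exact hyK ⟨w, hw, mem_cs_trans hxw (mem_cs_symm hx)⟩
      have h1' : MeasurableSet (Q A K) := by
        have : Q A K = ⋃ y ∈ K, cs A y := by ext x; simp [Q]
        rw [this]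
        exact Finset.measurableSet_biUnion _ fun y _ => (isOpen_cs A y).measurableSet
      have h2' : mu (Q A K) ≠ ∞ :=
        ne_top_of_le_ne_top h2 (measure_mono (by rw [h]; exact Set.subset_union_right))
      have hu := (isOpen_cs A y).measurableSet.union h1'
      have hμu : mu (cs A y ∪ Q A K) ≠ ∞ := h ▸ h2
      rw [ind_congr h h1 h2 hu hμu]
      rw [indicatorConstLp_disjoint_union (isOpen_cs A y).measurableSet h1'
        (measure_cs_ne_top A y) h2' hd, ind_cs]
      refine add_mem (Submodule.smul_mem _ _ (Submodule.subset_span ⟨y, A, rfl⟩)) (ih h1' h2')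

/-- nice inner approximations of an open set -/
def OR (O : Set GG) (R : ℕ) : Set GG := {x | x.s < 2 ^ R ∧ ∀ u ∈ W (win R R), x * u ∈ O}

theorem OR_subset (O : Set GG) (R : ℕ) : OR O R ⊆ O := fun x hx => by
  simpa using hx.2 1 (one_mem_W _)

theorem mul_mem_OR {O : Set GG} {R : ℕ} {x u : GG} (hx : x ∈ OR O R) (hu : u ∈ W (win R R)) :
    x * u ∈ OR O R := ⟨by rw [s_mul, hu.1, Nat.xor_zero]; exact hx.1, fun v hv => by
  rw [mul_assoc]; exact hx.2 _ (mul_mem_W hu hv)⟩

theorem cs_subset_OR {O : Set GG} {R : ℕ} {x : GG} (hx : x ∈ OR O R) :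
    cs (win R R) x ⊆ OR O R := fun y hy => by
  have := mul_mem_OR hx hy
  rwa [mul_inv_cancel_left] at this

theorem isOpen_OR (O : Set GG) (R : ℕ) : IsOpen (OR O R) := by
  rw [isOpen_iff_mem_nhds]
  intro x hx
  exact mem_of_superset ((isOpen_cs _ x).mem_nhds (self_mem_cs _ x)) (cs_subset_OR hx)

theorem isClosed_OR (O : Set GG) (R : ℕ) : IsClosed (OR O R) := by
  rw [← isOpen_compl_iff, isOpen_iff_mem_nhds]
  intro x hx
  refine mem_of_superset ((isOpen_cs (win R R) x).mem_nhds (self_mem_cs _ x)) fun y hy hy' => ?_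
  exact hx (cs_subset_OR hy' (mem_cs_symm hy))

theorem isCompact_GL (n : ℕ) : IsCompact {x : GG | x.s < n} := by
  have h : {x : GG | x.s < n} = ⋃ i ∈ Finset.range n, {x : GG | x.s = i} := by
    ext x; simp
  rw [h]
  exact Finset.isCompact_biUnion _ fun i _ => isCompact_piece i

theorem isOpen_GL (n : ℕ) : IsOpen {x : GG | x.s < n} :=
  (isOpen_discrete {i : ℕ | i < n}).preimage continuous_s

theorem isCompact_OR (O : Set GG) (R : ℕ) : IsCompact (OR O R) :=
  (isCompact_GL (2 ^ R)).of_isClosed_subset (isClosed_OR O R) fun _ hx => hx.1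

theorem exists_K (O : Set GG) (R : ℕ) : ∃ K : Finset GG, OR O R = Q (win R R) K := by
  obtain ⟨K, hK1, hK2⟩ := (isCompact_OR O R).elim_nhds_subcover (fun y => cs (win R R) y)
    (fun y _ => (isOpen_cs _ y).mem_nhds (self_mem_cs _ y))
  refine ⟨K, subset_antisymm ?_ ?_⟩
  · intro x hx
    have := hK2 hx
    simpa [Q] using this
  · rintro x ⟨y, hy, hxy⟩
    exact cs_subset_OR (hK1 y hy) hxy

theorem OR_mem (O : Set GG) (R : ℕ) (h2 : mu (OR O R) ≠ ∞) :
    indicatorConstLp 1 (isOpen_OR O R).measurableSet h2 (1 : ℂ) ∈ D0 := by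
  obtain ⟨K, hK⟩ := exists_K O R
  have h1' : MeasurableSet (Q (win R R) K) := hK ▸ (isOpen_OR O R).measurableSet
  have h2' : mu (Q (win R R) K) ≠ ∞ := hK ▸ h2
  rw [ind_congr hK _ h2 h1' h2']
  exact Q_mem _ K h1' h2'

theorem monotone_OR (O : Set GG) : Monotone (OR O) := by
  intro R S hRS x hx
  exact ⟨hx.1.trans_le (Nat.pow_le_pow_right (by norm_num) hRS), fun u hu =>
    hx.2 u (W_anti (win_mono hRS hRS) hu)⟩

theorem iUnion_OR {O : Set GG} (hO : IsOpen O) : ⋃ R, OR O R = O := by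
  refine subset_antisymm (Set.iUnion_subset (OR_subset O)) fun x hx => ?_
  obtain ⟨A, hA⟩ := exists_W_subset (hO.preimage (continuous_const_mul x)) (by simpa using hx)
  obtain ⟨R, hR⟩ := exists_win A
  refine Set.mem_iUnion.2 ⟨R + x.s, ?_, fun u hu => hA (W_anti (hR _ _ ?_ ?_) hu)⟩
  · have h1 : x.s < 2 ^ x.s := Nat.lt_two_pow_self
    exact h1.trans_le (Nat.pow_le_pow_right (by norm_num) (by omega))
  · omega
  · omega

theorem open_mem_closure {O : Set GG} (hO : IsOpen O) (hμ : mu O ≠ ∞) :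
    indicatorConstLp 1 hO.measurableSet hμ (1 : ℂ) ∈ D0.topologicalClosure := by
  have hμR : ∀ R, mu (OR O R) ≠ ∞ := fun R =>
    ne_top_of_le_ne_top hμ (measure_mono (OR_subset O R))
  have h1 : Tendsto (fun R => mu (symmDiff (OR O R) O)) atTop (𝓝 0) := by
    have h2 : ∀ R, symmDiff (OR O R) O = O \ OR O R := by
      intro R
      rw [Set.symmDiff_def, Set.sdiff_eq_empty.2 (OR_subset O R), Set.empty_union]
    simp only [h2]
    have h3 : Antitone (fun R => O \ OR O R) := fun R S h =>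
      Set.sdiff_subset_sdiff_right (monotone_OR O h)
    have h4 := tendsto_measure_iInter_atTop (μ := mu) (s := fun R => O \ OR O R)
      (fun R => (hO.measurableSet.diff (isOpen_OR O R).measurableSet).nullMeasurableSet) h3
      ⟨0, ne_top_of_le_ne_top hμ (measure_mono Set.sdiff_subset)⟩
    rw [← Set.sdiff_iUnion, iUnion_OR hO, Set.sdiff_self, measure_empty] at h4
    exact h4
  have h5 := tendsto_indicatorConstLp_set (p := 1) (c := (1 : ℂ)) (μ := mu) (l := atTop)
    (t := OR O) (s := O) (hs := hO.measurableSet) (hμs := hμ)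
    (ht := fun R => (isOpen_OR O R).measurableSet) (hμt := hμR) ENNReal.one_ne_top h1
  refine mem_closure_of_tendsto h5 (Eventually.of_forall fun R => ?_)
  exact OR_mem O R (hμR R)

theorem measurable_mem_closure {s : Set GG} (hs : MeasurableSet s) (hμ : mu s ≠ ∞) :
    indicatorConstLp 1 hs hμ (1 : ℂ) ∈ D0.topologicalClosure := by
  have h0 : ∀ m : ℕ, ∃ O : Set GG, s ⊆ O ∧ IsOpen O ∧ mu O < ∞ ∧
      mu (O \ s) < ENNReal.ofReal (1 / ((m : ℝ) + 1)) := by
    intro m
    obtain ⟨O, h1, h2, h3, h4⟩ := hs.exists_isOpen_sdiff_lt hμ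
      (ε := ENNReal.ofReal (1 / ((m : ℝ) + 1)))
      (by rw [Ne, ENNReal.ofReal_eq_zero, not_le]; positivity)
    exact ⟨O, h1, h2, h3, h4⟩
  choose O h1 h2 h3 h4 using h0
  have h5 : Tendsto (fun m => mu (symmDiff (O m) s)) atTop (𝓝 0) := by
    have h6 : ∀ m, symmDiff (O m) s = O m \ s := by
      intro m
      rw [Set.symmDiff_def, Set.sdiff_eq_empty.2 (h1 m), Set.union_empty]
    simp only [h6]
    refine tendsto_of_tendsto_of_tendsto_of_le_of_le tendsto_const_nhds ?_
      (fun _ => zero_le) (fun m => (h4 m).le)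
    have h7 := ENNReal.tendsto_ofReal
      (tendsto_one_div_add_atTop_nhds_zero_nat (𝕜 := ℝ))
    rwa [ENNReal.ofReal_zero] at h7
  have h5 := tendsto_indicatorConstLp_set (p := 1) (c := (1 : ℂ)) (μ := mu) (l := atTop)
    (t := O) (s := s) (hs := hs) (hμs := hμ)
    (ht := fun m => (h2 m).measurableSet) (hμt := fun m => (h3 m).ne) ENNReal.one_ne_top h5
  exact (Submodule.isClosed_topologicalClosure D0).mem_of_tendsto h5
    (Eventually.of_forall fun m => open_mem_closure (h2 m) (h3 m).ne)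

theorem mem_closure (f : Lp ℂ 1 mu) : f ∈ D0.topologicalClosure := by
  refine Lp.induction ENNReal.one_ne_top (motive := fun f => f ∈ D0.topologicalClosure)
    ?_ ?_ ?_ f
  · intro c s hs hμ
    have h1 := measurable_mem_closure hs hμ.ne
    have h2 := D0.topologicalClosure.smul_mem c h1
    convert h2 using 1
    rw [Lp.simpleFunc.coe_indicatorConst]
    exact ind_smul _ _ _
  · intro f g hf hg _ h1 h2
    exact add_mem h1 h2
  · exact Submodule.isClosed_topologicalClosure D0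

theorem exists_D0 (f : Lp ℂ 1 mu) {ε : ℝ} (hε : 0 < ε) : ∃ g ∈ D0, ‖f - g‖ < ε := by
  have h := mem_closure f
  change f ∈ closure (D0 : Set (Lp ℂ 1 mu)) at h
  obtain ⟨g, hg, hfg⟩ := Metric.mem_closure_iff.1 h ε hε
  exact ⟨g, hg, by rwa [dist_eq_norm] at hfg⟩

/-- the range of `inc` as a submodule contains `D0` -/
theorem D0_le_range : D0 ≤ LinearMap.range inc := by
  refine Submodule.span_le.2 ?_
  rintro f ⟨y, A, rfl⟩
  exact ⟨mkS _ (mem_lt (mem_e A) y), inc_mkS _ _⟩

theorem denseRange_inc : DenseRange inc := by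
  intro f
  rw [Metric.mem_closure_iff]
  intro ε hε
  obtain ⟨g, hg, hfg⟩ := exists_D0 f hε
  obtain ⟨s, hs⟩ := D0_le_range hg
  exact ⟨inc s, ⟨s, rfl⟩, by rw [dist_eq_norm, hs]; exact hfg⟩

theorem isSegal : IsSegalAlgebra mu SS inc where
  injective := inc_injective
  complete := inferInstance
  norm_le := norm_inc_le
  map_mul := inc_mul
  dense := denseRange_inc
  ideal := fun f s => ⟨act f s, inc_act f s⟩
  translate := fun x s => ⟨T x s, inc_T x s, norm_T x s⟩
  continuous_translate := by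
    intro s T' hT'
    have h : T' = fun x => T x s := by
      funext x
      exact inc_injective (by rw [hT', inc_T])
    rw [h]
    exact continuous_T s

/-- `e A` in the Segal algebra -/
noncomputable def eS (A : Finset (ℕ × ℕ)) : SS := mkS (e A) (mem_e A)

@[simp] theorem inc_eS (A : Finset (ℕ × ℕ)) : inc (eS A) = e A := rfl

theorem not_surjective : ¬ Function.Surjective inc := by
  intro hs
  obtain ⟨C, hC, h⟩ := incL.exists_preimage_norm_le hs
  obtain ⟨n, hn⟩ := exists_nat_gt C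
  obtain ⟨s, hs1, hs2⟩ := h (e {((0 : ℕ), n)})
  rw [norm_e, mul_one] at hs2
  have h1 := le_norm s ((0 : ℕ), n)
  rw [incL_apply] at hs1
  rw [hs1, phi_e, if_pos (Finset.mem_singleton_self _)] at h1
  simp only [wt, norm_one, mul_one] at h1
  linarith

end Pool.Agent.Helper239.ApF
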