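import Mathlib
import Pool.Agent.Helper239.ApF

open MeasureTheory Filter Topology
open scoped ENNReal ZeroAtInfty
open Pool.Agent.Helper239.ApDefs Pool.Agent.Helper239.ApB Pool.Agent.Helper239.ApB.GG
open Pool.Agent.Helper239.ApC Pool.Agent.Helper239.ApD Pool.Agent.Helper239.ApE
open Pool.Agent.Helper239.ApF

namespace Pool.Agent.Helper239.ApG

/-- span of the translates of `e B` by elements of the subgroup `{s < n}`. -/
noncomputable def EB (n : ℕ) (B : Finset (ℕ × ℕ)) : Submodule ℂ (Lp ℂ 1 mu) :=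
  Submodule.span ℂ {f | ∃ y : GG, y.s < n ∧ f = lt mu y (e B)}

theorem lt_e_mem_union (n : ℕ) (R : Finset (ℕ × ℕ)) : ∀ (A : Finset (ℕ × ℕ)) (y : GG), y.s < n →
    lt mu y (e A) ∈ EB n (A ∪ R) := by
  induction R using Finset.induction_on with
  | empty =>
    intro A y hy
    rw [Finset.union_empty]
    exact Submodule.subset_span ⟨y, hy, rfl⟩
  | insert b R hb ih =>
    intro A y hy
    by_cases hbA : b ∈ A
    · have : A ∪ insert b R = A ∪ R := by
        rw [Finset.union_insert, Finset.insert_eq_of_mem (Finset.mem_union_left _ hbA)]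
      rw [this]; exact ih A y hy
    · have h1 : A ∪ insert b R = insert b A ∪ R := by
        rw [Finset.union_insert, Finset.insert_union]
      rw [h1, e_eq_P hbA, P, lt_smul, lt_add, ← lt_mul]
      refine Submodule.smul_mem _ _ (add_mem (ih _ y hy) (ih _ (y * z b) ?_))
      simpa using hy

theorem lt_e_mem {n : ℕ} {A B : Finset (ℕ × ℕ)} (h : A ⊆ B) {y : GG} (hy : y.s < n) :
    lt mu y (e A) ∈ EB n B := by
  have := lt_e_mem_union n B A y hy
  rwa [Finset.union_eq_right.2 h] at this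

theorem EB_mono {n n' : ℕ} {A B : Finset (ℕ × ℕ)} (h : A ⊆ B) (hn : n ≤ n') :
    EB n A ≤ EB n' B := by
  refine Submodule.span_le.2 ?_
  rintro f ⟨y, hy, rfl⟩
  exact lt_e_mem h (hy.trans_le hn)

/-- the finite-dimensional pieces -/
noncomputable def EL (L : ℕ) : Submodule ℂ (Lp ℂ 1 mu) := EB (2 ^ L) (win L L)

theorem EL_mono {L L' : ℕ} (h : L ≤ L') : EL L ≤ EL L' :=
  EB_mono (win_mono h h) (Nat.pow_le_pow_right (by norm_num) h)

theorem D0_mem_EL {g : Lp ℂ 1 mu} (hg : g ∈ D0) : ∃ L0, ∀ L, L0 ≤ L → g ∈ EL L := by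
  refine Submodule.span_induction ?_ ?_ ?_ ?_ hg
  · rintro f ⟨y, A, rfl⟩
    obtain ⟨R, hR⟩ := exists_win A
    refine ⟨R + y.s, fun L hL => lt_e_mem (hR L L (by omega) (by omega)) ?_⟩
    have h1 : y.s < 2 ^ y.s := Nat.lt_two_pow_self
    exact h1.trans_le (Nat.pow_le_pow_right (by norm_num) (by omega))
  · exact ⟨0, fun L _ => zero_mem _⟩
  · rintro f g - - ⟨L1, h1⟩ ⟨L2, h2⟩
    exact ⟨max L1 L2, fun L hL => add_mem (h1 L (le_trans (le_max_left _ _) hL))
      (h2 L (le_trans (le_max_right _ _) hL))⟩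
  · rintro c f - ⟨L1, h1⟩
    exact ⟨L1, fun L hL => Submodule.smul_mem _ _ (h1 L hL)⟩

theorem exists_EL (f : Lp ℂ 1 mu) {ε : ℝ} (hε : 0 < ε) :
    ∃ L0, ∀ L, L0 ≤ L → ∃ g ∈ EL L, ‖f - g‖ < ε := by
  obtain ⟨g, hg, hfg⟩ := exists_D0 f hε
  obtain ⟨L0, hL⟩ := D0_mem_EL hg
  exact ⟨L0, fun L h => ⟨g, hL L h, hfg⟩⟩

theorem conv_gen_left {L N : ℕ} (hN : N ≤ L) {y : GG} (hy : y.s < 2 ^ L) :
    conv mu (e (win L N)) (lt mu y (e (win L L))) = lt mu y (e (win L N)) := by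
  rw [conv_e_lt (inv_win hy), conv_e_small (win_mono le_rfl hN)]

theorem conv_gen_right {L N : ℕ} (hN : N ≤ L) (y : GG) :
    conv mu (lt mu y (e (win L L))) (e (win L N)) = lt mu y (e (win L N)) := by
  rw [← lt_conv, conv_e_big (win_mono le_rfl hN)]

theorem conv_comm_EL {L N : ℕ} (hN : N ≤ L) {g : Lp ℂ 1 mu} (hg : g ∈ EL L) :
    conv mu (e (win L N)) g = conv mu g (e (win L N)) := by
  refine Submodule.span_induction ?_ ?_ ?_ ?_ hg
  · rintro f ⟨y, hy, rfl⟩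
    rw [conv_gen_left hN hy, conv_gen_right hN y]
  · rw [conv_zero_left, conv_zero_right]
  · rintro f g - - h1 h2
    rw [conv_add_left, conv_add_right, h1, h2]
  · rintro c f - h1
    rw [conv_smul_left, conv_smul_right, h1]

/-- the sign element -/
def zz (J0 : ℕ) : GG := GG.mk (fun p => if p.1 < 2 ^ J0 then 1 else -1) 0

/-- pure shifts -/
def sg (n : ℕ) : GG := GG.mk 1 n

@[simp] theorem zz_s (J0 : ℕ) : (zz J0).s = 0 := rfl
@[simp] theorem sg_s (n : ℕ) : (sg n).s = n := rfl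

theorem zz_mem (J0 N : ℕ) : zz J0 ∈ W (win J0 N) :=
  ⟨rfl, fun p hp => by simp only [zz, k_mk]; rw [if_pos (mem_win.1 hp).1]⟩

/-- the bounded left units -/
noncomputable def vL (J0 J N : ℕ) : Lp ℂ 1 mu :=
  e (win J N) - ((1 / (2 * 2 ^ J) : ℝ) : ℂ) • ∑ n ∈ Finset.range (2 ^ J),
    (lt mu (sg n) (e (win J N)) - lt mu (sg n) (lt mu (zz J0) (e (win J N))))

theorem norm_vL_le (J0 J N : ℕ) : ‖vL J0 J N‖ ≤ 2 := by
  unfold vL
  have h1 : ‖∑ n ∈ Finset.range (2 ^ J),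
      (lt mu (sg n) (e (win J N)) - lt mu (sg n) (lt mu (zz J0) (e (win J N))))‖ ≤
      ∑ n ∈ Finset.range (2 ^ J), (2 : ℝ) := by
    refine norm_sum_le_of_le _ fun n _ => ?_
    refine (norm_sub_le _ _).trans ?_
    rw [norm_lt, norm_lt, norm_lt, norm_e]; norm_num
  rw [Finset.sum_const, Finset.card_range, nsmul_eq_mul] at h1
  push_cast at h1
  refine (norm_sub_le _ _).trans ?_
  rw [norm_e, norm_smul, Complex.norm_real, Real.norm_of_nonneg (by positivity)]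
  have h2 : (1 / (2 * 2 ^ J) : ℝ) * ‖∑ n ∈ Finset.range (2 ^ J),
      (lt mu (sg n) (e (win J N)) - lt mu (sg n) (lt mu (zz J0) (e (win J N))))‖ ≤
      (1 / (2 * 2 ^ J) : ℝ) * (2 ^ J * 2) := by gcongr
  have h3 : (1 / (2 * 2 ^ J) : ℝ) * (2 ^ J * 2) = 1 := by field_simp
  linarith

theorem conv_sum_left (ι : Type) (I : Finset ι) (f : ι → Lp ℂ 1 mu) (g : Lp ℂ 1 mu) :
    conv mu (∑ i ∈ I, f i) g = ∑ i ∈ I, conv mu (f i) g := by
  rw [← convR_apply, map_sum]; rfl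

theorem conv_sub_left (f g h : Lp ℂ 1 mu) : conv mu (f - g) h = conv mu f h - conv mu g h := by
  rw [← convR_apply, ← convR_apply, ← convR_apply, map_sub]

theorem conv_sub_right (f g h : Lp ℂ 1 mu) : conv mu f (g - h) = conv mu f g - conv mu f h := by
  rw [sub_eq_add_neg, conv_add_right, ← neg_one_smul ℂ h, conv_smul_right, neg_one_smul,
    ← sub_eq_add_neg]

theorem conv_vL {J0 J N : ℕ} (hJ : J0 ≤ J) : conv mu (vL J0 J N) (e (win J0 N)) = e (win J0 N) := by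
  unfold vL
  rw [conv_sub_left, conv_smul_left, conv_sum_left, conv_e_big (win_mono hJ le_rfl)]
  have h1 : ∀ n ∈ Finset.range (2 ^ J), conv mu (lt mu (sg n) (e (win J N)) -
      lt mu (sg n) (lt mu (zz J0) (e (win J N)))) (e (win J0 N)) = 0 := by
    intro n _
    rw [conv_sub_left, ← lt_conv, ← lt_conv, ← lt_conv, conv_e_big (win_mono hJ le_rfl),
      lt_e (zz_mem J0 N), sub_self]
  rw [Finset.sum_congr rfl h1]
  simp

theorem vL_mem_EB (J0 J N : ℕ) : vL J0 J N ∈ EB (2 ^ J) (win J N) := by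
  unfold vL
  refine sub_mem ?_ (Submodule.smul_mem _ _ (Submodule.sum_mem _ fun n hn => sub_mem ?_ ?_))
  · have h := lt_e_mem (n := 2 ^ J) (A := win J N) (B := win J N) subset_rfl (y := 1) (by simp)
    rwa [lt_one] at h
  · exact lt_e_mem subset_rfl (Finset.mem_range.1 hn)
  · rw [← lt_mul]
    refine lt_e_mem subset_rfl ?_
    simpa using Finset.mem_range.1 hn

theorem conv_e_of_mem_EB {n J N : ℕ} (hn : n ≤ 2 ^ J) {g : Lp ℂ 1 mu} (hg : g ∈ EB n (win J N)) :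
    conv mu (e (win J N)) g = g := by
  refine Submodule.span_induction ?_ ?_ ?_ ?_ hg
  · rintro f ⟨y, hy, rfl⟩
    exact conv_e_lt_e subset_rfl (inv_win (hy.trans_le hn))
  · rw [conv_zero_right]
  · rintro f g - - h1 h2
    rw [conv_add_right, h1, h2]
  · rintro c f - h1
    rw [conv_smul_right, h1]

theorem vL_mem_EL {J0 J N L : ℕ} (hJ : J ≤ L) (hN : N ≤ L) : vL J0 J N ∈ EL L :=
  EB_mono (win_mono hJ hN) (Nat.pow_le_pow_right (by norm_num) hJ) (vL_mem_EB J0 J N)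

theorem sum_xor {J i : ℕ} (hi : i < 2 ^ J) (h : ℕ → ℂ) :
    ∑ n ∈ Finset.range (2 ^ J), h (i ^^^ n) = ∑ n ∈ Finset.range (2 ^ J), h n := by
  refine Finset.sum_nbij' (fun n => i ^^^ n) (fun n => i ^^^ n) ?_ ?_ ?_ ?_ ?_
  · intro n hn
    rw [Finset.mem_range] at hn ⊢
    exact Nat.xor_lt_two_pow hi hn
  · intro n hn
    rw [Finset.mem_range] at hn ⊢
    exact Nat.xor_lt_two_pow hi hn
  · intro n _
    simp
  · intro n _
    simp
  · intro n _
    rfl

theorem sum_sign {J0 J : ℕ} (hJ : J0 ≤ J) :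
    ∑ n ∈ Finset.range (2 ^ J), (1 - (if n < 2 ^ J0 then (1 : ℂ) else -1)) =
      2 * (2 ^ J - 2 ^ J0) := by
  have h1 : ∀ n ∈ Finset.range (2 ^ J), (1 - (if n < 2 ^ J0 then (1 : ℂ) else -1)) =
      2 - (if n < 2 ^ J0 then (2 : ℂ) else 0) := by
    intro n _
    split_ifs <;> norm_num
  have h2 : Finset.filter (fun n => n < 2 ^ J0) (Finset.range (2 ^ J)) = Finset.range (2 ^ J0) := by
    ext n
    simp only [Finset.mem_filter, Finset.mem_range]
    have : 2 ^ J0 ≤ 2 ^ J := Nat.pow_le_pow_right (by norm_num) hJ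
    omega
  rw [Finset.sum_congr rfl h1, Finset.sum_sub_distrib, ← Finset.sum_filter, h2]
  simp only [Finset.sum_const, Finset.card_range, nsmul_eq_mul]
  push_cast
  ring

theorem mem_win_sh {J N n : ℕ} (hn : n < 2 ^ J) (p : ℕ × ℕ) :
    sh n p ∈ win J N ↔ p ∈ win J N := by
  constructor
  · intro h
    have := inv_win hn _ h
    rwa [sh_self] at this
  · exact fun h => inv_win hn _ h

theorem phi_vL {J0 J N : ℕ} (hJ : J0 ≤ J) (p : ℕ × ℕ) :
    phi p (vL J0 J N) = if p ∈ win J N then (2 ^ J0 / 2 ^ J : ℂ) else 0 := by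
  unfold vL
  rw [map_sub, map_smul, map_sum, phi_e]
  have h1 : ∀ n ∈ Finset.range (2 ^ J), phi p (lt mu (sg n) (e (win J N)) -
      lt mu (sg n) (lt mu (zz J0) (e (win J N)))) =
      if p ∈ win J N then (1 - (if p.1 ^^^ n < 2 ^ J0 then (1 : ℂ) else -1)) else 0 := by
    intro n hn
    have hn' := Finset.mem_range.1 hn
    rw [map_sub, phi_lt, phi_lt, phi_lt, sg_s, zz_s, sh_zero, phi_e]
    simp only [mem_win_sh hn' p]
    have h2 : chi p (sg n) = 1 := by simp [chi, sg]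
    rw [h2]
    by_cases hp : p ∈ win J N
    · rw [if_pos hp, if_pos hp]
      have h3 : chi (sh n p) (zz J0) = (if p.1 ^^^ n < 2 ^ J0 then (1 : ℂ) else -1) := by
        have h4 : (zz J0).k (sh n p) = if p.1 ^^^ n < 2 ^ J0 then 1 else -1 := rfl
        unfold chi
        rw [h4]
        split_ifs <;> simp
      rw [h3]; ring
    · rw [if_neg hp, if_neg hp]; ring
  rw [Finset.sum_congr rfl h1]
  by_cases hp : p ∈ win J N
  · simp only [if_pos hp]
    rw [sum_xor (mem_win.1 hp).1 (fun n => (1 - (if n < 2 ^ J0 then (1 : ℂ) else -1))),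
      sum_sign hJ]
    have h3 : (2 ^ J : ℂ) ≠ 0 := pow_ne_zero _ two_ne_zero
    rw [smul_eq_mul]
    push_cast
    field_simp
    ring
  · simp [hp]

theorem mem_vL {J0 J N : ℕ} (hJ : J0 ≤ J) : Mem (vL J0 J N) := by
  refine tendsto_const_nhds.congr' ?_
  have : ∀ᶠ p in cofinite, p ∉ win J N := (win J N).finite_toSet.compl_mem_cofinite
  filter_upwards [this] with p hp
  rw [phi_vL hJ, if_neg hp]; simp

theorem wt_le_of_mem_win {L N : ℕ} {p : ℕ × ℕ} (hp : p ∈ win L N) : wt p ≤ N := by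
  have h := (mem_win.1 hp).2
  unfold wt
  have h2 : (p.2 + 1 : ℕ) ≤ N := h
  exact_mod_cast h2

theorem norm_vS_le {J0 J N : ℕ} (hJ : J0 ≤ J) (hN : N * 2 ^ J0 ≤ 2 ^ J) :
    ‖mkS (vL J0 J N) (mem_vL hJ)‖ ≤ 2 := by
  rw [norm_le_iff (by norm_num)]
  refine ⟨by rw [inc_mkS]; exact norm_vL_le J0 J N, fun p => ?_⟩
  rw [inc_mkS, phi_vL hJ]
  split_ifs with hp
  · have h1 := wt_le_of_mem_win hp
    have h2 : ‖(2 ^ J0 / 2 ^ J : ℂ)‖ = 2 ^ J0 / 2 ^ J := by simp
    rw [h2]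
    have h3 : (N : ℝ) * 2 ^ J0 ≤ 2 ^ J := by exact_mod_cast hN
    calc wt p * (2 ^ J0 / 2 ^ J) ≤ N * (2 ^ J0 / 2 ^ J) := by gcongr
      _ = (N * 2 ^ J0) / 2 ^ J := by ring
      _ ≤ 1 := by rw [div_le_one (by positivity)]; exact h3
      _ ≤ 2 := by norm_num
  · simp

theorem norm_mul_le_inc (a b : SS) : ‖a * b‖ ≤ ‖inc a‖ * ‖b‖ := norm_act_le (inc a) b

theorem norm_eS_le {A : Finset (ℕ × ℕ)} {C : ℝ} (h1 : 1 ≤ C) (hC : ∀ p ∈ A, wt p ≤ C) :
    ‖eS A‖ ≤ C := by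
  rw [norm_le_iff (by linarith)]
  refine ⟨by rw [inc_eS, norm_e]; exact h1, fun p => ?_⟩
  rw [inc_eS, phi_e]
  split_ifs with hp
  · simpa using hC p hp
  · simp; linarith

/-- `e A * f` in the Segal algebra, for `f` in `L¹`. -/
noncomputable def eL (A : Finset (ℕ × ℕ)) (f : Lp ℂ 1 mu) : SS :=
  mkS (conv mu (e A) f) (mem_conv_e A f)

@[simp] theorem inc_eL (A : Finset (ℕ × ℕ)) (f : Lp ℂ 1 mu) : inc (eL A f) = conv mu (e A) f := rfl

theorem norm_eL_le {A : Finset (ℕ × ℕ)} {C : ℝ} (h1 : 1 ≤ C) (hC : ∀ p ∈ A, wt p ≤ C)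
    (f : Lp ℂ 1 mu) : ‖eL A f‖ ≤ C * ‖f‖ := by
  have hf := norm_nonneg f
  rw [norm_le_iff (by positivity)]
  constructor
  · rw [inc_eL]
    refine (norm_conv_le _ _).trans ?_
    rw [norm_e, one_mul]
    nlinarith
  · intro p
    rw [inc_eL, phi_conv_e]
    split_ifs with hp
    · have := hC p hp
      have h3 := norm_phi_le p f
      have h4 := (wt_pos p).le
      gcongr
    · simp only [norm_zero, mul_zero]; positivity

theorem eL_add (A : Finset (ℕ × ℕ)) (f g : Lp ℂ 1 mu) : eL A (f + g) = eL A f + eL A g :=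
  inc_injective (by rw [map_add, inc_eL, inc_eL, inc_eL, conv_add_right])

theorem eL_smul (A : Finset (ℕ × ℕ)) (c : ℂ) (f : Lp ℂ 1 mu) : eL A (c • f) = c • eL A f :=
  inc_injective (by rw [map_smul, inc_eL, inc_eL, conv_smul_right])

/-- `e A * s` is close to `s` for large `A`. -/
theorem approx_e (s : SS) {ε : ℝ} (hε : 0 < ε) :
    ∃ A, ∀ B, A ⊆ B → ‖eS B * s - s‖ ≤ ε := by
  obtain ⟨A, hA⟩ := approx_T s hε
  refine ⟨A, fun B hB => ?_⟩
  have h1 : eS B * s = ((m B : ℂ)⁻¹) • ∫ x in W B, T x s ∂mu := integral_e B _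
  have hint : IntegrableOn (fun x => T x s) (W B) mu :=
    ((continuous_T s).continuousOn).integrableOn_compact (isCompact_W B)
  have h2 : s = ((m B : ℂ)⁻¹) • ∫ x in W B, s ∂mu := by
    rw [setIntegral_const]
    have h1 : mu.real (W B) • s = (m B : ℂ) • s := (Complex.coe_smul (m B) s).symm
    rw [h1, smul_smul, inv_mul_cancel₀ (m_ne B), one_smul]
  have h3 : eS B * s - s = ((m B : ℂ)⁻¹) • ∫ x in W B, (T x s - s) ∂mu := by
    rw [integral_sub hint (integrableOn_const (measure_W_ne_top B)), smul_sub, ← h2, h1]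
  rw [h3, norm_smul]
  have h4 : ‖∫ x in W B, (T x s - s) ∂mu‖ ≤ ε * mu.real (W B) :=
    norm_setIntegral_le_of_norm_le_const (measure_W_ne_top B).lt_top
      fun x hx => hA x (W_anti hB hx)
  have h5 : ‖((m B : ℂ)⁻¹)‖ = (m B)⁻¹ := by
    rw [norm_inv, Complex.norm_real, Real.norm_of_nonneg (m_pos B).le]
  rw [h5]
  calc (m B)⁻¹ * ‖∫ x in W B, (T x s - s) ∂mu‖ ≤ (m B)⁻¹ * (ε * m B) := by
        have := (m_pos B).le
        gcongr
        exact h4
    _ = ε := by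
        have := (m_pos B).ne'
        field_simp

end Pool.Agent.Helper239.ApG
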