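import Mathlib
import Pool.Agent.Helper239.ApG
import Pool.Agent.Helper239.ApA

open MeasureTheory Filter Topology
open scoped ENNReal ZeroAtInfty
open Pool.Agent.Helper239.ApDefs Pool.Agent.Helper239.ApB Pool.Agent.Helper239.ApB.GG
open Pool.Agent.Helper239.ApC Pool.Agent.Helper239.ApD Pool.Agent.Helper239.ApE
open Pool.Agent.Helper239.ApF Pool.Agent.Helper239.ApG Pool.Agent.Helper239.ApA

namespace Pool.Agent.Helper239.ApH

universe w

/-- the compact open subgroup -/
def GLs (L : ℕ) : Set GG := {x | x.s < 2 ^ L}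

theorem isOpen_GLs (L : ℕ) : IsOpen (GLs L) := isOpen_GL _
theorem isCompact_GLs (L : ℕ) : IsCompact (GLs L) := isCompact_GL _
theorem measurableSet_GLs (L : ℕ) : MeasurableSet (GLs L) := (isOpen_GLs L).measurableSet
theorem measure_GLs_ne_top (L : ℕ) : mu (GLs L) ≠ ∞ := (isCompact_GLs L).measure_lt_top.ne

/-- measure of `GLs L` -/
noncomputable def mG (L : ℕ) : ℝ := mu.real (GLs L)

theorem mG_pos (L : ℕ) : 0 < mG L :=
  ENNReal.toReal_pos ((isOpen_GLs L).measure_pos mu ⟨1, by simp [GLs]⟩).ne' (measure_GLs_ne_top L)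

theorem mG_ne (L : ℕ) : (mG L : ℂ) ≠ 0 := by exact_mod_cast (mG_pos L).ne'

theorem setIntegral_GLs_mul {E : Type*} [NormedAddCommGroup E] [NormedSpace ℂ E] {L : ℕ} {y : GG}
    (hy : y.s < 2 ^ L) (F : GG → E) :
    ∫ x in GLs L, F (y * x) ∂mu = ∫ x in GLs L, F x ∂mu := by
  rw [← integral_indicator (measurableSet_GLs L), ← integral_indicator (measurableSet_GLs L)]
  rw [← integral_mul_left_eq_self (fun x => (GLs L).indicator F x) y]
  refine integral_congr_ae (Eventually.of_forall fun x => ?_)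
  have h : y * x ∈ GLs L ↔ x ∈ GLs L := by
    simp only [GLs, Set.mem_ofPred_eq, s_mul]
    constructor
    · intro h
      have := Nat.xor_lt_two_pow hy h
      rwa [← Nat.xor_assoc, Nat.xor_self, Nat.zero_xor] at this
    · intro h
      exact Nat.xor_lt_two_pow hy h
  by_cases hx : x ∈ GLs L
  · simp only [Set.indicator_of_mem hx, Set.indicator_of_mem (h.2 hx)]
  · simp only [Set.indicator_of_notMem hx, Set.indicator_of_notMem (fun h' => hx (h.1 h'))]

theorem setIntegral_const_complex {E : Type*} [NormedAddCommGroup E] [NormedSpace ℂ E]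
    [CompleteSpace E] (S : Set GG) (c : E) : ∫ _ in S, c ∂mu = ((mu.real S : ℝ) : ℂ) • c := by
  rw [setIntegral_const]
  exact (Complex.coe_smul _ _).symm

/-- `act f` as a continuous linear map -/
noncomputable def actL (f : Lp ℂ 1 mu) : SS →L[ℂ] SS :=
  LinearMap.mkContinuous
    { toFun := act f
      map_add' := fun s t => inc_injective (by
        rw [map_add, inc_act, inc_act, inc_act, map_add, conv_add_right])
      map_smul' := fun c s => inc_injective (by
        rw [RingHom.id_apply, map_smul, inc_act, inc_act, map_smul, conv_smul_right]) } ‖f‖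
    (fun s => norm_act_le f s)

theorem actL_apply (f : Lp ℂ 1 mu) (s : SS) : actL f s = act f s := rfl

theorem act_add (f g : Lp ℂ 1 mu) (s : SS) : act (f + g) s = act f s + act g s :=
  inc_injective (by rw [map_add, inc_act, inc_act, inc_act, conv_add_left])

theorem act_smul (c : ℂ) (f : Lp ℂ 1 mu) (s : SS) : act (c • f) s = c • act f s :=
  inc_injective (by rw [map_smul, inc_act, inc_act, conv_smul_left])

theorem act_inc (a s : SS) : act (inc a) s = a * s := rfl

section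

variable {X : Type w} [NormedAddCommGroup X] [NormedSpace ℂ X]
  (M : BanachBimodule SS X) (D : SS →L[ℂ] (X →L[ℂ] ℂ))

/-- the integrand -/
noncomputable def F (A : Finset (ℕ × ℕ)) (x x' : GG) : X →L[ℂ] ℂ :=
  dL M (T x (eS A)) (D (T x' (eS A)))

theorem continuous_F {A : Finset (ℕ × ℕ)} {f g : GG → GG} (hf : Continuous f) (hg : Continuous g) :
    Continuous (fun x => F M D A (f x) (g x)) := by
  have h1 : Continuous (fun x => dLL M (T (f x) (eS A))) :=
    (dLL M).continuous.comp ((continuous_T (eS A)).comp hf)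
  have h2 : Continuous (fun x => D (T (g x) (eS A))) :=
    D.continuous.comp ((continuous_T (eS A)).comp hg)
  exact h1.clm_apply h2

/-- the error integrand -/
noncomputable def I (A : Finset (ℕ × ℕ)) (r : Lp ℂ 1 mu) (x : GG) : X →L[ℂ] ℂ :=
  dL M (act r (T x (eS A))) (D (T x⁻¹ (eS A))) - dL M (T x (eS A)) (D (T x⁻¹ (eL A r)))

theorem continuous_I (A : Finset (ℕ × ℕ)) (r : Lp ℂ 1 mu) : Continuous (I M D A r) := by
  have h1 : Continuous (fun x => dLL M (actL r (T x (eS A)))) :=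
    (dLL M).continuous.comp ((actL r).continuous.comp (continuous_T (eS A)))
  have h2 : Continuous (fun x : GG => D (T x⁻¹ (eS A))) :=
    D.continuous.comp ((continuous_T (eS A)).comp continuous_inv)
  have h3 : Continuous (fun x => dLL M (T x (eS A))) :=
    (dLL M).continuous.comp (continuous_T (eS A))
  have h4 : Continuous (fun x : GG => D (T x⁻¹ (eL A r))) :=
    D.continuous.comp ((continuous_T (eL A r)).comp continuous_inv)
  exact (h1.clm_apply h2).sub (h3.clm_apply h4)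

theorem integrableOn_I (A : Finset (ℕ × ℕ)) (L : ℕ) (r : Lp ℂ 1 mu) :
    IntegrableOn (I M D A r) (GLs L) mu :=
  ((continuous_I M D A r).continuousOn).integrableOn_compact (isCompact_GLs L)

theorem I_add (A : Finset (ℕ × ℕ)) (r r' : Lp ℂ 1 mu) (x : GG) :
    I M D A (r + r') x = I M D A r x + I M D A r' x := by
  unfold I
  rw [act_add, dL_add, eL_add, T_add, map_add, map_add]
  abel

theorem I_smul (A : Finset (ℕ × ℕ)) (c : ℂ) (r : Lp ℂ 1 mu) (x : GG) :
    I M D A (c • r) x = c • I M D A r x := by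
  unfold I
  rw [act_smul, dL_smul, eL_smul, T_smul, map_smul, map_smul, smul_sub]

/-- the error term -/
noncomputable def Jr (A : Finset (ℕ × ℕ)) (L : ℕ) (r : Lp ℂ 1 mu) : X →L[ℂ] ℂ :=
  ((mG L : ℂ)⁻¹) • ∫ x in GLs L, I M D A r x ∂mu

theorem Jr_add (A : Finset (ℕ × ℕ)) (L : ℕ) (r r' : Lp ℂ 1 mu) :
    Jr M D A L (r + r') = Jr M D A L r + Jr M D A L r' := by
  unfold Jr
  simp only [I_add]
  rw [integral_add (integrableOn_I M D A L r) (integrableOn_I M D A L r'), smul_add]

theorem Jr_smul (A : Finset (ℕ × ℕ)) (L : ℕ) (c : ℂ) (r : Lp ℂ 1 mu) :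
    Jr M D A L (c • r) = c • Jr M D A L r := by
  unfold Jr
  simp only [I_smul]
  rw [integral_smul, smul_comm]

theorem norm_I_le {A : Finset (ℕ × ℕ)} {C : ℝ} (h1 : 1 ≤ C) (hC : ∀ p ∈ A, wt p ≤ C)
    (r : Lp ℂ 1 mu) (x : GG) : ‖I M D A r x‖ ≤ 2 * (kap M * ‖D‖ * C ^ 2 * ‖r‖) := by
  have hk := kap_nonneg M
  have hr := norm_nonneg r
  have hD := norm_nonneg D
  have he := norm_eS_le h1 hC
  have he' : ∀ y, ‖T y (eS A)‖ ≤ C := fun y => by rw [norm_T]; exact he
  have hDe : ∀ y, ‖D (T y (eS A))‖ ≤ ‖D‖ * C := fun y =>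
    (D.le_opNorm _).trans (mul_le_mul_of_nonneg_left (he' y) hD)
  unfold I
  refine (norm_sub_le _ _).trans ?_
  have h2 : ‖dL M (act r (T x (eS A))) (D (T x⁻¹ (eS A)))‖ ≤ kap M * ‖D‖ * C ^ 2 * ‖r‖ := by
    refine (norm_dL_le M _ _).trans ?_
    calc kap M * ‖act r (T x (eS A))‖ * ‖D (T x⁻¹ (eS A))‖
        ≤ kap M * (‖r‖ * C) * (‖D‖ * C) := by
          gcongr
          · exact (norm_act_le _ _).trans (mul_le_mul_of_nonneg_left (he' x) hr)
          · exact hDe _
      _ = _ := by ring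
  have h3 : ‖dL M (T x (eS A)) (D (T x⁻¹ (eL A r)))‖ ≤ kap M * ‖D‖ * C ^ 2 * ‖r‖ := by
    refine (norm_dL_le M _ _).trans ?_
    calc kap M * ‖T x (eS A)‖ * ‖D (T x⁻¹ (eL A r))‖
        ≤ kap M * C * (‖D‖ * (C * ‖r‖)) := by
          gcongr
          · exact he' x
          · refine (D.le_opNorm _).trans (mul_le_mul_of_nonneg_left ?_ hD)
            rw [norm_T]; exact norm_eL_le h1 hC r
      _ = _ := by ring
  linarith

theorem norm_Jr_le {A : Finset (ℕ × ℕ)} {C : ℝ} (h1 : 1 ≤ C) (hC : ∀ p ∈ A, wt p ≤ C) (L : ℕ)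
    (r : Lp ℂ 1 mu) : ‖Jr M D A L r‖ ≤ 2 * (kap M * ‖D‖ * C ^ 2 * ‖r‖) := by
  unfold Jr
  rw [norm_smul]
  have h4 : ‖∫ x in GLs L, I M D A r x ∂mu‖ ≤ 2 * (kap M * ‖D‖ * C ^ 2 * ‖r‖) * mu.real (GLs L) :=
    norm_setIntegral_le_of_norm_le_const (measure_GLs_ne_top L).lt_top
      fun x _ => norm_I_le M D h1 hC r x
  have h5 : ‖((mG L : ℂ)⁻¹)‖ = (mG L)⁻¹ := by
    rw [norm_inv, Complex.norm_real, Real.norm_of_nonneg (mG_pos L).le]
  rw [h5]
  have h6 := mG_pos L
  calc (mG L)⁻¹ * ‖∫ x in GLs L, I M D A r x ∂mu‖ ≤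
        (mG L)⁻¹ * (2 * (kap M * ‖D‖ * C ^ 2 * ‖r‖) * mG L) := by gcongr; exact h4
    _ = _ := by field_simp

theorem act_gen {L N : ℕ} (hN : N ≤ L) {x y : GG} (hx : x.s < 2 ^ L) :
    act (lt mu y (e (win L L))) (T x (eS (win L N))) = T (y * x) (eS (win L N)) := by
  apply inc_injective
  rw [inc_act, inc_T, inc_T, inc_eS, ← lt_conv,
    conv_e_lt_e (win_mono le_rfl hN) (inv_win hx), lt_mul]

theorem eL_gen {L N : ℕ} (hN : N ≤ L) {y : GG} (hy : y.s < 2 ^ L) :
    eL (win L N) (lt mu y (e (win L L))) = T y (eS (win L N)) := by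
  apply inc_injective
  rw [inc_eL, inc_T, inc_eS, conv_gen_left hN hy]

theorem Jr_gen {L N : ℕ} (hN : N ≤ L) {y : GG} (hy : y.s < 2 ^ L) :
    Jr M D (win L N) L (lt mu y (e (win L L))) = 0 := by
  unfold Jr
  have h1 : ∫ x in GLs L, I M D (win L N) (lt mu y (e (win L L))) x ∂mu =
      ∫ x in GLs L, (F M D (win L N) (y * x) x⁻¹ - F M D (win L N) x (x⁻¹ * y)) ∂mu := by
    refine setIntegral_congr_fun (measurableSet_GLs L) fun x hx => ?_
    simp only [I, F]
    rw [act_gen hN hx, eL_gen hN hy, ← T_mul]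
  have h2 : Continuous (fun x : GG => F M D (win L N) (y * x) x⁻¹) :=
    continuous_F M D (continuous_const_mul y) continuous_inv
  have h3 : Continuous (fun x : GG => F M D (win L N) x (x⁻¹ * y)) :=
    continuous_F M D continuous_id (continuous_inv.mul continuous_const)
  rw [h1, integral_sub (h2.continuousOn.integrableOn_compact (isCompact_GLs L))
    (h3.continuousOn.integrableOn_compact (isCompact_GLs L))]
  rw [← setIntegral_GLs_mul hy (fun x => F M D (win L N) x (x⁻¹ * y))]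
  have h4 : ∀ x : GG, (y * x)⁻¹ * y = x⁻¹ := fun x => by group
  simp only [h4, sub_self, smul_zero]

theorem Jr_EL {L N : ℕ} (hN : N ≤ L) {g : Lp ℂ 1 mu} (hg : g ∈ EL L) :
    Jr M D (win L N) L g = 0 := by
  refine Submodule.span_induction ?_ ?_ ?_ ?_ hg
  · rintro f ⟨y, hy, rfl⟩
    exact Jr_gen M D hN hy
  · have h := Jr_smul M D (win L N) L 0 0
    rw [zero_smul ℂ (0 : Lp ℂ 1 mu)] at h
    exact h.trans (zero_smul (M₀ := ℂ) (A := X →L[ℂ] ℂ) _)
  · rintro f g - - h1 h2
    rw [Jr_add, h1, h2, add_zero]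
  · rintro c f - h1
    rw [Jr_smul, h1]
    exact smul_zero (M := ℂ) (A := X →L[ℂ] ℂ) c

/-- the averaged diagonal term -/
noncomputable def ze (A : Finset (ℕ × ℕ)) (L : ℕ) : X →L[ℂ] ℂ :=
  ((mG L : ℂ)⁻¹) • ∫ x in GLs L, F M D A x x⁻¹ ∂mu

theorem T_mul_T {L N : ℕ} {x : GG} (hx : x.s < 2 ^ L) :
    T x (eS (win L N)) * T x⁻¹ (eS (win L N)) = eS (win L N) := by
  apply inc_injective
  rw [inc_mul, inc_T, inc_T, inc_eS, ← lt_conv]
  have h1 : (x⁻¹).s < 2 ^ L := hx
  rw [conv_e_lt (inv_win h1), conv_e_self, ← lt_mul, mul_inv_cancel, lt_one]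

variable {M D}

theorem ze_identity (hD : IsDerivation M D) {L N : ℕ} (a : SS) :
    dL M a (ze M D (win L N) L) - dR M a (ze M D (win L N) L) =
      dL M (eS (win L N)) (D a) + Jr M D (win L N) L (inc a) := by
  unfold ze Jr
  rw [map_smul, map_smul]
  have hF : IntegrableOn (fun x : GG => F M D (win L N) x x⁻¹) (GLs L) mu :=
    ((continuous_F M D continuous_id continuous_inv).continuousOn).integrableOn_compact
      (isCompact_GLs L)
  rw [← ContinuousLinearMap.integral_comp_comm _ hF, ← ContinuousLinearMap.integral_comp_comm _ hF]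
  refine (smul_sub _ _ _).symm.trans ?_
  rw [← integral_sub ((dL M a).integrable_comp hF) ((dR M a).integrable_comp hF)]
  have h1 : ∫ x in GLs L, (dL M a (F M D (win L N) x x⁻¹) - dR M a (F M D (win L N) x x⁻¹)) ∂mu =
      ∫ x in GLs L, (dL M (eS (win L N)) (D a) + I M D (win L N) (inc a) x) ∂mu := by
    refine setIntegral_congr_fun (measurableSet_GLs L) fun x hx => ?_
    simp only [F, I]
    have e1 : dR M a (dL M (T x (eS (win L N))) (D (T x⁻¹ (eS (win L N))))) =
        dL M (T x (eS (win L N))) (D (T x⁻¹ (eS (win L N)) * a)) - dL M (eS (win L N)) (D a) := by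
      rw [← dL_dR, der' hD, map_sub, ← dL_mul, T_mul_T hx]
    have e2 : T x⁻¹ (eL (win L N) (inc a)) = T x⁻¹ (eS (win L N)) * a := by
      apply inc_injective
      rw [inc_T, inc_eL, inc_mul, inc_T, inc_eS, lt_conv]
    rw [e1, e2, act_inc, dL_mul]
    abel
  have hc : IntegrableOn (fun _ : GG => dL M (eS (win L N)) (D a)) (GLs L) mu :=
    continuous_const.continuousOn.integrableOn_compact (isCompact_GLs L)
  rw [h1, integral_add hc (integrableOn_I M D _ L _), smul_add, setIntegral_const_complex]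
  congr 1
  change ((mG L : ℂ)⁻¹) • (mG L : ℂ) • dL M (eS (win L N)) (D a) = _
  rw [smul_smul, inv_mul_cancel₀ (mG_ne L)]
  exact one_smul ℂ _

end

end Pool.Agent.Helper239.ApH
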