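import Mathlib
import Pool.Agent.Helper239.ApH

open MeasureTheory Filter Topology
open scoped ENNReal ZeroAtInfty
open Pool.Agent.Helper239.ApDefs Pool.Agent.Helper239.ApB Pool.Agent.Helper239.ApB.GG
open Pool.Agent.Helper239.ApC Pool.Agent.Helper239.ApD Pool.Agent.Helper239.ApE
open Pool.Agent.Helper239.ApF Pool.Agent.Helper239.ApG Pool.Agent.Helper239.ApA
open Pool.Agent.Helper239.ApH

namespace Pool.Agent.Helper239.ApI

universe w

theorem arith {k d K C ε : ℝ} (hk : 0 ≤ k) (hd : 0 ≤ d) (hK : 0 < K) (hKd : d ≤ K)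
    (hKkd : k * d ≤ K) (hC : 1 ≤ C) (hε : 0 < ε) {δ η ρ : ℝ} (hη : η = ε / (54 * K))
    (hδ : δ = ε / (9 * K * (1 + C))) (hρ : ρ = ε / (66 * K * C ^ 2)) :
    d * (3 * δ) + k * C * (d * (3 * δ)) + k * (η + 2 * C * ρ) * (d * 2) +
      2 * (k * d * C ^ 2 * ρ) +
      (k * (2 * (η + 2 * C * ρ)) * (d * 4) + k * 4 * (d * (2 * η))) ≤ ε := by
  have hδ0 : 0 ≤ δ := by rw [hδ]; positivity
  have hη0 : 0 ≤ η := by rw [hη]; positivity
  have hρ0 : 0 ≤ ρ := by rw [hρ]; positivity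
  have h1 : 3 * δ * (K + K * C) = ε / 3 := by
    rw [hδ]
    have : 1 + C ≠ 0 := by linarith
    field_simp
    ring
  have h2 : K * (18 * η + 22 * C ^ 2 * ρ) = 2 * ε / 3 := by
    rw [hη, hρ]
    have : C ≠ 0 := by linarith
    field_simp
    ring
  have f1 : d * (3 * δ) + k * C * (d * (3 * δ)) ≤ ε / 3 := by
    have g1 : d * (3 * δ) + k * C * (d * (3 * δ)) = 3 * δ * (d + (k * d) * C) := by ring
    rw [g1, ← h1]
    gcongr
  have f2 : k * (η + 2 * C * ρ) * (d * 2) + 2 * (k * d * C ^ 2 * ρ) +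
      (k * (2 * (η + 2 * C * ρ)) * (d * 4) + k * 4 * (d * (2 * η))) ≤ 2 * ε / 3 := by
    have g1 : k * (η + 2 * C * ρ) * (d * 2) + 2 * (k * d * C ^ 2 * ρ) +
      (k * (2 * (η + 2 * C * ρ)) * (d * 4) + k * 4 * (d * (2 * η))) =
      (k * d) * (18 * η + (20 * C + 2 * C ^ 2) * ρ) := by ring
    rw [g1, ← h2]
    have g2 : 20 * C + 2 * C ^ 2 ≤ 22 * C ^ 2 := by nlinarith
    have hkd : 0 ≤ k * d := by positivity
    gcongr
  linarith

theorem approx_e_finset (S : Finset SS) {ε : ℝ} (hε : 0 < ε) :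
    ∃ A, ∀ B, A ⊆ B → ∀ a ∈ S, ‖eS B * a - a‖ ≤ ε := by
  classical
  induction S using Finset.induction_on with
  | empty => exact ⟨∅, fun B _ a ha => absurd ha (Finset.notMem_empty a)⟩
  | insert s S hs ih =>
    obtain ⟨A1, h1⟩ := ih
    obtain ⟨A2, h2⟩ := approx_e s hε
    refine ⟨A1 ∪ A2, fun B hB a ha => ?_⟩
    rcases Finset.mem_insert.1 ha with rfl | ha
    · exact h2 B (Finset.subset_union_right.trans hB)
    · exact h1 B (Finset.subset_union_left.trans hB) a ha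

theorem exists_EL_finset (S : Finset SS) {ε : ℝ} (hε : 0 < ε) :
    ∃ L0, ∀ L, L0 ≤ L → ∀ a ∈ S, ∃ g ∈ EL L, ‖inc a - g‖ < ε := by
  classical
  induction S using Finset.induction_on with
  | empty => exact ⟨0, fun B _ a ha => absurd ha (Finset.notMem_empty a)⟩
  | insert s S hs ih =>
    obtain ⟨A1, h1⟩ := ih
    obtain ⟨A2, h2⟩ := exists_EL (inc s) hε
    refine ⟨max A1 A2, fun B hB a ha => ?_⟩
    rcases Finset.mem_insert.1 ha with rfl | ha
    · exact h2 B ((le_max_right _ _).trans hB)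
    · exact h1 B ((le_max_left _ _).trans hB) a ha

section

variable {X : Type w} [NormedAddCommGroup X] [NormedSpace ℂ X]
  {M : BanachBimodule SS X} {D : SS →L[ℂ] (X →L[ℂ] ℂ)}

/-- the norm estimate -/
theorem estimate (hD : IsDerivation M D) (u v q' q'' a : SS) (ζ J : X →L[ℂ] ℂ)
    (hζ : dL M a ζ - dR M a ζ = dL M u (D a) + J) (hq : q' * q'' = v - u * v)
    {C δ η ρ j : ℝ} (hC : 1 ≤ C) (hu : ‖u‖ ≤ C) (hv : ‖v‖ ≤ 2) (hq' : ‖q'‖ ≤ 4) (hq'' : ‖q''‖ ≤ 4)
    (h1 : ‖v * a - a‖ ≤ δ) (h2 : ‖a - a * u‖ ≤ η) (h3 : ‖a * q'‖ ≤ 2 * η)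
    (h4 : ‖q'' * a‖ ≤ 2 * ρ) (hJ : ‖J‖ ≤ j) :
    ‖M.dualL a (-(D v - dL M u (D v)) + ζ + dL M q' (D q'')) -
      M.dualR a (-(D v - dL M u (D v)) + ζ + dL M q' (D q'')) - D a‖ ≤
      ‖D‖ * δ + kap M * C * (‖D‖ * δ) + kap M * η * (‖D‖ * 2) + j +
        (kap M * (2 * η) * (‖D‖ * 4) + kap M * 4 * (‖D‖ * (2 * ρ))) := by
  rw [← dL_apply, ← dR_apply, main_identity hD u v q' q'' a ζ J hζ hq]
  have hk := kap_nonneg M
  have hD0 := norm_nonneg D
  have hη : 0 ≤ η := (norm_nonneg _).trans h2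
  have hδ : 0 ≤ δ := (norm_nonneg _).trans h1
  have b1 : ‖D (v * a - a)‖ ≤ ‖D‖ * δ := (D.le_opNorm _).trans (by gcongr)
  have b2 : ‖dL M u (D (v * a - a))‖ ≤ kap M * C * (‖D‖ * δ) := by
    refine (norm_dL_le M _ _).trans ?_
    gcongr
  have b3 : ‖dL M (a - a * u) (D v)‖ ≤ kap M * η * (‖D‖ * 2) := by
    refine (norm_dL_le M _ _).trans ?_
    gcongr
    exact (D.le_opNorm _).trans (by gcongr)
  have b4 : ‖dL M (a * q') (D q'')‖ ≤ kap M * (2 * η) * (‖D‖ * 4) := by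
    refine (norm_dL_le M _ _).trans ?_
    gcongr
    exact (D.le_opNorm _).trans (by gcongr)
  have b5 : ‖dL M q' (D (q'' * a))‖ ≤ kap M * 4 * (‖D‖ * (2 * ρ)) := by
    refine (norm_dL_le M _ _).trans ?_
    gcongr
    exact (D.le_opNorm _).trans (by gcongr)
  calc ‖(D (v * a - a) - dL M u (D (v * a - a))) - dL M (a - a * u) (D v) + J +
        (dL M (a * q') (D q'') - dL M q' (D (q'' * a)))‖
      ≤ ‖(D (v * a - a) - dL M u (D (v * a - a))) - dL M (a - a * u) (D v) + J‖ +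
        ‖dL M (a * q') (D q'') - dL M q' (D (q'' * a))‖ := norm_add_le _ _
    _ ≤ (‖(D (v * a - a) - dL M u (D (v * a - a))) - dL M (a - a * u) (D v)‖ + ‖J‖) +
        (‖dL M (a * q') (D q'')‖ + ‖dL M q' (D (q'' * a))‖) :=
          add_le_add (norm_add_le _ _) (norm_sub_le _ _)
    _ ≤ ((‖D (v * a - a) - dL M u (D (v * a - a))‖ + ‖dL M (a - a * u) (D v)‖) + ‖J‖) +
        (‖dL M (a * q') (D q'')‖ + ‖dL M q' (D (q'' * a))‖) := by
          gcongr; exact norm_sub_le _ _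
    _ ≤ (((‖D (v * a - a)‖ + ‖dL M u (D (v * a - a))‖) + ‖dL M (a - a * u) (D v)‖) + ‖J‖) +
        (‖dL M (a * q') (D q'')‖ + ‖dL M q' (D (q'' * a))‖) := by
          gcongr; exact norm_sub_le _ _
    _ ≤ _ := by linarith

theorem conv_comm_mul {L N : ℕ} (hN : N ≤ L) {s : SS} (hs : inc s ∈ EL L) :
    eS (win L N) * s = s * eS (win L N) := by
  apply inc_injective
  rw [inc_mul, inc_mul, inc_eS, conv_comm_EL hN hs]

theorem eS_mul_self (A : Finset (ℕ × ℕ)) : eS A * eS A = eS A := by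
  apply inc_injective
  rw [inc_mul, inc_eS, conv_e_self]

theorem norm_comm_le {L N : ℕ} (hN : N ≤ L) {C : ℝ} (h1 : 1 ≤ C) (hC : ∀ p ∈ win L N, wt p ≤ C)
    {a : SS} {g : Lp ℂ 1 mu} (hg : g ∈ EL L) :
    ‖eS (win L N) * a - a * eS (win L N)‖ ≤ 2 * C * ‖inc a - g‖ := by
  have h2 : eS (win L N) * a - a * eS (win L N) =
      eL (win L N) (inc a - g) - act (inc a - g) (eS (win L N)) := by
    apply inc_injective
    rw [map_sub, map_sub, inc_mul, inc_mul, inc_eL, inc_act, inc_eS, conv_sub_left,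
      conv_sub_right, conv_comm_EL hN hg]
    abel
  rw [h2]
  have h3 := norm_eL_le h1 hC (inc a - g)
  have h4 := norm_act_le (inc a - g) (eS (win L N))
  have h5 := norm_eS_le h1 hC
  have h6 : ‖inc a - g‖ * ‖eS (win L N)‖ ≤ ‖inc a - g‖ * C := by gcongr
  refine (norm_sub_le _ _).trans ?_
  linarith

theorem main (hD : IsDerivation M D) (S : Finset SS) (ε : ℝ) (hε : 0 < ε) :
    ∃ ξ : X →L[ℂ] ℂ, ∀ a ∈ S, ‖M.dualL a ξ - M.dualR a ξ - D a‖ ≤ ε := by
  set K : ℝ := (kap M + 1) * (‖D‖ + 1) with hK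
  have hk := kap_nonneg M
  have hD0 := norm_nonneg D
  have hKpos : 0 < K := by positivity
  have hKd : ‖D‖ ≤ K := by rw [hK]; nlinarith
  have hKkd : kap M * ‖D‖ ≤ K := by rw [hK]; nlinarith
  -- choice of N
  set η : ℝ := ε / (54 * K) with hη
  have hηpos : 0 < η := by positivity
  obtain ⟨A1, hA1⟩ := approx_e_finset S hηpos
  obtain ⟨R1, hR1⟩ := exists_win A1
  set N : ℕ := R1 + 1 with hN
  set C : ℝ := (N : ℝ) with hC
  have hC1 : 1 ≤ C := by rw [hC, hN]; push_cast; linarith [Nat.cast_nonneg (α := ℝ) R1]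
  -- choice of V
  set δ : ℝ := ε / (9 * K * (1 + C)) with hδ
  have hδpos : 0 < δ := by positivity
  obtain ⟨A2, hA2⟩ := approx_e_finset S hδpos
  obtain ⟨R2, hR2⟩ := exists_win A2
  -- left units
  set J : ℕ := R2 + R2 with hJ
  have hJ0 : R2 ≤ J := by omega
  set J1 : ℕ := J + R2 with hJ1
  have hJJ1 : J ≤ J1 := by omega
  have hpow : R2 ≤ 2 ^ R2 := Nat.lt_two_pow_self.le
  have hb1 : R2 * 2 ^ R2 ≤ 2 ^ J := by
    rw [hJ, pow_add]; exact Nat.mul_le_mul_right _ hpow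
  have hb2 : R2 * 2 ^ J ≤ 2 ^ J1 := by
    have h1 : 2 ^ J1 = 2 ^ R2 * 2 ^ J := by
      rw [hJ1, add_comm J R2]; exact pow_add 2 R2 J
    rw [h1]; exact Nat.mul_le_mul_right _ hpow
  set v : SS := mkS (vL R2 J R2) (mem_vL hJ0) with hv
  set v' : SS := mkS (vL J J1 R2) (mem_vL hJJ1) with hv'
  have nv : ‖v‖ ≤ 2 := norm_vS_le hJ0 hb1
  have nv' : ‖v'‖ ≤ 2 := norm_vS_le hJJ1 hb2
  have hvV : v * eS (win R2 R2) = eS (win R2 R2) := by
    apply inc_injective
    rw [inc_mul, inc_eS, hv, inc_mkS, conv_vL hJ0]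
  have hv'v : v' * v = v := by
    have e1 : v' * eS (win J R2) = eS (win J R2) := by
      apply inc_injective
      rw [inc_mul, inc_eS, hv', inc_mkS, conv_vL hJJ1]
    have e2 : eS (win J R2) * v = v := by
      apply inc_injective
      rw [inc_mul, inc_eS, hv, inc_mkS, conv_e_of_mem_EB le_rfl (vL_mem_EB R2 J R2)]
    calc v' * v = v' * (eS (win J R2) * v) := by rw [e2]
      _ = v' * eS (win J R2) * v := (mul_assoc _ _ _).symm
      _ = v := by rw [e1, e2]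
  -- choice of L
  set ρ : ℝ := ε / (66 * K * C ^ 2) with hρ
  have hρpos : 0 < ρ := by positivity
  obtain ⟨L0, hL0⟩ := exists_EL_finset S hρpos
  set L : ℕ := L0 + N + J1 + R2 with hL
  have hNL : N ≤ L := by omega
  have hJL : J ≤ L := by omega
  have hJ1L : J1 ≤ L := by omega
  have hR2L : R2 ≤ L := by omega
  have hwt : ∀ p ∈ win L N, wt p ≤ C := fun p hp => wt_le_of_mem_win hp
  set u : SS := eS (win L N) with hu
  have nu : ‖u‖ ≤ C := norm_eS_le hC1 hwt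
  have huv : u * v = v * u := conv_comm_mul hNL (by rw [hv, inc_mkS]; exact vL_mem_EL hJL hR2L)
  have huv' : u * v' = v' * u :=
    conv_comm_mul hNL (by rw [hv', inc_mkS]; exact vL_mem_EL hJ1L hR2L)
  have huu : u * u = u := eS_mul_self _
  have niu : ‖inc u‖ = 1 := by rw [hu, inc_eS, norm_e]
  have nuv : ‖u * v‖ ≤ 2 := (norm_mul_le_inc u v).trans (by rw [niu, one_mul]; exact nv)
  have nuv' : ‖u * v'‖ ≤ 2 := (norm_mul_le_inc u v').trans (by rw [niu, one_mul]; exact nv')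
  have hq : (v' - u * v') * (v - u * v) = v - u * v := by
    have e1 : v' * (u * v) = u * v := by rw [← mul_assoc, ← huv', mul_assoc, hv'v]
    have e2 : u * v' * v = u * v := by rw [mul_assoc, hv'v]
    have e3 : u * v' * (u * v) = u * v := by rw [mul_assoc, e1, ← mul_assoc, huu]
    rw [sub_mul, mul_sub, mul_sub, hv'v, e1, e2, e3]
    abel
  have nq' : ‖v' - u * v'‖ ≤ 4 := (norm_sub_le _ _).trans (by linarith)
  have nq'' : ‖v - u * v‖ ≤ 4 := (norm_sub_le _ _).trans (by linarith)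
  refine ⟨-(D v - dL M u (D v)) + ze M D (win L N) L + dL M (v' - u * v') (D (v - u * v)),
    fun a ha => ?_⟩
  obtain ⟨g, hg, hag⟩ := hL0 L (by omega) a ha
  have c1 : ‖u * a - a‖ ≤ η := hA1 _ (hR1 L N (by omega) (by omega)) a ha
  have c2 : ‖eS (win R2 R2) * a - a‖ ≤ δ := hA2 _ (hR2 R2 R2 le_rfl le_rfl) a ha
  have c3 : ‖u * a - a * u‖ ≤ 2 * C * ρ := by
    refine (norm_comm_le hNL hC1 hwt hg).trans ?_
    gcongr
  have c4 : ‖v * a - a‖ ≤ 3 * δ := by
    have e1 : v * a - a = v * (a - eS (win R2 R2) * a) + (eS (win R2 R2) * a - a) := by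
      rw [mul_sub, ← mul_assoc, hvV]; abel
    rw [e1]
    refine (norm_add_le _ _).trans ?_
    have e2 : ‖v * (a - eS (win R2 R2) * a)‖ ≤ 2 * δ := by
      refine (norm_mul_le _ _).trans ?_
      rw [norm_sub_rev]
      gcongr
    linarith
  have c5 : ‖a - a * u‖ ≤ η + 2 * C * ρ := by
    have e1 : a - a * u = (u * a - a * u) - (u * a - a) := by abel
    rw [e1]
    refine (norm_sub_le _ _).trans ?_
    linarith
  have c6 : ‖a * (v' - u * v')‖ ≤ 2 * (η + 2 * C * ρ) := by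
    have e1 : a * (v' - u * v') = (a - a * u) * v' := by
      rw [mul_sub, sub_mul, mul_assoc]
    rw [e1]
    refine (norm_mul_le _ _).trans ?_
    rw [mul_comm]
    have := norm_nonneg (a - a * u)
    gcongr
  have c7 : ‖(v - u * v) * a‖ ≤ 2 * η := by
    have e1 : (v - u * v) * a = v * (a - u * a) := by
      rw [sub_mul, mul_sub, huv, mul_assoc]
    rw [e1]
    refine (norm_mul_le _ _).trans ?_
    rw [norm_sub_rev]
    gcongr
  have hJr : Jr M D (win L N) L (inc a) = Jr M D (win L N) L (inc a - g) := by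
    have e1 : inc a = (inc a - g) + g := by abel
    conv_lhs => rw [e1]
    rw [Jr_add, Jr_EL M D hNL hg, add_zero]
  have c8 : ‖Jr M D (win L N) L (inc a)‖ ≤ 2 * (kap M * ‖D‖ * C ^ 2 * ρ) := by
    rw [hJr]
    refine (norm_Jr_le M D hC1 hwt L _).trans ?_
    gcongr
  have final := estimate hD u v (v' - u * v') (v - u * v) a (ze M D (win L N) L)
    (Jr M D (win L N) L (inc a)) (ze_identity hD a) hq hC1 nu nv nq' nq'' c4 c5 c6 c7 c8
  refine final.trans ?_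
  exact arith hk hD0 hKpos hKd hKkd hC1 hε hη hδ hρ

end

theorem isApproxAmenable : IsApproxAmenable.{0, w} SS :=
  approx_of_finite SS fun _ _ _ _ _ _ hD S ε hε => main hD S ε hε

end Pool.Agent.Helper239.ApI
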