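import Mathlib

open Filter Topology

namespace H239Cp

/-- Weights: `1` for `i ≤ x`, `0` for `i ≥ x + 1`, linear in between. -/
noncomputable def w (x : ℝ) (i : ℕ) : ℝ := min 1 (max 0 (x + 1 - i))

noncomputable def tau (s v : ℝ) : ℝ := Real.log (max s (Real.exp v)) - v

noncomputable def T (x : ℝ) (v : ℕ → ℝ) : ℝ := ⨆ i : ℕ, tau (x - i) (v i)

lemma w_one {x : ℝ} {i : ℕ} (h : (i : ℝ) ≤ x) : w x i = 1 := by
  unfold w
  rw [max_eq_right (by linarith), min_eq_left (by linarith)]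

lemma w_zero {x : ℝ} {i : ℕ} (h : x + 1 ≤ (i : ℝ)) : w x i = 0 := by
  unfold w
  rw [max_eq_left (by linarith), min_eq_right (by norm_num)]

lemma continuous_w (i : ℕ) : Continuous (fun x => w x i) := by
  unfold w
  fun_prop

lemma max_pos (s v : ℝ) : 0 < max s (Real.exp v) := lt_max_of_lt_right (Real.exp_pos v)

lemma tau_le {s v t : ℝ} (ht : 0 ≤ t) : tau s v ≤ t ↔ s ≤ Real.exp (v + t) := by
  unfold tau
  rw [sub_le_iff_le_add, Real.log_le_iff_le_exp (max_pos s v), max_le_iff, add_comm t v]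
  constructor
  · exact fun h => h.1
  · exact fun h => ⟨h, Real.exp_le_exp.2 (by linarith)⟩

lemma tau_nonneg (s v : ℝ) : 0 ≤ tau s v := by
  unfold tau
  have : v ≤ Real.log (max s (Real.exp v)) := by
    rw [Real.le_log_iff_exp_le (max_pos s v)]
    exact le_max_right _ _
  linarith

lemma tau_zero {s v : ℝ} (hs : s ≤ 0) : tau s v = 0 := by
  apply le_antisymm _ (tau_nonneg s v)
  rw [tau_le le_rfl]
  exact hs.trans (Real.exp_pos _).le

lemma continuous_tau : Continuous (fun p : ℝ × ℝ => tau p.1 p.2) := by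
  unfold tau
  apply Continuous.sub _ continuous_snd
  apply Continuous.log (by fun_prop)
  intro p
  exact (max_pos _ _).ne'

lemma exists_max (x : ℝ) (v : ℕ → ℝ) (N : ℕ) (hN : x ≤ N) :
    ∃ i₀ ∈ Finset.range (N + 1), ∀ i : ℕ, tau (x - i) (v i) ≤ tau (x - i₀) (v i₀) := by
  obtain ⟨i₀, h₀, h⟩ := Finset.exists_max_image (Finset.range (N + 1))
    (fun i : ℕ => tau (x - i) (v i)) ⟨0, by simp⟩
  refine ⟨i₀, h₀, fun i => ?_⟩
  by_cases hi : i ∈ Finset.range (N + 1)
  · exact h i hi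
  · have : (N : ℝ) ≤ i := by
      have : N ≤ i := by simp at hi; omega
      exact_mod_cast this
    rw [tau_zero (by linarith)]
    exact tau_nonneg _ _

lemma T_bdd (x : ℝ) (v : ℕ → ℝ) : BddAbove (Set.range fun i : ℕ => tau (x - i) (v i)) := by
  obtain ⟨i₀, -, h⟩ := exists_max x v ⌈x⌉₊ (Nat.le_ceil x)
  exact ⟨_, by rintro _ ⟨i, rfl⟩; exact h i⟩

lemma T_attained (x : ℝ) (v : ℕ → ℝ) : ∃ i₀ : ℕ, T x v = tau (x - i₀) (v i₀) := by
  obtain ⟨i₀, -, h⟩ := exists_max x v ⌈x⌉₊ (Nat.le_ceil x)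
  exact ⟨i₀, le_antisymm (ciSup_le h) (le_ciSup (T_bdd x v) i₀)⟩

lemma T_nonneg (x : ℝ) (v : ℕ → ℝ) : 0 ≤ T x v :=
  (tau_nonneg _ _).trans (le_ciSup (T_bdd x v) 0)

lemma T_le {x : ℝ} {v : ℕ → ℝ} {t : ℝ} (ht : 0 ≤ t) :
    T x v ≤ t ↔ ∀ i : ℕ, x - i ≤ Real.exp (v i + t) := by
  unfold T
  rw [ciSup_le_iff (T_bdd x v)]
  exact forall_congr' fun i => tau_le ht

lemma T_zero {x : ℝ} {v : ℕ → ℝ} (hx : x ≤ 0) : T x v = 0 := by
  apply le_antisymm _ (T_nonneg x v)
  rw [T_le le_rfl]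
  intro i
  have : (0 : ℝ) ≤ i := Nat.cast_nonneg i
  have := Real.exp_pos (v i + 0)
  linarith

lemma T_eq_sup (N : ℕ) {x : ℝ} (v : ℕ → ℝ) (hN : x ≤ N) :
    T x v = (Finset.range (N + 1)).sup' ⟨0, by simp⟩ (fun i : ℕ => tau (x - i) (v i)) := by
  apply le_antisymm
  · obtain ⟨i₀, h₀, h⟩ := exists_max x v N hN
    exact ciSup_le fun i => (h i).trans (Finset.le_sup' (fun i : ℕ => tau (x - i) (v i)) h₀)
  · exact Finset.sup'_le _ _ fun i _ => le_ciSup (T_bdd x v) i

lemma continuous_T : Continuous (fun p : ℝ × (ℕ → ℝ) => T p.1 p.2) := by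
  rw [continuous_iff_continuousAt]
  intro p
  obtain ⟨N, hN⟩ := exists_nat_gt p.1
  have h1 : Continuous (fun p : ℝ × (ℕ → ℝ) =>
      (Finset.range (N + 1)).sup' ⟨0, by simp⟩ (fun i : ℕ => tau (p.1 - i) (p.2 i))) := by
    apply Continuous.finset_sup'_apply
    intro i _
    exact continuous_tau.comp (f := fun p : ℝ × (ℕ → ℝ) => (p.1 - i, p.2 i)) (by fun_prop)
  apply h1.continuousAt.congr
  have h2 : ∀ᶠ q : ℝ × (ℕ → ℝ) in 𝓝 p, q.1 < N :=
    (continuous_fst.continuousAt (x := p)).eventually_lt continuousAt_const hN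
  filter_upwards [h2] with q hq
  exact (T_eq_sup N q.2 hq.le).symm

/-- `Q v = inf_i (i + exp (v i))`. -/
noncomputable def Q (v : ℕ → ℝ) : ℝ := ⨅ i : ℕ, ((i : ℝ) + Real.exp (v i))

lemma Q_bdd (v : ℕ → ℝ) : BddBelow (Set.range fun i : ℕ => ((i : ℝ) + Real.exp (v i))) :=
  ⟨0, by rintro _ ⟨i, rfl⟩; positivity⟩

lemma Q_le (v : ℕ → ℝ) (i : ℕ) : Q v ≤ i + Real.exp (v i) := ciInf_le (Q_bdd v) i

lemma Q_attained (v : ℕ → ℝ) : ∃ i : ℕ, Q v = i + Real.exp (v i) := by
  obtain ⟨N, hN⟩ := exists_nat_gt (Real.exp (v 0))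
  obtain ⟨i₀, h₀, h⟩ := Finset.exists_min_image (Finset.range (N + 1))
    (fun i : ℕ => (i : ℝ) + Real.exp (v i)) ⟨0, by simp⟩
  refine ⟨i₀, le_antisymm (Q_le v i₀) (le_ciInf fun i => ?_)⟩
  by_cases hi : i ∈ Finset.range (N + 1)
  · exact h i hi
  · have h1 : (N : ℝ) ≤ i := by
      have : N ≤ i := by simp at hi; omega
      exact_mod_cast this
    have h2 := h 0 (by simp)
    have h3 := Real.exp_pos (v i)
    simp only [Nat.cast_zero, zero_add] at h2
    linarith

lemma Q_pos (v : ℕ → ℝ) : 0 < Q v := by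
  obtain ⟨i, hi⟩ := Q_attained v
  rw [hi]
  positivity

lemma Q_eq {v : ℕ → ℝ} {x : ℝ} (h : ∀ i : ℕ, x ≤ i + Real.exp (v i))
    (h' : ∃ i : ℕ, x = i + Real.exp (v i)) : Q v = x := by
  obtain ⟨i, hi⟩ := h'
  apply le_antisymm
  · rw [hi]; exact Q_le v i
  · exact le_ciInf h

/-- If no push is needed, `x ≤ Q v`. -/
lemma le_Q_of_T {x : ℝ} {v : ℕ → ℝ} (h : T x v = 0) : x ≤ Q v := by
  have := (T_le (x := x) (v := v) le_rfl).1 h.le
  apply le_ciInf
  intro i
  have := this i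
  rw [add_zero] at this
  linarith

lemma T_of_le_Q {x : ℝ} {v : ℕ → ℝ} (h : x ≤ Q v) : T x v = 0 := by
  apply le_antisymm _ (T_nonneg x v)
  rw [T_le le_rfl]
  intro i
  have := h.trans (Q_le v i)
  rw [add_zero]
  linarith

/-- after a push by the positive amount `T x v`, the value of `Q` is `x`. -/
lemma Q_push {x : ℝ} {v : ℕ → ℝ} (h : 0 < T x v) :
    Q (fun i => v i + T x v * w x i) = x := by
  apply Q_eq
  · intro i
    by_cases hi : (i : ℝ) ≤ x
    · rw [w_one hi, mul_one]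
      have := (T_le (x := x) (v := v) (T_nonneg x v)).1 le_rfl i
      linarith
    · push Not at hi
      have := Real.exp_pos (v i + T x v * w x i)
      linarith
  · obtain ⟨i, hi⟩ := T_attained x v
    refine ⟨i, ?_⟩
    have h1 : (i : ℝ) < x := by
      by_contra hcon
      push Not at hcon
      rw [hi, tau_zero (by linarith)] at h
      exact lt_irrefl _ h
    have h2 : Real.exp (v i) < x - i := by
      by_contra hcon
      push Not at hcon
      have : tau (x - i) (v i) ≤ 0 := by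
        rw [tau_le le_rfl, add_zero]; exact hcon
      linarith
    rw [w_one h1.le, mul_one, hi]
    unfold tau
    rw [max_eq_left h2.le, add_sub_cancel, Real.exp_log (by linarith)]
    ring

/-- the push can be prescribed. -/
lemma T_pull {c t : ℝ} {v : ℕ → ℝ} (ht : 0 ≤ t) (hc : Q v = c) :
    T c (fun i => v i - t * w c i) = t := by
  apply le_antisymm
  · rw [T_le ht]
    intro i
    by_cases hi : (i : ℝ) ≤ c
    · rw [w_one hi, mul_one, sub_add_cancel]
      have := Q_le v i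
      linarith
    · push Not at hi
      have := Real.exp_pos (v i - t * w c i + t)
      linarith
  · obtain ⟨i, hi⟩ := Q_attained v
    rw [hc] at hi
    have h1 : (i : ℝ) ≤ c := by
      rw [hi]
      have := Real.exp_pos (v i)
      linarith
    have h2 : tau (c - i) (v i - t * w c i) ≤ T c (fun i => v i - t * w c i) :=
      le_ciSup (T_bdd c (fun i => v i - t * w c i)) i
    refine le_trans ?_ h2
    rw [w_one h1, mul_one]
    unfold tau
    have h3 : c - i = Real.exp (v i) := by linarith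
    rw [h3]
    have h4 : v i ≤ Real.log (max (Real.exp (v i)) (Real.exp (v i - t))) := by
      rw [Real.le_log_iff_exp_le (max_pos _ _)]
      exact le_max_left _ _
    linarith

end H239Cp
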