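import Pool.Agent.Helper239.CpA

open Filter Topology

namespace H239Cp

noncomputable def vv (x : ℝ) (v : ℕ → ℝ) (i : ℕ) : ℝ := v i + T |x| v * w |x| i

noncomputable def yy (x : ℝ) (v : ℕ → ℝ) : ℝ := x + T x v - T (-x) v

noncomputable def xi (y : ℝ) (u : ℕ → ℝ) : ℝ := max (-Q u) (min y (Q u))

noncomputable def vi (y : ℝ) (u : ℕ → ℝ) (i : ℕ) : ℝ := u i - max 0 (|y| - Q u) * w (Q u) i

lemma vi_yy (x : ℝ) (v : ℕ → ℝ) : vi (yy x v) (vv x v) = v ∧ xi (yy x v) (vv x v) = x := by
  rcases (T_nonneg |x| v).eq_or_lt with h | h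
  · have hv : vv x v = v := by
      funext i
      unfold vv
      rw [← h, zero_mul, add_zero]
    have hQ := le_Q_of_T h.symm
    have h1 : T x v = 0 := T_of_le_Q ((le_abs_self x).trans hQ)
    have h2 : T (-x) v = 0 := T_of_le_Q ((neg_le_abs x).trans hQ)
    have hy : yy x v = x := by unfold yy; rw [h1, h2]; ring
    rw [hv, hy]
    constructor
    · funext i
      unfold vi
      rw [max_eq_left (by linarith), zero_mul, sub_zero]
    · unfold xi
      have := abs_le.1 hQ
      rw [min_eq_left this.2, max_eq_right this.1]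
  · have hQ : Q (vv x v) = |x| := Q_push h
    have hy : |yy x v| = |x| + T |x| v ∧ max (-|x|) (min (yy x v) |x|) = x := by
      rcases le_total 0 x with hx | hx
      · have h2 : T (-x) v = 0 := T_zero (by linarith)
        rw [abs_of_nonneg hx] at h ⊢
        have hy : yy x v = x + T x v := by unfold yy; rw [h2]; ring
        rw [hy]
        constructor
        · rw [abs_of_nonneg (by linarith)]
        · rw [min_eq_right (by linarith), max_eq_right (by linarith)]
      · have h2 : T x v = 0 := T_zero (by linarith)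
        rw [abs_of_nonpos hx] at h ⊢
        have hy : yy x v = x - T (-x) v := by unfold yy; rw [h2]; ring
        rw [hy]
        constructor
        · rw [abs_of_nonpos (by linarith)]; ring
        · rw [min_eq_left (by linarith), max_eq_left (by linarith)]; ring
    constructor
    · funext i
      unfold vi
      rw [hQ, hy.1, add_sub_cancel_left, max_eq_right h.le]
      unfold vv
      ring
    · unfold xi
      rw [hQ]
      exact hy.2

lemma vv_vi (y : ℝ) (u : ℕ → ℝ) : vv (xi y u) (vi y u) = u ∧ yy (xi y u) (vi y u) = y := by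
  have hQ := Q_pos u
  rcases le_or_gt |y| (Q u) with h | h
  · have hv : vi y u = u := by
      funext i
      unfold vi
      rw [max_eq_left (by linarith), zero_mul, sub_zero]
    have hx : xi y u = y := by
      unfold xi
      have := abs_le.1 h
      rw [min_eq_left this.2, max_eq_right this.1]
    rw [hv, hx]
    constructor
    · funext i
      unfold vv
      rw [T_of_le_Q h, zero_mul, add_zero]
    · unfold yy
      rw [T_of_le_Q ((le_abs_self y).trans h), T_of_le_Q ((neg_le_abs y).trans h)]
      ring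
  · have hT : T (Q u) (vi y u) = |y| - Q u := by
      have := T_pull (c := Q u) (t := |y| - Q u) (v := u) (by linarith) rfl
      rw [← this]
      congr 1
      funext i
      unfold vi
      rw [max_eq_right (by linarith)]
    have hx : |xi y u| = Q u ∧ xi y u + T (xi y u) (vi y u) - T (-xi y u) (vi y u) = y := by
      rcases le_total 0 y with hy | hy
      · rw [abs_of_nonneg hy] at h hT
        have : xi y u = Q u := by
          unfold xi
          rw [min_eq_right h.le, max_eq_right (by linarith)]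
        rw [this, hT, T_zero (by linarith : -Q u ≤ 0), abs_of_pos hQ]
        exact ⟨rfl, by ring⟩
      · rw [abs_of_nonpos hy] at h hT
        have : xi y u = -Q u := by
          unfold xi
          rw [min_eq_left (by linarith), max_eq_left (by linarith)]
        rw [this, neg_neg, hT, T_zero (by linarith : -Q u ≤ 0), abs_neg, abs_of_pos hQ]
        exact ⟨rfl, by ring⟩
    constructor
    · funext i
      unfold vv
      rw [hx.1, hT]
      unfold vi
      rw [max_eq_right (by linarith)]
      ring
    · exact hx.2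

lemma continuous_vv {ι : Type*} [TopologicalSpace ι] {x : ι → ℝ} {v : ι → ℕ → ℝ}
    (hx : Continuous x) (hv : ∀ i, Continuous fun s => v s i) (i : ℕ) :
    Continuous fun s => vv (x s) (v s) i := by
  unfold vv
  have h1 : Continuous fun s => T |x s| (v s) :=
    continuous_T.comp (f := fun s => (|x s|, v s)) (hx.abs.prodMk (continuous_pi hv))
  exact (hv i).add (h1.mul ((continuous_w i).comp hx.abs))

lemma continuous_yy {ι : Type*} [TopologicalSpace ι] {x : ι → ℝ} {v : ι → ℕ → ℝ}
    (hx : Continuous x) (hv : ∀ i, Continuous fun s => v s i) :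
    Continuous fun s => yy (x s) (v s) := by
  unfold yy
  have h1 : Continuous fun s => T (x s) (v s) :=
    continuous_T.comp (f := fun s => (x s, v s)) (hx.prodMk (continuous_pi hv))
  have h2 : Continuous fun s => T (-x s) (v s) :=
    continuous_T.comp (f := fun s => (-x s, v s)) (hx.neg.prodMk (continuous_pi hv))
  exact (hx.add h1).sub h2

/-- `d n m → 0` as `m → ∞`, uniformly in `n`. -/
def Unif (d : ℕ → ℕ → ℝ) : Prop := ∀ ε > 0, ∃ M : ℕ, ∀ m ≥ M, ∀ n, |d n m| < ε

lemma Unif.congr {d d' : ℕ → ℕ → ℝ} (h : Unif d) {N : ℕ} (hN : ∀ m ≥ N, ∀ n, d' n m = d n m) :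
    Unif d' := by
  intro ε hε
  obtain ⟨M, hM⟩ := h ε hε
  refine ⟨max M N, fun m hm n => ?_⟩
  rw [hN m ((le_max_right _ _).trans hm) n]
  exact hM m ((le_max_left _ _).trans hm) n

/-- put `y` in front. -/
def cons (y : ℝ) (z : ℕ → ℝ) : ℕ → ℝ
  | 0 => y
  | (m + 1) => z m

lemma unif_cons {y : ℕ → ℝ} {z : ℕ → ℕ → ℝ} : Unif (fun n => cons (y n) (z n)) ↔ Unif z := by
  constructor
  · intro h ε hε
    obtain ⟨M, hM⟩ := h ε hε
    exact ⟨M, fun m hm n => hM (m + 1) (by omega) n⟩
  · intro h ε hε
    obtain ⟨M, hM⟩ := h ε hε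
    refine ⟨M + 1, fun m hm n => ?_⟩
    obtain ⟨m, rfl⟩ : ∃ k, m = k + 1 := ⟨m - 1, by omega⟩
    exact hM m (by omega) n

lemma unif_vv {x : ℕ → ℝ} {v : ℕ → ℕ → ℝ} (hx : ∃ C, ∀ n, |x n| ≤ C) (hv : Unif v) :
    Unif (fun n => vv (x n) (v n)) := by
  obtain ⟨C, hC⟩ := hx
  obtain ⟨N, hN⟩ := exists_nat_gt (C + 1)
  apply hv.congr (N := N)
  intro m hm n
  unfold vv
  have : (N : ℝ) ≤ m := by exact_mod_cast hm
  have := hC n
  rw [w_zero (by linarith), mul_zero, add_zero]

lemma unif_vi {y : ℕ → ℝ} {u : ℕ → ℕ → ℝ} (hu : Unif u) :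
    (∃ C, ∀ n, |xi (y n) (u n)| ≤ C) ∧ Unif (fun n => vi (y n) (u n)) := by
  obtain ⟨M, hM⟩ := hu 1 one_pos
  have hQ : ∀ n, Q (u n) ≤ M + Real.exp 1 := by
    intro n
    have h1 := Q_le (u n) M
    have h2 : Real.exp (u n M) ≤ Real.exp 1 :=
      Real.exp_le_exp.2 ((le_abs_self _).trans (hM M le_rfl n).le)
    linarith
  constructor
  · refine ⟨M + Real.exp 1, fun n => ?_⟩
    have h1 := Q_pos (u n)
    have h2 := hQ n
    unfold xi
    rw [abs_le]
    constructor
    · exact le_trans (by linarith) (le_max_left _ _)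
    · exact max_le (by linarith) ((min_le_right _ _).trans h2)
  · obtain ⟨N, hN⟩ := exists_nat_gt (M + Real.exp 1 + 1)
    apply hu.congr (N := N)
    intro m hm n
    unfold vi
    have : (N : ℝ) ≤ m := by exact_mod_cast hm
    have := hQ n
    rw [w_zero (by linarith), mul_zero, sub_zero]

end H239Cp
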