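import Pool.Agent.Helper239.CpB

open Filter Topology

namespace H239Cp

/-- The space of ultrafilters on the natural numbers. -/
abbrev BN := Ultrafilter ℕ

lemma tendsto_pure_map (b : ℕ → ℕ) (u : BN) :
    Tendsto (fun k => (pure (b k) : BN)) u (𝓝 (u.map b)) := by
  have h := Ultrafilter.tendsto_pure_self (u.map b)
  rw [Ultrafilter.coe_map, tendsto_map'_iff] at h
  exact h

lemma exists_ne (p : BN) (a : ℕ → ℕ) (ha : Function.Injective a) :
    ∃ c : ℕ → ℕ, (∀ k, k ≤ c k) ∧ (hyperfilter ℕ).map (a ∘ c) ≠ p := by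
  by_contra hcon
  push Not at hcon
  have h0 := hcon (fun k => 2 * k) (fun k => by omega)
  have h1 := hcon (fun k => 2 * k + 1) (fun k => by omega)
  have h2 : Set.range (a ∘ fun k => 2 * k) ∈ p := by
    rw [← h0, Ultrafilter.mem_map]
    exact Filter.univ_mem' fun k => ⟨k, rfl⟩
  have h3 : (Set.range (a ∘ fun k => 2 * k))ᶜ ∈ p := by
    rw [← h1, Ultrafilter.mem_map]
    apply Filter.univ_mem'
    rintro k ⟨m, hm⟩
    have := ha hm
    simp only at this
    omega
  exact (Ultrafilter.compl_notMem_iff.2 h2) h3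

/-- The point removed. -/
noncomputable abbrev pt : BN := hyperfilter ℕ

/-- The punctured space. -/
abbrev PN := {q : BN // q ≠ pt}

lemma pure_ne (n : ℕ) : (pure n : BN) ≠ pt := by
  intro h
  have h1 : ({n} : Set ℕ) ∈ (pure n : BN) := Ultrafilter.mem_pure.2 rfl
  rw [h] at h1
  exact (Set.finite_singleton n).notMem_hyperfilter h1

/-- the isolated points. -/
def pr (n : ℕ) : PN := ⟨pure n, pure_ne n⟩

lemma tendsto_pr (b : ℕ → ℕ) (u : BN) (h : u.map b ≠ pt) :
    Tendsto (fun k => pr (b k)) u (𝓝 (⟨u.map b, h⟩ : PN)) := by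
  rw [tendsto_subtype_rng]
  exact tendsto_pure_map b u

lemma bounded_pr {f : PN → ℝ} (hf : Continuous f) : ∃ C, ∀ n, |f (pr n)| ≤ C := by
  by_contra hcon
  push Not at hcon
  have h1 : ∀ k : ℕ, ∃ᶠ n in atTop, (k : ℝ) < |f (pr n)| := by
    intro k hk
    simp only [not_lt] at hk
    have h2 : BddAbove (Set.range fun n => |f (pr n)|) :=
      IsBoundedUnder.bddAbove_range ⟨k, by simpa using hk⟩
    obtain ⟨C, hC⟩ := h2
    obtain ⟨n, hn⟩ := hcon C
    exact absurd (hC ⟨n, rfl⟩) (not_le.2 hn)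
  obtain ⟨a, ha, h2⟩ := extraction_forall_of_frequently h1
  obtain ⟨c, hc, hne⟩ := exists_ne pt a ha.injective
  have h3 : Tendsto (fun k => pr ((a ∘ c) k)) (hyperfilter ℕ) (𝓝 (⟨_, hne⟩ : PN)) :=
    tendsto_pr (a ∘ c) (hyperfilter ℕ) hne
  have h4 := ((hf.tendsto _).comp h3).abs
  set L := |f ⟨_, hne⟩|
  have h5 : ∀ᶠ k in (hyperfilter ℕ : Filter ℕ), |f (pr (a (c k)))| < L + 1 :=
    h4.eventually_lt_const (by linarith)
  obtain ⟨N, hN⟩ := exists_nat_gt (L + 1)
  have h6 : ∀ᶠ k in (hyperfilter ℕ : Filter ℕ), N ≤ k :=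
    Nat.hyperfilter_le_atTop (eventually_ge_atTop N)
  obtain ⟨k, hk1, hk2⟩ := (h5.and h6).exists
  have h7 := h2 (c k)
  have h8 : (N : ℝ) ≤ c k := by exact_mod_cast hk2.trans (hc k)
  linarith

lemma eq_of_pr {f g : PN → ℝ} (hf : Continuous f) (hg : Continuous g)
    (h : ∀ n, f (pr n) = g (pr n)) : f = g := by
  funext ⟨q, hq⟩
  have h1 : Tendsto (fun n => pr n) q (𝓝 (⟨q, hq⟩ : PN)) := by
    rw [tendsto_subtype_rng]
    exact Ultrafilter.tendsto_pure_self q
  have h2 := (hf.tendsto _).comp h1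
  have h3 := (hg.tendsto _).comp h1
  have h4 : f ∘ (fun n => pr n) = g ∘ (fun n => pr n) := funext h
  rw [h4] at h2
  exact tendsto_nhds_unique h2 h3

lemma eq_of_pure {f g : BN → ℝ} (hf : Continuous f) (hg : Continuous g)
    (h : ∀ n : ℕ, f (pure n) = g (pure n)) : f = g := by
  funext q
  have h1 := Ultrafilter.tendsto_pure_self q
  have h2 := (hf.tendsto _).comp h1
  have h3 := (hg.tendsto _).comp h1
  have h4 : f ∘ (pure : ℕ → BN) = g ∘ (pure : ℕ → BN) := funext h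
  rw [h4] at h2
  exact tendsto_nhds_unique h2 h3

lemma exists_extend {x : ℕ → ℝ} (hx : ∃ C, ∀ n, |x n| ≤ C) :
    ∃ e : BN → ℝ, Continuous e ∧ ∀ n : ℕ, e (pure n) = x n := by
  obtain ⟨C, hC⟩ := hx
  let x' : ℕ → Set.Icc (-C) C := fun n => ⟨x n, abs_le.1 (hC n)⟩
  refine ⟨Subtype.val ∘ Ultrafilter.extend x',
    continuous_subtype_val.comp (continuous_ultrafilter_extend x'), fun n => ?_⟩
  simp only [Function.comp_apply, ultrafilter_extend_pure]
  rfl

lemma not_sigmaCompact_PN : ¬ SigmaCompactSpace PN := by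
  intro hS
  have h1 : ∀ n, ∃ A : Set ℕ, A ∈ pt ∧ ∀ q : PN, A ∈ q.1 → q ∉ compactCovering PN n := by
    intro n
    have hK : IsCompact (Subtype.val '' compactCovering PN n : Set BN) :=
      (isCompact_compactCovering PN n).image continuous_subtype_val
    have hp : pt ∈ (Subtype.val '' compactCovering PN n : Set BN)ᶜ := by
      rintro ⟨q, -, hq⟩
      exact q.2 hq
    obtain ⟨_, ⟨A, rfl⟩, hA, hA'⟩ :=
      ultrafilterBasis_is_basis.exists_subset_of_mem_open hp hK.isClosed.isOpen_compl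
    refine ⟨A, hA, fun q hq hq' => hA' hq ⟨q, hq', rfl⟩⟩
  choose A hA hA' using h1
  have h2 : ∀ n : ℕ, ∃ᶠ k in atTop, ∀ i ≤ n, k ∈ A i := by
    intro n
    have h3 : ∀ᶠ k in (hyperfilter ℕ : Filter ℕ), ∀ i ≤ n, k ∈ A i := by
      have : ∀ i ∈ Finset.range (n + 1), ∀ᶠ k in (hyperfilter ℕ : Filter ℕ), k ∈ A i :=
        fun i _ => hA i
      have := (Finset.eventually_all _).2 this
      filter_upwards [this] with k hk i hi
      exact hk i (by simp; omega)
    exact h3.frequently.filter_mono Nat.hyperfilter_le_atTop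
  obtain ⟨a, ha, h3⟩ := extraction_forall_of_frequently h2
  obtain ⟨c, hc, hne⟩ := exists_ne pt a ha.injective
  have h4 : ∀ i, A i ∈ (hyperfilter ℕ).map (a ∘ c) := by
    intro i
    rw [Ultrafilter.mem_map]
    have h6 : ∀ᶠ k in (hyperfilter ℕ : Filter ℕ), i ≤ k :=
      Nat.hyperfilter_le_atTop (eventually_ge_atTop i)
    filter_upwards [h6] with k hk
    exact h3 (c k) i (hk.trans (hc k))
  have h5 : (⟨_, hne⟩ : PN) ∈ ⋃ n, compactCovering PN n := by
    rw [iUnion_compactCovering]; trivial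
  obtain ⟨n, hn⟩ := Set.mem_iUnion.1 h5
  exact hA' n _ (h4 n) hn

end H239Cp
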