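import Pool.Agent.Helper239.CpC

open Filter Topology

namespace H239Cp

/-- The underlying set of the fan: a point at infinity and two copies of `ℕ × ℕ`. -/
def Fan : Type := Option (Bool × ℕ × ℕ)

def Fan.inf : Fan := (none : Option (Bool × ℕ × ℕ))

def Fan.mk (b : Bool) (n m : ℕ) : Fan := (some (b, n, m) : Option (Bool × ℕ × ℕ))

instance : Countable Fan := inferInstanceAs (Countable (Option (Bool × ℕ × ℕ)))

/-- the filter of neighbourhoods of infinity. -/
def fanFilter : Filter Fan :=
  Filter.map (fun j : Bool × ℕ × ℕ => Fan.mk j.1 j.2.1 j.2.2)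
    (Filter.comap (fun j : Bool × ℕ × ℕ => j.2.2) atTop)

instance : TopologicalSpace Fan := nhdsAdjoint Fan.inf fanFilter

lemma Fan.cases_on' {P : Fan → Prop} (h0 : P Fan.inf) (h1 : ∀ b n m, P (Fan.mk b n m)) (x : Fan) :
    P x := by
  rcases x with _ | ⟨b, n, m⟩
  · exact h0
  · exact h1 b n m

lemma Fan.mk_ne (b : Bool) (n m : ℕ) : Fan.mk b n m ≠ Fan.inf := by
  intro h
  exact Option.some_ne_none _ h

lemma isClopen_mk (b : Bool) (n m : ℕ) : IsClopen ({Fan.mk b n m} : Set Fan) := by
  constructor
  · rw [← isOpen_compl_iff]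
    change Fan.inf ∈ ({Fan.mk b n m} : Set Fan)ᶜ → ({Fan.mk b n m} : Set Fan)ᶜ ∈ fanFilter
    intro _
    unfold fanFilter
    rw [Filter.mem_map]
    refine ⟨Set.Ioi m, Ioi_mem_atTop m, ?_⟩
    rintro ⟨b', n', m'⟩ hj
    simp only [Set.mem_preimage, Set.mem_Ioi] at hj
    simp only [Set.mem_preimage, Set.mem_compl_iff, Set.mem_singleton_iff]
    intro h
    have h' : (some (b', n', m') : Option (Bool × ℕ × ℕ)) = some (b, n, m) := h
    simp only [Option.some.injEq, Prod.mk.injEq] at h'
    omega
  · exact isOpen_singleton_nhdsAdjoint _ (Fan.mk_ne b n m)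

lemma isOpen_of_notMem {K : Set Fan} (h : Fan.inf ∉ K) : IsOpen K := by
  change Fan.inf ∈ K → K ∈ fanFilter
  exact fun h' => absurd h' h

instance : T1Space Fan where
  t1 x := by
    induction x using Fan.cases_on' with
    | h0 =>
      rw [← isOpen_compl_iff]
      exact isOpen_of_notMem (fun h => h rfl)
    | h1 b n m => exact (isClopen_mk b n m).isClosed

instance : CompletelyRegularSpace Fan where
  completely_regular x K hK hx := by
    have key : ∃ U : Set Fan, IsClopen U ∧ x ∈ U ∧ Disjoint U K := by
      induction x using Fan.cases_on' with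
      | h0 => exact ⟨Kᶜ, ⟨(isOpen_of_notMem hx).isClosed_compl, hK.isOpen_compl⟩, hx,
          disjoint_compl_left⟩
      | h1 b n m => exact ⟨{Fan.mk b n m}, isClopen_mk b n m, rfl, by simpa using hx⟩
    obtain ⟨s, hs, hx, hsK⟩ := key
    refine ⟨sᶜ.indicator 1, ?_, by simpa, fun y hy ↦ Set.indicator_of_mem ?_ _⟩
    · exact hs.compl.continuous_indicator continuous_const
    · exact fun hs' => Set.disjoint_left.1 hsK hs' hy

instance : T35Space Fan where

instance {A B : Type} [TopologicalSpace A] [TopologicalSpace B] [CompletelyRegularSpace A]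
    [CompletelyRegularSpace B] : CompletelyRegularSpace (A ⊕ B) where
  completely_regular x K hK hx := by
    rcases x with x | x
    · obtain ⟨f, hf, hfx, hfK⟩ := CompletelyRegularSpace.completely_regular x (Sum.inl ⁻¹' K)
        (hK.preimage continuous_inl) hx
      refine ⟨Sum.elim f (fun _ => 1), hf.sumElim continuous_const, hfx, ?_⟩
      rintro (y | y) hy
      · exact hfK hy
      · rfl
    · obtain ⟨f, hf, hfx, hfK⟩ := CompletelyRegularSpace.completely_regular x (Sum.inr ⁻¹' K)
        (hK.preimage continuous_inr) hx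
      refine ⟨Sum.elim (fun _ => 1) f, continuous_const.sumElim hf, hfx, ?_⟩
      rintro (y | y) hy
      · rfl
      · exact hfK hy

lemma t35_sum {A B : Type} [TopologicalSpace A] [TopologicalSpace B] [T35Space A] [T35Space B] :
    T35Space (A ⊕ B) where

lemma continuous_fan_iff {F : Fan → ℝ} : Continuous F ↔
    ∀ b, Unif (fun n m => F (Fan.mk b n m) - F Fan.inf) := by
  rw [continuous_iff_continuousAt]
  have h0 : ContinuousAt F Fan.inf ↔ ∀ b, Unif (fun n m => F (Fan.mk b n m) - F Fan.inf) := by
    unfold ContinuousAt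
    rw [show 𝓝 Fan.inf = pure Fan.inf ⊔ fanFilter from nhds_nhdsAdjoint_same _ _, tendsto_sup]
    refine (and_iff_right (tendsto_pure_nhds _ _)).trans ?_
    unfold fanFilter
    rw [tendsto_map'_iff, Metric.tendsto_nhds]
    constructor
    · intro h b ε hε
      have h1 := h ε hε
      rw [eventually_comap] at h1
      obtain ⟨M, hM⟩ := eventually_atTop.1 h1
      refine ⟨M, fun m hm n => ?_⟩
      have := hM m hm (b, n, m) rfl
      rwa [Real.dist_eq] at this
    · intro h ε hε
      rw [eventually_comap]
      obtain ⟨M, hM⟩ := h false ε hε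
      obtain ⟨M', hM'⟩ := h true ε hε
      filter_upwards [eventually_ge_atTop M, eventually_ge_atTop M'] with m h1 h2
      rintro ⟨b, n, m'⟩ rfl
      rw [Real.dist_eq]
      rcases b with _ | _
      · exact hM _ h1 n
      · exact hM' _ h2 n
  constructor
  · intro h
    exact h0.1 (h _)
  · intro h x
    induction x using Fan.cases_on' with
    | h0 => exact h0.2 h
    | h1 b n m =>
      unfold ContinuousAt
      rw [show 𝓝 (Fan.mk b n m) = pure (Fan.mk b n m) from
        nhds_nhdsAdjoint_of_ne _ (Fan.mk_ne b n m)]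
      exact tendsto_pure_nhds _ _

end H239Cp
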