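import Pool.Agent.Helper239.CpD

open Filter Topology

namespace H239Cp

/-- `C_p(X)`: the set of continuous real functions on `X`, with the subspace topology of the
product topology on `X → ℝ` (pointwise convergence). -/
abbrev Cp (X : Type) [TopologicalSpace X] : Type := {f : X → ℝ // Continuous f}

abbrev XX : Type := BN ⊕ ((ℕ × BN) ⊕ Fan)

abbrev YY : Type := PN ⊕ ((ℕ × BN) ⊕ Fan)

lemma continuous_eval {Z : Type} [TopologicalSpace Z] (z : Z) :
    Continuous (fun F : Cp Z => F.1 z) :=
  (continuous_apply z).comp continuous_subtype_val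

/-! ### restriction -/

def iota : YY → XX := Sum.map Subtype.val id

lemma continuous_iota : Continuous iota := continuous_subtype_val.sumMap continuous_id

def Phi (F : Cp XX) : Cp YY := ⟨F.1 ∘ iota, F.2.comp continuous_iota⟩

lemma continuous_Phi : Continuous Phi := by
  apply Continuous.subtype_mk
  apply continuous_pi
  intro y
  exact continuous_eval (iota y)

lemma bijective_Phi : Function.Bijective Phi := by
  constructor
  · intro F G h
    have h1 : ∀ y, F.1 (iota y) = G.1 (iota y) := fun y => congrFun (congrArg Subtype.val h) y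
    have h2 : F.1 ∘ Sum.inl = G.1 ∘ Sum.inl :=
      eq_of_pure (F.2.comp continuous_inl) (G.2.comp continuous_inl)
        (fun n => h1 (Sum.inl (pr n)))
    apply Subtype.ext
    funext x
    rcases x with q | z
    · exact congrFun h2 q
    · exact h1 (Sum.inr z)
  · intro F
    have hF1 : Continuous (F.1 ∘ Sum.inl) := F.2.comp continuous_inl
    obtain ⟨e, he, he'⟩ := exists_extend (bounded_pr hF1)
    refine ⟨⟨Sum.elim e (F.1 ∘ Sum.inr), he.sumElim (F.2.comp continuous_inr)⟩, ?_⟩
    apply Subtype.ext
    funext y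
    rcases y with q | z
    · have : e ∘ Subtype.val = F.1 ∘ Sum.inl :=
        eq_of_pr (he.comp continuous_subtype_val) hF1 he'
      exact congrFun this q
    · rfl

/-! ### the second map -/

/-- coordinates of a function on `YY`. -/
noncomputable def fx (F : YY → ℝ) (n : ℕ) : ℝ := F (Sum.inl (pr n))

noncomputable def fd (G : Fan → ℝ) (b : Bool) (n m : ℕ) : ℝ := G (Fan.mk b n m) - G Fan.inf

/-- assemble a function on the fan. -/
noncomputable def mkFan (L : ℝ) (d : Bool → ℕ → ℕ → ℝ) : Fan → ℝ :=
  fun x => Option.elim (x : Option (Bool × ℕ × ℕ)) L (fun j => L + d j.1 j.2.1 j.2.2)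

lemma mkFan_inf (L : ℝ) (d : Bool → ℕ → ℕ → ℝ) : mkFan L d Fan.inf = L := rfl

lemma mkFan_mk (L : ℝ) (d : Bool → ℕ → ℕ → ℝ) (b : Bool) (n m : ℕ) :
    mkFan L d (Fan.mk b n m) = L + d b n m := rfl

lemma continuous_mkFan {L : ℝ} {d : Bool → ℕ → ℕ → ℝ} (h0 : Unif (d false))
    (h1 : Unif (d true)) : Continuous (mkFan L d) := by
  rw [continuous_fan_iff]
  intro b
  have : (fun n m => mkFan L d (Fan.mk b n m) - mkFan L d Fan.inf) = d b := by
    funext n m
    rw [mkFan_mk, mkFan_inf]; ring
  rw [this]
  cases b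
  · exact h0
  · exact h1

noncomputable def newd (x : ℕ → ℝ) (d : Bool → ℕ → ℕ → ℝ) (b : Bool) (n : ℕ) : ℕ → ℝ :=
  bif b then cons (yy (x n) (d false n)) (d true n) else vv (x n) (d false n)

/-- the shift on the compact pieces. -/
def shiftPart (F : YY → ℝ) : ℕ × BN → ℝ := fun s => F (Sum.inr (Sum.inl (s.1 + 1, s.2)))

noncomputable def psi (F : YY → ℝ) : XX → ℝ :=
  Sum.elim (fun q => F (Sum.inr (Sum.inl (0, q))))
    (Sum.elim (shiftPart F)
      (mkFan (F (Sum.inr (Sum.inr Fan.inf)))
        (newd (fx F) (fd (F ∘ Sum.inr ∘ Sum.inr)))))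

lemma continuous_psi {F : YY → ℝ} (hF : Continuous F) : Continuous (psi F) := by
  unfold psi
  apply Continuous.sumElim
  · exact hF.comp (continuous_inr.comp (continuous_inl.comp (by fun_prop)))
  apply Continuous.sumElim
  · exact hF.comp (continuous_inr.comp (continuous_inl.comp (by fun_prop)))
  have h1 : Continuous (F ∘ Sum.inr ∘ Sum.inr) := hF.comp (continuous_inr.comp continuous_inr)
  rw [continuous_fan_iff] at h1
  have hb : ∃ C, ∀ n, |fx F n| ≤ C := bounded_pr (hF.comp continuous_inl)
  apply continuous_mkFan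
  · exact unif_vv hb (h1 false)
  · exact unif_cons.2 (h1 true)

noncomputable def Psi (F : Cp YY) : Cp XX := ⟨psi F.1, continuous_psi F.2⟩

lemma continuous_Psi : Continuous Psi := by
  apply Continuous.subtype_mk
  apply continuous_pi
  have hd : ∀ b n m, Continuous (fun F : Cp YY => fd (F.1 ∘ Sum.inr ∘ Sum.inr) b n m) := by
    intro b n m
    exact (continuous_eval _).sub (continuous_eval _)
  rintro (q | s | x)
  · exact continuous_eval _
  · exact continuous_eval _
  · induction x using Fan.cases_on' with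
    | h0 => exact continuous_eval (Sum.inr (Sum.inr Fan.inf) : YY)
    | h1 b n m =>
      change Continuous (fun F : Cp YY => F.1 (Sum.inr (Sum.inr Fan.inf)) +
        newd (fx F.1) (fd (F.1 ∘ Sum.inr ∘ Sum.inr)) b n m)
      apply (continuous_eval _).add
      have hx : Continuous (fun F : Cp YY => fx F.1 n) := continuous_eval _
      cases b
      · exact continuous_vv hx (hd false n) m
      · rcases m with _ | m
        · exact continuous_yy hx (hd false n)
        · exact hd true n m

lemma bijective_Psi : Function.Bijective Psi := by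
  constructor
  · intro F G h
    have h1 : ∀ y, psi F.1 y = psi G.1 y := fun y => congrFun (congrArg Subtype.val h) y
    have hL : F.1 (Sum.inr (Sum.inr Fan.inf)) = G.1 (Sum.inr (Sum.inr Fan.inf)) :=
      h1 (Sum.inr (Sum.inr Fan.inf))
    have hd : ∀ b n m, newd (fx F.1) (fd (F.1 ∘ Sum.inr ∘ Sum.inr)) b n m =
        newd (fx G.1) (fd (G.1 ∘ Sum.inr ∘ Sum.inr)) b n m := by
      intro b n m
      have := h1 (Sum.inr (Sum.inr (Fan.mk b n m)))
      change F.1 (Sum.inr (Sum.inr Fan.inf)) + _ = G.1 (Sum.inr (Sum.inr Fan.inf)) + _ at this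
      rw [hL] at this
      exact add_left_cancel this
    have hv : ∀ n, vv (fx F.1 n) (fd (F.1 ∘ Sum.inr ∘ Sum.inr) false n) =
        vv (fx G.1 n) (fd (G.1 ∘ Sum.inr ∘ Sum.inr) false n) := fun n =>
      funext fun m => hd false n m
    have hy : ∀ n, yy (fx F.1 n) (fd (F.1 ∘ Sum.inr ∘ Sum.inr) false n) =
        yy (fx G.1 n) (fd (G.1 ∘ Sum.inr ∘ Sum.inr) false n) := fun n => hd true n 0
    have hz : ∀ n m, fd (F.1 ∘ Sum.inr ∘ Sum.inr) true n m =
        fd (G.1 ∘ Sum.inr ∘ Sum.inr) true n m := fun n m => hd true n (m + 1)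
    have hx : ∀ n, fx F.1 n = fx G.1 n := by
      intro n
      rw [← (vi_yy (fx F.1 n) (fd (F.1 ∘ Sum.inr ∘ Sum.inr) false n)).2, hv n, hy n,
        (vi_yy (fx G.1 n) (fd (G.1 ∘ Sum.inr ∘ Sum.inr) false n)).2]
    have hf : ∀ n, fd (F.1 ∘ Sum.inr ∘ Sum.inr) false n = fd (G.1 ∘ Sum.inr ∘ Sum.inr) false n := by
      intro n
      rw [← (vi_yy (fx F.1 n) (fd (F.1 ∘ Sum.inr ∘ Sum.inr) false n)).1, hv n, hy n,
        (vi_yy (fx G.1 n) (fd (G.1 ∘ Sum.inr ∘ Sum.inr) false n)).1]
    apply Subtype.ext
    funext y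
    rcases y with q | ⟨k, q⟩ | x
    · have : F.1 ∘ Sum.inl = G.1 ∘ Sum.inl :=
        eq_of_pr (F.2.comp continuous_inl) (G.2.comp continuous_inl) hx
      exact congrFun this q
    · rcases k with _ | k
      · exact h1 (Sum.inl q)
      · exact h1 (Sum.inr (Sum.inl (k, q)))
    · induction x using Fan.cases_on' with
      | h0 => exact hL
      | h1 b n m =>
        have : F.1 (Sum.inr (Sum.inr (Fan.mk b n m))) - F.1 (Sum.inr (Sum.inr Fan.inf)) =
            G.1 (Sum.inr (Sum.inr (Fan.mk b n m))) - G.1 (Sum.inr (Sum.inr Fan.inf)) := by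
          cases b
          · exact congrFun (hf n) m
          · exact hz n m
        rw [hL] at this
        linarith
  · intro H
    set L := H.1 (Sum.inr (Sum.inr Fan.inf)) with hLdef
    set e := fd (H.1 ∘ Sum.inr ∘ Sum.inr) with hedef
    have hc : Continuous (H.1 ∘ Sum.inr ∘ Sum.inr) :=
      H.2.comp (continuous_inr.comp continuous_inr)
    rw [continuous_fan_iff] at hc
    have h0 : Unif (e false) := hc false
    have h1 : Unif (e true) := hc true
    obtain ⟨hb, hvi⟩ := unif_vi (y := fun n => e true n 0) h0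
    obtain ⟨g, hg, hg'⟩ := exists_extend hb
    let d : Bool → ℕ → ℕ → ℝ := fun b n m =>
      bif b then e true n (m + 1) else vi (e true n 0) (e false n) m
    have hd0 : Unif (d false) := hvi
    have hd1 : Unif (d true) := by
      intro ε hε
      obtain ⟨M, hM⟩ := h1 ε hε
      exact ⟨M, fun m hm n => hM (m + 1) (by omega) n⟩
    let mid : ℕ × BN → ℝ := fun s => Nat.casesOn s.1 (H.1 (Sum.inl s.2))
      (fun k => H.1 (Sum.inr (Sum.inl (k, s.2))))
    have hmid : Continuous mid := by
      rw [continuous_prod_of_discrete_left]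
      intro k
      rcases k with _ | k
      · exact H.2.comp continuous_inl
      · exact H.2.comp (continuous_inr.comp (continuous_inl.comp (by fun_prop)))
    let F : YY → ℝ := Sum.elim (fun q => g q.1) (Sum.elim mid (mkFan L d))
    have hF : Continuous F := (hg.comp continuous_subtype_val).sumElim
      (hmid.sumElim (continuous_mkFan hd0 hd1))
    refine ⟨⟨F, hF⟩, ?_⟩
    apply Subtype.ext
    funext x
    change psi F x = H.1 x
    have hfd : fd (F ∘ Sum.inr ∘ Sum.inr) = d := by
      funext b n m
      change L + d b n m - L = d b n m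
      ring
    have hfx : ∀ n, fx F n = xi (e true n 0) (e false n) := fun n => hg' n
    rcases x with q | ⟨k, q⟩ | x
    · rfl
    · rfl
    · induction x using Fan.cases_on' with
      | h0 => rfl
      | h1 b n m =>
        change L + newd (fx F) (fd (F ∘ Sum.inr ∘ Sum.inr)) b n m = _
        have hkey : newd (fx F) (fd (F ∘ Sum.inr ∘ Sum.inr)) b n m = e b n m := by
          rw [hfd]
          have h2 := vv_vi (e true n 0) (e false n)
          have h3 : d false n = vi (e true n 0) (e false n) := rfl
          cases b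
          · change vv (fx F n) (d false n) m = _
            rw [hfx, h3, h2.1]
          · change cons (yy (fx F n) (d false n)) (d true n) m = _
            rcases m with _ | m
            · change yy (fx F n) (d false n) = _
              rw [hfx, h3, h2.2]
            · rfl
        rw [hkey]
        change L + (H.1 (Sum.inr (Sum.inr (Fan.mk b n m))) - L) = _
        ring

instance : T35Space XX :=
  haveI : T35Space ((ℕ × BN) ⊕ Fan) := t35_sum
  t35_sum

instance : T35Space YY :=
  haveI : T35Space ((ℕ × BN) ⊕ Fan) := t35_sum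
  t35_sum

instance : SigmaCompactSpace Fan :=
  SigmaCompactSpace.of_countable (Set.range fun x : Fan => ({x} : Set Fan))
    (Set.countable_range _) (by rintro _ ⟨x, rfl⟩; exact isCompact_singleton)
    (by
      rw [Set.sUnion_range]
      exact Set.iUnion_of_singleton Fan)

lemma not_sigmaCompact_YY : ¬ SigmaCompactSpace YY := by
  intro h
  exact not_sigmaCompact_PN (Topology.IsClosedEmbedding.inl.sigmaCompactSpace (X := YY))

theorem main : ∃ (X Y : Type) (_ : TopologicalSpace X) (_ : TopologicalSpace Y),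
    T35Space X ∧ T35Space Y ∧ SigmaCompactSpace X ∧ ¬ SigmaCompactSpace Y ∧
    (∃ φ : Cp X → Cp Y, Continuous φ ∧ Function.Bijective φ) ∧
    (∃ ψ : Cp Y → Cp X, Continuous ψ ∧ Function.Bijective ψ) :=
  ⟨XX, YY, inferInstance, inferInstance, inferInstance, inferInstance, inferInstance,
    not_sigmaCompact_YY, ⟨Phi, continuous_Phi, bijective_Phi⟩, ⟨Psi, continuous_Psi, bijective_Psi⟩⟩

end H239Cp
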