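import Mathlib

set_option autoImplicit false
set_option maxSynthPendingDepth 3
open Filter Topology

namespace Pool.Agent.Helper239.Hyp

universe u v w

/-! ### Definitions -/

/-- A Banach `A`-bimodule structure on the Banach space `X`: bounded bilinear maps
`l a x = a · x` and `r a x = x · a` satisfying the bimodule laws. -/
structure BanachBimodule (A : Type v) (X : Type w) [NonUnitalNormedRing A] [NormedSpace ℂ A]
    [NormedAddCommGroup X] [NormedSpace ℂ X] where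
  l : A →L[ℂ] X →L[ℂ] X
  r : A →L[ℂ] X →L[ℂ] X
  mul_l : ∀ a b x, l (a * b) x = l a (l b x)
  mul_r : ∀ a b x, r (a * b) x = r b (r a x)
  l_r : ∀ a b x, l a (r b x) = r b (l a x)

section Defs

variable {A : Type v} {X : Type w} [NonUnitalNormedRing A] [NormedSpace ℂ A]
    [NormedAddCommGroup X] [NormedSpace ℂ X]

/-- Left action on the dual `X*`: `(a · φ)(x) = φ(x · a)`. -/
noncomputable def BanachBimodule.dualL (M : BanachBimodule A X) (a : A) (φ : X →L[ℂ] ℂ) :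
    X →L[ℂ] ℂ := φ.comp (M.r a)

/-- Right action on the dual `X*`: `(φ · a)(x) = φ(a · x)`. -/
noncomputable def BanachBimodule.dualR (M : BanachBimodule A X) (a : A) (φ : X →L[ℂ] ℂ) :
    X →L[ℂ] ℂ := φ.comp (M.l a)

/-- A bounded derivation `D : A → X*`. -/
def IsDerivation (M : BanachBimodule A X) (D : A →L[ℂ] (X →L[ℂ] ℂ)) : Prop :=
  ∀ a b, D (a * b) = M.dualL a (D b) + M.dualR b (D a)

end Defs

/-- `A` is approximately amenable: for every Banach `A`-bimodule `X`, every bounded derivation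
`D : A → X*` is the limit in norm, pointwise on `A`, of a net of inner derivations
`a ↦ a · ξ_i - ξ_i · a`, `ξ_i ∈ X*`. -/
def IsApproxAmenable (A : Type u) [NonUnitalNormedRing A] [NormedSpace ℂ A] : Prop :=
  ∀ (X : Type u) [NormedAddCommGroup X] [NormedSpace ℂ X] [CompleteSpace X]
    (M : BanachBimodule A X) (D : A →L[ℂ] (X →L[ℂ] ℂ)), IsDerivation M D →
    ∃ (I : Type u) (_ : Preorder I) (_ : IsDirected I (· ≤ ·)) (_ : Nonempty I)
      (ξ : I → (X →L[ℂ] ℂ)), ∀ a : A,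
      Tendsto (fun i => M.dualL a (ξ i) - M.dualR a (ξ i)) atTop (𝓝 (D a))

/-! ### A norm estimate in C*-algebras -/

section Estimate

variable {B : Type w} [CStarAlgebra B]

lemma norm_est (s s' x : B) (hs : ‖s‖ ≤ 1) (hs' : ‖s'‖ ≤ 1) (t : ℝ) :
    ‖(1 / 2 : ℝ) • (s + s') + t • ((s - s') * x)‖ ^ 2 ≤ 1 + 8 * t ^ 2 * ‖x‖ ^ 2 := by
  let _ := CStarAlgebra.spectralOrder B
  have _ := CStarAlgebra.spectralOrderedRing B
  set m : B := (1 / 2 : ℝ) • (s + s') with hm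
  set d : B := s - s' with hd
  have h1 : ∀ z : B, ‖z‖ ≤ 1 → z * star z ≤ 1 := by
    intro z hz
    refine CStarAlgebra.mul_star_le_algebraMap_norm_sq.trans ?_
    rw [← map_one (algebraMap ℝ B)]
    exact algebraMap_mono B (by nlinarith [norm_nonneg z])
  have h2 : m * star m + (1 / 4 : ℝ) • (d * star d) ≤ 1 := by
    have e : m * star m + (1 / 4 : ℝ) • (d * star d)
        = (1 / 2 : ℝ) • (s * star s) + (1 / 2 : ℝ) • (s' * star s') := by
      rw [hm, hd]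
      simp only [star_smul, star_add, star_sub, star_trivial, smul_mul_smul_comm]
      simp only [mul_add, add_mul, mul_sub, sub_mul, smul_add, smul_sub]
      module
    rw [e]
    have h3 := h1 s hs
    have h4 := h1 s' hs'
    calc (1 / 2 : ℝ) • (s * star s) + (1 / 2 : ℝ) • (s' * star s')
        ≤ (1 / 2 : ℝ) • (1 : B) + (1 / 2 : ℝ) • (1 : B) :=
          add_le_add (smul_le_smul_of_nonneg_left h3 (by norm_num))
            (smul_le_smul_of_nonneg_left h4 (by norm_num))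
      _ = 1 := by module
  have hmm : m * star m ≤ 1 := by
    refine le_trans ?_ h2
    exact le_add_of_nonneg_right (smul_nonneg (by norm_num) (mul_star_self_nonneg d))
  have hdd : d * star d ≤ (4 : ℝ) • (1 : B) := by
    have h5 : (1 / 4 : ℝ) • (d * star d) ≤ 1 := by
      refine le_trans ?_ h2
      exact le_add_of_nonneg_left (mul_star_self_nonneg m)
    have h6 := smul_le_smul_of_nonneg_left h5 (show (0 : ℝ) ≤ 4 by norm_num)
    rwa [smul_smul, show (4 : ℝ) * (1 / 4) = 1 by norm_num, one_smul] at h6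
  have h7 : m * (star x * x) * star m ≤ (‖x‖ ^ 2) • (1 : B) := by
    have h8 : m * (star x * x) * star m ≤ ‖star x * x‖ • (m * star m) :=
      CStarAlgebra.star_right_conjugate_le_norm_smul
    rw [CStarRing.norm_star_mul_self, ← pow_two] at h8
    exact h8.trans (smul_le_smul_of_nonneg_left hmm (by positivity))
  have h9 : d * (x * star x) * star d ≤ (4 * ‖x‖ ^ 2) • (1 : B) := by
    have h8 : d * (x * star x) * star d ≤ ‖x * star x‖ • (d * star d) :=
      CStarAlgebra.star_right_conjugate_le_norm_smul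
    rw [CStarRing.norm_self_mul_star, ← pow_two] at h8
    refine h8.trans ((smul_le_smul_of_nonneg_left hdd (by positivity)).trans ?_)
    rw [smul_smul, mul_comm]
  have h10 : t • (m * star x * star d) + t • (d * x * star m)
      ≤ (4 * t ^ 2) • (m * (star x * x) * star m) + (1 / 4 : ℝ) • (d * star d) := by
    have h11 : 0 ≤ ((2 * t) • (m * star x) - (1 / 2 : ℝ) • d) *
        star ((2 * t) • (m * star x) - (1 / 2 : ℝ) • d) := mul_star_self_nonneg _
    have e : ((2 * t) • (m * star x) - (1 / 2 : ℝ) • d) *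
        star ((2 * t) • (m * star x) - (1 / 2 : ℝ) • d)
        = ((4 * t ^ 2) • (m * (star x * x) * star m) + (1 / 4 : ℝ) • (d * star d))
          - (t • (m * star x * star d) + t • (d * x * star m)) := by
      simp only [star_smul, star_sub, star_mul, star_star, star_trivial, mul_sub, sub_mul,
        smul_mul_smul_comm, mul_assoc]
      module
    rw [e] at h11
    exact sub_nonneg.1 h11
  set y : B := m + t • (d * x) with hy
  have h12 : y * star y ≤ algebraMap ℝ B (1 + 8 * t ^ 2 * ‖x‖ ^ 2) := by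
    have e : y * star y = m * star m + (t • (m * star x * star d) + t • (d * x * star m))
        + (t ^ 2) • (d * (x * star x) * star d) := by
      rw [hy]
      simp only [star_smul, star_add, star_mul, star_trivial, mul_add, add_mul,
        mul_smul_comm, smul_mul_assoc, mul_assoc]
      module
    rw [e]
    calc m * star m + (t • (m * star x * star d) + t • (d * x * star m))
        + (t ^ 2) • (d * (x * star x) * star d)
        ≤ m * star m + ((4 * t ^ 2) • (m * (star x * x) * star m) + (1 / 4 : ℝ) • (d * star d))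
          + (t ^ 2) • ((4 * ‖x‖ ^ 2) • (1 : B)) :=
          add_le_add (add_le_add_right h10 _) (smul_le_smul_of_nonneg_left h9 (by positivity))
      _ = (m * star m + (1 / 4 : ℝ) • (d * star d))
          + (4 * t ^ 2) • (m * (star x * x) * star m) + (t ^ 2) • ((4 * ‖x‖ ^ 2) • (1 : B)) := by
          abel
      _ ≤ 1 + (4 * t ^ 2) • ((‖x‖ ^ 2) • (1 : B)) + (t ^ 2) • ((4 * ‖x‖ ^ 2) • (1 : B)) :=
          add_le_add (add_le_add h2 (smul_le_smul_of_nonneg_left h7 (by positivity))) le_rfl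
      _ = algebraMap ℝ B (1 + 8 * t ^ 2 * ‖x‖ ^ 2) := by
          rw [Algebra.algebraMap_eq_smul_one]
          module
  have h13 := (CStarAlgebra.norm_le_iff_le_algebraMap (y * star y)
    (show (0 : ℝ) ≤ 1 + 8 * t ^ 2 * ‖x‖ ^ 2 by positivity) (mul_star_self_nonneg y)).2 h12
  rwa [CStarRing.norm_self_mul_star, ← pow_two] at h13

end Estimate

lemma func_est {B : Type w} [CStarAlgebra B] (f : B →L[ℂ] ℂ) (hf : ‖f‖ ≤ 1) (s s' x : B)
    (hs : ‖s‖ ≤ 1) (hs' : ‖s'‖ ≤ 1) (η t : ℝ) (ht : 0 < t) (h1 : 1 - η ≤ (f s).re)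
    (h2 : 1 - η ≤ (f s').re) : t * ‖f ((s - s') * x)‖ ≤ η + 4 * t ^ 2 * ‖x‖ ^ 2 := by
  obtain ⟨z, hz, hzw⟩ : ∃ z : ℂ, ‖z‖ ≤ 1 ∧ z * f ((s - s') * x) = ‖f ((s - s') * x)‖ := by
    by_cases hw : f ((s - s') * x) = 0
    · exact ⟨0, by simp, by simp [hw]⟩
    · refine ⟨(starRingEnd ℂ) (f ((s - s') * x)) / ‖f ((s - s') * x)‖, ?_, ?_⟩
      · rw [norm_div, RCLike.norm_conj, Complex.norm_real, norm_norm]
        exact div_self_le_one _
      · have hn : (‖f ((s - s') * x)‖ : ℂ) ≠ 0 := by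
          exact_mod_cast norm_ne_zero_iff.2 hw
        rw [div_mul_eq_mul_div, div_eq_iff hn, Complex.conj_mul', pow_two]
  have h3 := norm_est s s' (z • x) hs hs' t
  set y : B := (1 / 2 : ℝ) • (s + s') + t • ((s - s') * (z • x)) with hy
  have h4 : (f y).re = (1 / 2) * ((f s).re + (f s').re) + t * ‖f ((s - s') * x)‖ := by
    have e : y = ((1 / 2 : ℝ) : ℂ) • (s + s') + (t : ℂ) • (z • ((s - s') * x)) := by
      rw [hy, mul_smul_comm, Complex.coe_smul, Complex.coe_smul]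
    rw [e, map_add, map_smul, map_smul, map_smul, map_add, smul_eq_mul, smul_eq_mul, smul_eq_mul,
      hzw, Complex.add_re, Complex.re_ofReal_mul, Complex.re_ofReal_mul, Complex.add_re,
      Complex.ofReal_re]
  have h5 : (f y).re ≤ ‖y‖ := by
    refine (Complex.re_le_norm _).trans ((f.le_opNorm y).trans ?_)
    have := mul_le_mul_of_nonneg_right hf (norm_nonneg y)
    linarith
  have h6 : ‖z • x‖ ≤ ‖x‖ := by
    rw [norm_smul]
    have := mul_le_mul_of_nonneg_right hz (norm_nonneg x)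
    linarith
  have h7 : ‖z • x‖ ^ 2 ≤ ‖x‖ ^ 2 := pow_le_pow_left₀ (norm_nonneg _) h6 2
  have h8 : ‖y‖ ≤ 1 + 4 * t ^ 2 * ‖x‖ ^ 2 := by
    refine (pow_le_pow_iff_left₀ (norm_nonneg y) (by positivity) two_ne_zero).1 ?_
    have h9 : 8 * t ^ 2 * ‖z • x‖ ^ 2 ≤ 8 * t ^ 2 * ‖x‖ ^ 2 :=
      mul_le_mul_of_nonneg_left h7 (by positivity)
    nlinarith [mul_self_nonneg (4 * t ^ 2 * ‖x‖ ^ 2)]
  rw [h4] at h5
  linarith

section Lift

variable {A : Type v} {B : Type w} {E : Type*} [NormedAddCommGroup A] [NormedSpace ℂ A]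
  [NormedAddCommGroup B] [NormedSpace ℂ B] [NormedAddCommGroup E] [NormedSpace ℂ E]

/-- descend a bilinear map to a quotient in the second variable -/
noncomputable def liftB (S : Submodule ℂ B) [hS : IsClosed (S : Set B)] (T : A →L[ℂ] B →L[ℂ] E)
    (h : ∀ a, ∀ s ∈ S, T a s = 0) : A →L[ℂ] (B ⧸ S) →L[ℂ] E :=
  LinearMap.mkContinuous₂
    (LinearMap.mk₂ ℂ (fun a x => S.liftQ (T a).toLinearMap (fun s hs => h a s hs) x)
      (by
        intro a a' x
        obtain ⟨b, rfl⟩ := S.mkQ_surjective x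
        change T (a + a') b = T a b + T a' b
        rw [map_add]
        rfl)
      (by
        intro c a x
        obtain ⟨b, rfl⟩ := S.mkQ_surjective x
        change T (c • a) b = c • T a b
        rw [map_smul]
        rfl)
      (by
        intro a x y
        rw [map_add])
      (by
        intro c a x
        rw [map_smul])) ‖T‖
    (by
      intro a x
      apply _root_.le_of_forall_pos_le_add
      intro δ hδ
      have hC : 0 ≤ ‖T‖ * ‖a‖ := by positivity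
      obtain ⟨b, rfl, hb⟩ := Submodule.Quotient.norm_mk_lt x
        (show 0 < δ / (‖T‖ * ‖a‖ + 1) by positivity)
      change ‖T a b‖ ≤ _
      refine ((T a).le_opNorm b).trans ?_
      have h1 : ‖T a‖ ≤ ‖T‖ * ‖a‖ := T.le_opNorm a
      calc ‖T a‖ * ‖b‖ ≤ (‖T‖ * ‖a‖) * (‖(Submodule.Quotient.mk b : B ⧸ S)‖
            + δ / (‖T‖ * ‖a‖ + 1)) := mul_le_mul h1 hb.le (norm_nonneg _) hC
        _ = ‖T‖ * ‖a‖ * ‖(Submodule.Quotient.mk b : B ⧸ S)‖
            + (‖T‖ * ‖a‖) * (δ / (‖T‖ * ‖a‖ + 1)) := by ring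
        _ ≤ ‖T‖ * ‖a‖ * ‖(Submodule.Quotient.mk b : B ⧸ S)‖ + δ := by
            have : (‖T‖ * ‖a‖) * (δ / (‖T‖ * ‖a‖ + 1)) ≤ δ := by
              rw [mul_div_assoc', div_le_iff₀ (by positivity)]
              nlinarith
            linarith)

lemma liftB_mk (S : Submodule ℂ B) [hS : IsClosed (S : Set B)] (T : A →L[ℂ] B →L[ℂ] E)
    (h : ∀ a, ∀ s ∈ S, T a s = 0) (a : A) (b : B) :
    liftB S T h a (Submodule.Quotient.mk b) = T a b := rfl

end Lift

/-! ### Approximate virtual diagonals from approximate amenability -/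

section Diag

variable {A : Type u} [NormedRing A] [NormedAlgebra ℂ A]

/-- bounded bilinear forms on `A` -/
abbrev BL (A : Type u) [NormedRing A] [NormedAlgebra ℂ A] : Type u := A →L[ℂ] A →L[ℂ] ℂ

lemma bl_bound (V : BL A) (x y : A) : ‖V x y‖ ≤ ‖V‖ * (‖x‖ * ‖y‖) := by
  have := V.le_opNorm₂ x y
  rwa [mul_assoc] at this

/-- `(V · a)(x,y) = V(ax, y)` -/
noncomputable def rB : A →L[ℂ] BL A →L[ℂ] BL A :=
  LinearMap.mkContinuous₂
    (LinearMap.mk₂ ℂ (fun a V => V.bilinearComp (ContinuousLinearMap.mul ℂ A a)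
        (ContinuousLinearMap.id ℂ A))
      (by intro a a' V; ext x y; change V ((a + a') * x) y = V (a * x) y + V (a' * x) y
          rw [add_mul, map_add]; rfl)
      (by intro c a V; ext x y; change V ((c • a) * x) y = c • V (a * x) y
          rw [smul_mul_assoc, map_smul]; rfl)
      (by intro a V W; ext x y; rfl)
      (by intro c a V; ext x y; rfl)) 1
    (by
      intro a V
      refine ContinuousLinearMap.opNorm_le_bound₂ _ (by positivity) fun x y => ?_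
      change ‖V (a * x) y‖ ≤ _
      refine (bl_bound V _ _).trans ?_
      calc ‖V‖ * (‖a * x‖ * ‖y‖) ≤ ‖V‖ * ((‖a‖ * ‖x‖) * ‖y‖) := by
            gcongr
            exact norm_mul_le _ _
        _ = 1 * ‖a‖ * ‖V‖ * ‖x‖ * ‖y‖ := by ring)

lemma rB_apply (a : A) (V : BL A) (x y : A) : rB a V x y = V (a * x) y := rfl

/-- `(a · V)(x,y) = V(x, ya)` -/
noncomputable def lB : A →L[ℂ] BL A →L[ℂ] BL A :=
  LinearMap.mkContinuous₂
    (LinearMap.mk₂ ℂ (fun a V => V.bilinearComp (ContinuousLinearMap.id ℂ A)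
        ((ContinuousLinearMap.mul ℂ A).flip a))
      (by intro a a' V; ext x y; change V x (y * (a + a')) = V x (y * a) + V x (y * a')
          rw [mul_add, map_add])
      (by intro c a V; ext x y; change V x (y * (c • a)) = c • V x (y * a)
          rw [mul_smul_comm, map_smul])
      (by intro a V W; ext x y; rfl)
      (by intro c a V; ext x y; rfl)) 1
    (by
      intro a V
      refine ContinuousLinearMap.opNorm_le_bound₂ _ (by positivity) fun x y => ?_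
      change ‖V x (y * a)‖ ≤ _
      refine (bl_bound V _ _).trans ?_
      calc ‖V‖ * (‖x‖ * ‖y * a‖) ≤ ‖V‖ * (‖x‖ * (‖y‖ * ‖a‖)) := by
            gcongr
            exact norm_mul_le _ _
        _ = 1 * ‖a‖ * ‖V‖ * ‖x‖ * ‖y‖ := by ring)

lemma lB_apply (a : A) (V : BL A) (x y : A) : lB a V x y = V x (y * a) := rfl

/-- the bilinear forms `V(x,y) = g(xy)` -/
def PP (A : Type u) [NormedRing A] [NormedAlgebra ℂ A] : Submodule ℂ (BL A) where
  carrier := {V | ∀ x y, V x y = V 1 (x * y)}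
  zero_mem' := fun _ _ => rfl
  add_mem' := by
    intro V W hV hW x y
    change V x y + W x y = V 1 (x * y) + W 1 (x * y)
    rw [hV x y, hW x y]
  smul_mem' := by
    intro c V hV x y
    change c • V x y = c • V 1 (x * y)
    rw [hV x y]

instance : IsClosed (PP A : Set (BL A)) := by
  have h : (PP A : Set (BL A)) = ⋂ x : A, ⋂ y : A, {V : BL A | V x y = V 1 (x * y)} := by
    ext V
    simp only [Set.mem_iInter]
    rfl
  rw [h]
  refine isClosed_iInter fun x => isClosed_iInter fun y => ?_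
  have hc : ∀ z w : A, Continuous fun V : BL A => V z w := fun z w =>
    (ContinuousLinearMap.apply ℂ ℂ w).continuous.comp
      (ContinuousLinearMap.apply ℂ (A →L[ℂ] ℂ) z).continuous
  exact isClosed_eq (hc x y) (hc 1 (x * y))

/-- quotient map -/
noncomputable def qB : BL A →L[ℂ] (BL A ⧸ PP A) := (PP A).mkQL

noncomputable def rBq : A →L[ℂ] BL A →L[ℂ] (BL A ⧸ PP A) :=
  (ContinuousLinearMap.compL ℂ (BL A) (BL A) (BL A ⧸ PP A) qB).comp rB

noncomputable def lBq : A →L[ℂ] BL A →L[ℂ] (BL A ⧸ PP A) :=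
  (ContinuousLinearMap.compL ℂ (BL A) (BL A) (BL A ⧸ PP A) qB).comp lB

lemma rBq_apply (a : A) (V : BL A) : rBq a V = Submodule.Quotient.mk (rB a V) := rfl
lemma lBq_apply (a : A) (V : BL A) : lBq a V = Submodule.Quotient.mk (lB a V) := rfl

/-- `D(a)(V) = V(a,1) - V(1,a)` -/
noncomputable def dB : A →L[ℂ] BL A →L[ℂ] ℂ :=
  LinearMap.mkContinuous₂
    (LinearMap.mk₂ ℂ (fun a (V : BL A) => V a 1 - V 1 a)
      (by intro a a' V; rw [map_add, map_add]
          change V a 1 + V a' 1 - (V 1 a + V 1 a') = _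
          ring)
      (by intro c a V; rw [map_smul, map_smul]
          change c • V a 1 - c • V 1 a = _
          rw [smul_sub])
      (by intro a V W
          change (V a 1 + W a 1) - (V 1 a + W 1 a) = _
          ring)
      (by intro c a V
          change c • V a 1 - c • V 1 a = _
          rw [smul_sub]))
    (2 * ‖(1 : A)‖)
    (by
      intro a V
      change ‖V a 1 - V 1 a‖ ≤ _
      refine (norm_sub_le _ _).trans ((add_le_add (bl_bound V _ _) (bl_bound V _ _)).trans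
        (le_of_eq ?_))
      ring)

lemma dB_apply (a : A) (V : BL A) : dB a V = V a 1 - V 1 a := rfl

lemma rB_mem (a : A) {V : BL A} (hV : V ∈ PP A) : rB a V ∈ PP A := by
  intro x y
  rw [rB_apply, rB_apply]
  have h1 : V (a * x) y = V 1 (a * x * y) := hV _ _
  have h2 : V (a * 1) (x * y) = V 1 (a * 1 * (x * y)) := hV _ _
  rw [h1, h2, mul_one, mul_assoc]

lemma lB_mem (a : A) {V : BL A} (hV : V ∈ PP A) : lB a V ∈ PP A := by
  intro x y
  rw [lB_apply, lB_apply]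
  have h1 : V x (y * a) = V 1 (x * (y * a)) := hV _ _
  rw [h1, mul_assoc]

lemma dB_zero (a : A) (V : BL A) (hV : V ∈ PP A) : dB a V = 0 := by
  rw [dB_apply]
  have h1 : V a 1 = V 1 (a * 1) := hV _ _
  rw [h1, mul_one, sub_self]

lemma lB_mul (a b : A) (V : BL A) : lB (a * b) V = lB a (lB b V) := by
  ext x y
  change V x (y * (a * b)) = V x (y * a * b)
  rw [mul_assoc]

lemma rB_mul (a b : A) (V : BL A) : rB (a * b) V = rB b (rB a V) := by
  ext x y
  change V (a * b * x) y = V (a * (b * x)) y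
  rw [mul_assoc]

lemma lB_rB (a b : A) (V : BL A) : lB a (rB b V) = rB b (lB a V) := by
  ext x y
  rfl

lemma lBq_zero (a : A) (V : BL A) (hV : V ∈ PP A) : lBq a V = 0 := by
  rw [lBq_apply, Submodule.Quotient.mk_eq_zero]
  exact lB_mem a hV

lemma rBq_zero (a : A) (V : BL A) (hV : V ∈ PP A) : rBq a V = 0 := by
  rw [rBq_apply, Submodule.Quotient.mk_eq_zero]
  exact rB_mem a hV

/-- the left action on the quotient -/
noncomputable def lQ : A →L[ℂ] (BL A ⧸ PP A) →L[ℂ] (BL A ⧸ PP A) := liftB (PP A) lBq lBq_zero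

/-- the right action on the quotient -/
noncomputable def rQ : A →L[ℂ] (BL A ⧸ PP A) →L[ℂ] (BL A ⧸ PP A) := liftB (PP A) rBq rBq_zero

lemma lQ_mk (a : A) (V : BL A) :
    lQ a (Submodule.Quotient.mk V) = Submodule.Quotient.mk (lB a V) := by
  rw [lQ, liftB_mk, lBq_apply]

lemma rQ_mk (a : A) (V : BL A) :
    rQ a (Submodule.Quotient.mk V) = Submodule.Quotient.mk (rB a V) := by
  rw [rQ, liftB_mk, rBq_apply]

lemma lQ_mul (a b : A) (x : BL A ⧸ PP A) : lQ (a * b) x = lQ a (lQ b x) := by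
  obtain ⟨V, rfl⟩ := Submodule.Quotient.mk_surjective (PP A) x
  rw [lQ_mk, lQ_mk, lQ_mk, lB_mul]

lemma rQ_mul (a b : A) (x : BL A ⧸ PP A) : rQ (a * b) x = rQ b (rQ a x) := by
  obtain ⟨V, rfl⟩ := Submodule.Quotient.mk_surjective (PP A) x
  rw [rQ_mk, rQ_mk, rQ_mk, rB_mul]

lemma lQ_rQ (a b : A) (x : BL A ⧸ PP A) : lQ a (rQ b x) = rQ b (lQ a x) := by
  obtain ⟨V, rfl⟩ := Submodule.Quotient.mk_surjective (PP A) x
  rw [rQ_mk, lQ_mk, lQ_mk, rQ_mk, lB_rB]

/-- `BL(A) / {g(xy)}` as a Banach `A`-bimodule -/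
noncomputable def bim (A : Type u) [NormedRing A] [NormedAlgebra ℂ A] :
    BanachBimodule A (BL A ⧸ PP A) where
  l := lQ
  r := rQ
  mul_l := lQ_mul
  mul_r := rQ_mul
  l_r := lQ_rQ

lemma approxDiag (hA : IsApproxAmenable A) (T : Finset A) (ε : ℝ) (hε : 0 < ε) :
    ∃ M : BL A →L[ℂ] ℂ, (∀ V : BL A, (∀ x y, V x y = V 1 (x * y)) → M V = V 1 1) ∧
      ∀ a ∈ T, ∀ V, ‖M (rB a V) - M (lB a V)‖ ≤ ε * ‖V‖ := by
  set D : A →L[ℂ] (BL A ⧸ PP A) →L[ℂ] ℂ := liftB (PP A) dB dB_zero with hD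
  have hder : IsDerivation (bim A) D := by
    intro a b
    ext V
    obtain ⟨V, rfl⟩ := (PP A).mkQ_surjective V
    change V (a * b) 1 - V 1 (a * b) = (V (a * b) 1 - V (a * 1) b) + (V a (1 * b) - V 1 (a * b))
    rw [mul_one, one_mul]
    ring
  obtain ⟨I, _, _, _, ξ, hξ⟩ := hA (BL A ⧸ PP A) (bim A) D hder
  have hev : ∀ᶠ i in atTop, ∀ a ∈ T,
      ‖((bim A).dualL a (ξ i) - (bim A).dualR a (ξ i)) - D a‖ < ε := by
    rw [eventually_all_finset]
    intro a _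
    exact (tendsto_iff_norm_sub_tendsto_zero.1 (hξ a)).eventually_lt_const hε
  obtain ⟨i, hi⟩ := hev.exists
  set E : BL A →L[ℂ] ℂ := (ContinuousLinearMap.apply ℂ ℂ (1 : A)).comp
    (ContinuousLinearMap.apply ℂ (A →L[ℂ] ℂ) (1 : A)) with hE
  refine ⟨E - (ξ i).comp qB, ?_, ?_⟩
  · intro V hV
    change V 1 1 - ξ i (Submodule.Quotient.mk V) = V 1 1
    have h1 : (Submodule.Quotient.mk V : BL A ⧸ PP A) = 0 := by
      rw [Submodule.Quotient.mk_eq_zero]
      exact hV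
    rw [h1, map_zero, sub_zero]
  · intro a ha V
    have h2 := hi a ha
    have h3 : (E - (ξ i).comp qB) (rB a V) - (E - (ξ i).comp qB) (lB a V)
        = -((((bim A).dualL a (ξ i) - (bim A).dualR a (ξ i)) - D a)
          (Submodule.Quotient.mk V)) := by
      change (V (a * 1) 1 - ξ i (Submodule.Quotient.mk (rB a V)))
        - (V 1 (1 * a) - ξ i (Submodule.Quotient.mk (lB a V)))
        = -((ξ i (Submodule.Quotient.mk (rB a V)) - ξ i (Submodule.Quotient.mk (lB a V)))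
          - (V a 1 - V 1 a))
      rw [mul_one, one_mul]
      ring
    rw [h3, norm_neg]
    refine (ContinuousLinearMap.le_opNorm _ _).trans ?_
    exact mul_le_mul h2.le (Submodule.Quotient.norm_mk_le _ _) (norm_nonneg _) hε.le

end Diag

/-! ### From approximately central functionals to a central state -/

section Central

variable {B : Type w} [CStarAlgebra B]

lemma norm_one_le' : ‖(1 : B)‖ ≤ 1 := by
  by_cases hB : (1 : B) = 0
  · rw [hB, norm_zero]; norm_num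
  · have : Nontrivial B := ⟨⟨1, 0, hB⟩⟩
    rw [CStarRing.norm_one]

lemma exists_norming (f : B →L[ℂ] ℂ) (hfn : ‖f‖ = 1) (ε : ℝ) (hε : 0 < ε) :
    ∃ s : B, ‖s‖ ≤ 1 ∧ 1 - ε ≤ (f s).re := by
  by_contra hcon
  push Not at hcon
  have h2 : ‖f‖ ≤ max (1 - ε) 0 := by
    refine ContinuousLinearMap.opNorm_le_bound f (le_max_right _ _) fun x => ?_
    by_cases hx : x = 0
    · simp [hx]
    have hxn : 0 < ‖x‖ := norm_pos_iff.2 hx
    -- rotate
    obtain ⟨z, hz, hzw⟩ : ∃ z : ℂ, ‖z‖ ≤ 1 ∧ z * f x = ‖f x‖ := by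
      by_cases hw : f x = 0
      · exact ⟨0, by simp, by simp [hw]⟩
      · refine ⟨(starRingEnd ℂ) (f x) / ‖f x‖, ?_, ?_⟩
        · rw [norm_div, RCLike.norm_conj, Complex.norm_real, norm_norm]
          exact div_self_le_one _
        · have hn : (‖f x‖ : ℂ) ≠ 0 := by exact_mod_cast norm_ne_zero_iff.2 hw
          rw [div_mul_eq_mul_div, div_eq_iff hn, Complex.conj_mul', pow_two]
    have h3 := hcon ((((‖x‖⁻¹ : ℝ) : ℂ) * z) • x) (by
      rw [norm_smul, norm_mul, Complex.norm_real, norm_inv, norm_norm]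
      calc ‖x‖⁻¹ * ‖z‖ * ‖x‖ = ‖z‖ * (‖x‖⁻¹ * ‖x‖) := by ring
        _ = ‖z‖ := by rw [inv_mul_cancel₀ hxn.ne', mul_one]
        _ ≤ 1 := hz)
    rw [map_smul, smul_eq_mul, mul_assoc, hzw, ← Complex.ofReal_mul, Complex.ofReal_re] at h3
    have h4 : ‖f x‖ ≤ (1 - ε) * ‖x‖ := by
      rw [inv_mul_lt_iff₀ hxn] at h3
      linarith
    exact h4.trans (mul_le_mul_of_nonneg_right (le_max_left _ _) hxn.le)
  rw [hfn] at h2
  rcases le_max_iff.1 h2 with h | h <;> linarith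

/-- one approximant: a functional of norm `≤ 1`, almost `1` at `1`, almost commuting with the
given finite set of unitaries -/
lemma step (c : ℝ) (hc : 0 < c) (T : Set B) (hT : ∀ U ∈ T, ∃ V : B, V * U = 1 ∧ ‖U‖ ≤ 1 ∧ ‖V‖ ≤ 1)
    (h : ∀ ε : ℝ, 0 < ε → ∃ F : B →L[ℂ] ℂ, c ≤ ‖F 1‖ ∧
      ∀ U ∈ T, ∀ x, ‖F (x * U) - F (U * x)‖ ≤ ε * ‖x‖) (ε : ℝ) (hε : 0 < ε) :
    ∃ G : B →L[ℂ] ℂ, ‖G‖ ≤ 1 ∧ 1 - ε ≤ (G 1).re ∧
      ∀ U ∈ T, ∀ x, ∀ t : ℝ, 0 < t →
        t * ‖G (x * U) - G (U * x)‖ ≤ t * ε * ‖x‖ + 2 * ε + 4 * t ^ 2 * ‖x‖ ^ 2 := by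
  obtain ⟨F, hF1, hF⟩ := h (ε * c) (by positivity)
  have hFn : c ≤ ‖F‖ := by
    refine hF1.trans ((F.le_opNorm 1).trans ?_)
    have := mul_le_mul_of_nonneg_left (norm_one_le' (B := B)) (norm_nonneg F)
    linarith
  have hFpos : 0 < ‖F‖ := hc.trans_le hFn
  -- the normalised functional
  set f : B →L[ℂ] ℂ := ((‖F‖⁻¹ : ℝ) : ℂ) • F with hf
  have hfn : ‖f‖ = 1 := by
    rw [hf, norm_smul, Complex.norm_real, norm_inv, norm_norm]
    exact inv_mul_cancel₀ hFpos.ne'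
  have hfc : ∀ U ∈ T, ∀ x, ‖f (x * U) - f (U * x)‖ ≤ ε * ‖x‖ := by
    intro U hU x
    have e : f (x * U) - f (U * x) = ((‖F‖⁻¹ : ℝ) : ℂ) * (F (x * U) - F (U * x)) := by
      rw [hf]
      change ((‖F‖⁻¹ : ℝ) : ℂ) * F (x * U) - ((‖F‖⁻¹ : ℝ) : ℂ) * F (U * x) = _
      ring
    rw [e, norm_mul, Complex.norm_real, norm_inv, norm_norm]
    calc ‖F‖⁻¹ * ‖F (x * U) - F (U * x)‖ ≤ ‖F‖⁻¹ * (ε * c * ‖x‖) :=
          mul_le_mul_of_nonneg_left (hF U hU x) (by positivity)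
      _ ≤ ‖F‖⁻¹ * (ε * ‖F‖ * ‖x‖) := by
          refine mul_le_mul_of_nonneg_left ?_ (by positivity)
          exact mul_le_mul_of_nonneg_right (mul_le_mul_of_nonneg_left hFn hε.le) (norm_nonneg x)
      _ = ε * ‖x‖ := by
          field_simp
  -- an almost norming contraction
  obtain ⟨s, hs, hs2⟩ := exists_norming f hfn ε hε
  -- G
  set G : B →L[ℂ] ℂ := f.comp (ContinuousLinearMap.mul ℂ B s) with hG
  have hGx : ∀ x, G x = f (s * x) := fun x => rfl
  refine ⟨G, ?_, ?_, ?_⟩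
  · refine ContinuousLinearMap.opNorm_le_bound G zero_le_one fun x => ?_
    rw [hGx]
    refine (f.le_opNorm _).trans ?_
    rw [hfn]
    exact mul_le_mul_of_nonneg_left ((norm_mul_le _ _).trans (by
      have := mul_le_mul_of_nonneg_right hs (norm_nonneg x)
      linarith)) zero_le_one
  · rw [hGx, mul_one]
    exact hs2
  · intro U hU x t ht
    obtain ⟨V, hU1, hUn, hUn'⟩ := hT U hU
    set s' : B := U * s * V with hs'def
    have hs'n : ‖s'‖ ≤ 1 := by
      rw [hs'def]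
      calc ‖U * s * V‖ ≤ ‖U‖ * ‖s‖ * ‖V‖ :=
            (norm_mul_le _ _).trans (mul_le_mul_of_nonneg_right (norm_mul_le _ _) (norm_nonneg _))
        _ ≤ 1 * 1 * 1 := by
            gcongr
        _ = 1 := by norm_num
    -- f s' is close to f s
    have h5 : ‖f s - f s'‖ ≤ ε := by
      have h6 := hfc U hU (s * V)
      rw [mul_assoc, hU1, mul_one, ← mul_assoc] at h6
      refine h6.trans ?_
      have : ‖s * V‖ ≤ 1 := (norm_mul_le _ _).trans (by
        have := mul_le_mul hs hUn' (norm_nonneg _) zero_le_one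
        linarith)
      nlinarith
    have h7 : 1 - 2 * ε ≤ (f s').re := by
      have h8 := (Complex.re_le_norm (f s - f s')).trans h5
      rw [Complex.sub_re] at h8
      linarith
    have h9 := func_est f hfn.le s s' (U * x) hs hs'n (2 * ε) t ht (by linarith) h7
    have h10 : ‖U * x‖ ≤ ‖x‖ := (norm_mul_le _ _).trans (by
      have := mul_le_mul_of_nonneg_right hUn (norm_nonneg x)
      linarith)
    have h11 : ‖U * x‖ ^ 2 ≤ ‖x‖ ^ 2 := pow_le_pow_left₀ (norm_nonneg _) h10 2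
    have h12 : G (x * U) - G (U * x)
        = (f ((s * x) * U) - f (U * (s * x))) - f ((s - s') * (U * x)) := by
      rw [hGx, hGx, sub_mul, map_sub, hs'def]
      have e1 : U * s * V * (U * x) = U * (s * x) := by
        rw [mul_assoc (U * s), ← mul_assoc V, hU1, one_mul, mul_assoc]
      rw [e1, ← mul_assoc s x]
      ring
    have h13 := hfc U hU (s * x)
    have h14 : ‖s * x‖ ≤ ‖x‖ := (norm_mul_le _ _).trans (by
      have := mul_le_mul_of_nonneg_right hs (norm_nonneg x)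
      linarith)
    have h15 : ‖G (x * U) - G (U * x)‖ ≤ ε * ‖x‖ + ‖f ((s - s') * (U * x))‖ := by
      rw [h12]
      refine (norm_sub_le _ _).trans (add_le_add (h13.trans ?_) le_rfl)
      exact mul_le_mul_of_nonneg_left h14 hε.le
    have h16 : 4 * t ^ 2 * ‖U * x‖ ^ 2 ≤ 4 * t ^ 2 * ‖x‖ ^ 2 :=
      mul_le_mul_of_nonneg_left h11 (by positivity)
    calc t * ‖G (x * U) - G (U * x)‖
        ≤ t * (ε * ‖x‖ + ‖f ((s - s') * (U * x))‖) := mul_le_mul_of_nonneg_left h15 ht.le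
      _ = t * ε * ‖x‖ + t * ‖f ((s - s') * (U * x))‖ := by ring
      _ ≤ t * ε * ‖x‖ + 2 * ε + 4 * t ^ 2 * ‖x‖ ^ 2 := by linarith

theorem central (c : ℝ) (hc : 0 < c) (S : Set B)
    (hS : ∀ U ∈ S, ∃ V : B, V * U = 1 ∧ ‖U‖ ≤ 1 ∧ ‖V‖ ≤ 1)
    (h : ∀ T : Set B, T.Finite → T ⊆ S → ∀ ε : ℝ, 0 < ε → ∃ F : B →L[ℂ] ℂ, c ≤ ‖F 1‖ ∧
      ∀ U ∈ T, ∀ x, ‖F (x * U) - F (U * x)‖ ≤ ε * ‖x‖) :
    ∃ φ : B →L[ℂ] ℂ, ‖φ‖ ≤ 1 ∧ φ 1 = 1 ∧ ∀ U ∈ S, ∀ x, φ (x * U) = φ (U * x) := by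
  classical
  have hstep : ∀ j : Finset S × ℕ, ∃ G : B →L[ℂ] ℂ, ‖G‖ ≤ 1 ∧
      1 - 1 / ((j.2 : ℝ) + 1) ≤ (G 1).re ∧
      ∀ U ∈ j.1, ∀ x, ∀ t : ℝ, 0 < t → t * ‖G (x * (U : B)) - G ((U : B) * x)‖ ≤
        t * (1 / ((j.2 : ℝ) + 1)) * ‖x‖ + 2 * (1 / ((j.2 : ℝ) + 1)) + 4 * t ^ 2 * ‖x‖ ^ 2 := by
    intro j
    have hsub : (Subtype.val '' (j.1 : Set S) : Set B) ⊆ S := by
      rintro _ ⟨u, _, rfl⟩
      exact u.2
    have hfin : (Subtype.val '' (j.1 : Set S) : Set B).Finite := j.1.finite_toSet.image _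
    obtain ⟨G, h1, h2, h3⟩ := step c hc (Subtype.val '' (j.1 : Set S))
      (fun U hU => hS U (hsub hU)) (h _ hfin hsub) (1 / ((j.2 : ℝ) + 1)) (by positivity)
    exact ⟨G, h1, h2, fun U hU x t ht => h3 U ⟨U, hU, rfl⟩ x t ht⟩
  choose G hG1 hG2 hG3 using hstep
  have hlim0 : Tendsto (fun j : Finset S × ℕ => 1 / ((j.2 : ℝ) + 1)) atTop (𝓝 0) := by
    rw [← Filter.prod_atTop_atTop_eq]
    exact tendsto_one_div_add_atTop_nhds_zero_nat.comp tendsto_snd
  set 𝒰 : Ultrafilter (Finset S × ℕ) := Ultrafilter.of atTop with h𝒰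
  have hle : (𝒰 : Filter (Finset S × ℕ)) ≤ atTop := Ultrafilter.of_le atTop
  have hK := WeakDual.isCompact_closedBall (𝕜 := ℂ) (0 : StrongDual ℂ B) 1
  obtain ⟨φ, hφK, hφ⟩ := hK.ultrafilter_le_nhds (𝒰.map fun j => StrongDual.toWeakDual (G j)) (by
    rw [Filter.le_principal_iff]
    have hmem : ∀ j, StrongDual.toWeakDual (G j) ∈
        WeakDual.toStrongDual ⁻¹' Metric.closedBall (0 : StrongDual ℂ B) 1 := by
      intro j
      rw [Set.mem_preimage, mem_closedBall_zero_iff]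
      exact hG1 j
    exact Ultrafilter.mem_map.2 (Filter.univ_mem' hmem))
  have hpt : ∀ x : B, Tendsto (fun j => G j x) 𝒰 (𝓝 (φ x)) := fun x =>
    ((WeakDual.eval_continuous x).tendsto φ).comp hφ
  set ψ : B →L[ℂ] ℂ := WeakDual.toStrongDual φ with hψ
  have hψn : ‖ψ‖ ≤ 1 := by
    have := hφK
    rw [Set.mem_preimage, mem_closedBall_zero_iff] at this
    exact this
  have hpt' : ∀ x : B, Tendsto (fun j => G j x) 𝒰 (𝓝 (ψ x)) := hpt
  have hone : ψ 1 = 1 := by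
    have h2 : 1 ≤ (ψ 1).re := by
      have h3 : Tendsto (fun j => (G j 1).re) 𝒰 (𝓝 (ψ 1).re) :=
        (Complex.continuous_re.tendsto _).comp (hpt' 1)
      have h4 : Tendsto (fun j : Finset S × ℕ => 1 - 1 / ((j.2 : ℝ) + 1)) 𝒰 (𝓝 (1 - 0)) :=
        (hlim0.mono_left hle).const_sub 1
      rw [sub_zero] at h4
      exact le_of_tendsto_of_tendsto h4 h3 (Eventually.of_forall hG2)
    have h5 : ‖ψ 1‖ ≤ 1 := by
      refine (ψ.le_opNorm 1).trans ?_
      have := mul_le_mul hψn (norm_one_le' (B := B)) (norm_nonneg _) zero_le_one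
      linarith
    have h6 : (ψ 1).re ^ 2 + (ψ 1).im ^ 2 ≤ 1 := by
      have := Complex.sq_norm (ψ 1)
      rw [Complex.normSq_apply] at this
      nlinarith [norm_nonneg (ψ 1)]
    apply Complex.ext
    · rw [Complex.one_re]
      nlinarith [sq_nonneg (ψ 1).im]
    · rw [Complex.one_im]
      have : (ψ 1).im ^ 2 ≤ 0 := by nlinarith
      exact pow_eq_zero_iff (two_ne_zero) |>.1 (le_antisymm this (sq_nonneg _))
  refine ⟨ψ, hψn, hone, ?_⟩
  intro U hU x
  have h7 : ∀ t : ℝ, 0 < t → ‖ψ (x * U) - ψ (U * x)‖ ≤ t * (4 * ‖x‖ ^ 2) := by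
    intro t ht
    have h8 : Tendsto (fun j => t * ‖G j (x * U) - G j (U * x)‖) 𝒰
        (𝓝 (t * ‖ψ (x * U) - ψ (U * x)‖)) :=
      (((hpt' _).sub (hpt' _)).norm).const_mul t
    have h9 : Tendsto (fun j : Finset S × ℕ => t * (1 / ((j.2 : ℝ) + 1)) * ‖x‖ +
        2 * (1 / ((j.2 : ℝ) + 1)) + 4 * t ^ 2 * ‖x‖ ^ 2) 𝒰
        (𝓝 (t * 0 * ‖x‖ + 2 * 0 + 4 * t ^ 2 * ‖x‖ ^ 2)) :=
      ((((hlim0.mono_left hle).const_mul t).mul_const _).add
        ((hlim0.mono_left hle).const_mul 2)).add tendsto_const_nhds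
    have hev : ∀ᶠ j : Finset S × ℕ in
        (𝒰 : Filter (Finset S × ℕ)), (⟨U, hU⟩ : S) ∈ j.1 := by
      apply hle
      filter_upwards [eventually_ge_atTop (({⟨U, hU⟩}, 0) : Finset S × ℕ)] with j hj
      exact hj.1 (Finset.mem_singleton_self _)
    have h10 := le_of_tendsto_of_tendsto h8 h9 (hev.mono fun j hj => hG3 j ⟨U, hU⟩ hj x t ht)
    have h11 : t * ‖ψ (x * U) - ψ (U * x)‖ ≤ t * (t * (4 * ‖x‖ ^ 2)) := by
      linarith
    exact le_of_mul_le_mul_left h11 ht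
  have h12 : ‖ψ (x * U) - ψ (U * x)‖ ≤ 0 := by
    apply le_of_forall_pos_le_add
    intro δ hδ
    rw [zero_add]
    have h13 := h7 (δ / (4 * ‖x‖ ^ 2 + 1)) (by positivity)
    refine h13.trans ?_
    rw [div_mul_eq_mul_div, div_le_iff₀ (by positivity)]
    nlinarith
  exact sub_eq_zero.1 (norm_le_zero_iff.1 h12)

end Central

/-! ### Central states on C*-algebras receiving an approximately amenable algebra -/

section Gen

variable {A : Type u} [CStarAlgebra A] {B : Type w} [CStarAlgebra B]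

lemma central_gen (hA : IsApproxAmenable A) (W : B →L[ℂ] BL A) (S : Set B)
    (hS : ∀ U ∈ S, ∃ V : B, V * U = 1 ∧ ‖U‖ ≤ 1 ∧ ‖V‖ ≤ 1)
    (hW1 : ∀ x y, W 1 x y = W 1 1 (x * y)) (hW0 : W 1 1 1 ≠ 0)
    (hW : ∀ U ∈ S, ∃ c : A, ∀ x, (W (x * U) = rB c (W x) ∧ W (U * x) = lB c (W x)) ∨
      (W (x * U) = lB c (W x) ∧ W (U * x) = rB c (W x))) :
    ∃ φ : B →L[ℂ] ℂ, ‖φ‖ ≤ 1 ∧ φ 1 = 1 ∧ ∀ U ∈ S, ∀ x, φ (x * U) = φ (U * x) := by
  classical
  refine central ‖W 1 1 1‖ (norm_pos_iff.2 hW0) S hS ?_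
  intro T hT hTS ε hε
  choose! c hc using hW
  obtain ⟨M, hM1, hM2⟩ := approxDiag hA (hT.toFinset.image c) (ε / (‖W‖ + 1)) (by positivity)
  refine ⟨M.comp W, ?_, ?_⟩
  · change _ ≤ ‖M (W 1)‖
    rw [hM1 (W 1) hW1]
  · intro U hU x
    have h1 := hM2 (c U) (Finset.mem_image_of_mem c (hT.mem_toFinset.2 hU)) (W x)
    have h2 : ‖M (W (x * U)) - M (W (U * x))‖ ≤ ε / (‖W‖ + 1) * ‖W x‖ := by
      rcases hc U (hTS hU) x with ⟨e1, e2⟩ | ⟨e1, e2⟩
      · rw [e1, e2]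
        exact h1
      · rw [e1, e2, norm_sub_rev]
        exact h1
    refine h2.trans ?_
    calc ε / (‖W‖ + 1) * ‖W x‖ ≤ ε / (‖W‖ + 1) * (‖W‖ * ‖x‖) :=
          mul_le_mul_of_nonneg_left (W.le_opNorm x) (by positivity)
      _ = (ε * ‖x‖) * (‖W‖ / (‖W‖ + 1)) := by ring
      _ ≤ (ε * ‖x‖) * 1 := by
          refine mul_le_mul_of_nonneg_left ?_ (by positivity)
          rw [div_le_one (by positivity)]
          linarith
      _ = ε * ‖x‖ := mul_one _

lemma norm_rho (ρ : A →⋆ₐ[ℂ] B) (a : A) : ‖ρ a‖ ≤ ‖a‖ := NonUnitalStarAlgHom.norm_apply_le ρ a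

/-- `(a,b) ↦ F₀(ρ(a) x ρ(b))` -/
noncomputable def VV (ρ : A →⋆ₐ[ℂ] B) (F₀ : B →L[ℂ] ℂ) (x : B) : BL A :=
  LinearMap.mkContinuous₂
    (LinearMap.mk₂ ℂ (fun a b => F₀ (ρ a * x * ρ b))
      (by intro a a' b; rw [map_add, add_mul, add_mul, map_add])
      (by intro c a b; rw [map_smul, smul_mul_assoc, smul_mul_assoc, map_smul])
      (by intro a b b'; rw [map_add, mul_add, map_add])
      (by intro c a b; rw [map_smul, mul_smul_comm, map_smul]))
    (‖F₀‖ * ‖x‖)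
    (by
      intro a b
      change ‖F₀ (ρ a * x * ρ b)‖ ≤ _
      refine (F₀.le_opNorm _).trans ?_
      have h1 : ‖ρ a * x * ρ b‖ ≤ ‖a‖ * ‖x‖ * ‖b‖ := by
        refine (norm_mul_le _ _).trans ?_
        refine mul_le_mul ((norm_mul_le _ _).trans ?_) (norm_rho ρ b) (norm_nonneg _)
          (by positivity)
        exact mul_le_mul_of_nonneg_right (norm_rho ρ a) (norm_nonneg x)
      calc ‖F₀‖ * ‖ρ a * x * ρ b‖ ≤ ‖F₀‖ * (‖a‖ * ‖x‖ * ‖b‖) :=
            mul_le_mul_of_nonneg_left h1 (norm_nonneg _)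
        _ = ‖F₀‖ * ‖x‖ * ‖a‖ * ‖b‖ := by ring)

lemma VV_apply (ρ : A →⋆ₐ[ℂ] B) (F₀ : B →L[ℂ] ℂ) (x : B) (a b : A) :
    VV ρ F₀ x a b = F₀ (ρ a * x * ρ b) := rfl

lemma VV_norm (ρ : A →⋆ₐ[ℂ] B) (F₀ : B →L[ℂ] ℂ) (x : B) : ‖VV ρ F₀ x‖ ≤ ‖F₀‖ * ‖x‖ :=
  LinearMap.mkContinuous₂_norm_le _ (by positivity) _

noncomputable def VL (ρ : A →⋆ₐ[ℂ] B) (F₀ : B →L[ℂ] ℂ) : B →L[ℂ] BL A :=
  LinearMap.mkContinuous
    { toFun := VV ρ F₀
      map_add' := by
        intro x y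
        ext a b
        change F₀ (ρ a * (x + y) * ρ b) = F₀ (ρ a * x * ρ b) + F₀ (ρ a * y * ρ b)
        rw [mul_add, add_mul, map_add]
      map_smul' := by
        intro c x
        ext a b
        change F₀ (ρ a * (c • x) * ρ b) = c • F₀ (ρ a * x * ρ b)
        rw [mul_smul_comm, smul_mul_assoc, map_smul] } ‖F₀‖
    (fun x => VV_norm ρ F₀ x)

lemma VL_apply (ρ : A →⋆ₐ[ℂ] B) (F₀ : B →L[ℂ] ℂ) (x : B) (a b : A) :
    VL ρ F₀ x a b = F₀ (ρ a * x * ρ b) := rfl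

/-- **Hypertraces.** -/
theorem hypertrace (hA : IsApproxAmenable A) (ρ : A →⋆ₐ[ℂ] B) (F₀ : B →L[ℂ] ℂ) (h0 : F₀ 1 ≠ 0)
    (htr : ∀ a b, F₀ (ρ (a * b)) = F₀ (ρ (b * a))) :
    ∃ φ : B →L[ℂ] ℂ, ‖φ‖ ≤ 1 ∧ φ 1 = 1 ∧ ∀ a x, φ (x * ρ a) = φ (ρ a * x) := by
  set W : B →L[ℂ] BL A := ((ContinuousLinearMap.flipₗᵢ ℂ A A ℂ :
    BL A ≃ₗᵢ[ℂ] BL A).toContinuousLinearEquiv : BL A →L[ℂ] BL A).comp (VL ρ F₀) with hWdef
  have hWx : ∀ x a b, W x a b = F₀ (ρ b * x * ρ a) := fun x a b => rfl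
  obtain ⟨φ, h1, h2, h3⟩ := central_gen hA W (ρ '' (unitary A : Set A)) (by
      rintro _ ⟨u, hu, rfl⟩
      have hU1 : star (ρ u) * ρ u = 1 := by
        rw [← map_star, ← map_mul, (Unitary.mem_iff.1 hu).1, map_one]
      have hUn : ‖ρ u‖ ≤ 1 := by
        have : ‖ρ u‖ * ‖ρ u‖ ≤ 1 := by
          rw [← CStarRing.norm_star_mul_self, hU1]
          exact norm_one_le'
        nlinarith [norm_nonneg (ρ u)]
      exact ⟨star (ρ u), hU1, hUn, by rwa [norm_star]⟩)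
    (by
      intro x y
      rw [hWx, hWx, mul_one, mul_one, map_one, mul_one, ← map_mul ρ y x, htr])
    (by
      rw [hWx, map_one, mul_one, mul_one]
      exact h0)
    (by
      rintro _ ⟨c, _, rfl⟩
      refine ⟨c, fun x => Or.inl ⟨?_, ?_⟩⟩
      · ext a b
        rw [rB_apply, hWx, hWx, map_mul ρ c a]
        simp only [mul_assoc]
      · ext a b
        rw [lB_apply, hWx, hWx, map_mul ρ b c]
        simp only [mul_assoc])
  refine ⟨φ, h1, h2, ?_⟩
  intro a x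
  have ha : a ∈ Submodule.span ℂ (unitary A : Set A) := by
    rw [CStarAlgebra.span_unitary]
    exact Submodule.mem_top
  induction ha using Submodule.span_induction with
  | mem a h => exact h3 _ ⟨a, h, rfl⟩ x
  | zero => simp
  | add a b _ _ iha ihb => rw [map_add, mul_add, add_mul, map_add, map_add, iha, ihb]
  | smul c a _ iha => rw [map_smul, mul_smul_comm, smul_mul_assoc, map_smul, map_smul, iha]

/-- **Centralisers.** -/
theorem centraliser (hA : IsApproxAmenable A) (ρ : A →⋆ₐ[ℂ] B) (F₀ : B →L[ℂ] ℂ) (h0 : F₀ 1 ≠ 0)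
    (S : Set B) (hS : ∀ v ∈ S, (∃ V : B, V * v = 1 ∧ ‖v‖ ≤ 1 ∧ ‖V‖ ≤ 1) ∧
      (∀ a, v * ρ a = ρ a * v) ∧
      ∃ c : A, ∀ y, F₀ (v * y) = F₀ (ρ c * y) ∧ F₀ (y * v) = F₀ (y * ρ c)) :
    ∃ φ : B →L[ℂ] ℂ, ‖φ‖ ≤ 1 ∧ φ 1 = 1 ∧ ∀ v ∈ S, ∀ x, φ (x * v) = φ (v * x) := by
  refine central_gen hA (VL ρ F₀) S (fun v hv => (hS v hv).1) ?_ ?_ ?_
  · intro x y
    rw [VL_apply, VL_apply, mul_one, mul_one, map_one, one_mul, map_mul ρ x y]
  · rw [VL_apply, map_one, mul_one, mul_one]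
    exact h0
  · intro v hv
    obtain ⟨_, hcomm, c, hc⟩ := hS v hv
    refine ⟨c, fun x => Or.inr ⟨?_, ?_⟩⟩
    · ext a b
      rw [lB_apply, VL_apply, VL_apply, map_mul ρ b c]
      have e1 : ρ a * (x * v) * ρ b = (ρ a * x * ρ b) * v := by
        rw [← mul_assoc, mul_assoc (ρ a * x), hcomm b, ← mul_assoc]
      rw [e1, (hc _).2, mul_assoc]
    · ext a b
      rw [rB_apply, VL_apply, VL_apply, map_mul ρ c a]
      have e1 : ρ a * (v * x) * ρ b = v * (ρ a * x * ρ b) := by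
        rw [← mul_assoc, ← hcomm a]
        simp only [mul_assoc]
      rw [e1, (hc _).1]
      simp only [mul_assoc]

end Gen

/-! ### Groups -/

/-- `Γ` is amenable: it carries a left-invariant finitely additive probability measure defined on
all subsets. -/
def Amenable (Γ : Type*) [Group Γ] : Prop :=
  ∃ μ : Set Γ → ℝ, μ Set.univ = 1 ∧ (∀ S, 0 ≤ μ S) ∧
    (∀ S T, Disjoint S T → μ (S ∪ T) = μ S + μ T) ∧
    ∀ (g : Γ) (S : Set Γ), μ ((fun h => g * h) '' S) = μ S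

section Group

variable {Γ : Type v} [Group Γ] {K : Type w} [NormedAddCommGroup K] [InnerProductSpace ℂ K]

/-- `ℓ²(Γ, K)` -/
abbrev L2 (Γ : Type v) (K : Type w) [NormedAddCommGroup K] : Type _ := lp (fun _ : Γ => K) 2

lemma two_toReal : 0 < (2 : ENNReal).toReal := by norm_num

/-- `(T ξ)(h) = c h (ξ (e h))` for a permutation `e` of `Γ` and contractions `c h` of `K`. -/
noncomputable def opT (e : Γ ≃ Γ) (c : Γ → K →L[ℂ] K) (hc : ∀ h x, ‖c h x‖ ≤ ‖x‖) :
    L2 Γ K →L[ℂ] L2 Γ K :=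
  LinearMap.mkContinuous
    { toFun := fun ξ => ⟨fun h => c h (ξ (e h)), by
        refine memℓp_gen ?_
        have h1 : Summable fun h => ‖ξ (e h)‖ ^ (2 : ENNReal).toReal :=
          ((lp.memℓp ξ).summable two_toReal).comp_injective e.injective
        exact Summable.of_nonneg_of_le (fun h => by positivity)
          (fun h => Real.rpow_le_rpow (norm_nonneg _) (hc h _) two_toReal.le) h1⟩
      map_add' := by
        intro ξ η
        ext h
        exact map_add (c h) _ _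
      map_smul' := by
        intro z ξ
        ext h
        exact map_smul (c h) _ _ } 1
    (by
      intro ξ
      rw [one_mul]
      have h1 : Summable fun h => ‖ξ (e h)‖ ^ (2 : ENNReal).toReal :=
        ((lp.memℓp ξ).summable two_toReal).comp_injective e.injective
      rw [← Real.rpow_le_rpow_iff (norm_nonneg _) (norm_nonneg _) two_toReal,
        lp.norm_rpow_eq_tsum two_toReal, lp.norm_rpow_eq_tsum two_toReal,
        ← e.tsum_eq (fun h => ‖ξ h‖ ^ (2 : ENNReal).toReal)]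
      refine Summable.tsum_le_tsum (fun h => ?_) ?_ h1
      · exact Real.rpow_le_rpow (norm_nonneg _) (hc h _) two_toReal.le
      · exact Summable.of_nonneg_of_le (fun h => by positivity)
          (fun h => Real.rpow_le_rpow (norm_nonneg _) (hc h _) two_toReal.le) h1)

omit [Group Γ] in
lemma opT_apply (e : Γ ≃ Γ) (c : Γ → K →L[ℂ] K) (hc : ∀ h x, ‖c h x‖ ≤ ‖x‖) (ξ : L2 Γ K) (h : Γ) :
    opT e c hc ξ h = c h (ξ (e h)) := rfl

omit [Group Γ] in
lemma opT_norm (e : Γ ≃ Γ) (c : Γ → K →L[ℂ] K) (hc : ∀ h x, ‖c h x‖ ≤ ‖x‖) :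
    ‖opT e c hc‖ ≤ 1 := LinearMap.mkContinuous_norm_le _ zero_le_one _

/-- Left translation `λ_g ⊗ 1` on `ℓ²(Γ, K)`: `(λ_g ξ)(h) = ξ(g⁻¹ h)`. -/
noncomputable def lam (K : Type w) [NormedAddCommGroup K] [InnerProductSpace ℂ K] (g : Γ) :
    L2 Γ K →L[ℂ] L2 Γ K :=
  opT (Equiv.mulLeft g⁻¹) (fun _ => ContinuousLinearMap.id ℂ K) (fun _ _ => le_rfl)

/-- Right translation twisted by a unitary representation `u` of `Γ` on `K`:
`(R_g ξ)(h) = u_g (ξ(h g))`. -/
noncomputable def rt (u : Γ →* (K ≃ₗᵢ[ℂ] K)) (g : Γ) : L2 Γ K →L[ℂ] L2 Γ K :=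
  opT (Equiv.mulRight g) (fun _ => ((u g).toContinuousLinearEquiv : K →L[ℂ] K))
    (fun _ x => ((u g).norm_map x).le)

lemma lam_apply (g : Γ) (ξ : L2 Γ K) (h : Γ) : lam K g ξ h = ξ (g⁻¹ * h) := rfl

lemma rt_apply (u : Γ →* (K ≃ₗᵢ[ℂ] K)) (g : Γ) (ξ : L2 Γ K) (h : Γ) :
    rt u g ξ h = u g (ξ (h * g)) := rfl

open scoped Classical in
/-- multiplication by the indicator function of `S` -/
noncomputable def pr (K : Type w) [NormedAddCommGroup K] [InnerProductSpace ℂ K] (S : Set Γ) :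
    L2 Γ K →L[ℂ] L2 Γ K :=
  opT (Equiv.refl Γ) (fun h => if h ∈ S then ContinuousLinearMap.id ℂ K else 0)
    (by
      intro h x
      by_cases hS : h ∈ S
      · rw [if_pos hS]; exact le_rfl
      · rw [if_neg hS]; simp)

omit [Group Γ] in
open scoped Classical in
lemma pr_apply (S : Set Γ) (ξ : L2 Γ K) (h : Γ) : pr K S ξ h = if h ∈ S then ξ h else 0 := by
  change (if h ∈ S then ContinuousLinearMap.id ℂ K else 0) (ξ h) = _
  by_cases hS : h ∈ S
  · rw [if_pos hS, if_pos hS]; rfl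
  · rw [if_neg hS, if_neg hS]; rfl

omit [Group Γ] in
lemma pr_univ : pr K (Set.univ : Set Γ) = 1 := by
  ext ξ h
  rw [pr_apply, if_pos (Set.mem_univ h)]
  rfl

omit [Group Γ] in
lemma pr_union {S T : Set Γ} (hST : Disjoint S T) : pr K (S ∪ T) = pr K S + pr K T := by
  classical
  ext ξ h
  change pr K (S ∪ T) ξ h = pr K S ξ h + pr K T ξ h
  rw [pr_apply, pr_apply, pr_apply]
  by_cases hS : h ∈ S
  · have hT : h ∉ T := Set.disjoint_left.1 hST hS
    have hU : h ∈ S ∪ T := Or.inl hS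
    rw [if_pos hU, if_pos hS, if_neg hT, add_zero]
  · by_cases hT : h ∈ T
    · have hU : h ∈ S ∪ T := Or.inr hT
      rw [if_pos hU, if_neg hS, if_pos hT, zero_add]
    · have hU : h ∉ S ∪ T := by rintro (h1 | h1) <;> contradiction
      rw [if_neg hU, if_neg hS, if_neg hT, zero_add]

lemma rt_conj (u : Γ →* (K ≃ₗᵢ[ℂ] K)) (g : Γ) (S : Set Γ) :
    rt u g * (pr K S * rt u g⁻¹) = pr K {h | h * g ∈ S} := by
  classical
  ext ξ h
  change u g ((pr K S (rt u g⁻¹ ξ)) (h * g)) = pr K {h | h * g ∈ S} ξ h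
  rw [pr_apply, pr_apply]
  by_cases hS : h * g ∈ S
  · rw [if_pos hS, if_pos (show h ∈ {h | h * g ∈ S} from hS), rt_apply, mul_inv_cancel_right]
    have : (u g * u g⁻¹) (ξ h) = ξ h := by
      rw [← map_mul, mul_inv_cancel, map_one]
      rfl
    exact this
  · rw [if_neg hS, if_neg (show h ∉ {h | h * g ∈ S} from hS), map_zero]

lemma rt_inv_mul (u : Γ →* (K ≃ₗᵢ[ℂ] K)) (g : Γ) : rt u g⁻¹ * rt u g = 1 := by
  ext ξ h
  change u g⁻¹ (u g (ξ (h * g⁻¹ * g))) = ξ h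
  rw [inv_mul_cancel_right]
  have : (u g⁻¹ * u g) (ξ h) = ξ h := by
    rw [← map_mul, inv_mul_cancel, map_one]
    rfl
  exact this

end Group

section GroupMain

variable {A : Type u} [CStarAlgebra A] {Γ : Type v} [Group Γ] {K : Type w}
  [NormedAddCommGroup K] [InnerProductSpace ℂ K] [CompleteSpace K]

theorem group_amenable (hA : IsApproxAmenable A) (ω : Γ →* (K ≃ₗᵢ[ℂ] K)) (k : K) (hk : k ≠ 0)
    (hω : ∀ g, ω g k = k) (ρ : A →⋆ₐ[ℂ] (L2 Γ K →L[ℂ] L2 Γ K))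
    (hlam : ∀ g, ∃ a, ρ a = lam K g) (hcomm : ∀ a g, ρ a * rt ω g = rt ω g * ρ a) :
    Amenable Γ := by
  classical
  set Ω : L2 Γ K := lp.single 2 (1 : Γ) k with hΩ
  have hΩ1 : Ω (1 : Γ) = k := lp.single_apply_self (E := fun _ : Γ => K) 2 (1 : Γ) k
  have hΩ0 : ∀ h : Γ, h ≠ 1 → Ω h = 0 := fun h hh =>
    lp.single_apply_ne (E := fun _ : Γ => K) 2 (1 : Γ) k hh
  set F₀ : (L2 Γ K →L[ℂ] L2 Γ K) →L[ℂ] ℂ := (innerSL ℂ Ω).comp
    (ContinuousLinearMap.apply ℂ (L2 Γ K) Ω) with hF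
  have hF0 : ∀ y : L2 Γ K →L[ℂ] L2 Γ K, F₀ y = inner ℂ k (y Ω (1 : Γ)) := by
    intro y
    change inner ℂ Ω (y Ω) = _
    exact lp.inner_single_left (𝕜 := ℂ) (G := fun _ : Γ => K) (1 : Γ) k (y Ω)
  -- the two relations
  have hrel1 : ∀ (g : Γ) (y : L2 Γ K →L[ℂ] L2 Γ K), F₀ (rt ω g * y) = F₀ (lam K g⁻¹ * y) := by
    intro g y
    rw [hF0, hF0]
    change inner ℂ k (ω g (y Ω (1 * g))) = inner ℂ k (y Ω (g⁻¹⁻¹ * 1))
    rw [one_mul, inv_inv, mul_one]
    calc inner ℂ k (ω g (y Ω g)) = inner ℂ (ω g k) (ω g (y Ω g)) := by rw [hω g]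
      _ = inner ℂ k (y Ω g) := (ω g).inner_map_map _ _
  have hrel2 : ∀ (g : Γ) (y : L2 Γ K →L[ℂ] L2 Γ K), F₀ (y * rt ω g) = F₀ (y * lam K g⁻¹) := by
    intro g y
    rw [hF0, hF0]
    have e : rt ω g Ω = lam K g⁻¹ Ω := by
      ext h
      change ω g (Ω (h * g)) = Ω (g⁻¹⁻¹ * h)
      rw [inv_inv]
      by_cases hg : h * g = 1
      · have h2 : g * h = 1 := by
          rw [← inv_eq_of_mul_eq_one_left hg, mul_inv_cancel]
        rw [hg, h2, hΩ1, hω]
      · have h2 : g * h ≠ 1 := by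
          intro h3
          apply hg
          rw [← inv_eq_of_mul_eq_one_right h3, inv_mul_cancel]
        rw [hΩ0 _ hg, hΩ0 _ h2, map_zero]
    change inner ℂ k (y (rt ω g Ω) (1 : Γ)) = inner ℂ k (y (lam K g⁻¹ Ω) (1 : Γ))
    rw [e]
  obtain ⟨φ, hφ1, hφ2, hφ3⟩ := centraliser hA ρ F₀ (by
      rw [hF0]
      change inner ℂ k (Ω (1 : Γ)) ≠ 0
      rw [hΩ1]
      exact inner_self_ne_zero.2 hk) (Set.range (rt ω)) (by
      rintro _ ⟨g, rfl⟩
      refine ⟨⟨rt ω g⁻¹, rt_inv_mul ω g, opT_norm _ _ _, opT_norm _ _ _⟩,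
        fun a => (hcomm a g).symm, ?_⟩
      obtain ⟨c, hc⟩ := hlam g⁻¹
      refine ⟨c, fun y => ?_⟩
      rw [hc]
      exact ⟨hrel1 g y, hrel2 g y⟩)
  -- the invariant measure
  have hpr : ∀ S : Set Γ, 0 ≤ (φ (pr K S)).re := by
    intro S
    have h1 : pr K S + pr K Sᶜ = 1 := by
      rw [← pr_union disjoint_compl_right, Set.union_compl_self, pr_univ]
    have h2 : φ (pr K S) + φ (pr K Sᶜ) = 1 := by rw [← map_add, h1, hφ2]
    have h3 : (φ (pr K Sᶜ)).re ≤ 1 := by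
      refine (Complex.re_le_norm _).trans ((φ.le_opNorm _).trans ?_)
      have h4 : ‖pr K Sᶜ‖ ≤ 1 := opT_norm _ _ _
      have := mul_le_mul hφ1 h4 (norm_nonneg _) zero_le_one
      linarith
    have h5 := congrArg Complex.re h2
    rw [Complex.add_re, Complex.one_re] at h5
    linarith
  refine ⟨fun S => (φ (pr K {h | h⁻¹ ∈ S})).re, ?_, fun S => hpr _, ?_, ?_⟩
  · have : {h : Γ | h⁻¹ ∈ (Set.univ : Set Γ)} = Set.univ := by ext; simp
    change (φ (pr K {h : Γ | h⁻¹ ∈ (Set.univ : Set Γ)})).re = 1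
    rw [this, pr_univ, hφ2, Complex.one_re]
  · intro S T hST
    change (φ (pr K {h | h⁻¹ ∈ S ∪ T})).re = (φ (pr K {h | h⁻¹ ∈ S})).re
      + (φ (pr K {h | h⁻¹ ∈ T})).re
    have e : {h : Γ | h⁻¹ ∈ S ∪ T} = {h | h⁻¹ ∈ S} ∪ {h | h⁻¹ ∈ T} := rfl
    rw [e, pr_union, map_add, Complex.add_re]
    exact Set.disjoint_left.2 fun h h1 h2 => Set.disjoint_left.1 hST h1 h2
  · intro g S
    change (φ (pr K {h | h⁻¹ ∈ (fun h => g * h) '' S})).re = (φ (pr K {h | h⁻¹ ∈ S})).re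
    have e : {h : Γ | h⁻¹ ∈ (fun h => g * h) '' S} = {h | h * g ∈ {h | h⁻¹ ∈ S}} := by
      ext h
      change (∃ x, x ∈ S ∧ g * x = h⁻¹) ↔ (h * g)⁻¹ ∈ S
      rw [mul_inv_rev]
      constructor
      · rintro ⟨x, hx, hx2⟩
        rw [← hx2, inv_mul_cancel_left]
        exact hx
      · intro hx
        exact ⟨_, hx, by rw [mul_inv_cancel_left]⟩
    rw [e, ← rt_conj ω g, ← hφ3 (rt ω g) ⟨g, rfl⟩, mul_assoc, rt_inv_mul, mul_one]

end GroupMain

end Pool.Agent.Helper239.Hyp
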