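import Mathlib
import Pool.Agent.Helper239.Hyp

set_option autoImplicit false
set_option maxSynthPendingDepth 3
open Filter Topology ContinuousLinearMap
open scoped ComplexInnerProductSpace

namespace Pool.Agent.Helper239.HypB

section Sqrt

variable {H : Type*} [NormedAddCommGroup H] [InnerProductSpace ℂ H] [CompleteSpace H]
  {L : Type*} [NormedAddCommGroup L] [InnerProductSpace ℂ L] [CompleteSpace L]
  {ι : Type*} (F : Finset ι) (S : ι → H →L[ℂ] L)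

/-- `h = ∑ S_b† S_b` -/
noncomputable def hh : H →L[ℂ] H := ∑ b ∈ F, (adjoint (S b)) ∘L (S b)

lemma hh_pos : (hh F S).IsPositive := by
  unfold hh
  refine ContinuousLinearMap.isPositive_sum _ fun b _ => ?_
  exact isPositive_adjoint_comp_self (S b)

lemma hh_sa : IsSelfAdjoint (hh F S) := (hh_pos F S).isSelfAdjoint

lemma hh_spec {t : ℝ} (ht : t ∈ spectrum ℝ (hh F S)) : 0 ≤ t :=
  spectrum_nonneg_of_nonneg ((ContinuousLinearMap.nonneg_iff_isPositive _).2 (hh_pos F S)) ht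

lemma hh_inner (γ : H) : (inner ℂ γ (hh F S γ)).re = ∑ b ∈ F, ‖S b γ‖ ^ 2 := by
  unfold hh
  rw [sum_apply, inner_sum, Complex.re_sum]
  refine Finset.sum_congr rfl fun b _ => ?_
  rw [ContinuousLinearMap.comp_apply, adjoint_inner_right]
  exact inner_self_eq_norm_sq (𝕜 := ℂ) _

/-- `s = (h+ε)^{-1/2}` -/
noncomputable def ss (ε : ℝ) : H →L[ℂ] H := cfc (fun t : ℝ => (√(max t 0 + ε))⁻¹) (hh F S)

/-- `k = ε (h+ε)^{-1}` -/
noncomputable def kk (ε : ℝ) : H →L[ℂ] H := cfc (fun t : ℝ => ε / (max t 0 + ε)) (hh F S)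

lemma cont_s {ε : ℝ} (hε : 0 < ε) : Continuous (fun t : ℝ => (√(max t 0 + ε))⁻¹) := by
  refine Continuous.inv₀ (by fun_prop) fun t => ?_
  have : 0 < max t 0 + ε := by positivity
  exact (Real.sqrt_pos.2 this).ne'

lemma cont_k {ε : ℝ} (hε : 0 < ε) : Continuous (fun t : ℝ => ε / (max t 0 + ε)) := by
  refine Continuous.div (by fun_prop) (by fun_prop) fun t => ?_
  have : 0 < max t 0 + ε := by positivity
  exact this.ne'

lemma ss_sa (ε : ℝ) : IsSelfAdjoint (ss F S ε) := cfc_predicate _ _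

lemma kk_sa (ε : ℝ) : IsSelfAdjoint (kk F S ε) := cfc_predicate _ _

lemma ss_comm (ε : ℝ) {v : H →L[ℂ] H} (hv : Commute (hh F S) v) : Commute (ss F S ε) v :=
  Commute.cfc_real hv _

lemma shs {ε : ℝ} (hε : 0 < ε) : ss F S ε * hh F S * ss F S ε = 1 - kk F S ε := by
  have hc := (cont_s hε).continuousOn (s := spectrum ℝ (hh F S))
  have hk := (cont_k hε).continuousOn (s := spectrum ℝ (hh F S))
  have e1 : ss F S ε * hh F S * ss F S ε
      = cfc (fun t : ℝ => (√(max t 0 + ε))⁻¹ * t * (√(max t 0 + ε))⁻¹) (hh F S) := by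
    rw [cfc_mul (fun t : ℝ => (√(max t 0 + ε))⁻¹ * t) (fun t : ℝ => (√(max t 0 + ε))⁻¹) (hh F S)
      (hc.mul continuousOn_id) hc, cfc_mul (fun t : ℝ => (√(max t 0 + ε))⁻¹) (fun t : ℝ => t)
      (hh F S) hc continuousOn_id, cfc_id' ℝ (hh F S) (hh_sa F S)]
    rfl
  have e2 : (1 : H →L[ℂ] H) - kk F S ε = cfc (fun t : ℝ => 1 - ε / (max t 0 + ε)) (hh F S) := by
    rw [cfc_sub (fun _ : ℝ => (1 : ℝ)) (fun t : ℝ => ε / (max t 0 + ε)) (hh F S)
      continuousOn_const hk, cfc_const_one ℝ (hh F S) (hh_sa F S)]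
    rfl
  rw [e1, e2]
  refine cfc_congr fun t ht => ?_
  have h0 := hh_spec F S ht
  have h1 : 0 < t + ε := by linarith
  simp only [max_eq_left h0]
  have h2 : √(t + ε) * √(t + ε) = t + ε := Real.mul_self_sqrt h1.le
  have h3 : √(t + ε) ≠ 0 := (Real.sqrt_pos.2 h1).ne'
  field_simp
  rw [pow_two, h2]
  ring

lemma shs_norm {ε : ℝ} (hε : 0 < ε) : ‖ss F S ε * hh F S * ss F S ε‖ ≤ 1 := by
  have hk := (cont_k hε).continuousOn (s := spectrum ℝ (hh F S))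
  have e2 : (1 : H →L[ℂ] H) - kk F S ε = cfc (fun t : ℝ => 1 - ε / (max t 0 + ε)) (hh F S) := by
    rw [cfc_sub (fun _ : ℝ => (1 : ℝ)) (fun t : ℝ => ε / (max t 0 + ε)) (hh F S)
      continuousOn_const hk, cfc_const_one ℝ (hh F S) (hh_sa F S)]
    rfl
  rw [shs F S hε, e2]
  refine norm_cfc_le zero_le_one fun t ht => ?_
  have h1 : 0 < max t 0 + ε := by positivity
  have h2 : ε / (max t 0 + ε) ≤ 1 := by
    rw [div_le_one h1]
    linarith [le_max_right t 0]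
  have h3 : 0 ≤ ε / (max t 0 + ε) := by positivity
  rw [Real.norm_eq_abs, abs_le]
  constructor <;> linarith

lemma khk_norm {ε : ℝ} (hε : 0 < ε) : ‖kk F S ε * hh F S * kk F S ε‖ ≤ ε := by
  have hk := (cont_k hε).continuousOn (s := spectrum ℝ (hh F S))
  have e1 : kk F S ε * hh F S * kk F S ε
      = cfc (fun t : ℝ => ε / (max t 0 + ε) * t * (ε / (max t 0 + ε))) (hh F S) := by
    rw [cfc_mul (fun t : ℝ => ε / (max t 0 + ε) * t) (fun t : ℝ => ε / (max t 0 + ε)) (hh F S)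
      (hk.mul continuousOn_id) hk, cfc_mul (fun t : ℝ => ε / (max t 0 + ε)) (fun t : ℝ => t)
      (hh F S) hk continuousOn_id, cfc_id' ℝ (hh F S) (hh_sa F S)]
    rfl
  rw [e1]
  refine norm_cfc_le hε.le fun t ht => ?_
  have h0 := hh_spec F S ht
  have h1 : 0 < t + ε := by linarith
  simp only [max_eq_left h0]
  have h2 : 0 ≤ ε / (t + ε) * t * (ε / (t + ε)) := by positivity
  rw [Real.norm_eq_abs, abs_of_nonneg h2]
  have h3 : ε / (t + ε) ≤ 1 := by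
    rw [div_le_one h1]
    linarith
  have h4 : ε / (t + ε) * t ≤ ε := by
    rw [div_mul_eq_mul_div, div_le_iff₀ h1]
    nlinarith
  calc ε / (t + ε) * t * (ε / (t + ε)) ≤ ε * 1 :=
        mul_le_mul h4 h3 (by positivity) hε.le
    _ = ε := mul_one _

lemma kk_vec {ε : ℝ} (hε : 0 < ε) (b : ι) (hb : b ∈ F) (ζ : L) :
    ‖kk F S ε (adjoint (S b) ζ)‖ ≤ √ε * ‖ζ‖ := by
  set β := adjoint (S b) ζ with hβ
  set k := kk F S ε with hk
  have hks : ∀ x y : H, inner ℂ (k x) y = inner ℂ x (k y) := fun x y =>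
    ((isSelfAdjoint_iff_isSymmetric.1 (kk_sa F S ε)) x y)
  -- `‖kβ‖² = ⟨k²β, β⟩ = ⟨S_b k² β, ζ⟩`
  have h1 : ‖k β‖ ^ 2 ≤ ‖S b (k (k β))‖ * ‖ζ‖ := by
    have e : (inner ℂ (k β) (k β)) = inner ℂ (S b (k (k β))) ζ := by
      rw [← hks (k β) β, hβ, adjoint_inner_right]
    have h2 : ‖(inner ℂ (k β) (k β) : ℂ)‖ = ‖k β‖ ^ 2 := by
      rw [inner_self_eq_norm_sq_to_K]
      simp
    rw [← h2, e]
    exact norm_inner_le_norm _ _
  have h3 : ‖S b (k (k β))‖ ^ 2 ≤ ε * ‖k β‖ ^ 2 := by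
    have h4 : ‖S b (k (k β))‖ ^ 2 ≤ ∑ c ∈ F, ‖S c (k (k β))‖ ^ 2 :=
      Finset.single_le_sum (f := fun c => ‖S c (k (k β))‖ ^ 2) (fun c _ => by positivity) hb
    rw [← hh_inner] at h4
    have h5 : (inner ℂ (k (k β)) (hh F S (k (k β)))) =
        inner ℂ (k β) ((k * hh F S * k) (k β)) := by
      rw [hks]
      rfl
    rw [h5] at h4
    refine h4.trans ((Complex.re_le_norm _).trans ((norm_inner_le_norm _ _).trans ?_))
    have h6 : ‖(k * hh F S * k) (k β)‖ ≤ ε * ‖k β‖ :=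
      ((k * hh F S * k).le_opNorm _).trans
        (mul_le_mul_of_nonneg_right (khk_norm F S hε) (norm_nonneg _))
    calc ‖k β‖ * ‖(k * hh F S * k) (k β)‖ ≤ ‖k β‖ * (ε * ‖k β‖) :=
          mul_le_mul_of_nonneg_left h6 (norm_nonneg _)
      _ = ε * ‖k β‖ ^ 2 := by ring
  have h7 : ‖S b (k (k β))‖ ≤ √ε * ‖k β‖ := by
    refine (pow_le_pow_iff_left₀ (norm_nonneg _) (by positivity) two_ne_zero).1 ?_
    rw [mul_pow, Real.sq_sqrt hε.le]
    exact h3
  by_cases h0 : ‖k β‖ = 0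
  · rw [h0]; positivity
  · have h8 : 0 < ‖k β‖ := lt_of_le_of_ne (norm_nonneg _) (Ne.symm h0)
    have h9 : ‖k β‖ * ‖k β‖ ≤ (√ε * ‖ζ‖) * ‖k β‖ := by
      have := mul_le_mul_of_nonneg_right h7 (norm_nonneg ζ)
      nlinarith
    exact le_of_mul_le_mul_right h9 h8

/-- `Θ(x) = s (∑ S_b† x S_b) s` -/
noncomputable def Th (ε : ℝ) (x : L →L[ℂ] L) : H →L[ℂ] H :=
  ss F S ε * (∑ b ∈ F, (adjoint (S b)) ∘L (x ∘L (S b))) * ss F S ε

lemma Th_one {ε : ℝ} (hε : 0 < ε) : Th F S ε 1 = 1 - kk F S ε := by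
  rw [← shs F S hε]
  rfl

lemma Th_bound {ε : ℝ} (hε : 0 < ε) (x : L →L[ℂ] L) (α β : H) :
    ‖(inner ℂ α (Th F S ε x β) : ℂ)‖ ≤ ‖x‖ * ‖α‖ * ‖β‖ := by
  set s := ss F S ε with hs
  have hss : ∀ x y : H, inner ℂ (s x) y = inner ℂ x (s y) := fun x y =>
    ((isSelfAdjoint_iff_isSymmetric.1 (ss_sa F S ε)) x y)
  have e : inner ℂ α (Th F S ε x β) = ∑ b ∈ F, inner ℂ (S b (s α)) (x (S b (s β))) := by
    change inner ℂ α (s ((∑ b ∈ F, (adjoint (S b)) ∘L (x ∘L (S b))) (s β))) = _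
    rw [← hss, sum_apply, inner_sum]
    refine Finset.sum_congr rfl fun b _ => ?_
    rw [ContinuousLinearMap.comp_apply, adjoint_inner_right]
    rfl
  have hsum : ∀ γ : H, ∑ b ∈ F, ‖S b (s γ)‖ ^ 2 ≤ ‖γ‖ ^ 2 := by
    intro γ
    rw [← hh_inner, hss]
    refine (Complex.re_le_norm _).trans ((norm_inner_le_norm _ _).trans ?_)
    have h1 : ‖(s * hh F S * s) γ‖ ≤ 1 * ‖γ‖ :=
      ((s * hh F S * s).le_opNorm _).trans
        (mul_le_mul_of_nonneg_right (shs_norm F S hε) (norm_nonneg _))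
    rw [one_mul] at h1
    calc ‖γ‖ * ‖(s * hh F S * s) γ‖ ≤ ‖γ‖ * ‖γ‖ := mul_le_mul_of_nonneg_left h1 (norm_nonneg _)
      _ = ‖γ‖ ^ 2 := by ring
  rw [e]
  calc ‖∑ b ∈ F, (inner ℂ (S b (s α)) (x (S b (s β))) : ℂ)‖
      ≤ ∑ b ∈ F, ‖(inner ℂ (S b (s α)) (x (S b (s β))) : ℂ)‖ := norm_sum_le _ _
    _ ≤ ∑ b ∈ F, ‖x‖ * (‖S b (s α)‖ * ‖S b (s β)‖) := by
        refine Finset.sum_le_sum fun b _ => (norm_inner_le_norm _ _).trans ?_
        calc ‖S b (s α)‖ * ‖x (S b (s β))‖ ≤ ‖S b (s α)‖ * (‖x‖ * ‖S b (s β)‖) :=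
              mul_le_mul_of_nonneg_left (x.le_opNorm _) (norm_nonneg _)
          _ = ‖x‖ * (‖S b (s α)‖ * ‖S b (s β)‖) := by ring
    _ = ‖x‖ * ∑ b ∈ F, ‖S b (s α)‖ * ‖S b (s β)‖ := by rw [Finset.mul_sum]
    _ ≤ ‖x‖ * (‖α‖ * ‖β‖) := by
        refine mul_le_mul_of_nonneg_left ?_ (norm_nonneg _)
        have h2 := Real.sum_mul_le_sqrt_mul_sqrt F (fun b => ‖S b (s α)‖) (fun b => ‖S b (s β)‖)
        refine h2.trans ?_
        refine mul_le_mul ?_ ?_ (Real.sqrt_nonneg _) (norm_nonneg _)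
        · exact Real.sqrt_le_iff.2 ⟨norm_nonneg _, hsum α⟩
        · exact Real.sqrt_le_iff.2 ⟨norm_nonneg _, hsum β⟩
    _ = ‖x‖ * ‖α‖ * ‖β‖ := by ring

end Sqrt

open Pool.Agent.Helper239.Hyp

universe u v w

/-! ### Ultrafilter limits of bounded trilinear forms -/

section Lim

variable {A : Type u} [CStarAlgebra A] {B : Type w} [CStarAlgebra B] {J : Type*}

lemma exists_ultra_lim (𝒰 : Ultrafilter J) (f : J → ℂ) (C : ℝ) (hf : ∀ j, ‖f j‖ ≤ C) :
    ∃ l : ℂ, ‖l‖ ≤ C ∧ Tendsto f 𝒰 (𝓝 l) := by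
  obtain ⟨l, hl, h⟩ := (isCompact_closedBall (0 : ℂ) C).ultrafilter_le_nhds (𝒰.map f) (by
    rw [Filter.le_principal_iff]
    have hmem : ∀ j, f j ∈ Metric.closedBall (0 : ℂ) C := by
      intro j
      rw [mem_closedBall_zero_iff]
      exact hf j
    exact Ultrafilter.mem_map.2 (Filter.univ_mem' hmem))
  exact ⟨l, by rwa [mem_closedBall_zero_iff] at hl, h⟩

lemma exists_trilinear_lim (𝒰 : Ultrafilter J) (f : J → B → A → A → ℂ)
    (hb : ∀ j x a b, ‖f j x a b‖ ≤ ‖x‖ * ‖a‖ * ‖b‖)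
    (h1 : ∀ j x y a b, f j (x + y) a b = f j x a b + f j y a b)
    (h2 : ∀ j (z : ℂ) x a b, f j (z • x) a b = z * f j x a b)
    (h3 : ∀ j x a a' b, f j x (a + a') b = f j x a b + f j x a' b)
    (h4 : ∀ j (z : ℂ) x a b, f j x (z • a) b = z * f j x a b)
    (h5 : ∀ j x a b b', f j x a (b + b') = f j x a b + f j x a b')
    (h6 : ∀ j (z : ℂ) x a b, f j x a (z • b) = z * f j x a b) :
    ∃ W : B →L[ℂ] BL A, ∀ x a b, Tendsto (fun j => f j x a b) 𝒰 (𝓝 (W x a b)) := by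
  have h := fun (x : B) (a b : A) => exists_ultra_lim 𝒰 (fun j => f j x a b) _
    (fun j => hb j x a b)
  choose g hg1 hg2 using h
  have e1 : ∀ x y a b, g (x + y) a b = g x a b + g y a b := by
    intro x y a b
    refine tendsto_nhds_unique (hg2 (x + y) a b) ?_
    simp_rw [h1]
    exact (hg2 x a b).add (hg2 y a b)
  have e2 : ∀ (z : ℂ) x a b, g (z • x) a b = z * g x a b := by
    intro z x a b
    refine tendsto_nhds_unique (hg2 (z • x) a b) ?_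
    simp_rw [h2]
    exact (hg2 x a b).const_mul z
  have e3 : ∀ x a a' b, g x (a + a') b = g x a b + g x a' b := by
    intro x a a' b
    refine tendsto_nhds_unique (hg2 x (a + a') b) ?_
    simp_rw [h3]
    exact (hg2 x a b).add (hg2 x a' b)
  have e4 : ∀ (z : ℂ) x a b, g x (z • a) b = z * g x a b := by
    intro z x a b
    refine tendsto_nhds_unique (hg2 x (z • a) b) ?_
    simp_rw [h4]
    exact (hg2 x a b).const_mul z
  have e5 : ∀ x a b b', g x a (b + b') = g x a b + g x a b' := by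
    intro x a b b'
    refine tendsto_nhds_unique (hg2 x a (b + b')) ?_
    simp_rw [h5]
    exact (hg2 x a b).add (hg2 x a b')
  have e6 : ∀ (z : ℂ) x a b, g x a (z • b) = z * g x a b := by
    intro z x a b
    refine tendsto_nhds_unique (hg2 x a (z • b)) ?_
    simp_rw [h6]
    exact (hg2 x a b).const_mul z
  let G : B → BL A := fun x => LinearMap.mkContinuous₂
    (LinearMap.mk₂ ℂ (fun a b => g x a b) (fun a a' b => e3 x a a' b) (fun z a b => e4 z x a b)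
      (fun a b b' => e5 x a b b') (fun z a b => e6 z x a b)) ‖x‖ (fun a b => hg1 x a b)
  have hG : ∀ x a b, G x a b = g x a b := fun _ _ _ => rfl
  have hGn : ∀ x, ‖G x‖ ≤ 1 * ‖x‖ := by
    intro x
    rw [one_mul]
    exact LinearMap.mkContinuous₂_norm_le _ (norm_nonneg _) _
  let W : B →L[ℂ] BL A := LinearMap.mkContinuous
    { toFun := G
      map_add' := by
        intro x y
        ext a b
        exact e1 x y a b
      map_smul' := by
        intro z x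
        ext a b
        exact e2 z x a b } 1 hGn
  exact ⟨W, fun x a b => hg2 x a b⟩

end Lim

section Data

variable {A : Type u} [CStarAlgebra A] {Γ : Type v} [Group Γ] {H : Type w}
  [NormedAddCommGroup H] [InnerProductSpace ℂ H] [CompleteSpace H]

/-- the data used below -/
structure Dat (ρ : A →⋆ₐ[ℂ] (H →L[ℂ] H)) (V : Γ → H →L[ℂ] H) (Ω : H) (c : Γ → A) : Prop where
  inner_V : ∀ g α β, inner ℂ (V g α) (V g β) = inner ℂ α β
  V_one : V 1 = 1
  V_mul : ∀ g h, V (g * h) = V g * V h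
  comm : ∀ g a, V g * ρ a = ρ a * V g
  VΩ : ∀ g, V g Ω = ρ (c g) Ω
  VΩ' : ∀ g, V g⁻¹ Ω = ρ (star (c g)) Ω
  orth : ∀ g, g ≠ 1 → inner ℂ Ω (V g Ω) = 0
  norm : ‖Ω‖ = 1

variable {ρ : A →⋆ₐ[ℂ] (H →L[ℂ] H)} {V : Γ → H →L[ℂ] H} {Ω : H} {c : Γ → A}

lemma Dat.orthonormal (D : Dat ρ V Ω c) : Orthonormal ℂ (fun g => V g Ω) := by
  constructor
  · intro g
    have h := D.inner_V g Ω Ω
    have h1 := congrArg Complex.re h
    have h2 : ‖V g Ω‖ ^ 2 = ‖Ω‖ ^ 2 := by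
      rw [← inner_self_eq_norm_sq (𝕜 := ℂ), ← inner_self_eq_norm_sq (𝕜 := ℂ)]
      exact h1
    rw [D.norm, one_pow] at h2
    exact (pow_eq_one_iff_of_nonneg (norm_nonneg _) two_ne_zero).1 h2
  · intro g h hgh
    have e : V h Ω = V g (V (g⁻¹ * h) Ω) := by
      have := D.V_mul g (g⁻¹ * h)
      rw [mul_inv_cancel_left] at this
      rw [this]
      rfl
    change inner ℂ (V g Ω) (V h Ω) = 0
    rw [e, D.inner_V]
    apply D.orth
    intro h1
    apply hgh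
    rw [inv_mul_eq_one] at h1
    exact h1

/-- `(T η)(g) = ⟨V_g Ω, η⟩` -/
noncomputable def Dat.T (D : Dat ρ V Ω c) : H →L[ℂ] L2 Γ ℂ :=
  LinearMap.mkContinuous
    { toFun := fun η => ⟨fun g => inner ℂ (V g Ω) η, by
        refine memℓp_gen ?_
        have := D.orthonormal.inner_products_summable (x := η)
        simpa using this⟩
      map_add' := by
        intro ξ η
        ext h
        exact inner_add_right _ _ _
      map_smul' := by
        intro z ξ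
        ext h
        exact inner_smul_right _ _ _ } 1
    (by
      intro η
      rw [one_mul]
      rw [← Real.rpow_le_rpow_iff (norm_nonneg _) (norm_nonneg _) two_toReal,
        lp.norm_rpow_eq_tsum two_toReal]
      have := D.orthonormal.tsum_inner_products_le (x := η)
      simpa using this)

lemma Dat.T_apply (D : Dat ρ V Ω c) (η : H) (g : Γ) : D.T η g = inner ℂ (V g Ω) η := rfl

lemma Dat.T_V (D : Dat ρ V Ω c) (h : Γ) (η : H) : D.T (V h η) = lam ℂ h (D.T η) := by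
  ext g
  rw [lam_apply, D.T_apply, D.T_apply]
  have e : V g Ω = V h (V (h⁻¹ * g) Ω) := by
    have := D.V_mul h (h⁻¹ * g)
    rw [mul_inv_cancel_left] at this
    rw [this]
    rfl
  rw [e, D.inner_V]

/-- `S_b = T ρ(b*)` -/
noncomputable def Dat.S (D : Dat ρ V Ω c) (b : A) : H →L[ℂ] L2 Γ ℂ := D.T ∘L ρ (star b)

lemma Dat.S_V (D : Dat ρ V Ω c) (b : A) (h : Γ) (η : H) : D.S b (V h η) = lam ℂ h (D.S b η) := by
  change D.T (ρ (star b) (V h η)) = lam ℂ h (D.T (ρ (star b) η))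
  rw [← D.T_V]
  congr 1
  have := D.comm h (star b)
  exact (DFunLike.congr_fun this η).symm

lemma lam_inner (g : Γ) (ξ η : L2 Γ ℂ) : inner ℂ (lam ℂ g ξ) (lam ℂ g η) = inner ℂ ξ η := by
  rw [lp.inner_eq_tsum, lp.inner_eq_tsum]
  exact (Equiv.mulLeft g⁻¹).tsum_eq (fun i => inner ℂ (ξ i) (η i))

lemma lam_mul_inv (g : Γ) : lam ℂ g * lam ℂ g⁻¹ = 1 := by
  ext ξ h
  change ξ (g⁻¹⁻¹ * (g⁻¹ * h)) = ξ h
  rw [inv_inv, mul_inv_cancel_left]

lemma lam_inv_mul (g : Γ) : lam ℂ g⁻¹ * lam ℂ g = 1 := by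
  ext ξ h
  change ξ (g⁻¹ * (g⁻¹⁻¹ * h)) = ξ h
  rw [inv_inv, inv_mul_cancel_left]

lemma Dat.V_mul_inv (D : Dat ρ V Ω c) (g : Γ) (α : H) : V g (V g⁻¹ α) = α := by
  have h1 := D.V_mul g g⁻¹
  rw [mul_inv_cancel, D.V_one] at h1
  exact (DFunLike.congr_fun h1 α).symm

lemma Dat.adj_lam (D : Dat ρ V Ω c) (b : A) (h : Γ) (ζ : L2 Γ ℂ) :
    adjoint (D.S b) (lam ℂ h ζ) = V h (adjoint (D.S b) ζ) := by
  refine ext_inner_left ℂ fun α => ?_
  rw [adjoint_inner_right]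
  have e1 : inner ℂ α (V h (adjoint (D.S b) ζ)) = inner ℂ (V h⁻¹ α) (adjoint (D.S b) ζ) := by
    rw [← D.inner_V h (V h⁻¹ α), D.V_mul_inv]
  rw [e1, adjoint_inner_right, D.S_V]
  rw [← lam_inner h (lam ℂ h⁻¹ (D.S b α)) ζ]
  have e2 : lam ℂ h (lam ℂ h⁻¹ (D.S b α)) = D.S b α := DFunLike.congr_fun (lam_mul_inv h) (D.S b α)
  rw [e2]

lemma Dat.commute (D : Dat ρ V Ω c) (F : Finset A) (g : Γ) : Commute (hh F D.S) (V g) := by
  change hh F D.S * V g = V g * hh F D.S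
  ext η
  change hh F D.S (V g η) = V g (hh F D.S η)
  unfold hh
  rw [sum_apply, sum_apply, map_sum]
  refine Finset.sum_congr rfl fun b _ => ?_
  change adjoint (D.S b) (D.S b (V g η)) = V g (adjoint (D.S b) (D.S b η))
  rw [D.S_V, D.adj_lam]

lemma Dat.Th_left (D : Dat ρ V Ω c) (F : Finset A) (ε : ℝ) (g : Γ) (x : L2 Γ ℂ →L[ℂ] L2 Γ ℂ) :
    Th F D.S ε (lam ℂ g * x) = V g * Th F D.S ε x := by
  have h1 : (∑ b ∈ F, (adjoint (D.S b)) ∘L ((lam ℂ g * x) ∘L (D.S b))) =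
      V g * ∑ b ∈ F, (adjoint (D.S b)) ∘L (x ∘L (D.S b)) := by
    ext η
    change (∑ b ∈ F, (adjoint (D.S b)) ∘L ((lam ℂ g * x) ∘L (D.S b))) η =
      V g ((∑ b ∈ F, (adjoint (D.S b)) ∘L (x ∘L (D.S b))) η)
    rw [sum_apply, sum_apply, map_sum]
    refine Finset.sum_congr rfl fun b _ => ?_
    exact D.adj_lam b g _
  unfold Th
  rw [h1, ← mul_assoc, ss_comm F D.S ε (D.commute F g), mul_assoc, mul_assoc, mul_assoc]

lemma Dat.Th_right (D : Dat ρ V Ω c) (F : Finset A) (ε : ℝ) (g : Γ) (x : L2 Γ ℂ →L[ℂ] L2 Γ ℂ) :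
    Th F D.S ε (x * lam ℂ g) = Th F D.S ε x * V g := by
  have h1 : (∑ b ∈ F, (adjoint (D.S b)) ∘L ((x * lam ℂ g) ∘L (D.S b))) =
      (∑ b ∈ F, (adjoint (D.S b)) ∘L (x ∘L (D.S b))) * V g := by
    ext η
    change (∑ b ∈ F, (adjoint (D.S b)) ∘L ((x * lam ℂ g) ∘L (D.S b))) η =
      (∑ b ∈ F, (adjoint (D.S b)) ∘L (x ∘L (D.S b))) (V g η)
    rw [sum_apply, sum_apply]
    refine Finset.sum_congr rfl fun b _ => ?_
    change adjoint (D.S b) (x (lam ℂ g (D.S b η))) = adjoint (D.S b) (x (D.S b (V g η)))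
    rw [D.S_V]
  have e : ss F D.S ε * V g = V g * ss F D.S ε := (ss_comm F D.S ε (D.commute F g)).eq
  unfold Th
  rw [h1]
  set Q : H →L[ℂ] H := ∑ b ∈ F, (adjoint (D.S b)) ∘L (x ∘L (D.S b)) with hQ
  calc ss F D.S ε * (Q * V g) * ss F D.S ε = ss F D.S ε * (Q * (V g * ss F D.S ε)) := by
        simp only [mul_assoc]
    _ = ss F D.S ε * (Q * (ss F D.S ε * V g)) := by rw [e]
    _ = ss F D.S ε * Q * ss F D.S ε * V g := by simp only [mul_assoc]

lemma Dat.rho_norm (ρ : A →⋆ₐ[ℂ] (H →L[ℂ] H)) (a : A) : ‖ρ a‖ ≤ ‖a‖ :=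
  NonUnitalStarAlgHom.norm_apply_le ρ a

lemma Dat.vec_norm (D : Dat ρ V Ω c) (a : A) : ‖ρ a Ω‖ ≤ ‖a‖ := by
  refine ((ρ a).le_opNorm Ω).trans ?_
  rw [D.norm, mul_one]
  exact Dat.rho_norm ρ a

lemma rho_star (ρ : A →⋆ₐ[ℂ] (H →L[ℂ] H)) (a : A) : ρ (star a) = adjoint (ρ a) := by
  rw [map_star]
  rfl

lemma Dat.S_adj_one (D : Dat ρ V Ω c) (b : A) [DecidableEq Γ] :
    adjoint (D.S b) (lp.single 2 (1 : Γ) (1 : ℂ)) = ρ b Ω := by
  refine ext_inner_left ℂ fun η => ?_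
  rw [adjoint_inner_right]
  have e1 : inner ℂ (D.S b η) (lp.single 2 (1 : Γ) (1 : ℂ) : L2 Γ ℂ)
      = inner ℂ ((D.S b η) (1 : Γ)) (1 : ℂ) :=
    lp.inner_single_right (𝕜 := ℂ) (G := fun _ : Γ => ℂ) (1 : Γ) (1 : ℂ) (D.S b η)
  rw [e1]
  have e2 : (D.S b η) (1 : Γ) = inner ℂ Ω (ρ (star b) η) := by
    change inner ℂ (V 1 Ω) (ρ (star b) η) = _
    rw [D.V_one]
    rfl
  rw [e2, rho_star, adjoint_inner_right]
  change (1 : ℂ) * (starRingEnd ℂ) (inner ℂ (ρ b Ω) η) = _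
  rw [one_mul, inner_conj_symm]

/-- the approximating trilinear forms -/
noncomputable def Dat.fj (D : Dat ρ V Ω c) (j : Finset A × ℕ) (x : L2 Γ ℂ →L[ℂ] L2 Γ ℂ)
    (a b : A) : ℂ :=
  inner ℂ (ρ (star a) Ω) (Th j.1 D.S (1 / ((j.2 : ℝ) + 1)) x (ρ b Ω))

lemma Th_add {L : Type*} [NormedAddCommGroup L] [InnerProductSpace ℂ L] [CompleteSpace L]
    {ι : Type*} (F : Finset ι) (S : ι → H →L[ℂ] L) (ε : ℝ) (x y : L →L[ℂ] L) :
    Th F S ε (x + y) = Th F S ε x + Th F S ε y := by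
  unfold Th
  have e : (∑ b ∈ F, (adjoint (S b)) ∘L ((x + y) ∘L (S b))) =
      (∑ b ∈ F, (adjoint (S b)) ∘L (x ∘L (S b))) + ∑ b ∈ F, (adjoint (S b)) ∘L (y ∘L (S b)) := by
    rw [← Finset.sum_add_distrib]
    refine Finset.sum_congr rfl fun b _ => ?_
    rw [add_comp, comp_add]
  rw [e, mul_add, add_mul]

lemma Th_smul {L : Type*} [NormedAddCommGroup L] [InnerProductSpace ℂ L] [CompleteSpace L]
    {ι : Type*} (F : Finset ι) (S : ι → H →L[ℂ] L) (ε : ℝ) (z : ℂ) (x : L →L[ℂ] L) :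
    Th F S ε (z • x) = z • Th F S ε x := by
  unfold Th
  have e : (∑ b ∈ F, (adjoint (S b)) ∘L ((z • x) ∘L (S b))) =
      z • (∑ b ∈ F, (adjoint (S b)) ∘L (x ∘L (S b))) := by
    rw [Finset.smul_sum]
    refine Finset.sum_congr rfl fun b _ => ?_
    rw [smul_comp, comp_smul]
  rw [e, mul_smul_comm, smul_mul_assoc]

lemma Dat.exists_W (D : Dat ρ V Ω c) :
    ∃ W : (L2 Γ ℂ →L[ℂ] L2 Γ ℂ) →L[ℂ] BL A,
      (∀ a b, W 1 a b = inner ℂ (ρ (star a) Ω) (ρ b Ω)) ∧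
      (∀ g x a b, W (x * lam ℂ g) a b = W x a (b * c g)) ∧
      (∀ g x a b, W (lam ℂ g * x) a b = W x (c g * a) b) := by
  classical
  set 𝒰 : Ultrafilter (Finset A × ℕ) := Ultrafilter.of atTop with h𝒰
  have hle : (𝒰 : Filter (Finset A × ℕ)) ≤ atTop := Ultrafilter.of_le atTop
  have hlim0 : Tendsto (fun j : Finset A × ℕ => 1 / ((j.2 : ℝ) + 1)) atTop (𝓝 0) := by
    rw [← Filter.prod_atTop_atTop_eq]
    exact tendsto_one_div_add_atTop_nhds_zero_nat.comp tendsto_snd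
  obtain ⟨W, hW⟩ := exists_trilinear_lim 𝒰 D.fj
    (by
      intro j x a b
      refine (Th_bound j.1 D.S (by positivity) x _ _).trans ?_
      have h1 := D.vec_norm (star a)
      rw [norm_star] at h1
      have h2 := D.vec_norm b
      gcongr)
    (by
      intro j x y a b
      unfold Dat.fj
      rw [Th_add]
      exact inner_add_right _ _ _)
    (by
      intro j z x a b
      unfold Dat.fj
      rw [Th_smul]
      exact inner_smul_right _ _ _)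
    (by
      intro j x a a' b
      unfold Dat.fj
      rw [star_add, map_add]
      exact inner_add_left _ _ _)
    (by
      intro j z x a b
      unfold Dat.fj
      rw [star_smul, map_smul]
      change inner ℂ (star z • ρ (star a) Ω) _ = _
      rw [inner_smul_left, RCLike.star_def, RCLike.conj_conj])
    (by
      intro j x a b b'
      unfold Dat.fj
      rw [map_add]
      change inner ℂ _ ((Th j.1 D.S (1 / ((j.2 : ℝ) + 1)) x) (ρ b Ω + ρ b' Ω)) = _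
      rw [map_add, inner_add_right])
    (by
      intro j z x a b
      unfold Dat.fj
      rw [map_smul]
      change inner ℂ _ ((Th j.1 D.S (1 / ((j.2 : ℝ) + 1)) x) (z • ρ b Ω)) = _
      rw [map_smul, inner_smul_right])
  refine ⟨W, ?_, ?_, ?_⟩
  · intro a b
    refine tendsto_nhds_unique (hW 1 a b) ?_
    have h1 : Tendsto (fun j : Finset A × ℕ => √(1 / ((j.2 : ℝ) + 1)) * (‖a‖ *
        ‖(lp.single 2 (1 : Γ) (1 : ℂ) : L2 Γ ℂ)‖)) 𝒰 (𝓝 (√0 * (‖a‖ *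
        ‖(lp.single 2 (1 : Γ) (1 : ℂ) : L2 Γ ℂ)‖))) :=
      ((Real.continuous_sqrt.tendsto 0).comp (hlim0.mono_left hle)).mul_const _
    rw [Real.sqrt_zero, zero_mul] at h1
    rw [tendsto_iff_norm_sub_tendsto_zero]
    refine squeeze_zero' (Eventually.of_forall fun j => norm_nonneg _) ?_ h1
    have hev : ∀ᶠ j : Finset A × ℕ in (𝒰 : Filter (Finset A × ℕ)), b ∈ j.1 := by
      apply hle
      filter_upwards [eventually_ge_atTop (({b}, 0) : Finset A × ℕ)] with j hj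
      exact hj.1 (Finset.mem_singleton_self _)
    filter_upwards [hev] with j hj
    have hε : (0 : ℝ) < 1 / ((j.2 : ℝ) + 1) := by positivity
    have e : D.fj j 1 a b - inner ℂ (ρ (star a) Ω) (ρ b Ω)
        = - inner ℂ (ρ (star a) Ω) (kk j.1 D.S (1 / ((j.2 : ℝ) + 1)) (ρ b Ω)) := by
      unfold Dat.fj
      rw [Th_one j.1 D.S hε]
      change inner ℂ (ρ (star a) Ω) (ρ b Ω - kk j.1 D.S (1 / ((j.2 : ℝ) + 1)) (ρ b Ω)) - _ = _
      rw [inner_sub_right]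
      ring
    rw [e, norm_neg]
    refine (norm_inner_le_norm _ _).trans ?_
    have h2 := D.vec_norm (star a)
    rw [norm_star] at h2
    have h3 := kk_vec j.1 D.S hε b hj (lp.single 2 (1 : Γ) (1 : ℂ))
    rw [D.S_adj_one] at h3
    calc ‖ρ (star a) Ω‖ * ‖kk j.1 D.S (1 / ((j.2 : ℝ) + 1)) (ρ b Ω)‖
        ≤ ‖a‖ * (√(1 / ((j.2 : ℝ) + 1)) * ‖(lp.single 2 (1 : Γ) (1 : ℂ) : L2 Γ ℂ)‖) :=
          mul_le_mul h2 h3 (norm_nonneg _) (norm_nonneg _)
      _ = _ := by ring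
  · intro g x a b
    refine tendsto_nhds_unique (hW (x * lam ℂ g) a b) ?_
    refine (hW x a (b * c g)).congr fun j => ?_
    unfold Dat.fj
    rw [D.Th_right, map_mul ρ b (c g)]
    change inner ℂ _ (Th j.1 D.S (1 / ((j.2 : ℝ) + 1)) x (ρ b (ρ (c g) Ω))) =
      inner ℂ _ (Th j.1 D.S (1 / ((j.2 : ℝ) + 1)) x (V g (ρ b Ω)))
    have e : V g (ρ b Ω) = ρ b (V g Ω) := DFunLike.congr_fun (D.comm g b) Ω
    rw [e, D.VΩ]
  · intro g x a b
    refine tendsto_nhds_unique (hW (lam ℂ g * x) a b) ?_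
    refine (hW x (c g * a) b).congr fun j => ?_
    unfold Dat.fj
    rw [D.Th_left, star_mul, map_mul ρ (star a) (star (c g))]
    change inner ℂ (ρ (star a) (ρ (star (c g)) Ω)) _ =
      inner ℂ _ (V g (Th j.1 D.S (1 / ((j.2 : ℝ) + 1)) x (ρ b Ω)))
    rw [← D.VΩ']
    have e : ρ (star a) (V g⁻¹ Ω) = V g⁻¹ (ρ (star a) Ω) :=
      (DFunLike.congr_fun (D.comm g⁻¹ (star a)) Ω).symm
    rw [e, ← D.inner_V g (V g⁻¹ (ρ (star a) Ω)), D.V_mul_inv]

lemma lam_conj (g : Γ) (S : Set Γ) :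
    lam ℂ g * (pr ℂ S * lam ℂ g⁻¹) = pr ℂ ((fun h => g * h) '' S) := by
  classical
  ext ξ h
  change (pr ℂ S (lam ℂ g⁻¹ ξ)) (g⁻¹ * h) = pr ℂ ((fun h => g * h) '' S) ξ h
  rw [pr_apply, pr_apply]
  have hiff : h ∈ (fun h => g * h) '' S ↔ g⁻¹ * h ∈ S := by
    constructor
    · rintro ⟨y, hy, rfl⟩
      change g⁻¹ * (g * y) ∈ S
      rwa [inv_mul_cancel_left]
    · intro hy
      exact ⟨g⁻¹ * h, hy, mul_inv_cancel_left g h⟩
  by_cases hS : g⁻¹ * h ∈ S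
  · rw [if_pos hS, if_pos (hiff.2 hS), lam_apply, inv_inv, mul_inv_cancel_left]
  · rw [if_neg hS, if_neg (fun h1 => hS (hiff.1 h1))]

theorem Dat.amenable (D : Dat ρ V Ω c) (hA : IsApproxAmenable A) : Amenable Γ := by
  obtain ⟨W, hW1, hW2, hW3⟩ := D.exists_W
  have hWab : ∀ a b, W 1 a b = inner ℂ Ω (ρ (a * b) Ω) := by
    intro a b
    rw [hW1, rho_star, adjoint_inner_left, map_mul ρ a b]
    rfl
  obtain ⟨φ, hφ1, hφ2, hφ3⟩ := central_gen hA W (Set.range (lam ℂ : Γ → _))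
    (by
      rintro _ ⟨g, rfl⟩
      exact ⟨lam ℂ g⁻¹, lam_inv_mul g, opT_norm _ _ _, opT_norm _ _ _⟩)
    (by
      intro x y
      rw [hWab, hWab, one_mul])
    (by
      rw [hWab, mul_one, map_one]
      change inner ℂ Ω Ω ≠ 0
      apply inner_self_ne_zero.2
      intro h
      have := D.norm
      rw [h, norm_zero] at this
      exact zero_ne_one this)
    (by
      rintro _ ⟨g, rfl⟩
      refine ⟨c g, fun x => Or.inr ⟨?_, ?_⟩⟩
      · ext a b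
        rw [lB_apply, hW2]
      · ext a b
        rw [rB_apply, hW3])
  have hpr : ∀ S : Set Γ, 0 ≤ (φ (pr ℂ S)).re := by
    intro S
    have h1 : pr ℂ S + pr ℂ Sᶜ = 1 := by
      rw [← pr_union disjoint_compl_right, Set.union_compl_self, pr_univ]
    have h2 : φ (pr ℂ S) + φ (pr ℂ Sᶜ) = 1 := by rw [← map_add, h1, hφ2]
    have h3 : (φ (pr ℂ Sᶜ)).re ≤ 1 := by
      refine (Complex.re_le_norm _).trans ((φ.le_opNorm _).trans ?_)
      have h4 : ‖pr ℂ Sᶜ‖ ≤ 1 := opT_norm _ _ _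
      have := mul_le_mul hφ1 h4 (norm_nonneg _) zero_le_one
      linarith
    have h5 := congrArg Complex.re h2
    rw [Complex.add_re, Complex.one_re] at h5
    linarith
  refine ⟨fun S => (φ (pr ℂ S)).re, ?_, hpr, ?_, ?_⟩
  · change (φ (pr ℂ (Set.univ : Set Γ))).re = 1
    rw [pr_univ, hφ2, Complex.one_re]
  · intro S T hST
    change (φ (pr ℂ (S ∪ T))).re = (φ (pr ℂ S)).re + (φ (pr ℂ T)).re
    rw [pr_union hST, map_add, Complex.add_re]
  · intro g S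
    change (φ (pr ℂ ((fun h => g * h) '' S))).re = (φ (pr ℂ S)).re
    rw [← lam_conj, ← hφ3 (lam ℂ g) ⟨g, rfl⟩, mul_assoc, lam_inv_mul, mul_one]

end Data

end Pool.Agent.Helper239.HypB
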