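import Mathlib
import Pool.Agent.Helper239.HypB

set_option autoImplicit false
set_option maxSynthPendingDepth 3
open Filter Topology ContinuousLinearMap
open scoped ComplexOrder

namespace Pool.Agent.Helper239.HypC

open Pool.Agent.Helper239.Hyp Pool.Agent.Helper239.HypB UniformSpace

universe u v

lemma inv_coe' {A : Type u} [CStarAlgebra A] (U : unitary A) :
    ((U⁻¹ : unitary A) : A) = star (U : A) := by
  rw [← Unitary.star_eq_inv]
  rfl

section GNS

variable {A : Type u} [CStarAlgebra A] [PartialOrder A] [StarOrderedRing A] (f : A →ₚ[ℂ] ℂ)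
  {Γ : Type v} [Group Γ] (u : Γ →* unitary A)

/-- right multiplication by `u_g*` -/
noncomputable def R (hc : ∀ g a, f ((u g : A) * a) = f (a * (u g : A))) (g : Γ) :
    f.PreGNS →L[ℂ] f.PreGNS :=
  LinearMap.mkContinuous
    { toFun := fun x => f.toPreGNS (f.ofPreGNS x * star (u g : A))
      map_add' := by
        intro x y
        rw [map_add, add_mul, map_add]
      map_smul' := by
        intro z x
        rw [map_smul, smul_mul_assoc, map_smul]
        rfl } 1
    (by
      intro x
      rw [one_mul]
      refine le_of_eq ?_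
      rw [f.preGNS_norm_def, f.preGNS_norm_def]
      congr 2
      change (f (star (f.ofPreGNS x * star (u g : A)) * (f.ofPreGNS x * star (u g : A)))) = _
      rw [star_mul, star_star, mul_assoc, hc, mul_assoc, mul_assoc]
      rw [(Unitary.mem_iff.1 (u g).2).1, mul_one])

variable (hc : ∀ g a, f ((u g : A) * a) = f (a * (u g : A)))

lemma R_apply (g : Γ) (x : A) : R f u hc g (f.toPreGNS x) = f.toPreGNS (x * star (u g : A)) := rfl

lemma R_inner (g : Γ) (x y : f.PreGNS) :
    inner ℂ (R f u hc g x) (R f u hc g y) = inner ℂ x y := by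
  rw [f.preGNS_inner_def, f.preGNS_inner_def]
  change f (star (f.ofPreGNS x * star (u g : A)) * (f.ofPreGNS y * star (u g : A))) = _
  rw [star_mul, star_star, mul_assoc, hc, mul_assoc, mul_assoc,
    (Unitary.mem_iff.1 (u g).2).1, mul_one]

/-- its extension to the GNS space -/
noncomputable def VV (g : Γ) : f.GNS →L[ℂ] f.GNS := (R f u hc g).completion

lemma VV_coe (g : Γ) (x : f.PreGNS) : VV f u hc g (x : f.GNS) = (R f u hc g x : f.PreGNS) := by
  simp [VV]

/-- the cyclic vector -/
noncomputable def Om : f.GNS := ((f.toPreGNS 1 : f.PreGNS) : f.GNS)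

lemma rho_coe (a : A) (x : A) : f.gnsStarAlgHom a ((f.toPreGNS x : f.PreGNS) : f.GNS)
    = ((f.toPreGNS (a * x) : f.PreGNS) : f.GNS) := by
  simp

theorem dat (h1 : f 1 = 1) (h0 : ∀ g, g ≠ 1 → f (u g : A) = 0) :
    Dat f.gnsStarAlgHom (VV f u hc) (Om f) (fun g => star (u g : A)) where
  inner_V := by
    intro g α β
    induction α, β using Completion.induction_on₂ with
    | hp => apply isClosed_eq <;> fun_prop
    | ih x y =>
      rw [VV_coe, VV_coe, Completion.inner_coe, Completion.inner_coe, R_inner]
  V_one := by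
    ext α
    induction α using Completion.induction_on with
    | hp => apply isClosed_eq <;> fun_prop
    | ih x =>
      rw [VV_coe]
      change ((f.toPreGNS (f.ofPreGNS x * star ((u 1 : unitary A) : A)) : f.PreGNS) : f.GNS) = x
      rw [map_one, OneMemClass.coe_one, star_one, mul_one, f.toPreGNS_ofPreGNS]
  V_mul := by
    intro g h
    ext α
    induction α using Completion.induction_on with
    | hp => apply isClosed_eq <;> fun_prop
    | ih x =>
      change VV f u hc (g * h) x = VV f u hc g (VV f u hc h x)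
      rw [VV_coe, VV_coe, VV_coe]
      change ((f.toPreGNS (f.ofPreGNS x * star ((u (g * h) : unitary A) : A)) : f.PreGNS) : f.GNS)
        = ((f.toPreGNS (f.ofPreGNS x * star ((u h : unitary A) : A) *
          star ((u g : unitary A) : A)) : f.PreGNS) : f.GNS)
      rw [map_mul u g h, MulMemClass.coe_mul, star_mul, mul_assoc]
  comm := by
    intro g a
    ext α
    induction α using Completion.induction_on with
    | hp => apply isClosed_eq <;> fun_prop
    | ih x =>
      obtain ⟨x, rfl⟩ := f.toPreGNS.surjective x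
      change VV f u hc g (f.gnsStarAlgHom a _) = f.gnsStarAlgHom a (VV f u hc g _)
      rw [rho_coe, VV_coe, VV_coe, R_apply, R_apply, rho_coe, mul_assoc]
  VΩ := by
    intro g
    unfold Om
    rw [VV_coe, R_apply, rho_coe, one_mul, mul_one]
  VΩ' := by
    intro g
    unfold Om
    rw [VV_coe, R_apply, rho_coe, one_mul, mul_one, star_star, map_inv, inv_coe', star_star]
  orth := by
    intro g hg
    unfold Om
    rw [VV_coe, R_apply, Completion.inner_coe, f.preGNS_inner_def, f.ofPreGNS_toPreGNS,
      f.ofPreGNS_toPreGNS, star_one, one_mul, one_mul]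
    have h2 := h0 g⁻¹ (inv_ne_one.2 hg)
    rw [map_inv] at h2
    rwa [inv_coe'] at h2
  norm := by
    unfold Om
    rw [Completion.norm_coe, f.preGNS_norm_def, f.ofPreGNS_toPreGNS, star_one, mul_one, h1]
    simp

end GNS

section Main

variable {A : Type u} [CStarAlgebra A] {Γ : Type v} [Group Γ]

/-- If an approximately amenable unital C*-algebra has a state `ψ` and a group `Γ` of unitaries
`u_g` in the centraliser of `ψ` with `ψ(u_g) = 0` for `g ≠ 1`, then `Γ` is amenable. -/
theorem amenable_of_state (hA : IsApproxAmenable A) (u : Γ →* unitary A) (ψ : A →ₗ[ℂ] ℂ)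
    (h1 : ψ 1 = 1) (hpos : ∀ a, 0 ≤ (ψ (star a * a)).re ∧ (ψ (star a * a)).im = 0)
    (hc : ∀ g a, ψ ((u g : A) * a) = ψ (a * (u g : A)))
    (h0 : ∀ g, g ≠ 1 → ψ (u g : A) = 0) : Amenable Γ := by
  let _ : PartialOrder A := CStarAlgebra.spectralOrder A
  have _ : StarOrderedRing A := CStarAlgebra.spectralOrderedRing A
  let f : A →ₚ[ℂ] ℂ := PositiveLinearMap.mk₀ ψ (by
    intro a ha
    obtain ⟨b, rfl⟩ := CStarAlgebra.nonneg_iff_eq_star_mul_self.1 ha
    rw [Complex.nonneg_iff]
    exact ⟨(hpos b).1, (hpos b).2.symm⟩)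
  have hf : ∀ a, f a = ψ a := fun a => rfl
  exact (dat f u (fun g a => hc g a) h1 (fun g hg => h0 g hg)).amenable hA

end Main

end Pool.Agent.Helper239.HypC
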