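import Mathlib

open MeasureTheory Filter Topology
open scoped ENNReal TensorProduct

namespace Pool.Agent.Helper239.SegA

section Defs

variable {G : Type*} [Group G] [TopologicalSpace G] [IsTopologicalGroup G]
  [MeasurableSpace G] [BorelSpace G] (μ : Measure G) [μ.IsMulLeftInvariant]

/-- Left translation on `L¹(G)`: `(L_x f)(y) = f (x⁻¹ y)`. -/
noncomputable def lt (x : G) (f : Lp ℂ 1 μ) : Lp ℂ 1 μ :=
  Lp.compMeasurePreserving (fun y : G => x⁻¹ * y) (measurePreserving_mul_left μ x⁻¹) f

/-- Convolution on `L¹(G)`: `f * g = ∫ f(y) L_y g dμ(y)`, a Bochner integral in `L¹(G)`. -/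
noncomputable def conv (f g : Lp ℂ 1 μ) : Lp ℂ 1 μ :=
  ∫ y, (f y) • lt μ y g ∂μ

/-- `ι : A → L¹(G)` exhibits the Banach algebra `A` as a Segal algebra on `G`: `ι` is injective (so
`A` is a linear subspace of `L¹(G)` with its own norm), `A` is complete, `‖f‖₁ ≤ ‖f‖_A`, the product
of `A` is convolution, `A` is a dense left ideal, and left translation is isometric on `A` and
continuous in the `A`-norm. -/
structure IsSegalAlgebra (A : Type*) [NonUnitalNormedRing A] [NormedSpace ℂ A]
    (ι : A →ₗ[ℂ] Lp ℂ 1 μ) : Prop where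
  injective : Function.Injective ι
  complete : CompleteSpace A
  norm_le : ∀ a, ‖ι a‖ ≤ ‖a‖
  map_mul : ∀ a b, ι (a * b) = conv μ (ι a) (ι b)
  dense : DenseRange ι
  ideal : ∀ (f : Lp ℂ 1 μ) (a : A), conv μ f (ι a) ∈ Set.range ι
  translate : ∀ (x : G) (a : A), ∃ b : A, ι b = lt μ x (ι a) ∧ ‖b‖ = ‖a‖
  continuous_translate : ∀ (a : A) (T : G → A), (∀ x, ι (T x) = lt μ x (ι a)) → Continuous T

/-- Amenability of `G`, via the Haar measure `μ`: there is a left invariant finitely additive
probability measure on the Borel sets which vanishes on the `μ`-null sets (equivalently a left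
invariant mean on `L^∞(G)`). -/
def IsAmenable : Prop :=
  ∃ m : Set G → ℝ≥0∞, m Set.univ = 1 ∧
    (∀ s t, MeasurableSet s → MeasurableSet t → Disjoint s t → m (s ∪ t) = m s + m t) ∧
    (∀ s, μ s = 0 → m s = 0) ∧
    (∀ (x : G) (s : Set G), MeasurableSet s → m ((fun y => x * y) '' s) = m s)

end Defs

section PA

variable (A : Type*) [NonUnitalNormedRing A] [NormedSpace ℂ A] [IsScalarTower ℂ A A]
  [SMulCommClass ℂ A A]

/-- The completed projective tensor square (Mathlib puts the projective seminorm on
`PiTensorProduct`). -/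
abbrev ProjSq : Type _ := UniformSpace.Completion (⨂[ℂ] _ : Fin 2, A)

variable {A}

/-- `a · (b ⊗ c) = ab ⊗ c`. -/
noncomputable def leftAct (a : A) (u : ProjSq A) : ProjSq A :=
  UniformSpace.Completion.map
    (PiTensorProduct.mapL (𝕜 := ℂ) (E := fun _ : Fin 2 => A) (E' := fun _ : Fin 2 => A)
      ![ContinuousLinearMap.mul ℂ A a, ContinuousLinearMap.id ℂ A]) u

/-- `(b ⊗ c) · a = b ⊗ ca`. -/
noncomputable def rightAct (a : A) (u : ProjSq A) : ProjSq A :=
  UniformSpace.Completion.map
    (PiTensorProduct.mapL (𝕜 := ℂ) (E := fun _ : Fin 2 => A) (E' := fun _ : Fin 2 => A)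
      ![ContinuousLinearMap.id ℂ A, (ContinuousLinearMap.mul ℂ A).flip a]) u

/-- the product map as a continuous bilinear map -/
noncomputable def mulMulti (A : Type*) [NonUnitalNormedRing A] [NormedSpace ℂ A]
    [IsScalarTower ℂ A A] [SMulCommClass ℂ A A] :
    ContinuousMultilinearMap ℂ (fun _ : Fin 2 => A) A :=
  MultilinearMap.mkContinuous
    { toFun := fun m => m 0 * m 1
      map_update_add' := by
        intro _ m i x y
        fin_cases i <;> simp [add_mul, mul_add]
      map_update_smul' := by
        intro _ m i c x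
        fin_cases i <;> simp [smul_mul_assoc, mul_smul_comm] } 1
    (by
      intro m
      simp only [MultilinearMap.coe_mk, Fin.prod_univ_two, one_mul]
      exact norm_mul_le _ _)

/-- `π : A ⊗̂ A → A`, `a ⊗ b ↦ ab`. -/
noncomputable def piMap (u : ProjSq A) : A :=
  UniformSpace.Completion.extension
    (PiTensorProduct.liftIsometry ℂ (fun _ : Fin 2 => A) A (mulMulti A)) u

variable (A) in
/-- `A` is pseudo-amenable: there is a net `u` in `A ⊗̂ A` with `a·u - u·a → 0` and `π(u)a → a`
for all `a`. -/
def IsPseudoAmenable : Prop :=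
  ∃ (I : Type) (l : Filter I) (_ : l.NeBot) (u : I → ProjSq A),
    (∀ a : A, Tendsto (fun i => leftAct a (u i) - rightAct a (u i)) l (𝓝 0)) ∧
    (∀ a : A, Tendsto (fun i => piMap (u i) * a) l (𝓝 a))

theorem continuous_piMap [CompleteSpace A] : Continuous (piMap : ProjSq A → A) :=
  UniformSpace.Completion.continuous_extension

theorem continuous_leftAct (a : A) : Continuous (leftAct a) :=
  UniformSpace.Completion.continuous_map

theorem continuous_rightAct (a : A) : Continuous (rightAct a) :=
  UniformSpace.Completion.continuous_map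

theorem piMap_coe [CompleteSpace A] (u : ⨂[ℂ] _ : Fin 2, A) :
    piMap (u : ProjSq A) = PiTensorProduct.liftIsometry ℂ (fun _ : Fin 2 => A) A (mulMulti A) u :=
  UniformSpace.Completion.extension_coe
    (ContinuousLinearMap.uniformContinuous _) u

theorem leftAct_coe (a : A) (u : ⨂[ℂ] _ : Fin 2, A) :
    leftAct a (u : ProjSq A) = ((PiTensorProduct.mapL (𝕜 := ℂ) (E := fun _ : Fin 2 => A)
      (E' := fun _ : Fin 2 => A)
      ![ContinuousLinearMap.mul ℂ A a, ContinuousLinearMap.id ℂ A] u : ⨂[ℂ] _ : Fin 2, A) :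
        ProjSq A) :=
  UniformSpace.Completion.map_coe (ContinuousLinearMap.uniformContinuous _) u

theorem rightAct_coe (a : A) (u : ⨂[ℂ] _ : Fin 2, A) :
    rightAct a (u : ProjSq A) = ((PiTensorProduct.mapL (𝕜 := ℂ) (E := fun _ : Fin 2 => A)
      (E' := fun _ : Fin 2 => A)
      ![ContinuousLinearMap.id ℂ A, (ContinuousLinearMap.mul ℂ A).flip a] u :
        ⨂[ℂ] _ : Fin 2, A) : ProjSq A) :=
  UniformSpace.Completion.map_coe (ContinuousLinearMap.uniformContinuous _) u

theorem piMap_comm [CompleteSpace A] (a : A) (u : ProjSq A) :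
    piMap (leftAct a u - rightAct a u) = a * piMap u - piMap u * a := by
  induction u using UniformSpace.Completion.induction_on with
  | hp =>
    apply isClosed_eq
    · exact continuous_piMap.comp ((continuous_leftAct a).sub (continuous_rightAct a))
    · exact (continuous_const.mul continuous_piMap).sub (continuous_piMap.mul continuous_const)
  | ih u =>
    rw [leftAct_coe, rightAct_coe, ← UniformSpace.Completion.coe_sub, piMap_coe, piMap_coe]
    rw [map_sub]
    congr 1
    · induction u using PiTensorProduct.induction_on with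
      | smul_tprod r f => simp [mulMulti, mul_assoc, mul_smul_comm]
      | add x y hx hy => simp only [map_add, mul_add, hx, hy]
    · induction u using PiTensorProduct.induction_on with
      | smul_tprod r f => simp [mulMulti, mul_assoc, smul_mul_assoc]
      | add x y hx hy => simp only [map_add, add_mul, hx, hy]

/-- A pseudo-amenable Banach algebra has a right approximate identity. -/
theorem IsPseudoAmenable.right_approx [CompleteSpace A] (h : IsPseudoAmenable A) (a : A)
    {ε : ℝ} (hε : 0 < ε) : ∃ e : A, ‖a * e - a‖ < ε := by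
  obtain ⟨I, l, hl, u, h1, h2⟩ := h
  have h3 : Tendsto (fun i => piMap (leftAct a (u i) - rightAct a (u i))) l
      (𝓝 (piMap (0 : ProjSq A))) := (continuous_piMap.tendsto _).comp (h1 a)
  have h0 : piMap (0 : ProjSq A) = (0 : A) := by
    rw [← UniformSpace.Completion.coe_zero, piMap_coe, map_zero]
  rw [h0] at h3
  have h4 : Tendsto (fun i => a * piMap (u i)) l (𝓝 a) := by
    have := h3.add (h2 a)
    simp only [piMap_comm, zero_add, sub_add_cancel] at this
    exact this
  have h5 := (Metric.tendsto_nhds.1 h4) ε hε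
  obtain ⟨i, hi⟩ := h5.exists
  exact ⟨piMap (u i), by rwa [dist_eq_norm] at hi⟩

end PA

end Pool.Agent.Helper239.SegA
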