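import Mathlib
import Pool.Agent.Helper239.SegA

open MeasureTheory Filter Topology
open scoped ENNReal TensorProduct

namespace Pool.Agent.Helper239.SegB

/-- Underlying set `(ℤ → {±1}) × ℤ × ℤ`. -/
def GG : Type := (ℤ → ℤˣ) × ℤ × ℤ

instance : TopologicalSpace GG := inferInstanceAs (TopologicalSpace ((ℤ → ℤˣ) × ℤ × ℤ))
instance : T2Space GG := inferInstanceAs (T2Space ((ℤ → ℤˣ) × ℤ × ℤ))
instance : SecondCountableTopology GG :=
  inferInstanceAs (SecondCountableTopology ((ℤ → ℤˣ) × ℤ × ℤ))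
instance : LocallyCompactSpace GG := inferInstanceAs (LocallyCompactSpace ((ℤ → ℤˣ) × ℤ × ℤ))
instance : MeasurableSpace GG := borel GG
instance : BorelSpace GG := ⟨rfl⟩

namespace GG

/-- the three coordinates -/
def k (x : GG) : ℤ → ℤˣ := x.1
def n (x : GG) : ℤ := x.2.1
def a (x : GG) : ℤ := x.2.2
def mk (k : ℤ → ℤˣ) (n a : ℤ) : GG := (k, n, a)

@[simp] theorem k_mk (k : ℤ → ℤˣ) (n a : ℤ) : (mk k n a).k = k := rfl
@[simp] theorem n_mk (k : ℤ → ℤˣ) (n a : ℤ) : (mk k n a).n = n := rfl
@[simp] theorem a_mk (k : ℤ → ℤˣ) (n a : ℤ) : (mk k n a).a = a := rfl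

theorem ext' {x y : GG} (h1 : x.k = y.k) (h2 : x.n = y.n) (h3 : x.a = y.a) : x = y :=
  Prod.ext h1 (Prod.ext h2 h3)

theorem continuous_k : Continuous (k : GG → ℤ → ℤˣ) := continuous_fst
theorem continuous_n : Continuous (n : GG → ℤ) := continuous_fst.comp continuous_snd
theorem continuous_a : Continuous (a : GG → ℤ) := continuous_snd.comp continuous_snd
theorem continuous_mk : Continuous (fun p : (ℤ → ℤˣ) × ℤ × ℤ => mk p.1 p.2.1 p.2.2) :=
  continuous_id

end GG

open GG

instance : Mul GG := ⟨fun x y => GG.mk (fun i => x.k i * y.k (i - x.n)) (x.n + y.n) (x.a + y.a)⟩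
instance : One GG := ⟨GG.mk 1 0 0⟩
instance : Inv GG := ⟨fun x => GG.mk (fun i => (x.k (i + x.n))⁻¹) (-x.n) (-x.a)⟩

namespace GG
@[simp] theorem k_mul (x y : GG) (i : ℤ) : (x * y).k i = x.k i * y.k (i - x.n) := rfl
@[simp] theorem n_mul (x y : GG) : (x * y).n = x.n + y.n := rfl
@[simp] theorem a_mul (x y : GG) : (x * y).a = x.a + y.a := rfl
@[simp] theorem k_one : (1 : GG).k = 1 := rfl
@[simp] theorem n_one : (1 : GG).n = 0 := rfl
@[simp] theorem a_one : (1 : GG).a = 0 := rfl
@[simp] theorem k_inv (x : GG) (i : ℤ) : (x⁻¹).k i = (x.k (i + x.n))⁻¹ := rfl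
@[simp] theorem n_inv (x : GG) : (x⁻¹).n = -x.n := rfl
@[simp] theorem a_inv (x : GG) : (x⁻¹).a = -x.a := rfl
end GG

/-- The group `((∏_ℤ {±1}) ⋊ ℤ) × ℤ`. -/
instance : Group GG := Group.ofLeftAxioms
  (by
    intro x y z
    refine ext' (funext fun i => ?_) ?_ ?_
    · simp [mul_assoc, sub_sub]
    · simp [add_assoc]
    · simp [add_assoc])
  (by
    intro x
    refine ext' (funext fun i => ?_) ?_ ?_ <;> simp)
  (by
    intro x
    refine ext' (funext fun i => ?_) ?_ ?_ <;> simp)

theorem continuous_evalZ : Continuous (fun q : (ℤ → ℤˣ) × ℤ => q.1 q.2) :=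
  continuous_prod_of_discrete_right.2 fun b => continuous_apply b

instance : IsTopologicalGroup GG where
  continuous_mul := by
    change Continuous (fun p : GG × GG => GG.mk
      (fun i => p.1.k i * p.2.k (i - p.1.n)) (p.1.n + p.2.n) (p.1.a + p.2.a))
    refine continuous_mk.comp (Continuous.prodMk (continuous_pi fun i => ?_)
      (Continuous.prodMk ?_ ?_))
    · refine Continuous.mul ((continuous_apply i).comp (continuous_k.comp continuous_fst)) ?_
      exact continuous_evalZ.comp (Continuous.prodMk (continuous_k.comp continuous_snd)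
        (continuous_const.sub (continuous_n.comp continuous_fst)))
    · exact (continuous_n.comp continuous_fst).add (continuous_n.comp continuous_snd)
    · exact (continuous_a.comp continuous_fst).add (continuous_a.comp continuous_snd)
  continuous_inv := by
    change Continuous (fun p : GG => GG.mk (fun i => (p.k (i + p.n))⁻¹) (-p.n) (-p.a))
    refine continuous_mk.comp (Continuous.prodMk (continuous_pi fun i => ?_)
      (Continuous.prodMk ?_ ?_))
    · refine Continuous.inv ?_
      exact continuous_evalZ.comp (Continuous.prodMk continuous_k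
        (continuous_const.add continuous_n))
    · exact continuous_n.neg
    · exact continuous_a.neg

/-- Haar measure on `GG`. -/
noncomputable def mu : Measure GG := Measure.haar

instance : mu.IsHaarMeasure := inferInstanceAs (Measure.haar (G := GG)).IsHaarMeasure
instance : mu.Regular := inferInstanceAs (Measure.haar (G := GG)).Regular

/-- unimodular numbers `z j → 1`, `z j ≠ 1`. -/
noncomputable def z (j : ℕ) : ℂ := Complex.exp (((1 / ((j : ℝ) + 1) : ℝ) : ℂ) * Complex.I)

theorem norm_z (j : ℕ) : ‖z j‖ = 1 := Complex.norm_exp_ofReal_mul_I _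

theorem z_ne_zero (j : ℕ) : z j ≠ 0 := Complex.exp_ne_zero _

theorem norm_z_zpow (j : ℕ) (m : ℤ) : ‖z j ^ m‖ = 1 := by
  rw [norm_zpow, norm_z, one_zpow]

theorem z_ne_one (j : ℕ) : z j ≠ 1 := by
  intro h
  rw [z, Complex.exp_eq_one_iff] at h
  obtain ⟨n, hn⟩ := h
  have h1 : ((1 / ((j : ℝ) + 1) : ℝ) : ℂ) = (((n : ℝ) * (2 * Real.pi) : ℝ) : ℂ) := by
    have : ((1 / ((j : ℝ) + 1) : ℝ) : ℂ) * Complex.I =
        (((n : ℝ) * (2 * Real.pi) : ℝ) : ℂ) * Complex.I := by
      rw [hn]; push_cast; ring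
    exact mul_right_cancel₀ Complex.I_ne_zero this
  have h2 : (1 / ((j : ℝ) + 1) : ℝ) = (n : ℝ) * (2 * Real.pi) := Complex.ofReal_injective h1
  have hj : (0 : ℝ) < (j : ℝ) + 1 := by positivity
  have h3 : (0 : ℝ) < 1 / ((j : ℝ) + 1) := by positivity
  have h4 : (1 / ((j : ℝ) + 1) : ℝ) ≤ 1 := by
    rw [div_le_one hj]; have := Nat.cast_nonneg (α := ℝ) j; linarith
  have hpi := Real.pi_gt_three
  have hn0 : 0 < n := by
    by_contra hcon
    have : (n : ℝ) ≤ 0 := by exact_mod_cast not_lt.1 hcon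
    nlinarith
  have hn1 : (1 : ℝ) ≤ n := by exact_mod_cast hn0
  nlinarith

theorem tendsto_z : Tendsto z atTop (𝓝 1) := by
  have h1 : Tendsto (fun j : ℕ => (1 / ((j : ℝ) + 1) : ℝ)) atTop (𝓝 0) :=
    tendsto_one_div_add_atTop_nhds_zero_nat
  have h2 : Continuous (fun t : ℝ => Complex.exp ((t : ℂ) * Complex.I)) := by fun_prop
  have h3 := (h2.tendsto 0).comp h1
  simp only [Function.comp_def, Complex.ofReal_zero, zero_mul, Complex.exp_zero] at h3
  exact h3

/-- the discrete function behind `chi` -/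
noncomputable def chi0 (i : ℤ) (j : ℕ) (q : ℤ × ℤ × ℤˣ) : ℂ :=
  if q.1 = i - j then z j ^ q.2.1 * ((q.2.2 : ℤ) : ℂ) else 0

/-- matrix coefficients. -/
noncomputable def chi (i : ℤ) (j : ℕ) (x : GG) : ℂ :=
  if x.n = i - j then z j ^ x.a * ((x.k i : ℤ) : ℂ) else 0

theorem continuous_chi (i : ℤ) (j : ℕ) : Continuous (chi i j) := by
  have h : Continuous (chi0 i j) := continuous_of_discreteTopology
  exact h.comp (continuous_n.prodMk (continuous_a.prodMk ((continuous_apply i).comp continuous_k)))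

theorem norm_units (u : ℤˣ) : ‖((u : ℤ) : ℂ)‖ = 1 := by
  rcases Int.units_eq_one_or u with rfl | rfl <;> simp

theorem norm_chi_le (i : ℤ) (j : ℕ) (x : GG) : ‖chi i j x‖ ≤ 1 := by
  unfold chi
  split_ifs
  · rw [norm_mul, norm_z_zpow, norm_units, one_mul]
  · simp

/-- unimodular factor -/
noncomputable def uu (i : ℤ) (j : ℕ) (h : GG) : ℂ := z j ^ h.a * ((h.k i : ℤ) : ℂ)

theorem norm_uu (i : ℤ) (j : ℕ) (h : GG) : ‖uu i j h‖ = 1 := by
  rw [uu, norm_mul, norm_z_zpow, norm_units, one_mul]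

theorem chi_mul (i : ℤ) (j : ℕ) (h x : GG) :
    chi i j (h * x) = uu i j h * chi (i - h.n) j x := by
  unfold chi uu
  by_cases hx : x.n = i - h.n - j
  · have hx' : (h * x).n = i - j := by rw [n_mul]; omega
    rw [if_pos hx', if_pos hx, a_mul, k_mul, zpow_add₀ (z_ne_zero j)]
    push_cast
    ring
  · have hx' : ¬ (h * x).n = i - j := by rw [n_mul]; omega
    rw [if_neg hx', if_neg hx, mul_zero]

theorem integrable_mul_chi (i : ℤ) (j : ℕ) {f : GG → ℂ} (hf : Integrable f mu) :
    Integrable (fun x => f x * chi i j x) mu := by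
  refine hf.mul_bdd (c := 1) (continuous_chi i j).aestronglyMeasurable ?_
  exact Eventually.of_forall (norm_chi_le i j)

/-- the functionals `φ_ij(f) = ∫ f χ_ij`. -/
noncomputable def phi (i : ℤ) (j : ℕ) : Lp ℂ 1 mu →L[ℂ] ℂ :=
  LinearMap.mkContinuous
    { toFun := fun f => ∫ x, f x * chi i j x ∂mu
      map_add' := by
        intro f g
        rw [← integral_add (integrable_mul_chi i j (L1.integrable_coeFn f))
          (integrable_mul_chi i j (L1.integrable_coeFn g))]
        refine integral_congr_ae ?_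
        filter_upwards [Lp.coeFn_add f g] with x hx
        rw [hx, Pi.add_apply, add_mul]
      map_smul' := by
        intro c f
        simp only [RingHom.id_apply, smul_eq_mul]
        rw [← integral_const_mul]
        refine integral_congr_ae ?_
        filter_upwards [Lp.coeFn_smul c f] with x hx
        rw [hx, Pi.smul_apply, smul_eq_mul, mul_assoc] } 1
    (by
      intro f
      rw [one_mul, L1.norm_eq_integral_norm]
      refine norm_integral_le_of_norm_le (L1.integrable_coeFn f).norm ?_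
      refine Eventually.of_forall fun x => ?_
      calc ‖f x * chi i j x‖ = ‖f x‖ * ‖chi i j x‖ := norm_mul _ _
        _ ≤ ‖f x‖ * 1 := by gcongr; exact norm_chi_le i j x
        _ = ‖f x‖ := mul_one _)

theorem phi_apply (i : ℤ) (j : ℕ) (f : Lp ℂ 1 mu) : phi i j f = ∫ x, f x * chi i j x ∂mu := rfl

theorem norm_phi_le (i : ℤ) (j : ℕ) (f : Lp ℂ 1 mu) : ‖phi i j f‖ ≤ ‖f‖ := by
  have h := (phi i j).le_of_opNorm_le (LinearMap.mkContinuous_norm_le _ zero_le_one _) f
  simpa using h

open Pool.Agent.Helper239.SegA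

theorem phi_lt (i : ℤ) (j : ℕ) (h : GG) (f : Lp ℂ 1 mu) :
    phi i j (lt mu h f) = uu i j h * phi (i - h.n) j f := by
  rw [phi_apply, phi_apply, ← integral_const_mul]
  have h1 : (fun x => (lt mu h f : GG → ℂ) x * chi i j x) =ᵐ[mu]
      fun x => f (h⁻¹ * x) * chi i j x := by
    filter_upwards [Lp.coeFn_compMeasurePreserving f (measurePreserving_mul_left mu h⁻¹)] with x hx
    unfold lt
    rw [hx, Function.comp_apply]
  rw [integral_congr_ae h1]
  rw [← integral_mul_left_eq_self (fun x => f (h⁻¹ * x) * chi i j x) h]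
  refine integral_congr_ae (Eventually.of_forall fun x => ?_)
  simp only [inv_mul_cancel_left, chi_mul]
  ring

end Pool.Agent.Helper239.SegB
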