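import Mathlib
import Pool.Agent.Helper239.SegC

open MeasureTheory Filter Topology
open scoped ENNReal TensorProduct
open Pool.Agent.Helper239.SegA Pool.Agent.Helper239.SegB Pool.Agent.Helper239.SegB.GG
open Pool.Agent.Helper239.SegC

namespace Pool.Agent.Helper239.SegD

/-- the slice `n = -l`, `a = 0`. -/
def slice (l : ℤ) : Set GG := {x | x.n = -l ∧ x.a = 0}

theorem isOpen_slice (l : ℤ) : IsOpen (slice l) :=
  ((isOpen_discrete {(-l : ℤ)}).preimage continuous_n).inter
    ((isOpen_discrete {(0 : ℤ)}).preimage continuous_a)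

theorem isCompact_slice (l : ℤ) : IsCompact (slice l) := by
  have h : slice l = (fun k : ℤ → ℤˣ => GG.mk k (-l) 0) '' Set.univ := by
    ext x
    constructor
    · rintro ⟨h1, h2⟩
      exact ⟨x.k, trivial, GG.ext' rfl h1.symm h2.symm⟩
    · rintro ⟨k, -, rfl⟩
      exact ⟨rfl, rfl⟩
  rw [h]
  refine isCompact_univ.image ?_
  exact continuous_mk.comp (f := fun k : ℤ → ℤˣ => (k, ((-l : ℤ), (0 : ℤ))))
    (continuous_id.prodMk continuous_const)

/-- the measure of a slice -/
noncomputable def m0 : ℝ := (mu (slice 0)).toReal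

theorem measure_slice (l : ℤ) : mu (slice l) = mu (slice 0) := by
  have h : (fun y => GG.mk 1 (-l) 0 * y) ⁻¹' (slice l) = slice 0 := by
    ext x
    simp only [slice, Set.mem_preimage, Set.mem_ofPred_eq, n_mul, a_mul, n_mk, a_mk]
    constructor
    · rintro ⟨h1, h2⟩; exact ⟨by omega, by omega⟩
    · rintro ⟨h1, h2⟩; exact ⟨by omega, by omega⟩
  rw [← h, measure_preimage_mul]

theorem m0_pos : 0 < m0 := by
  refine ENNReal.toReal_pos ?_ (isCompact_slice 0).measure_lt_top.ne
  exact ((isOpen_slice 0).measure_pos mu ⟨1, by simp [slice]⟩).ne'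

/-- weights -/
noncomputable def wt (j : ℕ) : ℝ := 2 ^ j / (m0 * ‖1 - z j‖)

theorem wt_pos (j : ℕ) : 0 < wt j := by
  have h : 0 < ‖1 - z j‖ := norm_pos_iff.2 (sub_ne_zero.2 (z_ne_one j).symm)
  have := m0_pos
  unfold wt; positivity

/-- the extra gauge `N(f) = ∑_i sup_j c_j |φ_ij(f)|`. -/
noncomputable def N (f : Lp ℂ 1 mu) : ℝ≥0∞ :=
  ∑' i : ℤ, ⨆ j : ℕ, ENNReal.ofReal (wt j) * ‖phi i j f‖ₑ

theorem N_zero : N 0 = 0 := by simp [N]

theorem N_add (f g : Lp ℂ 1 mu) : N (f + g) ≤ N f + N g := by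
  unfold N
  rw [← ENNReal.tsum_add]
  refine ENNReal.tsum_le_tsum fun i => iSup_le fun j => ?_
  rw [map_add]
  calc ENNReal.ofReal (wt j) * ‖phi i j f + phi i j g‖ₑ
      ≤ ENNReal.ofReal (wt j) * (‖phi i j f‖ₑ + ‖phi i j g‖ₑ) := by
        gcongr; exact enorm_add_le _ _
    _ = ENNReal.ofReal (wt j) * ‖phi i j f‖ₑ + ENNReal.ofReal (wt j) * ‖phi i j g‖ₑ := mul_add _ _ _
    _ ≤ _ := add_le_add (le_iSup (fun j => ENNReal.ofReal (wt j) * ‖phi i j f‖ₑ) j)
        (le_iSup (fun j => ENNReal.ofReal (wt j) * ‖phi i j g‖ₑ) j)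

theorem N_smul (c : ℂ) (f : Lp ℂ 1 mu) : N (c • f) = ‖c‖ₑ * N f := by
  unfold N
  rw [← ENNReal.tsum_mul_left]
  congr 1
  ext i
  rw [ENNReal.mul_iSup]
  congr 1
  ext j
  rw [map_smul, smul_eq_mul, enorm_mul]
  ring

theorem N_lt (h : GG) (f : Lp ℂ 1 mu) : N (lt mu h f) = N f := by
  unfold N
  rw [← (Equiv.subRight h.n).tsum_eq (fun i => ⨆ j : ℕ, ENNReal.ofReal (wt j) * ‖phi i j f‖ₑ)]
  congr 1
  ext i
  congr 1
  ext j
  rw [phi_lt, enorm_mul]
  have : ‖uu i j h‖ₑ = 1 := by
    rw [← ofReal_norm, norm_uu, ENNReal.ofReal_one]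
  rw [this, one_mul]
  rfl

theorem isClosed_N_le (r : ℝ≥0∞) : IsClosed {f : Lp ℂ 1 mu | N f ≤ r} := by
  have h : LowerSemicontinuous N := by
    refine lowerSemicontinuous_tsum fun i => lowerSemicontinuous_iSup fun j => ?_
    refine Continuous.lowerSemicontinuous ?_
    exact (ENNReal.continuous_const_mul ENNReal.ofReal_ne_top).comp
      (continuous_enorm.comp (phi i j).continuous)
  exact h.isClosed_preimage r

/-- The subspace `S`. -/
noncomputable def Ssub : Submodule ℂ (Lp ℂ 1 mu) where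
  carrier := {f | N f ≠ ∞}
  add_mem' := by
    intro f g hf hg
    exact ne_top_of_le_ne_top (ENNReal.add_ne_top.2 ⟨hf, hg⟩) (N_add f g)
  zero_mem' := by
    change N 0 ≠ ∞
    rw [N_zero]; exact ENNReal.zero_ne_top
  smul_mem' := by
    intro c f hf
    change N (c • f) ≠ ∞
    rw [N_smul]
    exact ENNReal.mul_ne_top enorm_ne_top hf

/-- The Segal algebra as a type. -/
def SS : Type := Ssub

noncomputable instance : AddCommGroup SS := inferInstanceAs (AddCommGroup Ssub)
noncomputable instance : Module ℂ SS := inferInstanceAs (Module ℂ Ssub)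

/-- inclusion -/
noncomputable def inc : SS →ₗ[ℂ] Lp ℂ 1 mu := Ssub.subtype

theorem inc_injective : Function.Injective inc := Subtype.val_injective

theorem N_inc (s : SS) : N (inc s) ≠ ∞ := s.2

theorem exists_inc {f : Lp ℂ 1 mu} (h : N f ≠ ∞) : ∃ s : SS, inc s = f := ⟨⟨f, h⟩, rfl⟩

noncomputable instance : Norm SS := ⟨fun s => ‖inc s‖ + (N (inc s)).toReal⟩

theorem norm_def' (s : SS) : ‖s‖ = ‖inc s‖ + (N (inc s)).toReal := rfl

theorem core : NormedSpace.Core ℂ SS where
  norm_nonneg s := by rw [norm_def']; positivity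
  norm_smul c s := by
    rw [norm_def', norm_def', map_smul, norm_smul, N_smul, ENNReal.toReal_mul, toReal_enorm]
    ring
  norm_triangle s t := by
    rw [norm_def', norm_def', norm_def', map_add]
    have h1 := norm_add_le (inc s) (inc t)
    have h2 : (N (inc s + inc t)).toReal ≤ (N (inc s)).toReal + (N (inc t)).toReal := by
      rw [← ENNReal.toReal_add (N_inc s) (N_inc t)]
      exact ENNReal.toReal_mono (ENNReal.add_ne_top.2 ⟨N_inc s, N_inc t⟩) (N_add _ _)
    linarith
  norm_eq_zero_iff s := by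
    constructor
    · intro h
      rw [norm_def'] at h
      have h1 : ‖inc s‖ = 0 := by
        have := norm_nonneg (inc s)
        have := ENNReal.toReal_nonneg (a := N (inc s))
        linarith
      exact inc_injective (by rw [norm_eq_zero.1 h1, map_zero])
    · rintro rfl
      rw [norm_def', map_zero, N_zero]; simp

noncomputable instance : NormedAddCommGroup SS := NormedAddCommGroup.ofCore core
noncomputable instance : NormedSpace ℂ SS := NormedSpace.ofCore core

theorem norm_eq (s : SS) : ‖s‖ = ‖inc s‖ + (N (inc s)).toReal := rfl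

theorem norm_inc_le (s : SS) : ‖inc s‖ ≤ ‖s‖ := by
  rw [norm_eq]
  have := ENNReal.toReal_nonneg (a := N (inc s))
  linarith

/-- inclusion as a continuous linear map -/
noncomputable def incL : SS →L[ℂ] Lp ℂ 1 mu :=
  LinearMap.mkContinuous inc 1 (fun s => by rw [one_mul]; exact norm_inc_le s)

theorem incL_apply (s : SS) : incL s = inc s := rfl

instance : CompleteSpace SS := by
  refine Metric.complete_of_cauchySeq_tendsto fun u hu => ?_
  -- limit in L¹
  have h1 : CauchySeq (fun n => inc (u n)) := hu.map incL.uniformContinuous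
  obtain ⟨f, hf⟩ := cauchySeq_tendsto_of_complete h1
  -- N bound
  have h2 : ∀ ε > (0 : ℝ), ∃ n0, ∀ n ≥ n0, N (f - inc (u n)) ≤ ENNReal.ofReal ε := by
    intro ε hε
    obtain ⟨n0, hn0⟩ := Metric.cauchySeq_iff.1 hu ε hε
    refine ⟨n0, fun n hn => ?_⟩
    have hcl := isClosed_N_le (ENNReal.ofReal ε)
    have ht : Tendsto (fun m => inc (u m) - inc (u n)) atTop (𝓝 (f - inc (u n))) :=
      hf.sub_const _
    refine hcl.mem_of_tendsto ht ?_
    filter_upwards [eventually_ge_atTop n0] with m hm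
    have h3 := hn0 m hm n hn
    rw [dist_eq_norm, norm_eq, map_sub] at h3
    have h4 : (N (inc (u m) - inc (u n))).toReal ≤ ε := by
      have := norm_nonneg (inc (u m) - inc (u n))
      linarith
    have h5 : N (inc (u m) - inc (u n)) ≠ ∞ := by
      rw [← map_sub]; exact N_inc _
    change N (inc (u m) - inc (u n)) ≤ ENNReal.ofReal ε
    rw [← ENNReal.ofReal_toReal h5]
    exact ENNReal.ofReal_le_ofReal h4
  have h3 : N f ≠ ∞ := by
    obtain ⟨n0, hn0⟩ := h2 1 one_pos
    have h4 := hn0 n0 le_rfl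
    have h5 : f = (f - inc (u n0)) + inc (u n0) := by abel
    rw [h5]
    refine ne_top_of_le_ne_top ?_ (N_add _ _)
    exact ENNReal.add_ne_top.2 ⟨ne_top_of_le_ne_top ENNReal.ofReal_ne_top h4, N_inc _⟩
  obtain ⟨s, hs⟩ := exists_inc h3
  refine ⟨s, ?_⟩
  rw [Metric.tendsto_atTop]
  intro ε hε
  obtain ⟨n0, hn0⟩ := h2 (ε / 3) (by positivity)
  obtain ⟨n1, hn1⟩ := Metric.tendsto_atTop.1 hf (ε / 3) (by positivity)
  refine ⟨max n0 n1, fun n hn => ?_⟩
  have h4 := hn0 n (le_trans (le_max_left _ _) hn)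
  have h5 := hn1 n (le_trans (le_max_right _ _) hn)
  rw [dist_comm, dist_eq_norm, norm_eq, map_sub, hs]
  rw [dist_comm, dist_eq_norm] at h5
  have h6 : (N (f - inc (u n))).toReal ≤ ε / 3 :=
    ENNReal.toReal_le_of_le_ofReal (by positivity) h4
  linarith

end Pool.Agent.Helper239.SegD
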