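import Mathlib
import Pool.Agent.Helper239.SegD

open MeasureTheory Filter Topology
open scoped ENNReal TensorProduct
open Pool.Agent.Helper239.SegA Pool.Agent.Helper239.SegB Pool.Agent.Helper239.SegB.GG
open Pool.Agent.Helper239.SegC Pool.Agent.Helper239.SegD

namespace Pool.Agent.Helper239.SegE

/-- translation on `SS`. -/
noncomputable def T (h : GG) (s : SS) : SS :=
  ⟨lt mu h (inc s), by
    change N (lt mu h (inc s)) ≠ ∞
    rw [N_lt]; exact N_inc s⟩

theorem inc_T (h : GG) (s : SS) : inc (T h s) = lt mu h (inc s) := rfl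

theorem norm_T (h : GG) (s : SS) : ‖T h s‖ = ‖s‖ := by
  rw [norm_eq, norm_eq, inc_T, norm_lt, N_lt]

theorem T_add (h : GG) (s t : SS) : T h (s + t) = T h s + T h t :=
  inc_injective (by rw [inc_T, map_add, map_add, inc_T, inc_T, lt_add])

theorem T_sub (h : GG) (s t : SS) : T h (s - t) = T h s - T h t :=
  inc_injective (by rw [inc_T, map_sub, map_sub, inc_T, inc_T, lt_sub])

theorem T_smul (h : GG) (c : ℂ) (s : SS) : T h (c • s) = c • T h s :=
  inc_injective (by rw [inc_T, map_smul, map_smul, inc_T, lt_smul])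

theorem T_mul (g h : GG) (s : SS) : T (g * h) s = T g (T h s) :=
  inc_injective (by rw [inc_T, inc_T, inc_T, lt_mul])

theorem uu_eq_one {i : ℤ} {j : ℕ} {h : GG} (ha : h.a = 0) (hk : h.k i = 1) : uu i j h = 1 := by
  simp [uu, ha, hk]

theorem enorm_uu_sub_one_le (i : ℤ) (j : ℕ) (h : GG) : ‖uu i j h - 1‖ₑ ≤ 2 := by
  rw [← ofReal_norm]
  have h1 : ‖uu i j h - 1‖ ≤ 2 := by
    refine (norm_sub_le _ _).trans ?_
    rw [norm_uu, norm_one]; norm_num
  calc ENNReal.ofReal ‖uu i j h - 1‖ ≤ ENNReal.ofReal 2 := ENNReal.ofReal_le_ofReal h1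
    _ = 2 := by simp

/-- the gauge of `L_h f - f` is small for `h` close to `1`. -/
theorem eventually_N_lt_sub (f : Lp ℂ 1 mu) (hf : N f ≠ ∞) {ε : ℝ≥0∞} (hε : 0 < ε) :
    ∀ᶠ h in 𝓝 (1 : GG), N (lt mu h f - f) ≤ ε := by
  set b : ℤ → ℝ≥0∞ := fun i => ⨆ j : ℕ, ENNReal.ofReal (wt j) * ‖phi i j f‖ₑ with hb
  have hsum : ∑' i, b i ≠ ∞ := hf
  have h1 := ENNReal.tendsto_tsum_compl_atTop_zero hsum
  have hε2 : 0 < ε / 2 := ENNReal.half_pos hε.ne'
  obtain ⟨I, hI⟩ := ((tendsto_order.1 h1).2 (ε / 2) hε2).exists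
  have hn : ∀ᶠ h : GG in 𝓝 (1 : GG), h.n = 0 :=
    ((isOpen_discrete {(0 : ℤ)}).preimage continuous_n).mem_nhds (by simp)
  have ha : ∀ᶠ h : GG in 𝓝 (1 : GG), h.a = 0 :=
    ((isOpen_discrete {(0 : ℤ)}).preimage continuous_a).mem_nhds (by simp)
  have hk : ∀ᶠ h : GG in 𝓝 (1 : GG), ∀ i ∈ I, h.k i = 1 := by
    rw [eventually_all_finset]
    intro i _
    exact ((isOpen_discrete {(1 : ℤˣ)}).preimage
      ((continuous_apply i).comp continuous_k)).mem_nhds (by simp)
  filter_upwards [hn, ha, hk] with h hn ha hk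
  have key : ∀ i j, phi i j (lt mu h f - f) = (uu i j h - 1) * phi i j f := by
    intro i j
    rw [map_sub, phi_lt, hn, sub_zero]; ring
  have h2 : ∀ i, (⨆ j : ℕ, ENNReal.ofReal (wt j) * ‖phi i j (lt mu h f - f)‖ₑ) ≤
      if i ∈ I then 0 else 2 * b i := by
    intro i
    refine iSup_le fun j => ?_
    rw [key]
    split_ifs with hi
    · rw [uu_eq_one ha (hk i hi)]; simp
    · rw [enorm_mul]
      calc ENNReal.ofReal (wt j) * (‖uu i j h - 1‖ₑ * ‖phi i j f‖ₑ)
          ≤ ENNReal.ofReal (wt j) * (2 * ‖phi i j f‖ₑ) := by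
            gcongr; exact enorm_uu_sub_one_le i j h
        _ = 2 * (ENNReal.ofReal (wt j) * ‖phi i j f‖ₑ) := by ring
        _ ≤ 2 * b i := by
            gcongr
            exact le_iSup (fun j => ENNReal.ofReal (wt j) * ‖phi i j f‖ₑ) j
  calc N (lt mu h f - f) ≤ ∑' i, (if i ∈ I then 0 else 2 * b i) := ENNReal.tsum_le_tsum h2
    _ = ∑' i, 2 * (if i ∈ I then 0 else b i) := by
        congr 1; ext i; split_ifs <;> simp
    _ = 2 * ∑' i, (if i ∈ I then 0 else b i) := ENNReal.tsum_mul_left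
    _ = 2 * ∑' i : { x // x ∉ I }, b i := by
        congr 1
        have h3 := tsum_subtype {x : ℤ | x ∉ I} b
        refine Eq.trans ?_ h3.symm
        congr 1; ext i
        by_cases hi : i ∈ I <;> simp [hi]
    _ ≤ 2 * (ε / 2) := by gcongr
    _ = ε := ENNReal.mul_div_cancel two_ne_zero ENNReal.ofNat_ne_top

theorem tendsto_T_one (s : SS) : Tendsto (fun h : GG => T h s) (𝓝 1) (𝓝 s) := by
  rw [Metric.tendsto_nhds]
  intro ε hε
  have h1 : ∀ᶠ h in 𝓝 (1 : GG), N (lt mu h (inc s) - inc s) ≤ ENNReal.ofReal (ε / 3) :=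
    eventually_N_lt_sub _ (N_inc s) (by simpa using hε)
  have h2 : Tendsto (fun h : GG => lt mu h (inc s)) (𝓝 1) (𝓝 (inc s)) := by
    have := (continuous_lt (inc s)).tendsto 1
    rwa [lt_one] at this
  filter_upwards [h1, Metric.tendsto_nhds.1 h2 (ε / 3) (by positivity)] with h h3 h4
  rw [dist_eq_norm] at h4 ⊢
  rw [norm_eq, map_sub, inc_T]
  have h5 := ENNReal.toReal_le_of_le_ofReal (by positivity) h3
  linarith

theorem continuous_T (s : SS) : Continuous (fun h : GG => T h s) := by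
  rw [continuous_iff_continuousAt]
  intro x
  have h1 : Tendsto (fun h : GG => x⁻¹ * h) (𝓝 x) (𝓝 1) := by
    have := (continuous_const_mul x⁻¹).tendsto (x : GG)
    rwa [inv_mul_cancel] at this
  have h2 := (tendsto_T_one s).comp h1
  rw [Metric.tendsto_nhds] at h2
  unfold ContinuousAt
  rw [Metric.tendsto_nhds]
  intro ε hε
  filter_upwards [h2 ε hε] with h hh
  rw [Function.comp_apply, dist_eq_norm] at hh
  rw [dist_eq_norm]
  have : T h s - T x s = T x (T (x⁻¹ * h) s - s) := by
    rw [T_sub, ← T_mul, mul_inv_cancel_left]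
  rw [this, norm_T]
  exact hh

/-- the module action `f * s` -/
noncomputable def act (f : Lp ℂ 1 mu) (s : SS) : SS := ∫ y, f y • T y s ∂mu

theorem integrable_act (f : Lp ℂ 1 mu) (s : SS) : Integrable (fun y => f y • T y s) mu :=
  integrable_smul_cont f (continuous_T s) (C := ‖s‖) (fun y => (norm_T y s).le)

theorem inc_act (f : Lp ℂ 1 mu) (s : SS) : inc (act f s) = conv mu f (inc s) := by
  rw [← incL_apply]
  unfold act conv
  rw [← ContinuousLinearMap.integral_comp_comm _ (integrable_act f s)]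
  refine integral_congr_ae (Eventually.of_forall fun y => ?_)
  simp only [map_smul, incL_apply, inc_T]

theorem norm_act_le (f : Lp ℂ 1 mu) (s : SS) : ‖act f s‖ ≤ ‖f‖ * ‖s‖ :=
  norm_integral_smul_le f (fun y => (norm_T y s).le)

noncomputable instance : Mul SS := ⟨fun a b => act (inc a) b⟩

theorem inc_mul (a b : SS) : inc (a * b) = conv mu (inc a) (inc b) := inc_act (inc a) b

theorem norm_mul_le' (a b : SS) : ‖a * b‖ ≤ ‖a‖ * ‖b‖ :=
  (norm_act_le (inc a) b).trans (mul_le_mul_of_nonneg_right (norm_inc_le a) (norm_nonneg b))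

theorem conv_zero_left (f : Lp ℂ 1 mu) : conv mu 0 f = 0 := by
  have := conv_smul_left 0 (0 : Lp ℂ 1 mu) f
  simpa using this

theorem conv_zero_right (f : Lp ℂ 1 mu) : conv mu f 0 = 0 := by
  have := conv_smul_right 0 f (0 : Lp ℂ 1 mu)
  simpa using this

noncomputable instance : NonUnitalNormedRing SS :=
  { (inferInstance : NormedAddCommGroup SS), (inferInstance : Mul SS) with
    left_distrib := fun a b c => inc_injective (by
      rw [inc_mul, map_add, map_add, inc_mul, inc_mul, conv_add_right])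
    right_distrib := fun a b c => inc_injective (by
      rw [inc_mul, map_add, map_add, inc_mul, inc_mul, conv_add_left])
    zero_mul := fun a => inc_injective (by rw [inc_mul, map_zero, conv_zero_left])
    mul_zero := fun a => inc_injective (by rw [inc_mul, map_zero, conv_zero_right])
    mul_assoc := fun a b c => inc_injective (by
      rw [inc_mul, inc_mul, inc_mul, inc_mul, conv_assoc])
    norm_mul_le := norm_mul_le' }

instance : IsScalarTower ℂ SS SS := ⟨fun c a b => inc_injective (by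
  change inc ((c • a) * b) = inc (c • (a * b))
  rw [inc_mul, map_smul, map_smul, inc_mul, conv_smul_left])⟩

instance : SMulCommClass ℂ SS SS := ⟨fun c a b => inc_injective (by
  change inc (c • (a * b)) = inc (a * (c • b))
  rw [inc_mul, map_smul, map_smul, inc_mul, conv_smul_right])⟩

end Pool.Agent.Helper239.SegE
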