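import Mathlib
import Pool.Agent.Helper239.SegE

open MeasureTheory Filter Topology
open scoped ENNReal TensorProduct
open Pool.Agent.Helper239.SegA Pool.Agent.Helper239.SegB Pool.Agent.Helper239.SegB.GG
open Pool.Agent.Helper239.SegC Pool.Agent.Helper239.SegD Pool.Agent.Helper239.SegE

namespace Pool.Agent.Helper239.SegF

/-- basic open compact subgroups -/
def U (R : ℕ) : Set GG := {u | u.n = 0 ∧ u.a = 0 ∧ ∀ i : ℤ, |i| ≤ R → u.k i = 1}

theorem one_mem_U (R : ℕ) : (1 : GG) ∈ U R := ⟨rfl, rfl, fun _ _ => rfl⟩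

theorem mul_mem_U {R : ℕ} {x y : GG} (hx : x ∈ U R) (hy : y ∈ U R) : x * y ∈ U R := by
  obtain ⟨h1, h2, h3⟩ := hx
  obtain ⟨h4, h5, h6⟩ := hy
  refine ⟨by simp [h1, h4], by simp [h2, h5], fun i hi => ?_⟩
  rw [k_mul, h1, sub_zero, h3 i hi, h6 i hi, one_mul]

theorem isOpen_U (R : ℕ) : IsOpen (U R) := by
  have h : U R = ((n : GG → ℤ) ⁻¹' {0}) ∩ ((a : GG → ℤ) ⁻¹' {0}) ∩
      ⋂ i ∈ Finset.Icc (-(R:ℤ)) R, (fun x : GG => x.k i) ⁻¹' {1} := by
    ext x
    simp [U, abs_le, and_assoc]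
  rw [h]
  refine (((isOpen_discrete _).preimage continuous_n).inter
    ((isOpen_discrete _).preimage continuous_a)).inter ?_
  exact isOpen_biInter_finset fun i _ =>
    (isOpen_discrete _).preimage ((continuous_apply i).comp continuous_k)

theorem exists_U_subset {W : Set GG} (hW : IsOpen W) (h1 : (1 : GG) ∈ W) : ∃ R, U R ⊆ W := by
  have hW' : IsOpen {k : ℤ → ℤˣ | GG.mk k 0 0 ∈ W} :=
    hW.preimage (continuous_mk.comp (f := fun k : ℤ → ℤˣ => (k, ((0 : ℤ), (0 : ℤ))))
      (continuous_id.prodMk continuous_const))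
  rw [isOpen_pi_iff] at hW'
  obtain ⟨I, u, hu, hI⟩ := hW' 1 h1
  obtain ⟨R, hR⟩ : ∃ R : ℕ, ∀ i ∈ I, |i| ≤ R := by
    refine ⟨∑ i ∈ I, i.natAbs, fun i hi => ?_⟩
    have h2 := Finset.single_le_sum (f := fun i : ℤ => i.natAbs) (fun _ _ => Nat.zero_le _) hi
    have h3 : |i| = (i.natAbs : ℤ) := Int.abs_eq_natAbs i
    rw [h3]
    exact_mod_cast h2
  refine ⟨R, fun x hx => ?_⟩
  obtain ⟨h2, h3, h4⟩ := hx
  have h5 : x = GG.mk x.k 0 0 := GG.ext' rfl h2 h3
  rw [h5]
  apply hI
  intro i hi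
  rw [h4 i (hR i hi)]
  exact (hu i hi).2

/-- the largest right-`U R`-invariant subset of `O` -/
def OR (O : Set GG) (R : ℕ) : Set GG := {x | ∀ u ∈ U R, x * u ∈ O}

theorem OR_subset (O : Set GG) (R : ℕ) : OR O R ⊆ O := fun x hx => by
  simpa using hx 1 (one_mem_U R)

theorem mul_mem_OR {O : Set GG} {R : ℕ} {x u : GG} (hx : x ∈ OR O R) (hu : u ∈ U R) :
    x * u ∈ OR O R := fun v hv => by
  rw [mul_assoc]; exact hx _ (mul_mem_U hu hv)

theorem isOpen_OR (O : Set GG) (R : ℕ) : IsOpen (OR O R) := by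
  rw [isOpen_iff_mem_nhds]
  intro x hx
  have h1 : (fun y => x⁻¹ * y) ⁻¹' (U R) ∈ 𝓝 x := by
    refine ((isOpen_U R).preimage (continuous_const_mul x⁻¹)).mem_nhds ?_
    simp [one_mem_U]
  filter_upwards [h1] with y hy
  have := mul_mem_OR hx hy
  rwa [mul_inv_cancel_left] at this

theorem monotone_OR (O : Set GG) : Monotone (OR O) := by
  intro R S hRS x hx u hu
  refine hx u ⟨hu.1, hu.2.1, fun i hi => hu.2.2 i (hi.trans ?_)⟩
  exact_mod_cast hRS

theorem iUnion_OR {O : Set GG} (hO : IsOpen O) : ⋃ R, OR O R = O := by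
  refine subset_antisymm (Set.iUnion_subset (OR_subset O)) fun x hx => ?_
  obtain ⟨R, hR⟩ := exists_U_subset (hO.preimage (continuous_const_mul x)) (by simpa using hx)
  exact Set.mem_iUnion.2 ⟨R, fun u hu => hR hu⟩

/-- the involution flipping coordinate `j` -/
def flp (j : ℤ) : GG := GG.mk (Function.update 1 j (-1)) 0 0

theorem flp_mem_U {j : ℤ} {R : ℕ} (h : (R : ℤ) < |j|) : flp j ∈ U R := by
  refine ⟨rfl, rfl, fun i hi => ?_⟩
  have : i ≠ j := by rintro rfl; omega
  simp [flp, Function.update_of_ne this]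

theorem flp_mul_self (j : ℤ) : flp j * flp j = 1 := by
  refine GG.ext' (funext fun i => ?_) rfl rfl
  rw [k_mul]
  simp only [flp, n_mk, sub_zero, k_mk, k_one, Pi.one_apply]
  by_cases h : i = j
  · subst h; simp
  · simp [Function.update_of_ne h]

theorem chi_mul_flp (i : ℤ) (j : ℕ) (x : GG) : chi i j (x * flp j) = - chi i j x := by
  unfold chi
  have h1 : (x * flp j).n = x.n := by simp [flp]
  have h2 : (x * flp j).a = x.a := by simp [flp]
  rw [h1, h2]
  split_ifs with h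
  · have h3 : i - x.n = j := by omega
    rw [k_mul, h3]
    simp [flp]
  · simp

theorem map_mul_right_of_sq {u : GG} (hu : u * u = 1) :
    Measure.map (fun x => x * u) mu = mu := by
  rw [Measure.map_right_mul_eq_modularCharacterFun_smul]
  have h1 := Measure.modularCharacterFun_map_mul u u
  rw [hu, Measure.modularCharacterFun_map_one] at h1
  have h2 : Measure.modularCharacterFun u = 1 := by
    have h3 : (Measure.modularCharacterFun u) ^ 2 = 1 := by rw [sq, ← h1]
    exact (pow_eq_one_iff_of_nonneg (zero_le) two_ne_zero).1 h3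
  rw [h2, one_smul]

theorem integral_OR_chi (O : Set GG) (R : ℕ) (i : ℤ) (j : ℕ) (hj : R < j) :
    ∫ x in OR O R, chi i j x ∂mu = 0 := by
  have hO := (isOpen_OR O R).measurableSet
  rw [← integral_indicator hO]
  have hu : flp j * flp j = 1 := flp_mul_self j
  have hU : flp (j : ℤ) ∈ U R := flp_mem_U (by
    rw [Nat.abs_cast]; exact_mod_cast hj)
  have h1 : ∫ x, (OR O R).indicator (chi i j) x ∂mu =
      ∫ x, (OR O R).indicator (chi i j) (x * flp j) ∂mu := by
    conv_lhs => rw [← map_mul_right_of_sq hu]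
    refine integral_map (measurable_mul_const _).aemeasurable ?_
    exact ((continuous_chi i j).measurable.indicator hO).aestronglyMeasurable
  have h2 : ∀ x, (OR O R).indicator (chi i j) (x * flp j) =
      - (OR O R).indicator (chi i j) x := by
    intro x
    by_cases hx : x ∈ OR O R
    · rw [Set.indicator_of_mem hx, Set.indicator_of_mem (mul_mem_OR hx hU), chi_mul_flp]
    · have hx' : x * flp j ∉ OR O R := by
        intro h
        have := mul_mem_OR h hU
        rw [mul_assoc, hu, mul_one] at this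
        exact hx this
      rw [Set.indicator_of_notMem hx, Set.indicator_of_notMem hx', neg_zero]
  simp only [h2, integral_neg] at h1
  exact self_eq_neg.1 h1

theorem tsum_chi_le (j : ℕ) (x : GG) : ∑' i : ℤ, ‖chi i j x‖ₑ ≤ 1 := by
  have h : ∀ i : ℤ, i ≠ x.n + j → ‖chi i j x‖ₑ = 0 := by
    intro i hi
    unfold chi
    rw [if_neg (by omega), enorm_zero]
  rw [tsum_eq_single (x.n + j) h, ← ofReal_norm]
  exact ENNReal.ofReal_le_one.2 (norm_chi_le _ _ _)

theorem tsum_phi_ne_top (j : ℕ) (f : Lp ℂ 1 mu) : ∑' i : ℤ, ‖phi i j f‖ₑ ≠ ∞ := by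
  have h1 : ∑' i : ℤ, ‖phi i j f‖ₑ ≤ ∫⁻ x, ‖f x‖ₑ ∂mu := by
    calc ∑' i : ℤ, ‖phi i j f‖ₑ ≤ ∑' i : ℤ, ∫⁻ x, ‖f x * chi i j x‖ₑ ∂mu := by
          refine ENNReal.tsum_le_tsum fun i => ?_
          rw [phi_apply]
          exact enorm_integral_le_lintegral_enorm _
      _ = ∫⁻ x, ∑' i : ℤ, ‖f x * chi i j x‖ₑ ∂mu := by
          rw [lintegral_tsum]
          intro i
          exact (integrable_mul_chi i j (L1.integrable_coeFn f)).1.enorm
      _ ≤ ∫⁻ x, ‖f x‖ₑ ∂mu := by
          refine lintegral_mono fun x => ?_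
          simp only [enorm_mul]
          rw [ENNReal.tsum_mul_left]
          calc ‖f x‖ₑ * ∑' i : ℤ, ‖chi i j x‖ₑ ≤ ‖f x‖ₑ * 1 := by
                gcongr; exact tsum_chi_le j x
            _ = ‖f x‖ₑ := mul_one _
  exact ne_top_of_le_ne_top (L1.integrable_coeFn f).2.ne h1

theorem N_ne_top_of_finite {f : Lp ℂ 1 mu} {R : ℕ} (h : ∀ i j, R < j → phi i j f = 0) :
    N f ≠ ∞ := by
  have h1 : N f ≤ ∑ j ∈ Finset.range (R + 1), ENNReal.ofReal (wt j) * ∑' i : ℤ, ‖phi i j f‖ₑ := by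
    unfold N
    calc ∑' i : ℤ, ⨆ j : ℕ, ENNReal.ofReal (wt j) * ‖phi i j f‖ₑ
        ≤ ∑' i : ℤ, ∑ j ∈ Finset.range (R + 1), ENNReal.ofReal (wt j) * ‖phi i j f‖ₑ := by
          refine ENNReal.tsum_le_tsum fun i => iSup_le fun j => ?_
          by_cases hj : R < j
          · rw [h i j hj]; simp
          · exact Finset.single_le_sum
              (f := fun j => ENNReal.ofReal (wt j) * ‖phi i j f‖ₑ)
              (fun _ _ => zero_le) (Finset.mem_range.2 (by omega))
      _ = ∑ j ∈ Finset.range (R + 1), ∑' i : ℤ, ENNReal.ofReal (wt j) * ‖phi i j f‖ₑ :=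
          Summable.tsum_finsetSum (fun j _ => ENNReal.summable)
      _ = _ := by simp only [ENNReal.tsum_mul_left]
  refine ne_top_of_le_ne_top ?_ h1
  refine (ENNReal.sum_lt_top.2 fun j _ => ?_).ne
  exact ENNReal.mul_lt_top ENNReal.ofReal_lt_top (tsum_phi_ne_top j f).lt_top

theorem phi_indicator (i : ℤ) (j : ℕ) {s : Set GG} (hs : MeasurableSet s) (hμ : mu s ≠ ∞) :
    phi i j (indicatorConstLp 1 hs hμ (1 : ℂ)) = ∫ x in s, chi i j x ∂mu := by
  rw [phi_apply, ← integral_indicator hs]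
  refine integral_congr_ae ?_
  filter_upwards [indicatorConstLp_coeFn (p := 1) (hs := hs) (hμs := hμ) (c := (1 : ℂ))] with x hx
  rw [hx]
  by_cases h : x ∈ s
  · simp [h]
  · simp [h]

theorem N_OR (O : Set GG) (R : ℕ) (hμ : mu (OR O R) ≠ ∞) :
    N (indicatorConstLp 1 (isOpen_OR O R).measurableSet hμ (1 : ℂ)) ≠ ∞ := by
  refine N_ne_top_of_finite (R := R) fun i j hj => ?_
  rw [phi_indicator, integral_OR_chi O R i j hj]

theorem open_mem_closure {O : Set GG} (hO : IsOpen O) (hμ : mu O ≠ ∞) :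
    indicatorConstLp 1 hO.measurableSet hμ (1 : ℂ) ∈ Ssub.topologicalClosure := by
  have hμR : ∀ R, mu (OR O R) ≠ ∞ := fun R =>
    ne_top_of_le_ne_top hμ (measure_mono (OR_subset O R))
  have h1 : Tendsto (fun R => mu (symmDiff (OR O R) O)) atTop (𝓝 0) := by
    have h2 : ∀ R, symmDiff (OR O R) O = O \ OR O R := by
      intro R
      rw [Set.symmDiff_def, Set.sdiff_eq_empty.2 (OR_subset O R), Set.empty_union]
    simp only [h2]
    have h3 : Antitone (fun R => O \ OR O R) := fun R S h =>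
      Set.sdiff_subset_sdiff_right (monotone_OR O h)
    have h4 := tendsto_measure_iInter_atTop (μ := mu) (s := fun R => O \ OR O R)
      (fun R => (hO.measurableSet.diff (isOpen_OR O R).measurableSet).nullMeasurableSet) h3
      ⟨0, ne_top_of_le_ne_top hμ (measure_mono Set.sdiff_subset)⟩
    rw [← Set.sdiff_iUnion, iUnion_OR hO, Set.sdiff_self, measure_empty] at h4
    exact h4
  have h5 := tendsto_indicatorConstLp_set (p := 1) (c := (1 : ℂ)) (μ := mu) (l := atTop)
    (t := OR O) (s := O) (hs := hO.measurableSet) (hμs := hμ)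
    (ht := fun R => (isOpen_OR O R).measurableSet) (hμt := hμR) ENNReal.one_ne_top h1
  refine mem_closure_of_tendsto h5 (Eventually.of_forall fun R => ?_)
  exact N_OR O R (hμR R)

theorem measurable_mem_closure {s : Set GG} (hs : MeasurableSet s) (hμ : mu s ≠ ∞) :
    indicatorConstLp 1 hs hμ (1 : ℂ) ∈ Ssub.topologicalClosure := by
  have h0 : ∀ m : ℕ, ∃ O : Set GG, s ⊆ O ∧ IsOpen O ∧ mu O < ∞ ∧
      mu (O \ s) < ENNReal.ofReal (1 / ((m : ℝ) + 1)) := by
    intro m
    obtain ⟨O, h1, h2, h3, h4⟩ := hs.exists_isOpen_sdiff_lt hμ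
      (ε := ENNReal.ofReal (1 / ((m : ℝ) + 1)))
      (by rw [Ne, ENNReal.ofReal_eq_zero, not_le]; positivity)
    exact ⟨O, h1, h2, h3, h4⟩
  choose O h1 h2 h3 h4 using h0
  have h5 : Tendsto (fun m => mu (symmDiff (O m) s)) atTop (𝓝 0) := by
    have h6 : ∀ m, symmDiff (O m) s = O m \ s := by
      intro m
      rw [Set.symmDiff_def, Set.sdiff_eq_empty.2 (h1 m), Set.union_empty]
    simp only [h6]
    refine tendsto_of_tendsto_of_tendsto_of_le_of_le tendsto_const_nhds ?_
      (fun _ => zero_le) (fun m => (h4 m).le)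
    have h7 := ENNReal.tendsto_ofReal
      (tendsto_one_div_add_atTop_nhds_zero_nat (𝕜 := ℝ))
    rwa [ENNReal.ofReal_zero] at h7
  have h5 := tendsto_indicatorConstLp_set (p := 1) (c := (1 : ℂ)) (μ := mu) (l := atTop)
    (t := O) (s := s) (hs := hs) (hμs := hμ)
    (ht := fun m => (h2 m).measurableSet) (hμt := fun m => (h3 m).ne) ENNReal.one_ne_top h5
  exact (Submodule.isClosed_topologicalClosure Ssub).mem_of_tendsto h5
    (Eventually.of_forall fun m => open_mem_closure (h2 m) (h3 m).ne)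

theorem mem_closure (f : Lp ℂ 1 mu) : f ∈ Ssub.topologicalClosure := by
  refine Lp.induction ENNReal.one_ne_top (motive := fun f => f ∈ Ssub.topologicalClosure)
    ?_ ?_ ?_ f
  · intro c s hs hμ
    have h1 := measurable_mem_closure hs hμ.ne
    have h2 := Ssub.topologicalClosure.smul_mem c h1
    convert h2 using 1
    rw [Lp.simpleFunc.coe_indicatorConst]
    refine Lp.ext ?_
    filter_upwards [Lp.coeFn_smul c (indicatorConstLp 1 hs hμ.ne (1 : ℂ)),
      indicatorConstLp_coeFn (p := 1) (hs := hs) (hμs := hμ.ne) (c := (1 : ℂ)),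
      indicatorConstLp_coeFn (p := 1) (hs := hs) (hμs := hμ.ne) (c := c)] with x h3 h4 h5
    rw [h5, h3, Pi.smul_apply, h4]
    by_cases h : x ∈ s <;> simp [h]
  · intro f g hf hg _ h1 h2
    exact add_mem h1 h2
  · exact Submodule.isClosed_topologicalClosure Ssub

theorem denseRange_inc : DenseRange inc := by
  intro f
  have h := mem_closure f
  change f ∈ closure (Ssub : Set (Lp ℂ 1 mu)) at h
  convert h using 2
  ext g
  constructor
  · rintro ⟨s, rfl⟩; exact s.2
  · intro hg; exact ⟨⟨g, hg⟩, rfl⟩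

end Pool.Agent.Helper239.SegF
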