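import Mathlib
import Pool.Agent.Helper239.SegF

open MeasureTheory Filter Topology
open scoped ENNReal TensorProduct
open Pool.Agent.Helper239.SegA Pool.Agent.Helper239.SegB Pool.Agent.Helper239.SegB.GG
open Pool.Agent.Helper239.SegC Pool.Agent.Helper239.SegD Pool.Agent.Helper239.SegE
open Pool.Agent.Helper239.SegF

namespace Pool.Agent.Helper239.SegG

theorem isSegal : IsSegalAlgebra mu SS inc where
  injective := inc_injective
  complete := inferInstance
  norm_le := norm_inc_le
  map_mul := inc_mul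
  dense := denseRange_inc
  ideal := fun f s => ⟨act f s, inc_act f s⟩
  translate := fun x s => ⟨T x s, inc_T x s, norm_T x s⟩
  continuous_translate := by
    intro s T' hT'
    have h : T' = fun x => T x s := by
      funext x
      exact inc_injective (by rw [hT', inc_T])
    rw [h]
    exact continuous_T s

/-- `x ↦ k_0(x)` -/
noncomputable def w0 (x : GG) : ℂ := ((x.k 0 : ℤ) : ℂ)

theorem continuous_w0 : Continuous w0 := by
  have h : Continuous (fun u : ℤˣ => ((u : ℤ) : ℂ)) := continuous_of_discreteTopology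
  exact h.comp ((continuous_apply 0).comp continuous_k)

theorem norm_w0 (x : GG) : ‖w0 x‖ = 1 := norm_units _

theorem integrable_wfun (l : ℤ) : Integrable ((slice l).indicator w0) mu := by
  rw [integrable_indicator_iff (isOpen_slice l).measurableSet]
  exact continuous_w0.continuousOn.integrableOn_compact (isCompact_slice l)

/-- the functions `w_l` -/
noncomputable def w (l : ℤ) : Lp ℂ 1 mu := (integrable_wfun l).toL1 _

theorem norm_w (l : ℤ) : ‖w l‖ = m0 := by
  rw [L1.norm_eq_integral_norm]
  have h1 : ∫ x, ‖(w l : GG → ℂ) x‖ ∂mu = ∫ x, (slice l).indicator (fun _ => (1 : ℝ)) x ∂mu := by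
    refine integral_congr_ae ?_
    filter_upwards [(integrable_wfun l).coeFn_toL1] with x hx
    rw [w, hx]
    by_cases h : x ∈ slice l
    · simp [h, norm_w0]
    · simp [h]
  rw [h1, integral_indicator (isOpen_slice l).measurableSet]
  simp only [integral_const, smul_eq_mul, mul_one]
  rw [Measure.real, Measure.restrict_apply_univ, measure_slice]
  rfl

theorem phi_w (i : ℤ) (j : ℕ) (l : ℤ) :
    phi i j (w l) = ∫ x in slice l, w0 x * chi i j x ∂mu := by
  rw [phi_apply, ← integral_indicator (isOpen_slice l).measurableSet]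
  refine integral_congr_ae ?_
  filter_upwards [(integrable_wfun l).coeFn_toL1] with x hx
  rw [w, hx]
  by_cases h : x ∈ slice l
  · simp [h]
  · simp [h]

theorem units_mul_self (u : ℤˣ) : ((u : ℤ) : ℂ) * ((u : ℤ) : ℂ) = 1 := by
  rcases Int.units_eq_one_or u with rfl | rfl <;> simp

theorem phi_w_eq (i : ℤ) (j : ℕ) (l : ℤ) :
    phi i j (w l) = if i = 0 ∧ (j : ℤ) = l then (m0 : ℂ) else 0 := by
  rw [phi_w]
  have hm := (isOpen_slice l).measurableSet
  by_cases h1 : i - j = -l
  · by_cases h0 : i = 0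
    · have hj : (j : ℤ) = l := by omega
      rw [if_pos ⟨h0, hj⟩]
      have h2 : ∫ x in slice l, w0 x * chi i j x ∂mu = ∫ x in slice l, (1 : ℂ) ∂mu := by
        refine setIntegral_congr_fun hm fun x hx => ?_
        obtain ⟨h3, h4⟩ := hx
        simp only [chi, w0]
        rw [if_pos (by omega), h4, zpow_zero, one_mul, h0]
        exact units_mul_self _
      rw [h2]
      simp only [integral_const]
      rw [Measure.real, Measure.restrict_apply_univ, measure_slice]
      simp [m0]
    · rw [if_neg (fun h => h0 h.1)]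
      -- left translation by `flp i`
      rw [← integral_indicator hm]
      have h2 := integral_mul_left_eq_self (μ := mu)
        (fun x => (slice l).indicator (fun x => w0 x * chi i j x) x) (flp i)
      have h3 : ∀ x, (slice l).indicator (fun x => w0 x * chi i j x) (flp i * x) =
          - (slice l).indicator (fun x => w0 x * chi i j x) x := by
        intro x
        by_cases hx : x ∈ slice l
        · have hx' : flp i * x ∈ slice l := by
            refine ⟨?_, ?_⟩
            · rw [n_mul]; simpa [flp] using hx.1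
            · rw [a_mul]; simpa [flp] using hx.2
          rw [Set.indicator_of_mem hx, Set.indicator_of_mem hx']
          have h4 : w0 (flp i * x) = w0 x := by
            unfold w0
            rw [k_mul]
            simp [flp, Function.update_of_ne (Ne.symm h0)]
          have h5 : chi i j (flp i * x) = - chi i j x := by
            rw [chi_mul]
            simp [flp, uu]
          rw [h4, h5]; ring
        · have hx' : flp i * x ∉ slice l := by
            rintro ⟨h4, h5⟩
            refine hx ⟨?_, ?_⟩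
            · rw [n_mul] at h4; simpa [flp] using h4
            · rw [a_mul] at h5; simpa [flp] using h5
          rw [Set.indicator_of_notMem hx, Set.indicator_of_notMem hx', neg_zero]
      simp only [h3, integral_neg] at h2
      exact self_eq_neg.1 h2.symm
  · rw [if_neg (fun h => h1 (by omega))]
    rw [setIntegral_congr_fun (g := fun _ => (0 : ℂ)) hm, integral_zero]
    intro x hx
    obtain ⟨h3, h4⟩ := hx
    simp only [chi]
    rw [if_neg (by omega), mul_zero]

theorem summable_w : Summable (fun l : ℕ => ((1 / 2 : ℂ) ^ l) • w l) := by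
  refine Summable.of_norm_bounded (g := fun l : ℕ => (1 / 2 : ℝ) ^ l * m0)
    ((summable_geometric_of_lt_one (by norm_num) (by norm_num)).mul_right m0) fun l => ?_
  rw [norm_smul, norm_w, norm_pow]
  simp

/-- `V = ∑ 2^{-l} w_l`. -/
noncomputable def V : Lp ℂ 1 mu := ∑' l : ℕ, ((1 / 2 : ℂ) ^ l) • w l

theorem phi_V (i : ℤ) (j : ℕ) : phi i j V = if i = 0 then (1 / 2 : ℂ) ^ j * m0 else 0 := by
  unfold V
  rw [ContinuousLinearMap.map_tsum _ summable_w]
  rw [tsum_eq_single j]
  · rw [map_smul, phi_w_eq]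
    by_cases h : i = 0 <;> simp [h]
  · intro l hl
    rw [map_smul, phi_w_eq, if_neg (fun h => hl (by exact_mod_cast h.2.symm)), smul_zero]

/-- the central element -/
def hh : GG := GG.mk 1 0 1

theorem uu_hh (i : ℤ) (j : ℕ) : uu i j hh = z j := by simp [uu, hh]

theorem phi_lt_hh (i : ℤ) (j : ℕ) (f : Lp ℂ 1 mu) : phi i j (lt mu hh f) = z j * phi i j f := by
  rw [phi_lt, uu_hh]
  simp [hh]

theorem wt_mul (j : ℕ) : wt j * (‖1 - z j‖ * ((1 / 2 : ℝ) ^ j * m0)) = 1 := by
  have h1 : ‖1 - z j‖ ≠ 0 := (norm_pos_iff.2 (sub_ne_zero.2 (z_ne_one j).symm)).ne'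
  have h2 := m0_pos.ne'
  unfold wt
  field_simp
  rw [one_div, ← mul_pow]; norm_num

theorem norm_phi_V (j : ℕ) : ‖phi 0 j V‖ = (1 / 2 : ℝ) ^ j * m0 := by
  rw [phi_V, if_pos rfl, norm_mul, norm_pow]
  have : ‖(m0 : ℂ)‖ = m0 := by rw [Complex.norm_real, Real.norm_of_nonneg m0_pos.le]
  rw [this]
  simp

theorem N_fV : N (V - lt mu hh V) ≠ ∞ := by
  have key : ∀ i j, phi i j (V - lt mu hh V) = (1 - z j) * phi i j V := by
    intro i j
    rw [map_sub, phi_lt_hh]; ring
  have h1 : N (V - lt mu hh V) ≤ 1 := by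
    unfold N
    rw [tsum_eq_single 0]
    · refine iSup_le fun j => ?_
      rw [key, ← ofReal_norm, norm_mul, norm_phi_V, ← ENNReal.ofReal_mul (wt_pos j).le, wt_mul]
      simp
    · intro i hi
      simp [key, phi_V, hi]
  exact ne_top_of_le_ne_top ENNReal.one_ne_top h1

theorem le_norm (s : SS) (i : ℤ) (j : ℕ) : wt j * ‖phi i j (inc s)‖ ≤ ‖s‖ := by
  have h1 : ENNReal.ofReal (wt j) * ‖phi i j (inc s)‖ₑ ≤ N (inc s) :=
    (le_iSup (fun j => ENNReal.ofReal (wt j) * ‖phi i j (inc s)‖ₑ) j).trans
      (ENNReal.le_tsum i)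
  have h2 := ENNReal.toReal_mono (N_inc s) h1
  rw [ENNReal.toReal_mul, toReal_enorm, ENNReal.toReal_ofReal (wt_pos j).le] at h2
  rw [norm_eq]
  have := norm_nonneg (inc s)
  linarith

theorem conv_sub_left (f g h : Lp ℂ 1 mu) : conv mu (f - g) h = conv mu f h - conv mu g h := by
  rw [← convR_apply, ← convR_apply, ← convR_apply, map_sub]

theorem main_bound (s e : SS) (hs : inc s = V - lt mu hh V) : 1 ≤ ‖s * e - s‖ := by
  have h1 : ∀ j : ℕ, 1 ≤ ‖s * e - s‖ + ‖1 - z j‖ * ‖act V e‖ := by
    intro j
    have h2 := le_norm (s * e - s) 0 j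
    have h3 := le_norm (act V e) 0 j
    rw [inc_act] at h3
    have h4 : phi 0 j (inc (s * e - s)) =
        (1 - z j) * phi 0 j (conv mu V (inc e)) - (1 - z j) * phi 0 j V := by
      rw [map_sub, inc_mul, hs, conv_sub_left, ← lt_conv, map_sub, map_sub, map_sub, phi_lt_hh,
        phi_lt_hh]
      ring
    have h5 : ‖(1 - z j) * phi 0 j V‖ ≤ ‖phi 0 j (inc (s * e - s))‖ +
        ‖(1 - z j) * phi 0 j (conv mu V (inc e))‖ := by
      rw [h4, ← norm_neg ((1 - z j) * phi 0 j (conv mu V (inc e)) - (1 - z j) * phi 0 j V)]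
      refine le_trans (le_of_eq ?_) (norm_add_le _ _)
      congr 1; ring
    rw [norm_mul, norm_mul, norm_phi_V] at h5
    have h6 := mul_le_mul_of_nonneg_left h5 (wt_pos j).le
    rw [wt_mul] at h6
    calc (1 : ℝ) ≤ _ := h6
      _ = wt j * ‖phi 0 j (inc (s * e - s))‖ +
          ‖1 - z j‖ * (wt j * ‖phi 0 j (conv mu V (inc e))‖) := by ring
      _ ≤ _ := by gcongr
  have h2 : Tendsto (fun j : ℕ => ‖s * e - s‖ + ‖1 - z j‖ * ‖act V e‖) atTop
      (𝓝 (‖s * e - s‖ + ‖(1 : ℂ) - 1‖ * ‖act V e‖)) :=
    tendsto_const_nhds.add (((tendsto_const_nhds.sub tendsto_z).norm).mul_const _)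
  have h3 := ge_of_tendsto' h2 h1
  simpa using h3

theorem not_pseudoAmenable : ¬ IsPseudoAmenable SS := by
  intro h
  obtain ⟨s, hs⟩ := exists_inc N_fV
  obtain ⟨e, he⟩ := h.right_approx s (ε := 1) one_pos
  exact absurd he (not_lt.2 (main_bound s e hs))

end Pool.Agent.Helper239.SegG
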