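import Mathlib
import Pool.Agent.Helper239.SegG

open MeasureTheory Filter Topology
open scoped ENNReal TensorProduct
open Pool.Agent.Helper239.SegA Pool.Agent.Helper239.SegB Pool.Agent.Helper239.SegB.GG
open Pool.Agent.Helper239.SegC Pool.Agent.Helper239.SegD Pool.Agent.Helper239.SegE
open Pool.Agent.Helper239.SegF Pool.Agent.Helper239.SegG

namespace Pool.Agent.Helper239.SegH

/-- projection to the two integer coordinates -/
def P (x : GG) : ℤ × ℤ := (x.n, x.a)

theorem continuous_P : Continuous P := continuous_n.prodMk continuous_a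

theorem measurableSet_P (S : Set (ℤ × ℤ)) : MeasurableSet (P ⁻¹' S) :=
  ((isOpen_discrete S).preimage continuous_P).measurableSet

theorem measure_P_singleton (p : ℤ × ℤ) : mu (P ⁻¹' {p}) = mu (slice 0) := by
  have h : (fun y => GG.mk 1 p.1 p.2 * y) ⁻¹' (P ⁻¹' {p}) = slice 0 := by
    ext x
    simp only [slice, Set.mem_preimage, Set.mem_ofPred_eq, P, n_mul, a_mul, n_mk, a_mk,
      Set.mem_singleton_iff, Prod.ext_iff]
    constructor
    · rintro ⟨h1, h2⟩; exact ⟨by omega, by omega⟩
    · rintro ⟨h1, h2⟩; exact ⟨by omega, by omega⟩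
  rw [← h, measure_preimage_mul]

theorem measure_P (S : Finset (ℤ × ℤ)) : mu (P ⁻¹' (S : Set (ℤ × ℤ))) = S.card * mu (slice 0) := by
  have h : P ⁻¹' (S : Set (ℤ × ℤ)) = ⋃ p ∈ S, P ⁻¹' {p} := by
    ext x; simp
  rw [h, measure_biUnion_finset]
  · simp only [measure_P_singleton, Finset.sum_const, nsmul_eq_mul]
  · intro p _ q _ hpq
    refine Disjoint.preimage _ ?_
    simpa using hpq
  · intro p _
    exact measurableSet_P _

/-- boxes -/
noncomputable def B (N : ℕ) : Finset (ℤ × ℤ) := Finset.Icc (-(N : ℤ)) N ×ˢ Finset.Icc (-(N : ℤ)) N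

theorem mem_B {N : ℕ} {p : ℤ × ℤ} : p ∈ B N ↔ |p.1| ≤ N ∧ |p.2| ≤ N := by
  simp [B, abs_le]

theorem card_B (N : ℕ) : (B N).card = (2 * N + 1) ^ 2 := by
  unfold B
  rw [Finset.card_product, Int.card_Icc, sq]
  congr 1 <;> omega

theorem B_mono {M N : ℕ} (h : M ≤ N) : B M ⊆ B N := by
  intro p hp
  rw [mem_B] at hp ⊢
  have : (M : ℤ) ≤ N := by exact_mod_cast h
  exact ⟨hp.1.trans this, hp.2.trans this⟩

/-- the Følner sets -/
def F (N : ℕ) : Set GG := P ⁻¹' (B N : Set (ℤ × ℤ))

theorem mem_F {N : ℕ} {x : GG} : x ∈ F N ↔ |x.n| ≤ N ∧ |x.a| ≤ N := by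
  simp [F, P, mem_B]

theorem measure_F (N : ℕ) : mu (F N) = ((2 * N + 1) ^ 2 : ℕ) * mu (slice 0) := by
  rw [F, measure_P, card_B]

theorem slice_ne_zero : mu (slice 0) ≠ 0 :=
  ((isOpen_slice 0).measure_pos mu ⟨1, by simp [slice]⟩).ne'

theorem slice_ne_top : mu (slice 0) ≠ ∞ := (isCompact_slice 0).measure_lt_top.ne

open scoped Pointwise in
theorem symmDiff_subset (g : GG) (c N : ℕ) (hc1 : |g.n| ≤ c) (hc2 : |g.a| ≤ c) (hN : c ≤ N) :
    symmDiff (g • F N) (F N) ⊆ P ⁻¹' ((B (N + c) \ B (N - c) : Finset (ℤ × ℤ)) : Set (ℤ × ℤ)) := by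
  intro x hx
  have h1 : x ∈ g • F N ↔ |x.n - g.n| ≤ N ∧ |x.a - g.a| ≤ N := by
    rw [Set.mem_smul_set_iff_inv_smul_mem, smul_eq_mul, mem_F, n_mul, a_mul, n_inv, a_inv]
    rw [neg_add_eq_sub, neg_add_eq_sub]
  rw [Set.mem_symmDiff, h1, mem_F] at hx
  simp only [Set.mem_preimage, Finset.coe_sdiff, Set.mem_sdiff, Finset.mem_coe, mem_B, P]
  rw [Nat.cast_add, Nat.cast_sub hN]
  simp only [abs_le] at *
  omega

open scoped Pointwise in
theorem isFoelner : IsFoelner GG mu atTop F where
  eventually_measurableSet := Eventually.of_forall fun N => measurableSet_P _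
  eventually_meas_ne_zero := Eventually.of_forall fun N => by
    rw [measure_F]
    refine mul_ne_zero ?_ slice_ne_zero
    have : (0 : ℕ) < (2 * N + 1) ^ 2 := by positivity
    exact_mod_cast this.ne'
  eventually_meas_ne_top := Eventually.of_forall fun N => by
    rw [measure_F]
    exact ENNReal.mul_ne_top (ENNReal.natCast_ne_top _) slice_ne_top
  tendsto_meas_smul_symmDiff g := by
    obtain ⟨c, hc1, hc2⟩ : ∃ c : ℕ, |g.n| ≤ c ∧ |g.a| ≤ c :=
      ⟨g.n.natAbs + g.a.natAbs, by rw [Int.abs_eq_natAbs]; omega,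
        by rw [Int.abs_eq_natAbs]; omega⟩
    have h1 : ∀ᶠ N : ℕ in atTop, mu (symmDiff (g • F N) (F N)) / mu (F N) ≤
        ENNReal.ofReal (8 * c / (2 * N + 1)) := by
      filter_upwards [eventually_ge_atTop c] with N hN
      calc mu (symmDiff (g • F N) (F N)) / mu (F N)
          ≤ mu (P ⁻¹' ((B (N + c) \ B (N - c) : Finset (ℤ × ℤ)) : Set (ℤ × ℤ))) / mu (F N) := by
            gcongr
            exact symmDiff_subset g c N hc1 hc2 hN
        _ = ((8 * c * (2 * N + 1) : ℕ) * mu (slice 0)) /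
              (((2 * N + 1) ^ 2 : ℕ) * mu (slice 0)) := by
            rw [measure_P, measure_F, Finset.card_sdiff_of_subset (B_mono (by omega)), card_B,
              card_B]
            congr 3
            obtain ⟨d, rfl⟩ := Nat.exists_eq_add_of_le hN
            rw [Nat.add_sub_cancel_left]
            zify
            rw [Nat.cast_sub]
            · push_cast; ring
            · gcongr; omega
        _ = ((8 * c * (2 * N + 1) : ℕ) : ℝ≥0∞) / (((2 * N + 1) ^ 2 : ℕ) : ℝ≥0∞) :=
            ENNReal.mul_div_mul_right _ _ slice_ne_zero slice_ne_top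
        _ = ENNReal.ofReal (((8 * c * (2 * N + 1) : ℕ) : ℝ) / (((2 * N + 1) ^ 2 : ℕ) : ℝ)) := by
            rw [ENNReal.ofReal_div_of_pos (by positivity), ENNReal.ofReal_natCast,
              ENNReal.ofReal_natCast]
        _ = ENNReal.ofReal (8 * c / (2 * N + 1)) := by
            congr 1
            push_cast
            field_simp
        _ ≤ _ := le_rfl
    have h2 : Tendsto (fun N : ℕ => ENNReal.ofReal (8 * c / (2 * N + 1))) atTop (𝓝 0) := by
      have h3 : Tendsto (fun N : ℕ => (8 * c / (2 * N + 1) : ℝ)) atTop (𝓝 0) := by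
        refine Tendsto.div_atTop tendsto_const_nhds ?_
        refine tendsto_atTop_add_const_right _ _ ?_
        exact (tendsto_natCast_atTop_atTop).const_mul_atTop (by norm_num)
      have h4 := ENNReal.tendsto_ofReal h3
      rwa [ENNReal.ofReal_zero] at h4
    exact tendsto_of_tendsto_of_tendsto_of_le_of_le' tendsto_const_nhds h2
      (Eventually.of_forall fun _ => zero_le) h1

theorem isAmenable : IsAmenable mu := by
  have hF := isFoelner.mono (Ultrafilter.of_le (atTop : Filter ℕ))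
  refine ⟨IsFoelner.mean mu (Ultrafilter.of atTop) F, hF.mean_univ_eq_one, ?_, ?_, ?_⟩
  · intro s t _ ht hd
    exact hF.mean_union_eq_add_of_disjoint s t ht hd
  · intro s hs
    refine tendsto_nhds_unique (hF.tendsto_nhds_mean s) ?_
    have h : ∀ i, mu (s ∩ F i) / mu (F i) = 0 := by
      intro i
      rw [measure_mono_null Set.inter_subset_left hs, ENNReal.zero_div]
    simp only [h]
    exact tendsto_const_nhds
  · intro x s _
    exact hF.mean_smul_eq_mean x s

end Pool.Agent.Helper239.SegH
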